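import Pool.Agent.Helper85.DQ.XiReg
import Pool.Agent.Helper85.LG.Mu

/-!
The size of `ξ(1/2 + w)`: exact up to `t^ε` for `Re w ≥ 3/4`, and an upper bound for `|Re w| ≤ 1/2 - s`.
-/

set_option autoImplicit false
set_option maxHeartbeats 1000000

open Complex Filter Topology Set

namespace Pool.Agent.Helper85.DQ

open Pool.Agent.Helper85.LG Pool.Agent.H306R2

/-- the size of the gamma factor at height `t` -/
noncomputable def MM (t : ℝ) : ℝ := ‖Fx ((1 : ℝ) + t * I)‖ * Real.exp (-(1 / 2 * Real.log t))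

lemma MM_mul (t : ℝ) : ‖Fx ((1 : ℝ) + t * I)‖ = MM t * Real.exp (1 / 2 * Real.log t) := by
  unfold MM
  rw [mul_assoc, ← Real.exp_add]
  simp

/-- sizes to the right -/
theorem right_size {ε : ℝ} (hε : 0 < ε) {Y H : ℝ} (hY : 1 ≤ Y) (hH : 0 ≤ H) : ∃ T : ℝ, 1 ≤ T ∧ ∀ (t : ℝ) (w : ℂ),
    T ≤ t → 3 / 4 ≤ w.re → w.re ≤ Y → |w.im - t| ≤ H →
    ‖Fx w‖ ≤ MM t * Real.exp ((1 / 2 * Real.log t) * w.re + ε * (1 / 2 * Real.log t)) ∧
      MM t * Real.exp ((1 / 2 * Real.log t) * w.re - ε * (1 / 2 * Real.log t)) ≤ ‖Fx w‖ := by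
  obtain ⟨T, hT1, hT⟩ := xi_reg (y0 := 3 / 4) (by norm_num) (reg_abs (by norm_num)) (ε := ε / (Y + H + 1))
    (by positivity) Y H
  refine ⟨T, hT1, fun t w ht h1 h2 h3 => ?_⟩
  have hlog : 0 ≤ Real.log t := Real.log_nonneg (hT1.trans ht)
  set L : ℝ := 1 / 2 * Real.log t with hL
  have hL0 : 0 ≤ L := by positivity
  have hreg : ∀ w : ℂ, 3 / 4 ≤ w.re → w.re ≤ Y → |w.im - t| ≤ H → Fx w ≠ 0 ∧
      ‖logDeriv Fx w - L‖ ≤ ε / (Y + H + 1) * L := fun w a b c => (hT t w ht a b c).2.2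
  have hw : 3 / 4 ≤ w.re ∧ w.re ≤ Y ∧ |w.im - t| ≤ H := ⟨h1, h2, h3⟩
  have h1' : 3 / 4 ≤ (((1 : ℝ) : ℂ) + t * I).re ∧ (((1 : ℝ) : ℂ) + t * I).re ≤ Y ∧
      |(((1 : ℝ) : ℂ) + t * I).im - t| ≤ H := by
    refine ⟨?_, ?_, ?_⟩
    · simp; norm_num
    · simp; exact hY
    · simp; exact hH
  have hdist : ‖w - (((1 : ℝ) : ℂ) + t * I)‖ ≤ Y + H + 1 := by
    refine (Complex.norm_le_abs_re_add_abs_im _).trans ?_
    have e1 : (w - (((1 : ℝ) : ℂ) + t * I)).re = w.re - 1 := by simp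
    have e2 : (w - (((1 : ℝ) : ℂ) + t * I)).im = w.im - t := by simp
    rw [e1, e2]
    have : |w.re - 1| ≤ Y := by rw [abs_le]; constructor <;> linarith
    linarith
  have hb : ε / (Y + H + 1) * L * ‖w - (((1 : ℝ) : ℂ) + t * I)‖ ≤ ε * L := by
    calc ε / (Y + H + 1) * L * ‖w - (((1 : ℝ) : ℂ) + t * I)‖ ≤ ε / (Y + H + 1) * L * (Y + H + 1) := by gcongr
      _ = _ := by field_simp
  have g1 := grow Fx_diff hreg h1' hw
  have g2 := grow Fx_diff hreg hw h1'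
  rw [MM_mul] at g1 g2
  have e1 : w.re - (((1 : ℝ) : ℂ) + t * I).re = w.re - 1 := by simp
  have e2 : (((1 : ℝ) : ℂ) + t * I).re - w.re = 1 - w.re := by simp
  have hM0 : 0 ≤ MM t := by unfold MM; positivity
  constructor
  · refine g1.trans ?_
    rw [e1, mul_assoc, ← Real.exp_add]
    refine mul_le_mul_of_nonneg_left (Real.exp_le_exp.2 ?_) hM0
    linarith
  · rw [e2, norm_sub_rev] at g2
    have h5 : MM t * Real.exp (L * w.re - ε * L) =
        MM t * Real.exp L * Real.exp (L * (w.re - 1) - ε * L) := by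
      rw [mul_assoc (MM t) (Real.exp L), ← Real.exp_add]
      congr 2
      ring
    rw [h5]
    calc MM t * Real.exp L * Real.exp (L * (w.re - 1) - ε * L)
        ≤ (‖Fx w‖ * Real.exp (L * (1 - w.re) + ε / (Y + H + 1) * L * ‖w - (((1 : ℝ) : ℂ) + t * I)‖)) *
          Real.exp (L * (w.re - 1) - ε * L) := by gcongr
      _ ≤ ‖Fx w‖ * 1 := by
          rw [mul_assoc, ← Real.exp_add]
          apply mul_le_mul_of_nonneg_left _ (norm_nonneg _)
          rw [Real.exp_le_one_iff]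
          linarith
      _ = _ := mul_one _

/-- the maximum principle in a rectangle with a Gaussian factor -/
lemma gauss_strip {F : ℂ → ℂ} (hF : Differentiable ℂ F) {r H t V K : ℝ} (hr : 0 < r) (hH : 1 ≤ H)
    (hV : 0 ≤ V) (hK : 0 ≤ K)
    (hside : ∀ w : ℂ, |w.re| = r → |w.im - t| ≤ H → ‖F w‖ ≤ V)
    (htop : ∀ w : ℂ, |w.re| ≤ r → |w.im - t| = H → ‖F w‖ ≤ V * Real.exp K) :
    ∀ w : ℂ, |w.re| ≤ r → |w.im - t| ≤ 1 → ‖F w‖ ≤ V * Real.exp (K / H ^ 2 * (r ^ 2 + 1)) := by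
  intro w hw1 hw2
  set lam : ℝ := K / H ^ 2 with hlam
  have hlam0 : 0 ≤ lam := by positivity
  set f : ℂ → ℂ := fun z => F z * cexp (lam * (z - t * I) ^ 2) with hf
  have hfd : Differentiable ℂ f := hF.mul (by fun_prop)
  have hfn : ∀ z : ℂ, ‖f z‖ = ‖F z‖ * Real.exp (lam * (z.re ^ 2 - (z.im - t) ^ 2)) := by
    intro z
    rw [hf]
    simp only
    rw [norm_mul, Complex.norm_exp]
    congr 2
    simp [pow_two]
  set U : Set ℂ := Ioo (-r) r ×ℂ Ioo (t - H) (t + H) with hU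
  have hUb : Bornology.IsBounded U :=
    (Metric.isBounded_Ioo (-r) r).reProdIm (Metric.isBounded_Ioo (t - H) (t + H))
  have hfr : ∀ z ∈ frontier U, ‖f z‖ ≤ V * Real.exp (lam * r ^ 2) := by
    intro z hz
    rw [hU, Complex.frontier_reProdIm, closure_Ioo (by linarith), closure_Ioo (by linarith),
      frontier_Ioo (by linarith), frontier_Ioo (by linarith)] at hz
    rw [hfn]
    rcases hz with hz | hz
    · rw [Complex.mem_reProdIm] at hz
      obtain ⟨h1, h2⟩ := hz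
      have h3 : |z.re| ≤ r := abs_le.2 h1
      have h4 : |z.im - t| = H := by
        rcases h2 with h2 | h2
        · rw [h2]; simp; linarith
        · rw [mem_singleton_iff] at h2; rw [h2]; simp; linarith
      have h5 := htop z h3 h4
      have h6 : z.re ^ 2 ≤ r ^ 2 := by rw [← sq_abs]; gcongr
      have h7 : (z.im - t) ^ 2 = H ^ 2 := by rw [← sq_abs, h4]
      calc ‖F z‖ * Real.exp (lam * (z.re ^ 2 - (z.im - t) ^ 2))
          ≤ V * Real.exp K * Real.exp (lam * (r ^ 2 - H ^ 2)) := by rw [h7]; gcongr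
        _ = V * Real.exp (lam * r ^ 2) := by
            rw [mul_assoc, ← Real.exp_add]
            congr 2
            rw [hlam]
            field_simp
            ring
    · rw [Complex.mem_reProdIm] at hz
      obtain ⟨h1, h2⟩ := hz
      have h3 : |z.re| = r := by
        rcases h1 with h1 | h1
        · rw [h1, abs_neg, abs_of_pos hr]
        · rw [mem_singleton_iff] at h1; rw [h1, abs_of_pos hr]
      have h4 : |z.im - t| ≤ H := by
        rw [abs_le]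
        constructor <;> linarith [h2.1, h2.2]
      have h5 := hside z h3 h4
      have h6 : z.re ^ 2 = r ^ 2 := by rw [← sq_abs, h3]
      have h7 : lam * (z.re ^ 2 - (z.im - t) ^ 2) ≤ lam * r ^ 2 := by
        rw [h6]
        gcongr
        linarith [sq_nonneg (z.im - t)]
      gcongr
  have hcl : w ∈ closure U := by
    rw [hU, Complex.closure_reProdIm, closure_Ioo (by linarith), closure_Ioo (by linarith), Complex.mem_reProdIm]
    rw [abs_le] at hw2
    exact ⟨abs_le.1 hw1, by constructor <;> linarith [hw2.1, hw2.2]⟩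
  have h := Complex.norm_le_of_forall_mem_frontier_norm_le hUb hfd.diffContOnCl hfr hcl
  rw [hfn] at h
  have h2 : 0 ≤ w.re ^ 2 := sq_nonneg _
  have h3 : (w.im - t) ^ 2 ≤ 1 := by rw [← sq_abs]; nlinarith [abs_nonneg (w.im - t)]
  calc ‖F w‖ = ‖F w‖ * Real.exp (lam * (w.re ^ 2 - (w.im - t) ^ 2)) *
        Real.exp (-(lam * (w.re ^ 2 - (w.im - t) ^ 2))) := by
        rw [mul_assoc, ← Real.exp_add]; simp
    _ ≤ V * Real.exp (lam * r ^ 2) * Real.exp (-(lam * (w.re ^ 2 - (w.im - t) ^ 2))) := by gcongr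
    _ = V * Real.exp (lam * r ^ 2 - lam * (w.re ^ 2 - (w.im - t) ^ 2)) := by
        rw [mul_assoc, ← Real.exp_add]; rfl
    _ ≤ _ := by
        refine mul_le_mul_of_nonneg_left (Real.exp_le_exp.2 ?_) hV
        nlinarith

/-- the upper bound in the strip `|Re w| ≤ 1/2 - s` -/
theorem xi_strip : ∀ ε > 0, ∃ s0 > 0, ∀ s : ℝ, 0 < s → s < s0 → ∃ T : ℝ, 1 ≤ T ∧ ∀ (t : ℝ) (w : ℂ), T ≤ t →
    |w.re| ≤ 1 / 2 - s → |w.im - t| ≤ 1 →
    ‖Fx w‖ ≤ MM t * Real.exp ((1 / 2 - s + ε * s) * (1 / 2 * Real.log t)) := by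
  intro ε hε
  obtain ⟨s1, hs1, hmu⟩ := mu_small (ε / 4) (by positivity)
  refine ⟨min s1 (1 / 4), by positivity, fun s hs hss => ?_⟩
  have hss1 : s < s1 := lt_of_lt_of_le hss (min_le_left _ _)
  have hs4 : s < 1 / 4 := lt_of_lt_of_le hss (min_le_right _ _)
  obtain ⟨D, hD0, hD⟩ := hmu s hs hss1
  obtain ⟨A, hA1, hA⟩ := zeta_two_sided (σ := 3 / 2) (by norm_num)
  obtain ⟨C, hC1, hC⟩ := ld_Pg
  set r : ℝ := 1 / 2 - s with hr
  have hr0 : 0 < r := by linarith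
  set H : ℝ := 32 / (ε * s) * 2 + 1 with hH
  have hεs : 0 < ε * s := by positivity
  have hH1 : 1 ≤ H := by rw [hH]; have : 0 < 32 / (ε * s) * 2 := by positivity
                         linarith
  obtain ⟨T1, hT1, hPg⟩ := hC 2 H
  obtain ⟨T2, hT2, hcr⟩ := xi_crude (y0 := 3 / 4) (ρ1 := 1) (by norm_num) (reg_abs (by norm_num)) (by norm_num)
    (Y := 1) (by norm_num) le_rfl H
  set B : ℝ := A * (D + 1) * 2 * 2 ^ (ε / 4 * s) * Real.exp (C * (1 + H)) with hB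
  have hB1 : 0 < B := by positivity
  have hev : ∀ᶠ t : ℝ in atTop, Real.log B ≤ ε * s / 4 * (1 / 2 * Real.log t) := by
    have h1 : Tendsto (fun t : ℝ => ε * s / 4 * (1 / 2 * Real.log t)) atTop atTop :=
      (Real.tendsto_log_atTop.const_mul_atTop (by norm_num : (0 : ℝ) < 1 / 2)).const_mul_atTop (by positivity)
    exact h1.eventually_ge_atTop _
  obtain ⟨T3, hT3⟩ := eventually_atTop.1 hev
  refine ⟨max (max T1 T2) (max T3 (H + 2)), hT1.trans ((le_max_left _ _).trans (le_max_left _ _)),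
    fun t w hT hw1 hw2 => ?_⟩
  have ht1 : T1 ≤ t := ((le_max_left _ _).trans (le_max_left _ _)).trans hT
  have ht2 : T2 ≤ t := ((le_max_right _ _).trans (le_max_left _ _)).trans hT
  have ht3 : T3 ≤ t := ((le_max_left _ _).trans (le_max_right _ _)).trans hT
  have ht4 : H + 2 ≤ t := ((le_max_right _ _).trans (le_max_right _ _)).trans hT
  have ht0 : 0 < t := by linarith
  have hlog : 0 ≤ Real.log t := Real.log_nonneg (by linarith)
  set L : ℝ := 1 / 2 * Real.log t with hL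
  have hL0 : 0 ≤ L := by positivity
  have hexpL : Real.exp (2 * L) = t := by
    rw [hL, show 2 * (1 / 2 * Real.log t) = Real.log t by ring, Real.exp_log ht0]
  have hBL : B ≤ Real.exp (ε * s / 4 * L) := by
    rw [← Real.log_le_iff_le_exp hB1]
    exact hT3 t ht3
  have hM0 : 0 ≤ MM t := by unfold MM; positivity
  -- the gamma factor at `1 + it`
  have hre1 : (1 / 2 + (((1 : ℝ) : ℂ) + t * I) : ℂ).re = 3 / 2 := by simp; norm_num
  have hP1 : ‖Pg (1 / 2 + (((1 : ℝ) : ℂ) + t * I))‖ * t ≤ A * (MM t * Real.exp L) := by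
    have hne1 : (1 / 2 + (((1 : ℝ) : ℂ) + t * I) : ℂ) ≠ 1 := by
      intro h0
      have := congrArg re h0
      rw [hre1] at this
      norm_num at this
    have a0 : ‖Fx ((1 : ℝ) + t * I)‖ = ‖Zt (1 / 2 + (((1 : ℝ) : ℂ) + t * I))‖ *
        ‖Pg (1 / 2 + (((1 : ℝ) : ℂ) + t * I))‖ := by
      unfold Fx
      rw [xi_eq (by rw [hre1]; norm_num), norm_mul]
    have a1 := (hA (1 / 2 + (((1 : ℝ) : ℂ) + t * I)) (by rw [hre1])).2
    have a2 : t ≤ ‖(1 / 2 + (((1 : ℝ) : ℂ) + t * I) - 1 : ℂ)‖ := by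
      have := Complex.abs_im_le_norm (1 / 2 + (((1 : ℝ) : ℂ) + t * I) - 1 : ℂ)
      have e : (1 / 2 + (((1 : ℝ) : ℂ) + t * I) - 1 : ℂ).im = t := by simp
      rw [e, abs_of_pos ht0] at this
      exact this
    have a3 : ‖Zt (1 / 2 + (((1 : ℝ) : ℂ) + t * I))‖ =
        ‖(1 / 2 + (((1 : ℝ) : ℂ) + t * I) - 1 : ℂ)‖ * ‖riemannZeta (1 / 2 + (((1 : ℝ) : ℂ) + t * I))‖ := by
      rw [← Pool.Agent.H306R2.zeta_eq_pos (by rw [hre1]; norm_num) hne1, norm_mul]
    rw [← MM_mul, a0, a3]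
    have hzn := norm_nonneg (riemannZeta (1 / 2 + (((1 : ℝ) : ℂ) + t * I)))
    have hpn := norm_nonneg (Pg (1 / 2 + (((1 : ℝ) : ℂ) + t * I)))
    calc ‖Pg (1 / 2 + (((1 : ℝ) : ℂ) + t * I))‖ * t
        ≤ ‖Pg (1 / 2 + (((1 : ℝ) : ℂ) + t * I))‖ * ‖(1 / 2 + (((1 : ℝ) : ℂ) + t * I) - 1 : ℂ)‖ := by gcongr
      _ = ‖Pg (1 / 2 + (((1 : ℝ) : ℂ) + t * I))‖ * ‖(1 / 2 + (((1 : ℝ) : ℂ) + t * I) - 1 : ℂ)‖ * 1 := by ring
      _ ≤ ‖Pg (1 / 2 + (((1 : ℝ) : ℂ) + t * I))‖ * ‖(1 / 2 + (((1 : ℝ) : ℂ) + t * I) - 1 : ℂ)‖ *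
          (A * ‖riemannZeta (1 / 2 + (((1 : ℝ) : ℂ) + t * I))‖) := by gcongr
      _ = _ := by ring
  -- the sides
  have hside0 : ∀ y : ℝ, |y - t| ≤ H → ‖Fx ((r : ℂ) + y * I)‖ ≤ MM t * Real.exp ((r + 3 / 4 * (ε * s)) * L) := by
    intro y hy
    have hyt := abs_le.1 hy
    have hy0 : 0 < y := by linarith [hyt.1]
    have hy2 : 1 + |y| ≤ 2 * t := by rw [abs_of_pos hy0]; linarith [hyt.2]
    have e0 : (1 / 2 + ((r : ℂ) + y * I)) = 1 - s + y * I := by rw [hr]; push_cast; ring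
    have hre0 : (1 / 2 + ((r : ℂ) + y * I) : ℂ).re = 1 - s := by rw [e0]; simp
    have hZ : ‖Zt (1 / 2 + ((r : ℂ) + y * I))‖ ≤ D * (2 * t * (2 ^ (ε / 4 * s) * Real.exp (ε * s / 2 * L))) := by
      rw [e0]
      refine (hD y).trans ?_
      apply mul_le_mul_of_nonneg_left _ hD0
      rw [Real.rpow_add (by positivity), Real.rpow_one]
      have h1 : (1 + |y|) ^ (ε / 4 * s) ≤ (2 * t) ^ (ε / 4 * s) :=
        Real.rpow_le_rpow (by positivity) hy2 (by positivity)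
      have h2 : (2 * t) ^ (ε / 4 * s) = 2 ^ (ε / 4 * s) * Real.exp (ε * s / 2 * L) := by
        rw [Real.mul_rpow (by norm_num) ht0.le]
        congr 1
        rw [← hexpL, ← Real.exp_mul]
        congr 1
        ring
      rw [← h2]
      gcongr
    -- the gamma factor
    have hconv : Convex ℝ {z : ℂ | 1 / 2 ≤ z.re ∧ z.re ≤ 2 ∧ |z.im - t| ≤ H} := by
      intro a ha b hb p q hp hq hpq
      simp only [mem_ofPred_eq] at ha hb ⊢
      obtain ⟨ha1, ha2, ha3⟩ := ha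
      obtain ⟨hb1, hb2, hb3⟩ := hb
      have e1 : (p • a + q • b).re = p * a.re + q * b.re := by simp
      have e2 : (p • a + q • b).im = p * a.im + q * b.im := by simp
      rw [e1, e2]
      rw [abs_le] at ha3 hb3 ⊢
      have hq' : q = 1 - p := by linarith
      subst hq'
      refine ⟨?_, ?_, ?_, ?_⟩ <;> nlinarith
    have hz1 : (1 / 2 + (((1 : ℝ) : ℂ) + t * I) : ℂ) ∈ {z : ℂ | 1 / 2 ≤ z.re ∧ z.re ≤ 2 ∧ |z.im - t| ≤ H} := by
      refine ⟨?_, ?_, ?_⟩
      · rw [hre1]; norm_num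
      · rw [hre1]; norm_num
      · simp; linarith
    have hz2 : (1 / 2 + ((r : ℂ) + y * I) : ℂ) ∈ {z : ℂ | 1 / 2 ≤ z.re ∧ z.re ≤ 2 ∧ |z.im - t| ≤ H} := by
      refine ⟨?_, ?_, ?_⟩
      · rw [hre0]; linarith
      · rw [hre0]; linarith
      · simpa using hy
    have hs' := hconv.segment_subset hz1 hz2
    have hg := growth (g := Pg) (z1 := 1 / 2 + (((1 : ℝ) : ℂ) + t * I)) (z2 := 1 / 2 + ((r : ℂ) + y * I)) (L := L)
      (M := C)
      (fun z hz => Pg_diffAt (by linarith [(hs' hz).1]))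
      (fun z hz => Pg_ne (by linarith [(hs' hz).1]))
      (fun z hz => (hPg t z ht1 (by linarith [(hs' hz).1]) (hs' hz).2.1 (hs' hz).2.2).1)
    have e1 : (1 / 2 + ((r : ℂ) + y * I) - (1 / 2 + (((1 : ℝ) : ℂ) + t * I)) : ℂ) =
        ((r - 1 : ℝ) : ℂ) + ((y - t : ℝ) : ℂ) * I := by
      push_cast; ring
    rw [e1, hre0, hre1] at hg
    have e3 : ‖((r - 1 : ℝ) : ℂ) + ((y - t : ℝ) : ℂ) * I‖ ≤ 1 + H := by
      refine (norm_add_le _ _).trans ?_
      rw [norm_mul, norm_I, mul_one, Complex.norm_real, Complex.norm_real, Real.norm_eq_abs, Real.norm_eq_abs]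
      have : |r - 1| ≤ 1 := by rw [abs_le]; constructor <;> linarith
      linarith
    have hP2 : ‖Pg (1 / 2 + ((r : ℂ) + y * I))‖ ≤ ‖Pg (1 / 2 + (((1 : ℝ) : ℂ) + t * I))‖ *
        (Real.exp ((r - 1) * L) * Real.exp (C * (1 + H))) := by
      refine hg.trans (mul_le_mul_of_nonneg_left ?_ (norm_nonneg _))
      rw [← Real.exp_add]
      apply Real.exp_le_exp.2
      have e4 : C * ‖((r - 1 : ℝ) : ℂ) + ((y - t : ℝ) : ℂ) * I‖ ≤ C * (1 + H) := by gcongr
      have e5 : L * (1 - s - 3 / 2) = (r - 1) * L := by rw [hr]; ring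
      rw [e5]
      linarith
    have e2 : ‖Fx ((r : ℂ) + y * I)‖ = ‖Zt (1 / 2 + ((r : ℂ) + y * I))‖ * ‖Pg (1 / 2 + ((r : ℂ) + y * I))‖ := by
      unfold Fx
      rw [xi_eq (by rw [hre0]; linarith), norm_mul]
    rw [e2]
    have hpn := norm_nonneg (Pg (1 / 2 + (((1 : ℝ) : ℂ) + t * I)))
    calc ‖Zt (1 / 2 + ((r : ℂ) + y * I))‖ * ‖Pg (1 / 2 + ((r : ℂ) + y * I))‖
        ≤ (D * (2 * t * (2 ^ (ε / 4 * s) * Real.exp (ε * s / 2 * L)))) *
          (‖Pg (1 / 2 + (((1 : ℝ) : ℂ) + t * I))‖ * (Real.exp ((r - 1) * L) * Real.exp (C * (1 + H)))) := by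
          gcongr
      _ = (D * 2 * 2 ^ (ε / 4 * s) * Real.exp (C * (1 + H))) * (‖Pg (1 / 2 + (((1 : ℝ) : ℂ) + t * I))‖ * t) *
          (Real.exp (ε * s / 2 * L) * Real.exp ((r - 1) * L)) := by ring
      _ ≤ ((D + 1) * 2 * 2 ^ (ε / 4 * s) * Real.exp (C * (1 + H))) * (A * (MM t * Real.exp L)) *
          (Real.exp (ε * s / 2 * L) * Real.exp ((r - 1) * L)) := by
          gcongr
          linarith
      _ = B * MM t * (Real.exp L * (Real.exp (ε * s / 2 * L) * Real.exp ((r - 1) * L))) := by rw [hB]; ring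
      _ ≤ Real.exp (ε * s / 4 * L) * MM t * (Real.exp L * (Real.exp (ε * s / 2 * L) * Real.exp ((r - 1) * L))) := by
          gcongr
      _ = MM t * Real.exp ((r + 3 / 4 * (ε * s)) * L) := by
          rw [← Real.exp_add, ← Real.exp_add, mul_comm (Real.exp _) (MM t), mul_assoc, ← Real.exp_add]
          congr 2
          ring
  have hside : ∀ w : ℂ, |w.re| = r → |w.im - t| ≤ H → ‖Fx w‖ ≤ MM t * Real.exp ((r + 3 / 4 * (ε * s)) * L) := by
    intro w h1 h2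
    rcases le_total 0 w.re with h3 | h3
    · rw [abs_of_nonneg h3] at h1
      have h4 := hside0 w.im h2
      rw [← h1, Complex.re_add_im] at h4
      rw [h1] at h4
      exact h4
    · rw [abs_of_nonpos h3] at h1
      have h4 := hside0 w.im h2
      have h5 : ((r : ℂ) + w.im * I) = -(starRingEnd ℂ) w := by
        apply Complex.ext
        · simp [h1]
        · simp
      rw [h5, Fx_even, Fx_conj, RCLike.norm_conj] at h4
      exact h4
  have htop : ∀ w : ℂ, |w.re| ≤ r → |w.im - t| = H →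
      ‖Fx w‖ ≤ MM t * Real.exp ((r + 3 / 4 * (ε * s)) * L) * Real.exp (14 * L) := by
    intro w h1 h2
    refine (hcr t w ht2 (by linarith) h2.le).trans ?_
    rw [MM_mul, mul_comm (Real.exp _) (MM t * _), mul_assoc, mul_assoc, ← Real.exp_add, ← Real.exp_add]
    refine mul_le_mul_of_nonneg_left (Real.exp_le_exp.2 ?_) hM0
    have h3 : 0 ≤ (r + 3 / 4 * (ε * s)) * L := by positivity
    linarith
  have h := gauss_strip Fx_diff hr0 hH1 (by positivity) (by positivity : 0 ≤ 14 * L) hside htop w hw1 hw2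
  refine h.trans ?_
  rw [mul_assoc, ← Real.exp_add]
  refine mul_le_mul_of_nonneg_left (Real.exp_le_exp.2 ?_) hM0
  have h5 : 14 * L / H ^ 2 * (r ^ 2 + 1) ≤ ε * s / 4 * L := by
    have h6 : r ^ 2 + 1 ≤ 2 := by nlinarith
    have h7 : 112 / (ε * s) ≤ H ^ 2 := by
      have : 128 / (ε * s) ≤ H ^ 2 := by
        have e : H = 64 / (ε * s) + 1 := by rw [hH]; ring
        rw [e]
        have h8 : 0 < 64 / (ε * s) := by positivity
        have h9 : 128 / (ε * s) = 2 * (64 / (ε * s)) := by ring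
        rw [h9]
        nlinarith
      refine le_trans ?_ this
      gcongr
      norm_num
    rw [div_le_iff₀ hεs] at h7
    rw [div_mul_eq_mul_div, div_le_iff₀ (by positivity)]
    have h8 : 14 * L * (r ^ 2 + 1) ≤ 14 * L * 2 := by gcongr
    nlinarith
  have h6 : (r + 3 / 4 * (ε * s)) * L + ε * s / 4 * L = (1 / 2 - s + ε * s) * L := by rw [hr]; ring
  linarith

end Pool.Agent.Helper85.DQ
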