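import Pool.Agent.Helper85.DQ.PQ2
import Pool.Agent.Helper85.LG.Fin

/-!
Regularity of the Riemann xi function.
-/

set_option autoImplicit false
set_option maxHeartbeats 1000000

open Complex Filter Topology Set MeasureTheory
open Pool.Agent.H306R2 (Zt)
open Pool.Agent.Helper85.LG (xi Pg Lg Reg RegAt psi_re psi_lip cc norm_le_cc xi_eq xi_logDeriv xi_diff
  Pg_logDeriv xi_one_sub xi_conj Pg_diffAt Pg_ne zeta_two_sided Lg_upper)

namespace Pool.Agent.Helper85.DQ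

/-- `ξ(1/2 + w)` -/
noncomputable def Fx (w : ℂ) : ℂ := xi (1 / 2 + w)

lemma Fx_diff : Differentiable ℂ Fx := by
  unfold Fx
  exact xi_diff.comp (by fun_prop)

lemma Fx_even (w : ℂ) : Fx (-w) = Fx w := by
  unfold Fx
  rw [← xi_one_sub]
  congr 1
  ring

lemma Fx_conj (w : ℂ) : Fx ((starRingEnd ℂ) w) = (starRingEnd ℂ) (Fx w) := by
  unfold Fx
  rw [← xi_conj]
  congr 1
  rw [map_add, map_div₀, map_one, map_ofNat]

lemma psi_cx : ∃ C : ℝ, 1 ≤ C ∧ ∀ s : ℂ, 1 ≤ s.re →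
    ‖logDeriv Gamma s - (Real.log ‖s + 2‖ : ℂ)‖ ≤ C := by
  obtain ⟨C, hC1, hC⟩ := psi_re
  refine ⟨C + 8, by linarith, fun s hs => ?_⟩
  have h1 := hC s hs
  have hns : 1 ≤ ‖s‖ := hs.trans (Complex.re_le_norm s)
  have h2 := psi_lip (s := s) (z := (‖s‖ : ℂ)) hs (by simpa using hns)
  have hcs : ‖s‖ ≤ cc s := norm_le_cc (by linarith)
  have hcn : cc (‖s‖ : ℂ) = ‖s‖ := by simp [cc]
  have h3 : ‖logDeriv Gamma (‖s‖ : ℂ) - logDeriv Gamma s‖ ≤ 8 := by
    refine h2.trans ?_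
    rw [hcn]
    have e1 : ‖(‖s‖ : ℂ) - s‖ ≤ 2 * ‖s‖ := by
      refine (norm_sub_le _ _).trans ?_
      simp
      linarith
    have hcs0 : 0 < cc s := by linarith
    have e2 : 2 / cc s ≤ 2 / ‖s‖ := by gcongr
    calc ‖(‖s‖ : ℂ) - s‖ * (2 / cc s + 2 / ‖s‖) ≤ 2 * ‖s‖ * (2 / ‖s‖ + 2 / ‖s‖) := by gcongr
      _ = 8 := by field_simp; norm_num
  have him : (logDeriv Gamma (‖s‖ : ℂ)).im = 0 := by
    have e1 : (starRingEnd ℂ) (logDeriv Gamma (‖s‖ : ℂ)) = logDeriv Gamma (‖s‖ : ℂ) := by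
      rw [logDeriv_apply, map_div₀]
      have hdc : ∀ z : ℂ, deriv Gamma ((starRingEnd ℂ) z) = (starRingEnd ℂ) (deriv Gamma z) := by
        intro z
        have h1 : deriv ((starRingEnd ℂ) ∘ Gamma ∘ (starRingEnd ℂ)) =
            (starRingEnd ℂ) ∘ deriv Gamma ∘ (starRingEnd ℂ) := deriv_conj_conj
        have h2 : (starRingEnd ℂ) ∘ Gamma ∘ (starRingEnd ℂ) = Gamma := by
          funext z
          simp [Complex.Gamma_conj]
        rw [h2] at h1
        have h3 := congrFun h1 ((starRingEnd ℂ) z)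
        rw [h3]
        simp
      rw [← hdc, ← Complex.Gamma_conj, Complex.conj_ofReal]
    exact Complex.conj_eq_iff_im.1 e1
  have him2 : |(logDeriv Gamma s).im| ≤ 8 := by
    have e1 := (Complex.abs_im_le_norm (logDeriv Gamma (‖s‖ : ℂ) - logDeriv Gamma s)).trans h3
    rw [sub_im, him, zero_sub, abs_neg] at e1
    exact e1
  refine (Complex.norm_le_abs_re_add_abs_im _).trans ?_
  have e1 : (logDeriv Gamma s - (Real.log ‖s + 2‖ : ℂ)).re = (logDeriv Gamma s).re - Real.log ‖s + 2‖ := by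
    simp
  have e2 : (logDeriv Gamma s - (Real.log ‖s + 2‖ : ℂ)).im = (logDeriv Gamma s).im := by
    simp
  rw [e1, e2]
  linarith

lemma log_near {t x : ℝ} (ht : 0 < t) (h1 : t / 4 ≤ x) (h2 : x ≤ 2 * t) : |Real.log x - Real.log t| ≤ 2 := by
  have hx : 0 < x := by linarith
  have hlog4 : Real.log 4 ≤ 2 := by
    rw [Real.log_le_iff_le_exp (by norm_num)]
    have := Real.add_one_le_exp (1 : ℝ)
    have h3 : Real.exp 2 = Real.exp 1 * Real.exp 1 := by rw [← Real.exp_add]; norm_num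
    nlinarith [Real.exp_pos 1]
  have hlog2 : Real.log 2 ≤ 2 := (Real.log_le_log (by norm_num) (by norm_num : (2 : ℝ) ≤ 4)).trans hlog4
  rw [abs_le]
  constructor
  · have : Real.log (t / 4) ≤ Real.log x := Real.log_le_log (by positivity) h1
    rw [Real.log_div ht.ne' (by norm_num)] at this
    linarith
  · have : Real.log x ≤ Real.log (2 * t) := Real.log_le_log hx h2
    rw [Real.log_mul (by norm_num) ht.ne'] at this
    linarith

/-- the Gamma factor -/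
lemma ld_Pg : ∃ C : ℝ, 1 ≤ C ∧ ∀ Y H : ℝ, ∃ T : ℝ, 1 ≤ T ∧ ∀ (t : ℝ) (s : ℂ), T ≤ t → 0 < s.re → s.re ≤ Y →
    |s.im - t| ≤ H → ‖logDeriv Pg s - ((1 / 2 * Real.log t : ℝ) : ℂ)‖ ≤ C ∧ t / 4 ≤ ‖3 + s / 2‖ ∧
      ‖3 + s / 2‖ ≤ 2 * t := by
  obtain ⟨C, hC1, hC⟩ := psi_cx
  refine ⟨C + 2, by linarith, fun Y H => ⟨max 1 (max (2 * H) (2 * (3 + |Y| / 2 + H / 2))), le_max_left _ _,
    fun t s hT hs0 hsY hst => ?_⟩⟩
  have ht1 : 1 ≤ t := (le_max_left _ _).trans hT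
  have ht2 : 2 * H ≤ t := ((le_max_left _ _).trans (le_max_right _ _)).trans hT
  have ht3 : 2 * (3 + |Y| / 2 + H / 2) ≤ t := ((le_max_right _ _).trans (le_max_right _ _)).trans hT
  rw [abs_le] at hst
  have hH : 0 ≤ H := by linarith [hst.1, hst.2]
  have him : (3 + s / 2 : ℂ).im = s.im / 2 := by simp
  have hre : (3 + s / 2 : ℂ).re = 3 + s.re / 2 := by simp
  have hlow : t / 4 ≤ ‖3 + s / 2‖ := by
    have := Complex.abs_im_le_norm (3 + s / 2)
    rw [him] at this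
    have h3 := le_abs_self (s.im / 2)
    linarith [hst.1]
  have hup : ‖3 + s / 2‖ ≤ 2 * t := by
    have := Complex.norm_le_abs_re_add_abs_im (3 + s / 2)
    rw [him, hre, abs_of_pos (by linarith)] at this
    have h3 : |s.im / 2| ≤ (t + H) / 2 := by
      rw [abs_le]
      constructor <;> linarith [hst.1, hst.2]
    have := le_abs_self Y
    linarith
  refine ⟨?_, hlow, hup⟩
  have h4 := hC (1 + s / 2) (by simp; linarith)
  have e1 : (1 + s / 2 + 2 : ℂ) = 3 + s / 2 := by ring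
  rw [e1] at h4
  have h5 := log_near (by linarith) hlow hup
  rw [Pg_logDeriv hs0]
  have e2 : (-(Real.log Real.pi : ℂ) / 2 + logDeriv Gamma (1 + s / 2) / 2 - ((1 / 2 * Real.log t : ℝ) : ℂ)) =
      (logDeriv Gamma (1 + s / 2) - (Real.log ‖3 + s / 2‖ : ℂ)) / 2 +
        (((Real.log ‖3 + s / 2‖ - Real.log t) / 2 - Real.log Real.pi / 2 : ℝ) : ℂ) := by
    push_cast; ring
  rw [e2]
  refine (norm_add_le _ _).trans ?_
  rw [norm_div, Complex.norm_real, Real.norm_eq_abs]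
  have h6 : Real.log Real.pi ≤ 2 := by
    have := Real.log_le_log Real.pi_pos (by linarith [Real.pi_lt_d2] : Real.pi ≤ 2 * 2)
    have := (abs_le.1 (log_near (t := 2) (x := 4) (by norm_num) (by norm_num) (by norm_num))).2
    have h7 : Real.log 4 = 2 * Real.log 2 := by
      rw [show (4 : ℝ) = 2 ^ 2 by norm_num, Real.log_pow]; norm_num
    have h8 : Real.log (2 * 2) = 2 * Real.log 2 := by rw [Real.log_mul (by norm_num) (by norm_num)]; ring
    have h9 := Real.log_two_lt_d9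
    linarith
  have h7 : 0 ≤ Real.log Real.pi := Real.log_nonneg (by linarith [Real.pi_gt_three])
  have h8 : |(Real.log ‖3 + s / 2‖ - Real.log t) / 2 - Real.log Real.pi / 2| ≤ 2 := by
    rw [abs_le] at h5 ⊢
    constructor <;> linarith [h5.1, h5.2]
  have h9 : ‖logDeriv Gamma (1 + s / 2) - (Real.log ‖3 + s / 2‖ : ℂ)‖ / ‖(2 : ℂ)‖ ≤ C := by
    rw [Complex.norm_ofNat]
    linarith
  linarith

/-- regularity to the right -/
lemma xi_reg {y0 : ℝ} (hy0 : 0 < y0) (hreg : Reg y0) {ε : ℝ} (hε : 0 < ε) (Y H : ℝ) :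
    ∃ T : ℝ, 1 ≤ T ∧ ∀ (t : ℝ) (w : ℂ), T ≤ t → y0 ≤ w.re → w.re ≤ Y → |w.im - t| ≤ H →
      Zt (1 / 2 + w) ≠ 0 ∧ ‖logDeriv Zt (1 / 2 + w)‖ ≤ ε * (1 / 2 * Real.log t) ∧
      Fx w ≠ 0 ∧ ‖logDeriv Fx w - ((1 / 2 * Real.log t : ℝ) : ℂ)‖ ≤ ε * (1 / 2 * Real.log t) := by
  obtain ⟨C, hC1, hC⟩ := ld_Pg
  obtain ⟨T1, hT1, hPg⟩ := hC (Y + 1) H
  obtain ⟨X, hX0, hX⟩ := hreg (ε / 8) (by positivity)
  have hev : ∀ᶠ t : ℝ in atTop, C + 1 ≤ ε / 8 * Real.log t :=
    (Real.tendsto_log_atTop.const_mul_atTop (by positivity : 0 < ε / 8)).eventually_ge_atTop _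
  obtain ⟨T2, hT2⟩ := eventually_atTop.1 hev
  refine ⟨max (max T1 T2) (max (X + |H|) 3), hT1.trans ((le_max_left _ _).trans (le_max_left _ _)),
    fun t w hT h1 h2 h3 => ?_⟩
  have ht1 : T1 ≤ t := ((le_max_left _ _).trans (le_max_left _ _)).trans hT
  have ht2 : T2 ≤ t := ((le_max_right _ _).trans (le_max_left _ _)).trans hT
  have ht3 : X + |H| ≤ t := ((le_max_left _ _).trans (le_max_right _ _)).trans hT
  have ht4 : 3 ≤ t := ((le_max_right _ _).trans (le_max_right _ _)).trans hT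
  have hHabs := le_abs_self H
  have hwim : X ≤ w.im := by
    have := (abs_le.1 h3).1
    linarith
  have hs : (1 / 2 + (w.re : ℂ) + (w.im : ℂ) * I) = 1 / 2 + w := by
    rw [add_assoc, Complex.re_add_im]
  have hR := hX w.im w.re (by linarith) h1 (Or.inl hwim)
  rw [hs] at hR
  have hsre : (1 / 2 + w : ℂ).re = 1 / 2 + w.re := by simp
  have hZ : Zt (1 / 2 + w) ≠ 0 := by
    have := hR.ne 0 (by rw [abs_zero]; linarith)
    simpa using this
  obtain ⟨hP1, hP2, hP3⟩ := hPg t (1 / 2 + w) ht1 (by rw [hsre]; linarith) (by rw [hsre]; linarith)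
    (by simpa using h3)
  have hlogt : 1 ≤ Real.log t := by
    rw [Real.le_log_iff_exp_le (by linarith)]
    have := Real.exp_one_lt_d9
    linarith
  have hLg : Lg (1 / 2 + w) ≤ 3 * Real.log t := by
    have := (abs_le.1 (log_near (by linarith) hP2 hP3)).2
    unfold Lg
    linarith
  have hder := hR.der
  have hZd : ‖logDeriv Zt (1 / 2 + w)‖ ≤ ε * (1 / 2 * Real.log t) := by
    refine hder.trans ?_
    nlinarith
  have hZd2 : ‖logDeriv Zt (1 / 2 + w)‖ ≤ ε * (3 / 8 * Real.log t) := by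
    refine hder.trans ?_
    nlinarith
  have hne : Fx w ≠ 0 := by
    unfold Fx
    rw [xi_eq (by rw [hsre]; linarith)]
    exact mul_ne_zero hZ (Pg_ne (by rw [hsre]; linarith))
  refine ⟨hZ, hZd, hne, ?_⟩
  have e1 : logDeriv Fx w = logDeriv Zt (1 / 2 + w) + logDeriv Pg (1 / 2 + w) := by
    have e0 : logDeriv Fx w = logDeriv xi (1 / 2 + w) := by
      unfold Fx
      exact ld_shift xi (1 / 2) w
    rw [e0, xi_logDeriv (by rw [hsre]; linarith) hZ, Pg_logDeriv (by rw [hsre]; linarith)]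
    ring
  rw [e1, add_sub_assoc]
  refine (norm_add_le _ _).trans ?_
  have := hT2 t ht2
  linarith

/-- crude bounds -/
lemma xi_crude {y0 ρ1 : ℝ} (hy0 : 0 < y0) (hreg : Reg y0) (h01 : y0 < ρ1) {Y : ℝ} (hY : 0 ≤ Y) (hYρ : ρ1 ≤ Y) (H : ℝ) :
    ∃ T : ℝ, 1 ≤ T ∧ ∀ (t : ℝ) (w : ℂ), T ≤ t → |w.re| ≤ Y → |w.im - t| ≤ H →
      ‖Fx w‖ ≤ Real.exp ((Y + 12) * (1 / 2 * Real.log t)) * ‖Fx (ρ1 + t * I)‖ := by
  obtain ⟨C, hC1, hC⟩ := ld_Pg
  obtain ⟨T1, hT1, hPg⟩ := hC (Y + 1) |H|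
  set R1 : ℝ := max ρ1 (3 / 2) with hR1
  obtain ⟨T2, hT2, hT2'⟩ := xi_reg hy0 hreg (ε := 1 / (R1 + 1)) (by positivity) (R1 + 1) 0
  obtain ⟨A, hA1, hA⟩ := zeta_two_sided (σ := 3 / 2) (by norm_num)
  have hev : ∀ᶠ t : ℝ in atTop, C * (2 * Y + |H|) ≤ 1 / 2 * Real.log t :=
    (Real.tendsto_log_atTop.const_mul_atTop (by norm_num : (0 : ℝ) < 1 / 2)).eventually_ge_atTop _
  obtain ⟨T3, hT3⟩ := eventually_atTop.1 hev
  set T4 : ℝ := A + 2 * (Y + |H|) + 100 with hT4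
  refine ⟨max (max T1 T2) (max T3 T4), hT1.trans ((le_max_left _ _).trans (le_max_left _ _)),
    fun t w hT h1 h2 => ?_⟩
  have ht1 : T1 ≤ t := ((le_max_left _ _).trans (le_max_left _ _)).trans hT
  have ht2 : T2 ≤ t := ((le_max_right _ _).trans (le_max_left _ _)).trans hT
  have ht3 : T3 ≤ t := ((le_max_left _ _).trans (le_max_right _ _)).trans hT
  have ht4 : T4 ≤ t := ((le_max_right _ _).trans (le_max_right _ _)).trans hT
  have hHn := abs_nonneg H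
  have hHabs := le_abs_self H
  have htbig : 100 ≤ t := by linarith
  have hlogt : 1 ≤ Real.log t := by
    rw [Real.le_log_iff_exp_le (by linarith)]
    have := Real.exp_one_lt_d9
    linarith
  -- reduction to the right half
  wlog hre : 0 ≤ w.re with Hw
  · have := Hw hy0 hreg h01 hY hYρ H C hC1 hC T1 hT1 hPg hR1 T2 hT2 hT2' A hA1 hA hev T3 hT3 hT4 t
      (-(starRingEnd ℂ) w) hT (by simpa using h1) (by simpa using h2) ht1 ht2 ht3 ht4 hHn hHabs htbig hlogt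
      (by simp; linarith)
    rw [Fx_even, Fx_conj, RCLike.norm_conj] at this
    exact this
  rw [abs_of_nonneg hre] at h1
  set L : ℝ := 1 / 2 * Real.log t with hL
  have hL0 : 0 < L := by linarith
  have hexpL : Real.exp (2 * L) = t := by
    rw [hL, show 2 * (1 / 2 * Real.log t) = Real.log t by ring, Real.exp_log (by linarith)]
  have hsre : (1 / 2 + w : ℂ).re = 1 / 2 + w.re := by simp
  have hsim : (1 / 2 + w : ℂ).im = w.im := by simp
  -- Gamma factor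
  have hPgr : ‖Pg (1 / 2 + w)‖ ≤ ‖Pg (1 / 2 + (ρ1 + t * I))‖ * Real.exp ((Y + 1) * L) := by
    have hconv : Convex ℝ {s : ℂ | 1 / 2 ≤ s.re ∧ s.re ≤ Y + 1 ∧ |s.im - t| ≤ |H|} := by
      intro a ha b hb p q hp hq hpq
      simp only [mem_ofPred_eq] at ha hb ⊢
      obtain ⟨ha1, ha2, ha3⟩ := ha
      obtain ⟨hb1, hb2, hb3⟩ := hb
      have e1 : (p • a + q • b).re = p * a.re + q * b.re := by simp
      have e2 : (p • a + q • b).im = p * a.im + q * b.im := by simp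
      rw [e1, e2]
      rw [abs_le] at ha3 hb3 ⊢
      have hq' : q = 1 - p := by linarith
      subst hq'
      refine ⟨?_, ?_, ?_, ?_⟩ <;> nlinarith
    have hz1 : (1 / 2 + (ρ1 + t * I) : ℂ) ∈ {s : ℂ | 1 / 2 ≤ s.re ∧ s.re ≤ Y + 1 ∧ |s.im - t| ≤ |H|} := by
      refine ⟨?_, ?_, ?_⟩
      · simp; linarith
      · simp; linarith
      · simp
    have hz2 : (1 / 2 + w : ℂ) ∈ {s : ℂ | 1 / 2 ≤ s.re ∧ s.re ≤ Y + 1 ∧ |s.im - t| ≤ |H|} := by
      refine ⟨?_, ?_, ?_⟩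
      · rw [hsre]; linarith
      · rw [hsre]; linarith
      · rw [hsim]; linarith
    have hs := hconv.segment_subset hz1 hz2
    have hg := growth (g := Pg) (z1 := 1 / 2 + (ρ1 + t * I)) (z2 := 1 / 2 + w) (L := L) (M := C)
      (fun z hz => Pg_diffAt (by linarith [(hs hz).1]))
      (fun z hz => Pg_ne (by linarith [(hs hz).1]))
      (fun z hz => (hPg t z ht1 (by linarith [(hs hz).1]) (hs hz).2.1 (hs hz).2.2).1)
    refine hg.trans (mul_le_mul_of_nonneg_left (Real.exp_le_exp.2 ?_) (norm_nonneg _))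
    have e1 : (1 / 2 + w - (1 / 2 + (ρ1 + t * I)) : ℂ) = ((w.re - ρ1 : ℝ) : ℂ) + ((w.im - t : ℝ) : ℂ) * I := by
      apply Complex.ext <;> simp
    have e2 : (1 / 2 + w : ℂ).re - (1 / 2 + (ρ1 + t * I) : ℂ).re = w.re - ρ1 := by simp
    rw [e1, e2]
    have e3 : ‖((w.re - ρ1 : ℝ) : ℂ) + ((w.im - t : ℝ) : ℂ) * I‖ ≤ 2 * Y + |H| := by
      refine (norm_add_le _ _).trans ?_
      rw [norm_mul, norm_I, mul_one, Complex.norm_real, Complex.norm_real, Real.norm_eq_abs, Real.norm_eq_abs]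
      have : |w.re - ρ1| ≤ 2 * Y := by rw [abs_le]; constructor <;> linarith
      linarith
    have e4 : C * ‖((w.re - ρ1 : ℝ) : ℂ) + ((w.im - t : ℝ) : ℂ) * I‖ ≤ C * (2 * Y + |H|) := by gcongr
    have e5 := hT3 t ht3
    have e6 : L * (w.re - ρ1) ≤ L * Y := by gcongr; linarith
    linarith
  -- Zt upper
  have hZup : ‖Zt (1 / 2 + w)‖ ≤ Real.exp (6 * L) := by
    refine (Pool.Agent.H306R2.Zt_norm_le (by rw [hsre]; linarith)).trans ?_
    have e1 : ‖(1 / 2 + w : ℂ)‖ ≤ Y + 1 + t + |H| := by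
      refine (Complex.norm_le_abs_re_add_abs_im _).trans ?_
      rw [hsre, hsim, abs_of_nonneg (by linarith)]
      have : |w.im| ≤ t + |H| := by
        have := abs_le.1 h2
        rw [abs_le]
        constructor <;> linarith [this.1, this.2]
      linarith
    have e2 : ‖(1 / 2 + w : ℂ)‖ + 1 ≤ 2 * t := by linarith
    calc 3 * (‖(1 / 2 + w : ℂ)‖ + 1) ^ 2 ≤ 3 * (2 * t) ^ 2 := by gcongr
      _ ≤ t ^ 3 := by nlinarith [sq_nonneg t, mul_nonneg (sq_nonneg t) (by linarith : 0 ≤ t - 12)]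
      _ = Real.exp (6 * L) := by rw [← hexpL, ← Real.exp_nat_mul]; congr 1; push_cast; ring
  -- Zt lower
  have hR1ρ : ρ1 ≤ R1 := le_max_left _ _
  have hR132 : 3 / 2 ≤ R1 := le_max_right _ _
  have hlow : 1 ≤ ‖Zt (1 / 2 + (ρ1 + t * I))‖ * Real.exp L := by
    have hmem : ∀ z ∈ segment ℝ (1 / 2 + (ρ1 + t * I) : ℂ) (1 / 2 + (R1 + t * I)), ∃ x : ℝ, ρ1 ≤ x ∧ x ≤ R1 ∧
        z = 1 / 2 + ((x : ℂ) + t * I) := by
      intro z hz
      rw [segment_eq_image'] at hz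
      obtain ⟨τ, hτ, rfl⟩ := hz
      refine ⟨ρ1 + τ * (R1 - ρ1), by nlinarith [hτ.1], by nlinarith [hτ.2], ?_⟩
      simp only [Complex.real_smul]
      push_cast
      ring
    have hx : ∀ x : ℝ, ρ1 ≤ x → x ≤ R1 → Zt (1 / 2 + ((x : ℂ) + t * I)) ≠ 0 ∧
        ‖logDeriv Zt (1 / 2 + ((x : ℂ) + t * I))‖ ≤ 1 / (R1 + 1) * L := by
      intro x hx1 hx2
      have := hT2' t ((x : ℂ) + t * I) ht2 (by simp; linarith) (by simp; linarith) (by simp)
      exact ⟨this.1, this.2.1⟩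
    have hg := growth (g := Zt) (z1 := 1 / 2 + (ρ1 + t * I)) (z2 := 1 / 2 + (R1 + t * I)) (L := 0)
      (M := 1 / (R1 + 1) * L)
      (fun z hz => by
        obtain ⟨x, hx1, hx2, rfl⟩ := hmem z hz
        exact Pool.Agent.H306R2.Zt_differentiableAt (by simp; linarith))
      (fun z hz => by
        obtain ⟨x, hx1, hx2, rfl⟩ := hmem z hz
        exact (hx x hx1 hx2).1)
      (fun z hz => by
        obtain ⟨x, hx1, hx2, rfl⟩ := hmem z hz
        have := (hx x hx1 hx2).2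
        simpa using this)
    have e1 : (1 / 2 + (R1 + t * I) - (1 / 2 + (ρ1 + t * I)) : ℂ) = ((R1 - ρ1 : ℝ) : ℂ) := by
      push_cast; ring
    rw [e1, Complex.norm_real, Real.norm_of_nonneg (by linarith), zero_mul, zero_add] at hg
    have e2 : Real.exp (1 / (R1 + 1) * L * (R1 - ρ1)) ≤ Real.exp L := by
      apply Real.exp_le_exp.2
      have : 1 / (R1 + 1) * (R1 - ρ1) ≤ 1 := by
        rw [one_div, inv_mul_le_iff₀ (by linarith)]
        linarith
      nlinarith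
    have e3 : 1 ≤ ‖Zt (1 / 2 + (R1 + t * I))‖ := by
      have hre1 : (1 / 2 + (R1 + t * I) : ℂ).re = 1 / 2 + R1 := by simp
      have hne1 : (1 / 2 + (R1 + t * I) : ℂ) ≠ 1 := by
        intro h0
        have := congrArg im h0
        simp at this
        linarith
      rw [← Pool.Agent.H306R2.zeta_eq_pos (by rw [hre1]; linarith) hne1, norm_mul]
      have a1 := (hA (1 / 2 + (R1 + t * I)) (by rw [hre1]; linarith)).2
      have a2 : t ≤ ‖(1 / 2 + (R1 + t * I) - 1 : ℂ)‖ := by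
        have := Complex.abs_im_le_norm (1 / 2 + (R1 + t * I) - 1 : ℂ)
        simp at this
        rw [abs_of_nonneg (by linarith)] at this
        simpa using this
      have a3 : A ≤ t := by linarith [abs_nonneg H]
      have hzn := norm_nonneg (riemannZeta (1 / 2 + (R1 + t * I)))
      calc (1 : ℝ) ≤ A * ‖riemannZeta (1 / 2 + (R1 + t * I))‖ := a1
        _ ≤ _ := by gcongr; linarith
    calc (1 : ℝ) ≤ ‖Zt (1 / 2 + (R1 + t * I))‖ := e3
      _ ≤ _ := hg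
      _ ≤ _ := by gcongr
  have e1 : ‖Fx (ρ1 + t * I)‖ = ‖Zt (1 / 2 + (ρ1 + t * I))‖ * ‖Pg (1 / 2 + (ρ1 + t * I))‖ := by
    unfold Fx
    rw [xi_eq (by simp; linarith), norm_mul]
  have e2 : ‖Fx w‖ = ‖Zt (1 / 2 + w)‖ * ‖Pg (1 / 2 + w)‖ := by
    unfold Fx
    rw [xi_eq (by rw [hsre]; linarith), norm_mul]
  rw [e1, e2]
  have hP0 := norm_nonneg (Pg (1 / 2 + (ρ1 + t * I)))
  calc ‖Zt (1 / 2 + w)‖ * ‖Pg (1 / 2 + w)‖ ≤
      Real.exp (6 * L) * (‖Pg (1 / 2 + (ρ1 + t * I))‖ * Real.exp ((Y + 1) * L)) := by gcongr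
    _ = Real.exp (6 * L) * Real.exp ((Y + 1) * L) * 1 * ‖Pg (1 / 2 + (ρ1 + t * I))‖ := by ring
    _ ≤ Real.exp (6 * L) * Real.exp ((Y + 1) * L) * (‖Zt (1 / 2 + (ρ1 + t * I))‖ * Real.exp L) *
        ‖Pg (1 / 2 + (ρ1 + t * I))‖ := by gcongr
    _ = Real.exp ((Y + 8) * L) * (‖Zt (1 / 2 + (ρ1 + t * I))‖ * ‖Pg (1 / 2 + (ρ1 + t * I))‖) := by
        have : Real.exp ((Y + 8) * L) = Real.exp (6 * L) * Real.exp ((Y + 1) * L) * Real.exp L := by
          rw [← Real.exp_add, ← Real.exp_add]; ring_nf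
        rw [this]; ring
    _ ≤ _ := by
        refine mul_le_mul_of_nonneg_right (Real.exp_le_exp.2 ?_) (by positivity)
        linarith only [hL0]

/-- all hypotheses for the Riemann xi function -/
theorem hy_xi {y0 ρ1 Y : ℝ} (hy0 : 0 < y0) (hreg : Reg y0) (h01 : y0 < ρ1) (hYρ : ρ1 ≤ Y) {ε : ℝ}
    (hε : 0 < ε) (h : ℝ) : ∃ T : ℝ, 1 ≤ T ∧ ∀ t : ℝ, T ≤ t →
      Hy Fx t (1 / 2 * Real.log t) ε h y0 Y (Y + 13) ρ1 := by
  obtain ⟨T1, hT1, h1⟩ := xi_reg hy0 hreg hε Y (h + 1)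
  obtain ⟨T2, hT2, h2⟩ := xi_crude hy0 hreg h01 (Y := Y + 1) (by linarith) (by linarith) (h + 2)
  refine ⟨max T1 T2, hT1.trans (le_max_left _ _), fun t ht => ?_⟩
  have ht1 : T1 ≤ t := (le_max_left _ _).trans ht
  have ht2 : T2 ≤ t := (le_max_right _ _).trans ht
  have e0 : (Y + 1 + 12 : ℝ) = Y + 13 := by ring
  rw [e0] at h2
  refine ⟨fun w a b c => (h1 t w ht1 a b c).2.2, fun w a b => ⟨?_, ?_⟩⟩
  · exact h2 t w ht2 (by linarith) (by linarith)
  · have := Complex.norm_deriv_le_of_forall_mem_sphere_norm_le (f := Fx) (c := w) (R := 1)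
      (C := Real.exp ((Y + 13) * (1 / 2 * Real.log t)) * ‖Fx (ρ1 + t * I)‖) one_pos
      Fx_diff.diffContOnCl (fun z hz => by
        rw [mem_sphere_iff_norm] at hz
        have r1 := Complex.abs_re_le_norm (z - w)
        have r2 := Complex.abs_im_le_norm (z - w)
        rw [hz] at r1 r2
        simp only [sub_re, sub_im] at r1 r2
        rw [abs_le] at a b r1 r2
        refine h2 t z ht2 ?_ ?_
        · rw [abs_le]; constructor <;> linarith [a.1, a.2, r1.1, r1.2]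
        · rw [abs_le]; constructor <;> linarith [b.1, b.2, r2.1, r2.2])
    simpa using this

end Pool.Agent.Helper85.DQ
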