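import Mathlib
import Pool.Agent.Helper39.LG.Two

/-!
Transport of the asymptotic behaviour of a zero-free function from a small disc to a large disc.
-/

set_option autoImplicit false
set_option maxHeartbeats 1000000

open Complex Filter Topology Set Metric

namespace Pool.Agent.Helper85.DQ

lemma transport0 {r r0 C η : ℝ} (hr : 0 ≤ r) (hr1 : r < 1) (hr0 : 0 < r0) (hr01 : r0 < 1) (hC : 0 ≤ C)
    (hη : 0 < η) : ∃ η1 > 0, ∀ (L : ℝ) (g : ℂ → ℂ), 0 < L → DifferentiableOn ℂ g (ball 0 1) → g 0 = 0 →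
      (∀ w ∈ ball (0 : ℂ) 1, (g w).re ≤ C * L) → (∀ w ∈ ball (0 : ℂ) r0, (g w).re ≤ η1 * L) →
      ∀ w : ℂ, ‖w‖ ≤ r → ‖g w‖ ≤ η * L := by
  set R1 : ℝ := max ((1 + r) / 2) (r0 / 2) with hR1
  have hR11 : R1 < 1 := max_lt (by linarith) (by linarith)
  have hrR1 : r < R1 := lt_of_lt_of_le (by linarith) (le_max_left _ _)
  have hR10 : 0 < R1 := lt_of_le_of_lt hr hrR1
  have hr0R : r0 / 2 ≤ R1 := le_max_right _ _
  set C' : ℝ := 2 * (C + 1) / (1 - R1) with hC'
  have hC'0 : 0 ≤ C' := by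
    have : 0 < 1 - R1 := by linarith
    positivity
  obtain ⟨L0, hL0, H⟩ := Pool.Agent.Helper39.LG.two_const (r0 := r0 / 2) (r := r) (R := R1) (A := 1)
    (C := C') (η := η) (by positivity) hr0R hr hrR1 zero_le_one hC'0 hη
  refine ⟨1 / (2 * (L0 + 1)), by positivity, fun L g hL hg h0 h1 h2 w hw => ?_⟩
  set η1 : ℝ := 1 / (2 * (L0 + 1)) with hη1
  have hη1p : 0 < η1 := by positivity
  have hη1L : 0 < η1 * L := by positivity
  have b1 : ∀ w ∈ ball (0 : ℂ) R1, ‖g w‖ ≤ C' * L := by
    intro w hw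
    rw [mem_ball_zero_iff] at hw
    have hw1 : w ∈ ball (0 : ℂ) 1 := by rw [mem_ball_zero_iff]; linarith
    have := borelCaratheodory_zero (M := (C + 1) * L) (R := 1) (by positivity) hg
      (fun z hz => by
        have := h1 z hz
        simp only [mem_ofPred_eq]
        nlinarith) one_pos hw1 h0
    refine this.trans ?_
    rw [hC', div_mul_eq_mul_div]
    have i1 : 0 < 1 - R1 := by linarith
    have i2 : 1 - R1 ≤ 1 - ‖w‖ := by linarith
    have i3 : 2 * ((C + 1) * L) * ‖w‖ ≤ 2 * (C + 1) * L := by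
      have : ‖w‖ ≤ 1 := by linarith
      have : 2 * ((C + 1) * L) * ‖w‖ ≤ 2 * ((C + 1) * L) * 1 := by gcongr
      linarith
    have i4 : 0 ≤ 2 * ((C + 1) * L) * ‖w‖ := by positivity
    exact div_le_div₀ (by positivity) i3 i1 i2
  have b2 : ∀ w ∈ ball (0 : ℂ) (r0 / 2), ‖g w‖ ≤ 2 * (η1 * L) := by
    intro w hw
    rw [mem_ball_zero_iff] at hw
    have hw1 : w ∈ ball (0 : ℂ) r0 := by rw [mem_ball_zero_iff]; linarith
    have := borelCaratheodory_zero (M := η1 * L) (R := r0) (by positivity)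
      (hg.mono (ball_subset_ball hr01.le)) (fun z hz => h2 z hz) hr0 hw1 h0
    refine this.trans ?_
    rw [div_le_iff₀ (by linarith)]
    have i1 : (η1 * L) * ‖w‖ ≤ (η1 * L) * (r0 / 2) := by gcongr
    nlinarith
  set g' : ℂ → ℂ := fun w => g w / ((2 * (η1 * L) : ℝ) : ℂ) with hg'
  have hpos : 0 < 2 * (η1 * L) := by positivity
  have hn : ∀ w, ‖g' w‖ = ‖g w‖ / (2 * (η1 * L)) := by
    intro w
    rw [hg']
    simp only
    rw [norm_div, Complex.norm_real, Real.norm_of_nonneg hpos.le]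
  have := H (1 / (2 * η1)) (by
      rw [hη1]
      rw [le_div_iff₀ (by positivity)]
      field_simp
      linarith) g' (by
      have : DifferentiableOn ℂ g (ball 0 R1) := hg.mono (ball_subset_ball hR11.le)
      exact this.div_const _)
    (fun w hw => by
      rw [hn, div_le_iff₀ hpos]
      refine (b1 w hw).trans (le_of_eq ?_)
      field_simp)
    (fun w hw => by
      rw [hn, div_le_one hpos]
      exact b2 w hw) w hw
  rw [hn, div_le_iff₀ hpos] at this
  refine this.trans (le_of_eq ?_)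
  field_simp

/-- transport for a zero-free entire function `h`: from the ball of radius `2` at `c` to the ball of
radius `Re c - δ2` -/
theorem transport2 {δ1 δ2 C η : ℝ} (hδ1 : 0 ≤ δ1) (hδ12 : δ1 < δ2) (hδ2 : δ2 ≤ 1) (hC : 0 ≤ C) (hη : 0 < η) :
    ∃ η1 > 0, ∀ (h : ℂ → ℂ) (c : ℂ) (L : ℝ), 0 < L → Differentiable ℂ h → 4 ≤ c.re → c.re ≤ 5 →
      (∀ w : ℂ, ‖w - c‖ < c.re - δ1 → h w ≠ 0) →
      (∀ w : ℂ, ‖w - c‖ < c.re - δ1 → ‖h w‖ ≤ ‖h c‖ * Real.exp (C * L)) →
      (∀ w : ℂ, ‖w - c‖ < 2 → ‖h w‖ ≤ ‖h c‖ * Real.exp (L * (w.re - c.re) + η1 * L)) →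
      ∀ w : ℂ, ‖w - c‖ ≤ c.re - δ2 → ‖logDeriv h w - L‖ ≤ η * L ∧
        ‖h c‖ * Real.exp (L * (w.re - c.re) - η * L) ≤ ‖h w‖ := by
  set δm : ℝ := (δ1 + δ2) / 2 with hδm
  have hm1 : δ1 < δm := by rw [hδm]; linarith
  have hm2 : δm < δ2 := by rw [hδm]; linarith
  have hm3 : δ2 - δm = (δ2 - δ1) / 2 := by rw [hδm]; ring
  clear_value δm
  set r : ℝ := (5 - δm) / (5 - δ1) with hr
  have hr0 : 0 ≤ r := by
    have : 0 < 5 - δ1 := by linarith
    have : 0 < 5 - δm := by linarith
    positivity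
  have hr1 : r < 1 := by
    rw [hr, div_lt_one (by linarith)]
    linarith
  set η2 : ℝ := η * ((δ2 - δ1) / 2) with hη2
  have hη2p : 0 < η2 := by
    have : 0 < (δ2 - δ1) / 2 := by linarith
    positivity
  obtain ⟨η1, hη1, H⟩ := transport0 (r := r) (r0 := 2 / 5) (C := C + 5) (η := η2) hr0 hr1 (by norm_num)
    (by norm_num) (by linarith) hη2p
  refine ⟨η1, hη1, ?_⟩
  intro h c L hL hh hc4 hc5 hne hbd hsm w hw
  set R : ℝ := c.re - δ1 with hR
  have hRpos : 0 < R := by linarith
  have hld : DifferentiableOn ℂ (logDeriv h) (ball c R) := by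
    intro z hz
    rw [mem_ball_iff_norm] at hz
    have h1 := hne z hz
    have h2 : DifferentiableAt ℂ (fun z => deriv h z / h z) z :=
      ((hh.analyticAt z).deriv.differentiableAt).div (hh z) h1
    exact h2.differentiableWithinAt
  obtain ⟨G, hG⟩ := hld.isExactOn_ball
  have hG' : ∀ z ∈ ball c R, HasDerivAt G (logDeriv h z) z := hG
  -- the constant
  have hconst : ∀ z ∈ ball c R, h z = h c * cexp (G z - G c) := by
    intro z hz
    have hcm : c ∈ ball c R := mem_ball_self hRpos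
    have hd : ∀ y ∈ ball c R, HasDerivAt (fun y => h y * cexp (-G y)) 0 y := by
      intro y hy
      have h1 : HasDerivAt (fun y => h y * cexp (-G y))
          (deriv h y * cexp (-G y) + h y * (cexp (-G y) * -logDeriv h y)) y :=
        (hh y).hasDerivAt.mul ((hG' y hy).neg.cexp)
      have h0 := hne y (by rw [mem_ball_iff_norm] at hy; exact hy)
      have e : deriv h y * cexp (-G y) + h y * (cexp (-G y) * -logDeriv h y) = 0 := by
        rw [logDeriv_apply]
        field_simp
        ring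
      rw [e] at h1
      exact h1
    have hc2 : h z * cexp (-G z) = h c * cexp (-G c) := by
      refine (convex_ball c R).is_const_of_fderivWithin_eq_zero (𝕜 := ℂ) (f := fun y => h y * cexp (-G y))
        (fun y hy => (hd y hy).differentiableAt.differentiableWithinAt) (fun y hy => ?_) hz hcm
      have h1 := (hd y hy).hasFDerivAt.hasFDerivWithinAt (s := ball c R)
      rw [h1.fderivWithin (isOpen_ball.uniqueDiffWithinAt hy)]
      ext
      simp
    calc h z = h z * cexp (-G z) * cexp (G z) := by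
          rw [mul_assoc, ← Complex.exp_add]; simp
      _ = h c * cexp (-G c) * cexp (G z) := by rw [hc2]
      _ = _ := by
          rw [mul_assoc, ← Complex.exp_add]
          congr 2
          ring
  set g : ℂ → ℂ := fun z => G z - G c - L * (z - c) with hg
  have hgd : ∀ z ∈ ball c R, HasDerivAt g (logDeriv h z - L) z := by
    intro z hz
    have h1 : HasDerivAt (fun z => G z - G c - L * (z - c)) (logDeriv h z - L * 1) z :=
      ((hG' z hz).sub_const (G c)).sub (((hasDerivAt_id z).sub_const c).const_mul (L : ℂ))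
    rw [mul_one] at h1
    exact h1
  have hnorm : ∀ z ∈ ball c R, ‖h z‖ = ‖h c‖ * Real.exp (L * (z.re - c.re) + (g z).re) := by
    intro z hz
    rw [hconst z hz, norm_mul, Complex.norm_exp]
    congr 2
    simp only [hg, sub_re, mul_re, ofReal_re, ofReal_im, sub_im, zero_mul, sub_zero]
    ring
  have hc0 : 0 < ‖h c‖ := norm_pos_iff.2 (hne c (by simpa using hRpos))
  -- the rescaled function
  set gt : ℂ → ℂ := fun ζ => g (c + R * ζ) with hgt
  have hmem : ∀ ζ ∈ ball (0 : ℂ) 1, c + R * ζ ∈ ball c R := by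
    intro ζ hζ
    rw [mem_ball_zero_iff] at hζ
    rw [mem_ball_iff_norm, add_sub_cancel_left, norm_mul, Complex.norm_real, Real.norm_of_nonneg hRpos.le]
    nlinarith
  have hre : ∀ ζ : ℂ, (c + R * ζ).re - c.re = R * ζ.re := by
    intro ζ; simp
  have hfin := H L gt hL (by
      intro ζ hζ
      have h1 : HasDerivAt (fun ζ : ℂ => c + R * ζ) (R : ℂ) ζ := by
        simpa using ((hasDerivAt_id ζ).const_mul (R : ℂ)).const_add c
      exact (HasDerivAt.comp (h := fun ζ : ℂ => c + R * ζ) ζ (hgd _ (hmem ζ hζ)) h1).differentiableAt.differentiableWithinAt)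
    (by simp [hgt, hg])
    (fun ζ hζ => by
      have h1 := hmem ζ hζ
      have h2 := hbd (c + R * ζ) (by rw [mem_ball_iff_norm] at h1; exact h1)
      rw [hnorm _ h1, mul_le_mul_iff_right₀ hc0, Real.exp_le_exp, hre] at h2
      have h3 : |ζ.re| ≤ 1 := (Complex.abs_re_le_norm ζ).trans (by rw [mem_ball_zero_iff] at hζ; exact hζ.le)
      rw [abs_le] at h3
      have h4 : -5 ≤ R * ζ.re := by nlinarith [h3.1]
      change (g (c + R * ζ)).re ≤ _
      nlinarith)
    (fun ζ hζ => by
      rw [mem_ball_zero_iff] at hζ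
      have h1 := hmem ζ (by rw [mem_ball_zero_iff]; linarith)
      have h2 := hsm (c + R * ζ) (by
        rw [add_sub_cancel_left, norm_mul, Complex.norm_real, Real.norm_of_nonneg hRpos.le]
        have : 0 ≤ ‖ζ‖ := norm_nonneg _
        nlinarith)
      rw [hnorm _ h1, mul_le_mul_iff_right₀ hc0, Real.exp_le_exp] at h2
      change (g (c + R * ζ)).re ≤ _
      linarith)
  -- back to `g`
  have hgs : ∀ z : ℂ, ‖z - c‖ ≤ c.re - δm → ‖g z‖ ≤ η2 * L := by
    intro z hz
    have h1 := hfin ((z - c) / R) (by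
      rw [norm_div, Complex.norm_real, Real.norm_of_nonneg hRpos.le, hr, div_le_div_iff₀ hRpos (by linarith)]
      have i1 : ‖z - c‖ * (5 - δ1) ≤ (c.re - δm) * (5 - δ1) := by
        apply mul_le_mul_of_nonneg_right hz (by linarith)
      have i2 : (c.re - δm) * (5 - δ1) ≤ (5 - δm) * R := by
        rw [hR]; nlinarith
      linarith)
    have hRc : (R : ℂ) ≠ 0 := by exact_mod_cast hRpos.ne'
    have e : c + R * ((z - c) / R) = z := by field_simp; ring
    simp only [hgt, e] at h1
    exact h1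
  have hwR : w ∈ ball c R := by rw [mem_ball_iff_norm]; linarith
  have hη2η : η2 ≤ η := by rw [hη2]; nlinarith
  constructor
  · -- Cauchy
    have hδpos : 0 < (δ2 - δ1) / 2 := by linarith
    have h1 : ‖deriv g w‖ ≤ (η2 * L) / ((δ2 - δ1) / 2) := by
      apply Complex.norm_deriv_le_of_forall_mem_sphere_norm_le (by positivity)
      · apply DifferentiableOn.diffContOnCl
        intro z hz
        rw [closure_ball _ hδpos.ne', mem_closedBall_iff_norm] at hz
        have : z ∈ ball c R := by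
          rw [mem_ball_iff_norm]
          have : ‖z - c‖ ≤ ‖z - w‖ + ‖w - c‖ := by
            have : z - c = (z - w) + (w - c) := by ring
            rw [this]; exact norm_add_le _ _
          linarith
        exact (hgd z this).differentiableAt.differentiableWithinAt
      · intro z hz
        rw [mem_sphere_iff_norm] at hz
        apply hgs
        have : ‖z - c‖ ≤ ‖z - w‖ + ‖w - c‖ := by
          have : z - c = (z - w) + (w - c) := by ring
          rw [this]; exact norm_add_le _ _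
        linarith
    rw [(hgd w hwR).deriv] at h1
    refine h1.trans (le_of_eq ?_)
    rw [hη2]
    have : (δ2 - δ1) ≠ 0 := by linarith
    field_simp
  · rw [hnorm w hwR]
    refine mul_le_mul_of_nonneg_left (Real.exp_le_exp.2 ?_) hc0.le
    have h1 := (Complex.abs_re_le_norm (g w)).trans (hgs w (by linarith))
    rw [abs_le] at h1
    have h2 : η2 * L ≤ η * L := by gcongr
    linarith [h1.1]

/-- transport for a zero-free entire function `h`: from the ball of radius `2` at `c` to the ball of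
radius `Re c - δ/2` -/
theorem transport {δ C η : ℝ} (hδ : 0 < δ) (hδ1 : δ ≤ 1) (hC : 0 ≤ C) (hη : 0 < η) :
    ∃ η1 > 0, ∀ (h : ℂ → ℂ) (c : ℂ) (L : ℝ), 0 < L → Differentiable ℂ h → 4 ≤ c.re → c.re ≤ 5 →
      (∀ w : ℂ, ‖w - c‖ < c.re - δ / 8 → h w ≠ 0) →
      (∀ w : ℂ, ‖w - c‖ < c.re - δ / 8 → ‖h w‖ ≤ ‖h c‖ * Real.exp (C * L)) →
      (∀ w : ℂ, ‖w - c‖ < 2 → ‖h w‖ ≤ ‖h c‖ * Real.exp (L * (w.re - c.re) + η1 * L)) →
      ∀ w : ℂ, ‖w - c‖ ≤ c.re - δ / 2 → ‖logDeriv h w - L‖ ≤ η * L ∧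
        ‖h c‖ * Real.exp (L * (w.re - c.re) - η * L) ≤ ‖h w‖ :=
  transport2 (by positivity) (by linarith) (by linarith) hC hη

end Pool.Agent.Helper85.DQ
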