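import Pool.Agent.Helper85.DQ.Sad
import Pool.Agent.Helper85.LG.Sad

/-!
The integral of `f z / z ^ κ` over a vertical segment through the saddle point.
-/

set_option autoImplicit false
set_option maxHeartbeats 2000000

open Complex Filter Topology Set MeasureTheory

namespace Pool.Agent.Helper85.DQ

/-- expansion of `(1 + x) ^ κ` -/
lemma pow_expand {x : ℂ} (hx : ‖x‖ ≤ 1 / 2) (κ : ℕ) :
    ∃ R : ℂ, ‖R‖ ≤ κ * ‖x‖ ^ 3 ∧ (1 + x) ^ κ = cexp (κ * (x - x ^ 2 / 2) + R) := by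
  have hx1 : ‖x‖ < 1 := by linarith
  have h1 := Complex.norm_log_sub_logTaylor_le 2 hx1
  have h2 : logTaylor (2 + 1) x = x - x ^ 2 / 2 := by
    simp [logTaylor, Finset.sum_range_succ]
    ring
  rw [h2] at h1
  have hne : (1 + x : ℂ) ≠ 0 := by
    intro h0
    have : x = -1 := by linear_combination h0
    rw [this] at hx1
    simp at hx1
  refine ⟨κ * (log (1 + x) - (x - x ^ 2 / 2)), ?_, ?_⟩
  · rw [norm_mul, Complex.norm_natCast]
    apply mul_le_mul_of_nonneg_left _ (Nat.cast_nonneg _)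
    refine h1.trans ?_
    have h3 : (1 - ‖x‖)⁻¹ ≤ 2 := by
      rw [inv_le_comm₀ (by linarith) (by norm_num)]
      linarith
    have h4 : 0 ≤ ‖x‖ ^ 3 := by positivity
    norm_num
    calc ‖x‖ ^ 3 * (1 - ‖x‖)⁻¹ / 3 ≤ ‖x‖ ^ 3 * 2 / 3 := by gcongr
      _ ≤ ‖x‖ ^ 3 := by linarith
  · have : (κ * (x - x ^ 2 / 2) + κ * (log (1 + x) - (x - x ^ 2 / 2)) : ℂ) = κ * log (1 + x) := by ring
    rw [this, Complex.exp_nat_mul, Complex.exp_log hne]

/-- the exponent along the vertical line through the saddle point -/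
lemma vert_exp {f : ℂ → ℂ} {ρ L ε d δ : ℝ} {κ : ℕ} {z0 : ℂ} (hρ : 0 < ρ) (hL : 0 < L)
    (hκ : (κ : ℝ) = ρ * L) (hd : 0 < d) (hε : 0 < ε) (hε1 : ε ≤ 1 / 1000) (hε2 : 400 * ρ * ε ≤ d)
    (hδ : 0 < δ) (hδρ : 100 * δ ≤ ρ) (hδd : 4 * δ ≤ d)
    (hf : Differentiable ℂ f)
    (hreg : ∀ z : ℂ, |z.re - ρ| < d → |z.im| < d → f z ≠ 0 ∧ ‖logDeriv f z - L‖ ≤ ε * L)
    (hz0 : ‖z0 - ρ‖ ≤ 2 * ρ * ε) (hsad : z0 * logDeriv f z0 = κ) {y : ℝ} (hy : |y| ≤ δ) :
    ∃ E : ℂ, ‖E + ((L / ρ / 2 * y ^ 2 : ℝ) : ℂ)‖ ≤ L / ρ / 20 * y ^ 2 ∧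
      f (z0 + y * I) / (z0 + y * I) ^ κ = f z0 / z0 ^ κ * cexp E := by
  have hρε : 0 < ρ * ε := by positivity
  have hz0n : ρ * (998 / 1000) ≤ ‖z0‖ := by
    have h1 : ‖(ρ : ℂ)‖ - ‖z0‖ ≤ ‖(ρ : ℂ) - z0‖ := norm_sub_norm_le _ _
    rw [norm_sub_rev, Complex.norm_real, Real.norm_of_nonneg hρ.le] at h1
    nlinarith
  have hz0p : 0 < ‖z0‖ := by nlinarith
  have hz0ne : z0 ≠ 0 := norm_pos_iff.1 hz0p
  have hre : |z0.re - ρ| ≤ d / 200 := by
    have h1 := Complex.abs_re_le_norm (z0 - ρ)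
    simp only [sub_re, ofReal_re] at h1
    linarith
  have him : |z0.im| ≤ d / 200 := by
    have h1 := Complex.abs_im_le_norm (z0 - ρ)
    simp only [sub_im, ofReal_im, sub_zero] at h1
    linarith
  set U : Set ℂ := {z : ℂ | |z.re - ρ| < d ∧ |z.im| < d} with hU
  have hUo : IsOpen U := by
    apply IsOpen.inter
    · exact isOpen_lt (Complex.continuous_re.sub continuous_const).abs continuous_const
    · exact isOpen_lt Complex.continuous_im.abs continuous_const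
  set s : Set ℂ := {z : ℂ | z.re = z0.re ∧ -(d / 2) ≤ z.im ∧ z.im ≤ d / 2} with hs
  have hsc : Convex ℝ s := by
    intro a ha b hb p q hp hq hpq
    simp only [hs, mem_ofPred_eq] at ha hb ⊢
    obtain ⟨ha1, ha2, ha3⟩ := ha
    obtain ⟨hb1, hb2, hb3⟩ := hb
    have e1 : (p • a + q • b).re = p * a.re + q * b.re := by simp
    have e2 : (p • a + q • b).im = p * a.im + q * b.im := by simp
    rw [e1, e2, ha1, hb1]
    refine ⟨by rw [← add_mul, hpq, one_mul], ?_, ?_⟩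
    · nlinarith
    · nlinarith
  have hsU : ∀ z ∈ s, Metric.closedBall z (d / 4) ⊆ U := by
    intro z hz w hw
    simp only [hs, mem_ofPred_eq] at hz
    rw [mem_closedBall_iff_norm] at hw
    have h1 := (Complex.abs_re_le_norm (w - z)).trans hw
    have h2 := (Complex.abs_im_le_norm (w - z)).trans hw
    simp only [sub_re, sub_im] at h1 h2
    rw [abs_le] at h1 h2 hre
    refine ⟨?_, ?_⟩ <;> rw [abs_lt] <;> constructor <;> linarith [hz.1, hz.2.1, hz.2.2, h1.1, h1.2, h2.1, h2.2, hre.1, hre.2]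
  have hmem : ∀ τ : ℝ, |τ| ≤ δ → z0 + τ * I ∈ s := by
    intro τ hτ
    simp only [hs, mem_ofPred_eq]
    rw [abs_le] at hτ him
    simp
    constructor <;> linarith [hτ.1, hτ.2, him.1, him.2]
  have hmem0 : z0 ∈ s := by
    have := hmem 0 (by rw [abs_zero]; exact hδ.le)
    simpa using this
  have hsU' : ∀ z ∈ s, z ∈ U := fun z hz => hsU z hz (Metric.mem_closedBall_self (by positivity))
  obtain ⟨R, hR, hfR⟩ := Pool.Agent.Helper85.LG.seg (f := f) (s := z0) (T := δ) (B := ε * L / (d / 4))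
    (by positivity) hδ hf (fun τ hτ => (hreg _ (hsU' _ (hmem τ hτ)).1 (hsU' _ (hmem τ hτ)).2).1)
    (fun τ hτ => by
      have := ld_lip (f := f) hUo (L := L) (B := ε * L) (r := d / 4) (by positivity) hf.differentiableOn
        (fun z hz => (hreg z hz.1 hz.2).1) (fun z hz => (hreg z hz.1 hz.2).2) hsc hsU hmem0 (hmem τ hτ)
      refine this.trans (le_of_eq ?_)
      congr 1
      simp) y hy
  set x : ℂ := y * I / z0 with hx
  have hxn : ‖x‖ = |y| / ‖z0‖ := by rw [hx]; simp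
  have hxle : ‖x‖ ≤ 1 / 2 := by
    rw [hxn, div_le_iff₀ hz0p]
    nlinarith
  obtain ⟨R2, hR2, hpow⟩ := pow_expand hxle κ
  have hy2 : 0 ≤ y ^ 2 := sq_nonneg y
  have hyabs : |y| ^ 2 = y ^ 2 := sq_abs y
  refine ⟨R - κ * y ^ 2 / (2 * z0 ^ 2) - R2, ?_, ?_⟩
  · have e1 : R - κ * y ^ 2 / (2 * z0 ^ 2) - R2 + ((L / ρ / 2 * y ^ 2 : ℝ) : ℂ) =
        R - R2 + (L / ρ) * (y ^ 2 / 2) * ((z0 - ρ) * (z0 + ρ) / z0 ^ 2) := by
      have hk : (κ : ℂ) = ((ρ * L : ℝ) : ℂ) := by rw [← hκ]; simp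
      have hρc : (ρ : ℂ) ≠ 0 := by exact_mod_cast hρ.ne'
      rw [hk]
      push_cast
      field_simp
      ring
    rw [e1]
    have b1 : ‖R‖ ≤ L / ρ / 100 * y ^ 2 := by
      refine hR.trans ?_
      apply mul_le_mul_of_nonneg_right _ hy2
      rw [div_le_iff₀ (by positivity), div_div, div_mul_eq_mul_div, le_div_iff₀ (by positivity)]
      nlinarith
    have b2 : ‖R2‖ ≤ L / ρ / 90 * y ^ 2 := by
      refine hR2.trans ?_
      rw [hxn, div_pow, hκ]
      have h3 : |y| ^ 3 ≤ y ^ 2 * δ := by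
        calc |y| ^ 3 = |y| ^ 2 * |y| := by ring
          _ ≤ |y| ^ 2 * δ := by gcongr
          _ = _ := by rw [hyabs]
      have h4 : (ρ * (998 / 1000)) ^ 3 ≤ ‖z0‖ ^ 3 := by gcongr
      calc ρ * L * (|y| ^ 3 / ‖z0‖ ^ 3) ≤ ρ * L * (y ^ 2 * δ / (ρ * (998 / 1000)) ^ 3) := by gcongr
        _ ≤ L / ρ / 90 * y ^ 2 := by
          have e : ρ * L * (y ^ 2 * δ / (ρ * (998 / 1000)) ^ 3) =
              L / ρ * y ^ 2 * (δ / ρ) * (1000 / 998) ^ 3 := by
            field_simp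
          rw [e]
          have h5 : δ / ρ ≤ 1 / 100 := by
            rw [div_le_iff₀ hρ]; linarith
          have h6 : 0 ≤ L / ρ * y ^ 2 := by positivity
          calc L / ρ * y ^ 2 * (δ / ρ) * (1000 / 998) ^ 3 ≤ L / ρ * y ^ 2 * (1 / 100) * (1000 / 998) ^ 3 := by
                gcongr
            _ ≤ _ := by nlinarith
    have b3 : ‖(L / ρ) * (y ^ 2 / 2) * ((z0 - ρ) * (z0 + ρ) / z0 ^ 2)‖ ≤ L / ρ * (y ^ 2 / 2) * (5 * ε) := by
      rw [norm_mul]
      have e2 : ‖((L : ℂ) / ρ) * (y ^ 2 / 2)‖ = L / ρ * (y ^ 2 / 2) := by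
        have : ((L : ℂ) / ρ) * (y ^ 2 / 2) = ((L / ρ * (y ^ 2 / 2) : ℝ) : ℂ) := by push_cast; ring
        rw [this, Complex.norm_real, Real.norm_of_nonneg (by positivity)]
      rw [e2]
      apply mul_le_mul_of_nonneg_left _ (by positivity)
      rw [norm_div, norm_mul, norm_pow, div_le_iff₀ (by positivity)]
      have h3 : ‖z0 + ρ‖ ≤ ρ * (2 + 2 * ε) := by
        have : z0 + ρ = (z0 - ρ) + ((2 * ρ : ℝ) : ℂ) := by push_cast; ring
        rw [this]
        refine (norm_add_le _ _).trans ?_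
        rw [Complex.norm_real, Real.norm_of_nonneg (by positivity)]
        nlinarith
      have h4 : (ρ * (998 / 1000)) ^ 2 ≤ ‖z0‖ ^ 2 := by gcongr
      calc ‖z0 - ρ‖ * ‖z0 + ρ‖ ≤ (2 * ρ * ε) * (ρ * (2 + 2 * ε)) := by gcongr
        _ ≤ 5 * ε * (ρ * (998 / 1000)) ^ 2 := by nlinarith [sq_nonneg ρ, mul_pos hρ hρ, mul_pos hρε hρ]
        _ ≤ _ := by gcongr
    have b4 : L / ρ * (y ^ 2 / 2) * (5 * ε) ≤ L / ρ / 400 * y ^ 2 := by
      have : L / ρ * (y ^ 2 / 2) * (5 * ε) = L / ρ * y ^ 2 * (5 / 2 * ε) := by ring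
      rw [this]
      have h6 : 0 ≤ L / ρ * y ^ 2 := by positivity
      nlinarith
    have h6 : 0 ≤ L / ρ * y ^ 2 := by positivity
    calc _ ≤ ‖R‖ + ‖R2‖ + ‖(L / ρ) * (y ^ 2 / 2) * ((z0 - ρ) * (z0 + ρ) / z0 ^ 2)‖ :=
          (norm_add_le _ _).trans (by gcongr; exact norm_sub_le _ _)
      _ ≤ L / ρ / 100 * y ^ 2 + L / ρ / 90 * y ^ 2 + L / ρ / 400 * y ^ 2 := by linarith
      _ ≤ _ := by nlinarith
  · have e1 : z0 + y * I = z0 * (1 + x) := by rw [hx]; field_simp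
    rw [hfR]
    rw [e1, mul_pow, hpow]
    have e3 : R - κ * y ^ 2 / (2 * z0 ^ 2) - R2 =
        (I * y * logDeriv f z0 + R) - (κ * (x - x ^ 2 / 2) + R2) := by
      have e4 : (κ : ℂ) * x = I * y * logDeriv f z0 := by
        rw [← hsad, hx]
        field_simp
      have e5 : (κ : ℂ) * x ^ 2 = - (κ * y ^ 2 / z0 ^ 2) := by
        rw [hx, div_pow, mul_pow, I_sq]
        ring
      linear_combination e4 - e5 / 2
    rw [e3, Complex.exp_sub]
    field_simp

lemma pow_le_exp {ρ x ε : ℝ} (hρ : 0 ≤ ρ) (hx : 0 ≤ x) (h : x ≤ ρ * (1 + 2 * ε)) (κ : ℕ) :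
    x ^ κ ≤ ρ ^ κ * Real.exp (κ * (2 * ε)) := by
  have h1 : x ≤ ρ * Real.exp (2 * ε) :=
    h.trans (mul_le_mul_of_nonneg_left (by linarith [Real.add_one_le_exp (2 * ε)]) hρ)
  calc x ^ κ ≤ (ρ * Real.exp (2 * ε)) ^ κ := pow_le_pow_left₀ hx h1 κ
    _ = _ := by rw [mul_pow, ← Real.exp_nat_mul]

lemma fin_cmp {F F0 r z s A B D E : ℝ} (hr : 0 < r) (hz : 0 < z) (hF0 : 0 ≤ F0)
    (g1 : F ≤ F0 * Real.exp A) (g2 : z ≤ r * Real.exp B) (g3 : Real.exp (-D) ≤ s)
    (hE : E = A + B + D) : F / r * Real.exp (-E) ≤ F0 / z * s := by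
  have h1 : F / r ≤ F0 / z * Real.exp (A + B) := by
    rw [div_le_iff₀ hr]
    calc F ≤ F0 * Real.exp A := g1
      _ = F0 / z * Real.exp A * z := by field_simp
      _ ≤ F0 / z * Real.exp A * (r * Real.exp B) := by gcongr
      _ = _ := by rw [Real.exp_add]; ring
  calc F / r * Real.exp (-E) ≤ F0 / z * Real.exp (A + B) * Real.exp (-E) := by gcongr
    _ = F0 / z * Real.exp (-D) := by
        rw [mul_assoc, ← Real.exp_add, hE]
        congr 2
        ring
    _ ≤ _ := by gcongr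

lemma ev_small {c K ε : ℝ} (hc : 0 < c) (hε : 0 < ε) :
    ∃ L0 : ℝ, 1 ≤ L0 ∧ ∀ L : ℝ, L0 ≤ L → K * Real.sqrt L * Real.exp (-(c * L)) ≤ ε := by
  have h1 : Tendsto (fun L : ℝ => L ^ (1 / 2 : ℝ) * Real.exp (-(c * L))) atTop (𝓝 0) := by
    have := tendsto_rpow_mul_exp_neg_mul_atTop_nhds_zero (1 / 2) c hc
    simpa [neg_mul] using this
  have h2 : Tendsto (fun L : ℝ => K * Real.sqrt L * Real.exp (-(c * L))) atTop (𝓝 0) := by
    have := h1.const_mul K
    rw [mul_zero] at this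
    refine this.congr fun L => ?_
    rw [Real.sqrt_eq_rpow]
    ring
  have h3 := (h2.eventually (eventually_le_nhds hε)).and (eventually_ge_atTop 1)
  obtain ⟨L0, hL0⟩ := eventually_atTop.1 h3
  exact ⟨max L0 1, le_max_right _ _, fun L hL => (hL0 L ((le_max_left _ _).trans hL)).1⟩

set_option maxHeartbeats 20000000 in
/-- The integral over the vertical segment through the saddle point. -/
theorem vert {ρ1 ρ2 d h : ℝ} (hρ1 : 0 < ρ1) (hρ12 : ρ1 ≤ ρ2) (hd : 0 < d) (hdh : d ≤ h) :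
    ∃ ε0 > 0, ∀ ε : ℝ, 0 < ε → ε ≤ ε0 → ∃ L0 : ℝ, 1 ≤ L0 ∧
      ∀ (L ρ : ℝ) (κ : ℕ) (f : ℂ → ℂ), L0 ≤ L → ρ1 ≤ ρ → ρ ≤ ρ2 → (κ : ℝ) = ρ * L →
        Differentiable ℂ f →
        (∀ z : ℂ, |z.re - ρ| < d → |z.im| < h + d → f z ≠ 0 ∧ ‖logDeriv f z - L‖ ≤ ε * L) →
        ∃ r0 : ℝ, 0 < r0 ∧ |r0 - ρ| ≤ 2 * ρ * ε ∧
          (∫ v in (-h)..h, ‖f (r0 + v * I) / (r0 + v * I) ^ κ‖) ≤
            5 * ‖∫ v in (-h)..h, f (r0 + v * I) / (r0 + v * I) ^ κ‖ ∧
          ‖f ρ‖ / ρ ^ κ * Real.exp (-((5 * ρ2 + 1) * ε * L)) ≤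
            ‖∫ v in (-h)..h, f (r0 + v * I) / (r0 + v * I) ^ κ‖ := by
  have hρ2 : 0 < ρ2 := lt_of_lt_of_le hρ1 hρ12
  have hh : 0 < h := lt_of_lt_of_le hd hdh
  set δ : ℝ := min (ρ1 / 100) (d / 4) with hδdef
  have hδ : 0 < δ := by positivity
  have hδ1 : δ ≤ ρ1 / 100 := min_le_left _ _
  have hδ2 : δ ≤ d / 4 := min_le_right _ _
  -- the decay constant
  set q : ℝ := δ ^ 2 / (8 * ρ2 ^ 2) with hq
  have hq0 : 0 < q := by positivity
  set c4 : ℝ := Real.log (1 + q) / 2 with hc4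
  have hc40 : 0 < c4 := by
    have := Real.log_pos (x := 1 + q) (by linarith)
    positivity
  set ε0 : ℝ := min (min (1 / 1000) (d / (400 * ρ2))) (min (δ / (8 * ρ2)) (c4 * ρ1 / (4 * (h + 1)))) with hε0
  have hε00 : 0 < ε0 := by positivity
  refine ⟨ε0, hε00, fun ε hε hεε => ?_⟩
  have hε1 : ε ≤ 1 / 1000 := hεε.trans ((min_le_left _ _).trans (min_le_left _ _))
  have hε2 : ε ≤ d / (400 * ρ2) := hεε.trans ((min_le_left _ _).trans (min_le_right _ _))
  have hε3 : ε ≤ δ / (8 * ρ2) := hεε.trans ((min_le_right _ _).trans (min_le_left _ _))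
  have hε4 : ε ≤ c4 * ρ1 / (4 * (h + 1)) := hεε.trans ((min_le_right _ _).trans (min_le_right _ _))
  rw [le_div_iff₀ (by positivity)] at hε2 hε3 hε4
  obtain ⟨La, hLa1, hLa⟩ := ev_small (c := c4 * ρ1 / 2) (K := 20 * h / Real.sqrt ρ1) (ε := 1)
    (by positivity) one_pos
  obtain ⟨Lb, hLb1, hLb⟩ := ev_small (c := ε) (K := 5 / 4 / Real.sqrt ρ1) (ε := 1) hε one_pos
  set Lc : ℝ := ρ2 / δ ^ 2 with hLc
  refine ⟨max (max La Lb) Lc, (hLa1.trans (le_max_left _ _)).trans (le_max_left _ _),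
    fun L ρ κ f hL h1 h2 hκ hf hreg => ?_⟩
  have hLLa : La ≤ L := (le_max_left _ _).trans ((le_max_left _ _).trans hL)
  have hLLb : Lb ≤ L := (le_max_right _ _).trans ((le_max_left _ _).trans hL)
  have hLLc : Lc ≤ L := (le_max_right _ _).trans hL
  have hLpos : 0 < L := by linarith
  have hρ : 0 < ρ := by linarith
  have hρε : 0 < ρ * ε := by positivity
  have hρε2 : ρ * ε ≤ ρ2 * ε := by gcongr
  obtain ⟨z0, hz0, hsad⟩ := exists_saddle (f := f) (ρ := ρ) (L := L) (ε := ε) (d := d) (κ := κ) hρ hLpos hκ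
    hd hε (by linarith) (by nlinarith) (fun z hz => by
      have h3 := (Complex.abs_re_le_norm (z - ρ)).trans_lt hz
      have h4 := (Complex.abs_im_le_norm (z - ρ)).trans_lt hz
      simp only [sub_re, ofReal_re, sub_im, ofReal_im, sub_zero] at h3 h4
      have := hreg z h3 (by linarith)
      exact ⟨hf z, this.1, this.2⟩)
  have hz0r : |z0.re - ρ| ≤ 2 * ρ * ε := by
    have h1 := Complex.abs_re_le_norm (z0 - ρ)
    simp only [sub_re, ofReal_re] at h1
    linarith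
  have hz0i : |z0.im| ≤ 2 * ρ * ε := by
    have h1 := Complex.abs_im_le_norm (z0 - ρ)
    simp only [sub_im, ofReal_im, sub_zero] at h1
    linarith
  have hvδ : |z0.im| ≤ δ / 4 := by nlinarith
  set r0 : ℝ := z0.re with hr0
  set v0 : ℝ := z0.im with hv0
  have hz0e : z0 = r0 + v0 * I := (Complex.re_add_im z0).symm
  have hr0p : 0 < r0 := by
    have := (abs_le.1 hz0r).1
    nlinarith
  have hz0p : 0 < ‖z0‖ := norm_pos_iff.2 (by intro h; rw [h] at hr0; simp at hr0; linarith)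
  have hz0ne : z0 ≠ 0 := norm_pos_iff.1 hz0p
  have hz0le : ‖z0‖ ≤ ρ * (1 + 2 * ε) := by
    have : z0 = (z0 - ρ) + (ρ : ℂ) := by ring
    rw [this]
    refine (norm_add_le _ _).trans ?_
    rw [Complex.norm_real, Real.norm_of_nonneg hρ.le]
    nlinarith
  set a : ℝ := L / ρ with ha
  have ha0 : 0 < a := by positivity
  have haδ : 1 ≤ a * δ ^ 2 := by
    rw [hLc, div_le_iff₀ (by positivity)] at hLLc
    rw [ha, div_mul_eq_mul_div, le_div_iff₀ hρ]
    linarith
  have hfz0 : f z0 ≠ 0 := (hreg z0 (by linarith) (by linarith)).1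
  have hM0 : 0 < ‖f z0 / z0 ^ κ‖ := by
    rw [norm_pos_iff]
    exact div_ne_zero hfz0 (pow_ne_zero _ hz0ne)
  set M0 : ℝ := ‖f z0 / z0 ^ κ‖ with hM0def
  -- the main part
  set H : ℝ → ℂ := fun y => f (z0 + y * I) / (z0 + y * I) ^ κ / (f z0 / z0 ^ κ) with hH
  have hne : ∀ y : ℝ, (z0 + y * I : ℂ) ≠ 0 := by
    intro y h0
    have := congrArg re h0
    simp at this
    linarith
  have hHc : Continuous H := by
    simp only [hH]
    have e1 : Continuous fun y : ℝ => f (z0 + y * I) := hf.continuous.comp (by fun_prop)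
    have e2 : Continuous fun y : ℝ => (z0 + y * I : ℂ) ^ κ := by fun_prop
    exact (e1.div e2 fun y => pow_ne_zero _ (hne y)).div_const _
  have hgs := gauss_seg (a := a) (δ := δ) ha0 hδ haδ (H := H) hHc.continuousOn (fun y hy => by
    obtain ⟨E, hE1, hE2⟩ := vert_exp (f := f) (ρ := ρ) (L := L) (ε := ε) (d := d) (δ := δ) (κ := κ) (z0 := z0)
      hρ hLpos hκ hd hε hε1 (by nlinarith) hδ (by linarith) (by linarith) hf
      (fun z hz1 hz2 => hreg z hz1 (by linarith)) hz0 hsad hy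
    refine ⟨E, hE1, ?_⟩
    simp only [hH]
    rw [hE2, mul_div_cancel_left₀ _ (norm_pos_iff.1 hM0)])
  set g : ℝ → ℂ := fun v => f (r0 + v * I) / (r0 + v * I) ^ κ with hg
  have hgH : ∀ y : ℝ, g (v0 + y) = f z0 / z0 ^ κ * H y := by
    intro y
    simp only [hg, hH]
    rw [mul_div_cancel₀ _ (norm_pos_iff.1 hM0), hz0e]
    push_cast
    ring_nf
  have hgc : Continuous g := by
    simp only [hg]
    have e1 : Continuous fun y : ℝ => f (r0 + y * I) := hf.continuous.comp (by fun_prop)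
    have e2 : Continuous fun y : ℝ => (r0 + y * I : ℂ) ^ κ := by fun_prop
    refine e1.div e2 fun y => pow_ne_zero _ ?_
    intro h0
    have := congrArg re h0
    simp at this
    linarith
  -- the rest
  have hrest : ∀ v : ℝ, |v| ≤ h → δ ≤ |v - v0| → ‖g v‖ ≤ M0 * Real.exp (-(c4 * ρ1 / 2 * L)) := by
    intro v hv hvv
    set y : ℝ := v - v0 with hy
    have hzv : (r0 + v * I : ℂ) = z0 + y * I := by
      rw [hz0e, hy]; push_cast; ring
    have hyh : |y| ≤ 2 * h := by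
      have : |y| ≤ |v| + |v0| := by rw [hy]; exact abs_sub _ _
      linarith
    have hgrow := growth (g := f) (z1 := z0) (z2 := z0 + y * I) (L := L) (M := ε * L)
      (fun z _ => hf z)
      (fun z hz => by
        rw [segment_eq_image'] at hz
        obtain ⟨τ, hτ, rfl⟩ := hz
        refine (hreg _ ?_ ?_).1
        · simp
          linarith
        · simp
          have e1 : |v0 + τ * y| ≤ h + δ / 4 := by
            have : v0 + τ * y = (1 - τ) * v0 + τ * v := by rw [hy]; ring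
            rw [this]
            calc |(1 - τ) * v0 + τ * v| ≤ |(1 - τ) * v0| + |τ * v| := abs_add_le _ _
              _ = (1 - τ) * |v0| + τ * |v| := by
                rw [abs_mul, abs_mul, abs_of_nonneg (by linarith [hτ.2] : 0 ≤ 1 - τ), abs_of_nonneg hτ.1]
              _ ≤ 1 * (δ / 4) + 1 * h := by
                have := hτ.1
                have := hτ.2
                gcongr <;> linarith
              _ = _ := by ring
          linarith)
      (fun z hz => by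
        rw [segment_eq_image'] at hz
        obtain ⟨τ, hτ, rfl⟩ := hz
        refine (hreg _ ?_ ?_).2
        · simp
          linarith
        · simp
          have e1 : |v0 + τ * y| ≤ h + δ / 4 := by
            have : v0 + τ * y = (1 - τ) * v0 + τ * v := by rw [hy]; ring
            rw [this]
            calc |(1 - τ) * v0 + τ * v| ≤ |(1 - τ) * v0| + |τ * v| := abs_add_le _ _
              _ = (1 - τ) * |v0| + τ * |v| := by
                rw [abs_mul, abs_mul, abs_of_nonneg (by linarith [hτ.2] : 0 ≤ 1 - τ), abs_of_nonneg hτ.1]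
              _ ≤ 1 * (δ / 4) + 1 * h := by
                have := hτ.1
                have := hτ.2
                gcongr <;> linarith
              _ = _ := by ring
          linarith)
    have e1 : (z0 + y * I - z0 : ℂ) = y * I := by ring
    have e2 : (z0 + y * I : ℂ).re - z0.re = 0 := by simp
    rw [e1, e2, mul_zero, zero_add, norm_mul, Complex.norm_I, mul_one, Complex.norm_real,
      Real.norm_eq_abs] at hgrow
    have hn1 : ‖z0‖ ^ 2 * (1 + q) ≤ ‖z0 + y * I‖ ^ 2 := by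
      have e3 : ‖z0 + y * I‖ ^ 2 = ‖z0‖ ^ 2 + 2 * v0 * y + y ^ 2 := by
        rw [Complex.sq_norm, Complex.sq_norm, Complex.normSq_apply, Complex.normSq_apply]
        simp
        ring
      have e4 : |v0 * y| ≤ y ^ 2 / 4 := by
        rw [abs_mul, ← sq_abs y]
        nlinarith [abs_nonneg y]
      have e5 : δ ^ 2 ≤ y ^ 2 := by
        rw [← sq_abs y]; gcongr
      have e6 : ‖z0‖ ^ 2 * q ≤ δ ^ 2 / 2 := by
        have : ‖z0‖ ≤ 2 * ρ2 := by nlinarith
        have : ‖z0‖ ^ 2 ≤ (2 * ρ2) ^ 2 := by gcongr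
        calc ‖z0‖ ^ 2 * q ≤ (2 * ρ2) ^ 2 * q := by gcongr
          _ = δ ^ 2 / 2 := by rw [hq]; field_simp; ring
      rw [e3]
      have := (abs_le.1 e4).1
      nlinarith
    have hlog : Real.exp (2 * c4) = 1 + q := by
      rw [hc4, mul_div_cancel₀ _ (by norm_num : (2 : ℝ) ≠ 0), Real.exp_log (by linarith)]
    have hn2 : ‖z0‖ * Real.exp c4 ≤ ‖z0 + y * I‖ := by
      apply le_of_sq_le_sq _ (norm_nonneg _)
      rw [mul_pow, ← Real.exp_nat_mul]
      push_cast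
      rw [hlog]
      exact hn1
    have hn3 : ‖z0‖ ^ κ * Real.exp (c4 * κ) ≤ ‖z0 + y * I‖ ^ κ := by
      calc ‖z0‖ ^ κ * Real.exp (c4 * κ) = (‖z0‖ * Real.exp c4) ^ κ := by
            rw [mul_pow, ← Real.exp_nat_mul]; ring_nf
        _ ≤ _ := by gcongr
    have hzy : 0 < ‖z0 + y * I‖ := norm_pos_iff.2 (hne y)
    simp only [hg]
    rw [hzv, norm_div, norm_pow, hM0def, norm_div, norm_pow, div_le_iff₀ (by positivity)]
    have hgrow2 : ‖f (z0 + y * I)‖ ≤ ‖f z0‖ * Real.exp (c4 * ρ1 / 2 * L) := by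
      refine hgrow.trans ?_
      refine mul_le_mul_of_nonneg_left (Real.exp_le_exp.2 ?_) (norm_nonneg _)
      have : ε * |y| ≤ c4 * ρ1 / 2 := by
        calc ε * |y| ≤ ε * (2 * h) := by gcongr
          _ ≤ c4 * ρ1 / 2 := by nlinarith
      calc ε * L * |y| = ε * |y| * L := by ring
        _ ≤ c4 * ρ1 / 2 * L := by gcongr
    have hκ2 : c4 * ρ1 * L ≤ c4 * κ := by
      rw [hκ]
      nlinarith [mul_pos hc40 hLpos]
    calc ‖f (z0 + y * I)‖ ≤ ‖f z0‖ * Real.exp (c4 * ρ1 / 2 * L) := hgrow2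
      _ ≤ ‖f z0‖ * (Real.exp (-(c4 * ρ1 / 2 * L)) * Real.exp (c4 * κ)) := by
          rw [← Real.exp_add]
          gcongr
          linarith
      _ = ‖f z0‖ / ‖z0‖ ^ κ * Real.exp (-(c4 * ρ1 / 2 * L)) * (‖z0‖ ^ κ * Real.exp (c4 * κ)) := by
          field_simp
      _ ≤ _ := by gcongr
  set e : ℝ := M0 * Real.exp (-(c4 * ρ1 / 2 * L)) with he
  have he0 : 0 < e := by positivity
  -- splitting
  have hv1 : -h ≤ v0 - δ := by
    have := (abs_le.1 hvδ).1
    linarith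
  have hv2 : v0 + δ ≤ h := by
    have := (abs_le.1 hvδ).2
    linarith
  have hv3 : v0 - δ ≤ v0 + δ := by linarith
  have hsplit : ∀ G : ℝ → ℝ, Continuous G → ∫ v in (-h)..h, G v =
      (∫ v in (-h)..(v0 - δ), G v) + (∫ v in (v0 - δ)..(v0 + δ), G v) + ∫ v in (v0 + δ)..h, G v := by
    intro G hG
    rw [intervalIntegral.integral_add_adjacent_intervals (hG.intervalIntegrable _ _) (hG.intervalIntegrable _ _),
      intervalIntegral.integral_add_adjacent_intervals (hG.intervalIntegrable _ _) (hG.intervalIntegrable _ _)]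
  have hsplitC : ∫ v in (-h)..h, g v =
      (∫ v in (-h)..(v0 - δ), g v) + (∫ v in (v0 - δ)..(v0 + δ), g v) + ∫ v in (v0 + δ)..h, g v := by
    rw [intervalIntegral.integral_add_adjacent_intervals (hgc.intervalIntegrable _ _) (hgc.intervalIntegrable _ _),
      intervalIntegral.integral_add_adjacent_intervals (hgc.intervalIntegrable _ _) (hgc.intervalIntegrable _ _)]
  have hleft : ∫ v in (-h)..(v0 - δ), ‖g v‖ ≤ 2 * h * e := by
    have h3 : ∫ v in (-h)..(v0 - δ), ‖g v‖ ≤ ∫ v in (-h)..(v0 - δ), e := by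
      apply intervalIntegral.integral_mono_on hv1 (hgc.norm.intervalIntegrable _ _) (by simp)
      intro v hv
      apply hrest v
      · rw [abs_le]; constructor <;> linarith [hv.1, hv.2]
      · rw [abs_of_nonpos (by linarith [hv.2])]; linarith [hv.2]
    rw [intervalIntegral.integral_const, smul_eq_mul] at h3
    have : v0 - δ - -h ≤ 2 * h := by linarith
    nlinarith
  have hright : ∫ v in (v0 + δ)..h, ‖g v‖ ≤ 2 * h * e := by
    have h3 : ∫ v in (v0 + δ)..h, ‖g v‖ ≤ ∫ v in (v0 + δ)..h, e := by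
      apply intervalIntegral.integral_mono_on hv2 (hgc.norm.intervalIntegrable _ _) (by simp)
      intro v hv
      apply hrest v
      · rw [abs_le]; constructor <;> linarith [hv.1, hv.2]
      · rw [abs_of_nonneg (by linarith [hv.1])]; linarith [hv.1]
    rw [intervalIntegral.integral_const, smul_eq_mul] at h3
    have : h - (v0 + δ) ≤ 2 * h := by linarith
    nlinarith
  have hmid : ∫ v in (v0 - δ)..(v0 + δ), g v = f z0 / z0 ^ κ * ∫ y in (-δ)..δ, H y := by
    rw [← intervalIntegral.integral_const_mul]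
    have := intervalIntegral.integral_comp_add_left (a := -δ) (b := δ) g v0
    rw [show v0 + -δ = v0 - δ by ring] at this
    rw [← this]
    exact intervalIntegral.integral_congr fun y _ => hgH y
  have hmidN : ∫ v in (v0 - δ)..(v0 + δ), ‖g v‖ = M0 * ∫ y in (-δ)..δ, ‖H y‖ := by
    rw [← intervalIntegral.integral_const_mul]
    have := intervalIntegral.integral_comp_add_left (a := -δ) (b := δ) (fun v => ‖g v‖) v0
    rw [show v0 + -δ = v0 - δ by ring] at this
    rw [← this]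
    refine intervalIntegral.integral_congr fun y _ => ?_
    rw [hgH y, norm_mul]
  have hsa : 0 < Real.sqrt a := Real.sqrt_pos.2 ha0
  have hesm : 4 * h * e ≤ M0 * (1 / 5 / Real.sqrt a) := by
    have h3 := hLa L hLLa
    have h4 : Real.sqrt a ≤ Real.sqrt L / Real.sqrt ρ1 := by
      rw [← Real.sqrt_div' _ hρ1.le]
      apply Real.sqrt_le_sqrt
      rw [ha]
      gcongr
    rw [he, div_div, mul_one_div, le_div_iff₀ (by positivity)]
    have h5 : 20 * h * Real.exp (-(c4 * ρ1 / 2 * L)) * Real.sqrt a ≤ 1 := by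
      refine le_trans ?_ h3
      calc 20 * h * Real.exp (-(c4 * ρ1 / 2 * L)) * Real.sqrt a ≤
          20 * h * Real.exp (-(c4 * ρ1 / 2 * L)) * (Real.sqrt L / Real.sqrt ρ1) := by gcongr
        _ = _ := by ring
    calc 4 * h * (M0 * Real.exp (-(c4 * ρ1 / 2 * L))) * (5 * Real.sqrt a) =
        M0 * (20 * h * Real.exp (-(c4 * ρ1 / 2 * L)) * Real.sqrt a) := by ring
      _ ≤ M0 * 1 := by gcongr
      _ = M0 := mul_one _
  have hlower : M0 * (4 / 5 / Real.sqrt a) ≤ ‖∫ v in (-h)..h, g v‖ := by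
    have n1 : ‖∫ v in (-h)..(v0 - δ), g v‖ ≤ 2 * h * e :=
      (intervalIntegral.norm_integral_le_integral_norm hv1).trans hleft
    have n2 : ‖∫ v in (v0 + δ)..h, g v‖ ≤ 2 * h * e :=
      (intervalIntegral.norm_integral_le_integral_norm hv2).trans hright
    have n3 : M0 * (1 / Real.sqrt a) ≤ ‖∫ v in (v0 - δ)..(v0 + δ), g v‖ := by
      rw [hmid, norm_mul]
      exact mul_le_mul_of_nonneg_left hgs.1 hM0.le
    have n4 : ‖∫ v in (v0 - δ)..(v0 + δ), g v‖ ≤ ‖∫ v in (-h)..h, g v‖ +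
        (‖∫ v in (-h)..(v0 - δ), g v‖ + ‖∫ v in (v0 + δ)..h, g v‖) := by
      have : ∫ v in (v0 - δ)..(v0 + δ), g v = (∫ v in (-h)..h, g v) -
          ((∫ v in (-h)..(v0 - δ), g v) + ∫ v in (v0 + δ)..h, g v) := by rw [hsplitC]; ring
      rw [this]
      exact (norm_sub_le _ _).trans (by gcongr; exact norm_add_le _ _)
    have n5 : M0 * (4 / 5 / Real.sqrt a) = M0 * (1 / Real.sqrt a) - M0 * (1 / 5 / Real.sqrt a) := by ring
    linarith
  refine ⟨r0, hr0p, hz0r, ?_, ?_⟩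
  · change ∫ v in (-h)..h, ‖g v‖ ≤ 5 * ‖∫ v in (-h)..h, g v‖
    rw [hsplit (fun v => ‖g v‖) hgc.norm, hmidN]
    have n6 : M0 * ∫ y in (-δ)..δ, ‖H y‖ ≤ M0 * (3 / Real.sqrt a) := mul_le_mul_of_nonneg_left hgs.2 hM0.le
    have n7 : M0 * (3 / Real.sqrt a) + M0 * (1 / 5 / Real.sqrt a) = 4 * (M0 * (4 / 5 / Real.sqrt a)) := by ring
    have n8 : 0 < M0 * (4 / 5 / Real.sqrt a) := by positivity
    linarith
  · refine le_trans ?_ hlower
    have hgrow := growth (g := f) (z1 := z0) (z2 := ρ) (L := L) (M := ε * L)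
      (fun z _ => hf z)
      (fun z hz => by
        rw [segment_eq_image'] at hz
        obtain ⟨τ, hτ, rfl⟩ := hz
        refine (hreg _ ?_ ?_).1
        · simp
          have : r0 + τ * (ρ - r0) - ρ = (1 - τ) * (r0 - ρ) := by ring
          rw [this, abs_mul, abs_of_nonneg (by linarith [hτ.2])]
          nlinarith [abs_nonneg (r0 - ρ), hτ.1]
        · simp
          have : v0 + -(τ * v0) = (1 - τ) * v0 := by ring
          rw [this, abs_mul, abs_of_nonneg (by linarith [hτ.2])]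
          nlinarith [abs_nonneg v0, hτ.1])
      (fun z hz => by
        rw [segment_eq_image'] at hz
        obtain ⟨τ, hτ, rfl⟩ := hz
        refine (hreg _ ?_ ?_).2
        · simp
          have : r0 + τ * (ρ - r0) - ρ = (1 - τ) * (r0 - ρ) := by ring
          rw [this, abs_mul, abs_of_nonneg (by linarith [hτ.2])]
          nlinarith [abs_nonneg (r0 - ρ), hτ.1]
        · simp
          have : v0 + -(τ * v0) = (1 - τ) * v0 := by ring
          rw [this, abs_mul, abs_of_nonneg (by linarith [hτ.2])]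
          nlinarith [abs_nonneg v0, hτ.1])
    have g1 : ‖f ρ‖ ≤ ‖f z0‖ * Real.exp (3 * ρ2 * ε * L) := by
      refine hgrow.trans ?_
      gcongr
      rw [ofReal_re, norm_sub_rev]
      have i1 : ρ - z0.re ≤ 2 * ρ * ε := by linarith [(abs_le.1 hz0r).1]
      have i2 : L * (ρ - z0.re) ≤ L * (2 * ρ * ε) := by gcongr
      have i3 : ε * L * ‖z0 - ρ‖ ≤ ε * L * (2 * ρ * ε) := by gcongr
      have i4 : L * (2 * ρ * ε) + ε * L * (2 * ρ * ε) = L * (ρ * ε) * (2 + 2 * ε) := by ring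
      have i5 : L * (ρ * ε) * (2 + 2 * ε) ≤ L * (ρ2 * ε) * 3 := by gcongr; linarith
      linarith
    have g2 : ‖z0‖ ^ κ ≤ ρ ^ κ * Real.exp (2 * ρ2 * ε * L) := by
      refine (pow_le_exp hρ.le hz0p.le hz0le κ).trans ?_
      refine mul_le_mul_of_nonneg_left (Real.exp_le_exp.2 ?_) (pow_nonneg hρ.le _)
      rw [hκ]
      have : L * (ρ * ε) ≤ L * (ρ2 * ε) := mul_le_mul_of_nonneg_left hρε2 hLpos.le
      linarith
    have g3 : Real.exp (-(ε * L)) ≤ 4 / 5 / Real.sqrt a := by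
      have h3 := hLb L hLLb
      have h4 : Real.sqrt a ≤ Real.sqrt L / Real.sqrt ρ1 := by
        rw [← Real.sqrt_div' _ hρ1.le]
        apply Real.sqrt_le_sqrt
        rw [ha]
        gcongr
      rw [le_div_iff₀ hsa]
      have h6 : 0 < Real.exp (-(ε * L)) := Real.exp_pos _
      have h5 : 5 / 4 * (Real.exp (-(ε * L)) * Real.sqrt a) ≤ 1 := by
        calc 5 / 4 * (Real.exp (-(ε * L)) * Real.sqrt a) ≤
            5 / 4 * (Real.exp (-(ε * L)) * (Real.sqrt L / Real.sqrt ρ1)) := by gcongr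
          _ = 5 / 4 / Real.sqrt ρ1 * Real.sqrt L * Real.exp (-(ε * L)) := by ring
          _ ≤ 1 := h3
      linarith
    have hρκ : 0 < ρ ^ κ := by positivity
    have hzκ : 0 < ‖z0‖ ^ κ := by positivity
    rw [hM0def, norm_div, norm_pow]
    exact fin_cmp hρκ hzκ (norm_nonneg _) g1 g2 g3 (by ring)

end Pool.Agent.Helper85.DQ
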