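import Pool.Agent.Helper39.LG.Two
import Pool.Graph.R_pool_sql_team_22c7b01f.H21.XiDef
import Mathlib

/-!
A function of controlled growth with few zeros in a disc is small inside (Backlund).
-/

set_option autoImplicit false
set_option maxHeartbeats 1000000

open Complex Filter Topology Metric MeasureTheory Set
open scoped ENNReal

namespace Pool.Agent.Helper85.DQ

open Pool.Agent.H21.Xi (cnt)

/-- a holomorphic logarithm -/
lemma branch_gen {R : ℝ} (hR : 0 < R) {g : ℂ → ℂ} (hg : DifferentiableOn ℂ g (ball 0 R))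
    (hne : ∀ z ∈ ball (0 : ℂ) R, g z ≠ 0) :
    ∃ φ : ℂ → ℂ, DifferentiableOn ℂ φ (ball 0 R) ∧ φ 0 = 0 ∧ ∀ z ∈ ball (0 : ℂ) R, g z = g 0 * exp (φ z) := by
  have hld : DifferentiableOn ℂ (fun w => deriv g w / g w) (ball 0 R) :=
    (hg.deriv isOpen_ball).div hg hne
  obtain ⟨F, hF⟩ := hld.isExactOn_ball
  refine ⟨fun w => F w - F 0, ?_, by simp, ?_⟩
  · intro w hw
    exact ((hF w hw).differentiableAt.sub_const _).differentiableWithinAt
  · set H : ℂ → ℂ := fun w => g w * exp (-(F w - F 0)) with hH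
    have hHd : ∀ w ∈ ball (0 : ℂ) R, HasDerivAt H 0 w := by
      intro w hw
      have h1 : HasDerivAt g (deriv g w) w := (hg.differentiableAt (isOpen_ball.mem_nhds hw)).hasDerivAt
      have h2 : HasDerivAt (fun w => exp (-(F w - F 0)))
          (exp (-(F w - F 0)) * (-(deriv g w / g w))) w :=
        ((hF w hw).sub_const _).neg.cexp
      have h3 := h1.mul h2
      have e : deriv g w * exp (-(F w - F 0)) + g w *
          (exp (-(F w - F 0)) * (-(deriv g w / g w))) = 0 := by
        have := hne w hw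
        field_simp
        ring
      rw [e] at h3
      exact h3
    intro w hw
    have hconst : H w = H 0 := by
      have hconv : Convex ℝ (ball (0 : ℂ) R) := convex_ball _ _
      exact (isOpen_ball.is_const_of_deriv_eq_zero hconv.isPreconnected
        (fun z hz => (hHd z hz).differentiableAt.differentiableWithinAt)
        (fun z hz => (hHd z hz).deriv) hw (mem_ball_self hR))
    rw [hH] at hconst
    simp only [sub_self, neg_zero, Complex.exp_zero, mul_one] at hconst
    rw [← hconst, mul_assoc, ← Complex.exp_add]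
    simp

/-- dividing out the zeros -/
lemma factor {U K : Set ℂ} (hU : IsOpen U) (hKU : K ⊆ U) : ∀ (n : ℕ) (f : ℂ → ℂ), DifferentiableOn ℂ f U →
    cnt f K ≤ n → ∃ (l : List ℂ) (g : ℂ → ℂ), l.length ≤ n ∧ (∀ a ∈ l, a ∈ K) ∧ DifferentiableOn ℂ g U ∧
      (∀ z ∈ K, g z ≠ 0) ∧ ∀ z, f z = (l.map (fun a => z - a)).prod * g z := by
  intro n
  induction n with
  | zero =>
    intro f hf hc
    refine ⟨[], f, le_rfl, by simp, hf, fun z hz h0 => ?_, by simp⟩
    have h1 : cnt f K = 0 := by simpa using hc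
    unfold cnt at h1
    rw [ENNReal.tsum_eq_zero] at h1
    have h2 := h1 ⟨z, hz⟩
    simp only [ENat.toENNReal_eq_zero] at h2
    have h3 : AnalyticAt ℂ f z := (hf.analyticAt (hU.mem_nhds (hKU hz)))
    exact (h3.analyticOrderAt_eq_zero.1 h2) h0
  | succ n ih =>
    intro f hf hc
    by_cases hz : ∀ z ∈ K, f z ≠ 0
    · exact ⟨[], f, by simp, by simp, hf, hz, by simp⟩
    push Not at hz
    obtain ⟨a, ha, hfa⟩ := hz
    have hg : DifferentiableOn ℂ (dslope f a) U :=
      (Complex.differentiableOn_dslope (hU.mem_nhds (hKU ha))).2 hf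
    have hfe : ∀ z, f z = (z - a) * dslope f a z := by
      intro z
      have := sub_smul_dslope f a z
      rw [hfa, sub_zero, smul_eq_mul] at this
      exact this.symm
    have hcn : cnt (dslope f a) K ≤ n := by
      have h1 : cnt f K = cnt (fun z => z - a) K + cnt (dslope f a) K := by
        unfold cnt
        rw [← ENNReal.tsum_add]
        refine tsum_congr fun w => ?_
        have hA1 : AnalyticAt ℂ (fun z : ℂ => z - a) (w : ℂ) := by fun_prop
        have hA2 : AnalyticAt ℂ (dslope f a) (w : ℂ) := hg.analyticAt (hU.mem_nhds (hKU w.2))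
        have h2 : f = (fun z : ℂ => z - a) * dslope f a := by
          funext z
          exact hfe z
        have h3 : analyticOrderAt f (w : ℂ) = analyticOrderAt (fun z : ℂ => z - a) (w : ℂ) +
            analyticOrderAt (dslope f a) (w : ℂ) := by
          conv_lhs => rw [h2]
          exact analyticOrderAt_mul hA1 hA2
        rw [h3, ENat.toENNReal_add]
      have h4 : 1 ≤ cnt (fun z : ℂ => z - a) K := by
        unfold cnt
        refine le_trans ?_ (ENNReal.le_tsum (⟨a, ha⟩ : K))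
        have hA1 : AnalyticAt ℂ (fun z : ℂ => z - a) a := by fun_prop
        have h5 : analyticOrderAt (fun z : ℂ => z - a) a ≠ 0 := by
          intro h
          exact (hA1.analyticOrderAt_eq_zero.1 h) (by simp)
        have h6 : (1 : ℕ∞) ≤ analyticOrderAt (fun z : ℂ => z - a) a := ENat.one_le_iff_ne_zero.2 h5
        exact_mod_cast h6
      rw [h1] at hc
      have h5 : (1 : ℝ≥0∞) + cnt (dslope f a) K ≤ 1 + n := by
        refine (add_le_add_left h4 _).trans (hc.trans (le_of_eq ?_))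
        push_cast
        ring
      exact (ENNReal.add_le_add_iff_left ENNReal.one_ne_top).1 h5
    obtain ⟨l, g, hl, hlK, hgd, hgK, hge⟩ := ih (dslope f a) hg hcn
    refine ⟨a :: l, g, by simpa using hl, ?_, hgd, hgK, fun z => ?_⟩
    · intro b hb
      rcases List.mem_cons.1 hb with h | h
      · rw [h]; exact ha
      · exact hlK b h
    · rw [hfe z, hge z, List.map_cons, List.prod_cons]
      ring

lemma prod_upper (l : List ℂ) (z : ℂ) {D : ℝ} (hD : 1 ≤ D) {n : ℕ} (hn : l.length ≤ n)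
    (h : ∀ a ∈ l, ‖z - a‖ ≤ D) : ‖(l.map (fun a => z - a)).prod‖ ≤ D ^ n := by
  have h1 : ‖(l.map (fun a => z - a)).prod‖ ≤ D ^ l.length := by
    clear hn
    induction l with
    | nil => simp
    | cons a l ih =>
      rw [List.map_cons, List.prod_cons, norm_mul, List.length_cons, pow_succ, mul_comm (D ^ l.length)]
      exact mul_le_mul (h a (by simp)) (ih fun b hb => h b (by simp [hb])) (norm_nonneg _) (by linarith)
  exact h1.trans (pow_le_pow_right₀ hD hn)

lemma prod_lower (l : List ℂ) (z : ℂ) {c : ℝ} (hc : 0 ≤ c) (hc1 : c ≤ 1) {n : ℕ} (hn : l.length ≤ n)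
    (h : ∀ a ∈ l, c ≤ ‖z - a‖) : c ^ n ≤ ‖(l.map (fun a => z - a)).prod‖ := by
  have h1 : c ^ l.length ≤ ‖(l.map (fun a => z - a)).prod‖ := by
    clear hn
    induction l with
    | nil => simp
    | cons a l ih =>
      rw [List.map_cons, List.prod_cons, norm_mul, List.length_cons, pow_succ, mul_comm (c ^ l.length)]
      exact mul_le_mul (h a (by simp)) (ih fun b hb => h b (by simp [hb])) (by positivity) (norm_nonneg _)
  exact (pow_le_pow_of_le_one hc hc1 hn).trans h1

/-- **Few zeros imply smallness.** -/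
theorem backlund {A C0 g η r0 : ℝ} (hA : 0 ≤ A) (hC0 : 0 ≤ C0) (hg : 0 < g) (hg1 : g ≤ 1 / 4) (hη : 0 < η)
    (hr0 : 0 < r0) (hr01 : r0 ≤ 1 / 2) :
    ∃ κ > 0, ∃ L0 : ℝ, ∀ L : ℝ, L0 ≤ L → ∀ R : ℝ, 1 ≤ R → R + g ≤ 3 / 2 → ∀ f : ℂ → ℂ,
      DifferentiableOn ℂ f (ball 0 2) → (∀ z : ℂ, ‖z‖ ≤ 3 / 2 → ‖f z‖ ≤ Real.exp (A * L)) →
      (∀ z : ℂ, ‖z‖ ≤ r0 → Real.exp (-C0) ≤ ‖f z‖ ∧ ‖f z‖ ≤ Real.exp C0) →
      cnt f (closedBall 0 R) ≤ ENNReal.ofReal (κ * L) → ∀ z : ℂ, ‖z‖ ≤ R - g → ‖f z‖ ≤ Real.exp (η * L) := by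
  set G : ℝ := -Real.log g with hG
  have hG0 : 0 ≤ G := by
    have := Real.log_nonpos hg.le (by linarith)
    linarith
  set G0 : ℝ := Real.log (2 / r0) + 1 with hG0'
  have hlr : 0 ≤ Real.log (2 / r0) := Real.log_nonneg (by rw [le_div_iff₀ hr0]; linarith)
  have hG01 : 1 ≤ G0 := by linarith
  have hl2 : Real.log 2 ≤ 1 := by
    have := Real.log_two_lt_d9
    linarith
  have hl3 : Real.log 3 ≤ 2 := by
    rw [Real.log_le_iff_le_exp (by norm_num)]
    have h2 : Real.exp 2 = Real.exp 1 * Real.exp 1 := by rw [← Real.exp_add]; norm_num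
    have := Real.exp_one_gt_d9
    nlinarith
  set M : ℝ := A + G + C0 + 1 with hM
  have hM1 : 1 ≤ M := by linarith
  obtain ⟨Lt, hLt0, hLt⟩ := Pool.Agent.Helper39.LG.two_const (r0 := r0 / 6) (r := 1 - 2 * g / 3)
    (R := 1 - g / 3) (A := 1) (C := 9 * M / g) (η := η / 2) (by positivity) (by linarith) (by linarith)
    (by linarith) (by norm_num) (by positivity) (by positivity)
  set κ : ℝ := min (1 / 2) (min (η / (8 * (2 + G0))) (1 / (8 * G0 * (Lt + 1)))) with hκ
  have hκ0 : 0 < κ := by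
    refine lt_min (by norm_num) (lt_min (by positivity) (by positivity))
  have hκ1 : κ ≤ 1 / 2 := min_le_left _ _
  have hκ2 : κ ≤ η / (8 * (2 + G0)) := (min_le_right _ _).trans (min_le_left _ _)
  have hκ3 : κ ≤ 1 / (8 * G0 * (Lt + 1)) := (min_le_right _ _).trans (min_le_right _ _)
  rw [le_div_iff₀ (by positivity)] at hκ2 hκ3
  refine ⟨κ, hκ0, max (max 1 (1 / κ)) (max ((2 * C0 + 1) / (2 * κ * G0)) (4 * C0 / η)),
    fun L hL R hR1 hR2 f hfd hfu hfs hcnt => ?_⟩
  simp only [max_le_iff] at hL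
  obtain ⟨⟨hL1, hL2⟩, hL3, hL4⟩ := hL
  rw [div_le_iff₀ hκ0] at hL2
  rw [div_le_iff₀ (by positivity)] at hL3
  rw [div_le_iff₀ hη] at hL4
  have hL0 : 0 < L := by linarith
  obtain ⟨n, hn⟩ : ∃ n : ℕ, n = ⌈κ * L⌉₊ := ⟨_, rfl⟩
  have hn1 : (n : ℝ) ≤ 2 * κ * L := by
    have := Nat.ceil_lt_add_one (show 0 ≤ κ * L by positivity)
    rw [← hn] at this
    linarith
  have hnL : (n : ℝ) ≤ L := by nlinarith
  have hn0 : (0 : ℝ) ≤ n := Nat.cast_nonneg n
  have hcn : cnt f (closedBall 0 R) ≤ n := by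
    refine hcnt.trans ?_
    rw [← ENNReal.ofReal_natCast]
    refine ENNReal.ofReal_le_ofReal ?_
    rw [hn]
    exact Nat.le_ceil _
  obtain ⟨l, g1, hl, hlK, hgd, hgK, hge⟩ := factor (U := ball (0 : ℂ) 2) (K := closedBall 0 R) isOpen_ball
    (closedBall_subset_ball (by linarith)) n f hfd hcn
  set P : ℂ → ℂ := fun z => (l.map (fun a => z - a)).prod with hP
  have hfe : ∀ z, ‖f z‖ = ‖P z‖ * ‖g1 z‖ := fun z => by rw [hge z, norm_mul]
  -- zeros
  have hla : ∀ a ∈ l, ‖a‖ ≤ R := fun a ha => by simpa using hlK a ha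
  have hla2 : ∀ a ∈ l, r0 < ‖a‖ := by
    intro a ha
    by_contra hcon
    push Not at hcon
    have h1 := (hfs a hcon).1
    have h2 : f a = 0 := by
      rw [hge a]
      have : (l.map (fun b => a - b)).prod = 0 := List.prod_eq_zero (List.mem_map.2 ⟨a, ha, by simp⟩)
      rw [this, zero_mul]
    rw [h2, norm_zero] at h1
    exact absurd h1 (not_le.2 (Real.exp_pos _))
  -- upper bound for the quotient
  have hexpg : Real.exp (n * G) = (g ^ n)⁻¹ := by
    rw [hG, mul_neg, Real.exp_neg, ← Real.log_pow, Real.exp_log (by positivity)]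
  have hg1u : ∀ z : ℂ, ‖z‖ ≤ R + g → ‖g1 z‖ ≤ Real.exp (A * L + n * G) := by
    have hdc : DiffContOnCl ℂ g1 (ball 0 (R + g)) := by
      refine DifferentiableOn.diffContOnCl (hgd.mono ?_)
      rw [closure_ball _ (by linarith)]
      exact closedBall_subset_ball (by linarith)
    intro z hz
    refine Complex.norm_le_of_forall_mem_frontier_norm_le (U := ball (0 : ℂ) (R + g)) isBounded_ball hdc ?_
      (by rw [closure_ball _ (by linarith)]; simpa using hz)
    intro w hw
    rw [frontier_ball _ (by linarith), mem_sphere_zero_iff_norm] at hw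
    have h1 : g ^ n ≤ ‖P w‖ := prod_lower l w hg.le (by linarith) hl fun a ha => by
      have h2 := hla a ha
      have h3 := norm_sub_norm_le w a
      linarith
    have h2 := hfu w (by linarith)
    rw [hfe w] at h2
    have h3 : g ^ n * ‖g1 w‖ ≤ Real.exp (A * L) :=
      (mul_le_mul_of_nonneg_right h1 (norm_nonneg _)).trans h2
    rw [Real.exp_add, hexpg, ← div_eq_mul_inv, le_div_iff₀ (by positivity), mul_comm]
    exact h3
  -- near the centre
  have hexp2 : Real.exp (n * Real.log 2) = 2 ^ n := by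
    rw [← Real.log_pow, Real.exp_log (by positivity)]
  have hexpr : Real.exp (n * Real.log (2 / r0)) = (2 / r0) ^ n := by
    rw [← Real.log_pow, Real.exp_log (by positivity)]
  have hcen1 : ∀ z : ℂ, ‖z‖ ≤ r0 / 2 → ‖g1 z‖ ≤ Real.exp (C0 + n * Real.log (2 / r0)) := by
    intro z hz
    have h1 : (r0 / 2) ^ n ≤ ‖P z‖ := prod_lower l z (by positivity) (by linarith) hl fun a ha => by
      have h2 := hla2 a ha
      have h3 := norm_sub_norm_le a z
      rw [norm_sub_rev] at h3
      linarith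
    have h2 := (hfs z (by linarith)).2
    rw [hfe z] at h2
    have h3 : (r0 / 2) ^ n * ‖g1 z‖ ≤ Real.exp C0 :=
      (mul_le_mul_of_nonneg_right h1 (norm_nonneg _)).trans h2
    rw [Real.exp_add, hexpr]
    have h4 : (2 / r0) ^ n * ((r0 / 2) ^ n * ‖g1 z‖) = ‖g1 z‖ := by
      rw [← mul_assoc, ← mul_pow]
      have : 2 / r0 * (r0 / 2) = 1 := by field_simp
      rw [this, one_pow, one_mul]
    rw [← h4, mul_comm (Real.exp C0)]
    exact mul_le_mul_of_nonneg_left h3 (by positivity)
  have hcen2 : Real.exp (-C0 - n * Real.log 2) ≤ ‖g1 0‖ := by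
    have h1 : ‖P 0‖ ≤ 2 ^ n := prod_upper l 0 (by norm_num) hl fun a ha => by
      have h2 := hla a ha
      rw [zero_sub, norm_neg]
      linarith
    have h2 := (hfs 0 (by simp [hr0.le])).1
    rw [hfe 0] at h2
    have h3 : Real.exp (-C0) ≤ 2 ^ n * ‖g1 0‖ := h2.trans (mul_le_mul_of_nonneg_right h1 (norm_nonneg _))
    rw [sub_eq_add_neg, Real.exp_add, Real.exp_neg (n * Real.log 2), hexp2, ← div_eq_mul_inv,
      div_le_iff₀ (by positivity), mul_comm ‖g1 0‖]
    exact h3
  -- the logarithm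
  obtain ⟨φ, hφd, hφ0, hφe⟩ := branch_gen (R := R) (by linarith) (hgd.mono (ball_subset_ball (by linarith)))
    (fun z hz => hgK z (ball_subset_closedBall hz))
  have hg10 : 0 < ‖g1 0‖ := norm_pos_iff.2 (hgK 0 (mem_closedBall_self (by linarith)))
  have hφre : ∀ z ∈ ball (0 : ℂ) R, ∀ X : ℝ, ‖g1 z‖ ≤ Real.exp X →
      (φ z).re ≤ X + (C0 + n * Real.log 2) := by
    intro z hz X hX
    rw [hφe z hz, norm_mul, Complex.norm_exp] at hX
    have h1 : Real.exp (-C0 - n * Real.log 2) * Real.exp (φ z).re ≤ Real.exp X :=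
      (mul_le_mul_of_nonneg_right hcen2 (Real.exp_pos _).le).trans hX
    rw [← Real.exp_add, Real.exp_le_exp] at h1
    linarith
  have hφbig : ∀ z : ℂ, ‖z‖ ≤ R - g / 3 → ‖φ z‖ ≤ 9 * M / g * L := by
    intro z hz
    have hmaps : MapsTo φ (ball 0 R) {z | z.re ≤ M * L} := by
      intro w hw
      have hw' : ‖w‖ < R := by simpa using hw
      have h1 := hφre w hw _ (hg1u w (by linarith))
      show (φ w).re ≤ _
      refine h1.trans ?_
      have h2 : (n : ℝ) * G ≤ L * G := by gcongr
      have h3 : (n : ℝ) * Real.log 2 ≤ L * 1 := by gcongr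
      rw [hM]
      nlinarith
    have h := Complex.borelCaratheodory_zero (f := φ) (M := M * L) (by positivity) hφd hmaps (by linarith)
      (z := z) (by simp; linarith) hφ0
    refine h.trans ?_
    rw [div_le_iff₀ (by linarith)]
    have h2 : g / 3 ≤ R - ‖z‖ := by linarith
    have h3 : ‖z‖ ≤ 3 / 2 := by linarith
    calc 2 * (M * L) * ‖z‖ ≤ 2 * (M * L) * (3 / 2) := by gcongr
      _ = 9 * M / g * L * (g / 3) := by field_simp; ring
      _ ≤ 9 * M / g * L * (R - ‖z‖) := by gcongr
  have hφsm : ∀ z : ℂ, ‖z‖ ≤ r0 / 4 → ‖φ z‖ ≤ 8 * κ * G0 * L := by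
    intro z hz
    have hmaps : MapsTo φ (ball 0 (r0 / 2)) {z | z.re ≤ 4 * κ * G0 * L} := by
      intro w hw
      have hw' : ‖w‖ < r0 / 2 := by simpa using hw
      have h1 := hφre w (by simp; linarith) _ (hcen1 w hw'.le)
      show (φ w).re ≤ _
      refine h1.trans ?_
      have h3 : (n : ℝ) * Real.log 2 ≤ n * 1 := by gcongr
      have h4 : (n : ℝ) * G0 ≤ 2 * κ * L * G0 := by gcongr
      rw [hG0'] at h4
      have h5 : L * (2 * κ * G0) = 2 * κ * L * G0 := by ring
      rw [h5, hG0'] at hL3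
      rw [hG0']
      nlinarith
    have hpos : 0 < 4 * κ * G0 * L := by positivity
    have h := Complex.borelCaratheodory_zero (f := φ) (M := 4 * κ * G0 * L) hpos
      (hφd.mono (ball_subset_ball (by linarith))) hmaps (by linarith)
      (z := z) (by simp; linarith) hφ0
    refine h.trans ?_
    rw [div_le_iff₀ (by linarith)]
    have h2 : ‖z‖ ≤ r0 / 2 - ‖z‖ := by linarith
    calc 2 * (4 * κ * G0 * L) * ‖z‖ ≤ 2 * (4 * κ * G0 * L) * (r0 / 2 - ‖z‖) := by gcongr
      _ = _ := by ring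
  -- two constants
  have hφη : ∀ z : ℂ, ‖z‖ ≤ R - g → ‖φ z‖ ≤ η / 2 * L := by
    intro z hz
    set k : ℝ := 8 * κ * G0 with hk
    have hk0 : 0 < k := by positivity
    have hkL : Lt ≤ 1 / k := by
      rw [le_div_iff₀ hk0, hk]
      nlinarith
    have hR0 : 0 < R := by linarith
    have hmain := hLt (1 / k) hkL (fun w => φ (R * w) / ((k * L : ℝ) : ℂ)) ?_ ?_ ?_ (z / R) ?_
    · have e : (R : ℂ) * (z / R) = z := by
        have : (R : ℂ) ≠ 0 := by exact_mod_cast hR0.ne'
        field_simp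
      simp only [e, norm_div, Complex.norm_real, Real.norm_eq_abs] at hmain
      rw [abs_of_pos (by positivity), div_le_iff₀ (by positivity)] at hmain
      refine hmain.trans (le_of_eq ?_)
      field_simp
    · refine DifferentiableOn.div_const (hφd.comp (by fun_prop) ?_) _
      intro w hw
      rw [mem_ball_zero_iff] at hw ⊢
      rw [norm_mul, Complex.norm_real, Real.norm_of_nonneg hR0.le]
      nlinarith [norm_nonneg w]
    · intro w hw
      rw [mem_ball_zero_iff] at hw
      rw [norm_div, Complex.norm_real, Real.norm_of_nonneg (by positivity), div_le_iff₀ (by positivity)]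
      have h1 : ‖(R : ℂ) * w‖ ≤ R - g / 3 := by
        rw [norm_mul, Complex.norm_real, Real.norm_of_nonneg hR0.le]
        nlinarith [norm_nonneg w]
      refine (hφbig _ h1).trans (le_of_eq ?_)
      field_simp
    · intro w hw
      rw [mem_ball_zero_iff] at hw
      rw [norm_div, Complex.norm_real, Real.norm_of_nonneg (by positivity), div_le_iff₀ (by positivity),
        one_mul]
      refine hφsm _ ?_
      rw [norm_mul, Complex.norm_real, Real.norm_of_nonneg hR0.le]
      nlinarith [norm_nonneg w]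
    · rw [norm_div, Complex.norm_real, Real.norm_of_nonneg hR0.le, div_le_iff₀ hR0]
      nlinarith
  intro z hz
  have h1 : ‖P z‖ ≤ 3 ^ n := prod_upper l z (by norm_num) hl fun a ha => by
    have h2 := hla a ha
    have h3 := norm_sub_le z a
    linarith
  have h2 : ‖g1 z‖ ≤ Real.exp (C0 + n * Real.log (2 / r0)) * Real.exp (η / 2 * L) := by
    rw [hφe z (by simp; linarith), norm_mul, Complex.norm_exp]
    refine mul_le_mul (hcen1 0 (by rw [norm_zero]; positivity)) (Real.exp_le_exp.2 ?_) (Real.exp_pos _).le (Real.exp_pos _).le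
    exact ((le_abs_self _).trans (Complex.abs_re_le_norm _)).trans (hφη z hz)
  have hexp3 : (3 : ℝ) ^ n = Real.exp (n * Real.log 3) := by
    rw [← Real.log_pow, Real.exp_log (by positivity)]
  rw [hfe z]
  calc ‖P z‖ * ‖g1 z‖ ≤ 3 ^ n * (Real.exp (C0 + n * Real.log (2 / r0)) * Real.exp (η / 2 * L)) := by gcongr
    _ = Real.exp (n * Real.log 3 + (C0 + n * Real.log (2 / r0)) + η / 2 * L) := by
        rw [hexp3, ← Real.exp_add, ← Real.exp_add, ← add_assoc]
    _ ≤ Real.exp (η * L) := by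
        refine Real.exp_le_exp.2 ?_
        have h3 : (n : ℝ) * (2 + G0) ≤ 2 * κ * L * (2 + G0) := by gcongr
        have h4 : κ * (8 * (2 + G0)) * L ≤ η * L := by gcongr
        have h5 : (n : ℝ) * Real.log 3 ≤ n * 2 := by gcongr
        rw [hG0'] at h3 h4
        nlinarith

end Pool.Agent.Helper85.DQ
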