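import Mathlib

/-!
Taylor's formula with the integral remainder along a segment, and the one point lower bound.
-/

set_option autoImplicit false
set_option maxHeartbeats 1000000

open Complex Filter Topology Set Metric MeasureTheory

namespace Pool.Agent.Helper85.DQ

/-- the Taylor polynomial at `b - s ζ`, evaluated at `b` -/
noncomputable def RT (F : ℂ → ℂ) (b ζ : ℂ) (m : ℕ) (s : ℝ) : ℂ :=
  ∑ k ∈ Finset.range m, iteratedDeriv k F (b - s * ζ) * (s * ζ) ^ k / (k.factorial : ℂ)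

lemma iter_diff {F : ℂ → ℂ} (hF : Differentiable ℂ F) (k : ℕ) : Differentiable ℂ (iteratedDeriv k F) := by
  induction k with
  | zero => simpa using hF
  | succ k ih =>
    rw [iteratedDeriv_succ]
    intro z
    exact ((ih.analyticAt z).deriv).differentiableAt

lemma RT_deriv {F : ℂ → ℂ} (hF : Differentiable ℂ F) (b ζ : ℂ) (n : ℕ) (s : ℝ) :
    HasDerivAt (RT F b ζ (n + 1))
      (-(ζ ^ (n + 1) * iteratedDeriv (n + 1) F (b - s * ζ) * (s : ℂ) ^ n / (n.factorial : ℂ))) s := by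
  have hb : HasDerivAt (fun s : ℝ => b - (s : ℂ) * ζ) (-ζ) s := by
    have h1 : HasDerivAt (fun s : ℝ => (s : ℂ) * ζ) (1 * ζ) s := (Complex.ofRealCLM.hasDerivAt).mul_const ζ
    rw [one_mul] at h1
    exact h1.const_sub b
  have hk : ∀ k : ℕ, HasDerivAt (fun s : ℝ => iteratedDeriv k F (b - (s : ℂ) * ζ))
      (-ζ * iteratedDeriv (k + 1) F (b - s * ζ)) s := by
    intro k
    have h1 := (iter_diff hF k (b - s * ζ)).hasDerivAt
    have h2 : HasDerivAt (fun s : ℝ => iteratedDeriv k F (b - (s : ℂ) * ζ))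
        (-ζ • deriv (iteratedDeriv k F) (b - s * ζ)) s :=
      HasDerivAt.scomp (h := fun s : ℝ => b - (s : ℂ) * ζ) s h1 hb
    rw [iteratedDeriv_succ]
    exact h2
  induction n with
  | zero =>
    have e : RT F b ζ (0 + 1) = fun s : ℝ => iteratedDeriv 0 F (b - (s : ℂ) * ζ) := by
      funext s
      simp [RT]
    rw [e]
    have := hk 0
    convert this using 1
    simp
  | succ n ih =>
    have e : RT F b ζ (n + 1 + 1) = fun s : ℝ => RT F b ζ (n + 1) s +
        iteratedDeriv (n + 1) F (b - s * ζ) * (s * ζ) ^ (n + 1) / ((n + 1).factorial : ℂ) := by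
      funext s
      simp only [RT]
      rw [Finset.sum_range_succ]
    rw [e]
    have h1 : HasDerivAt (fun s : ℝ => ((s : ℂ) * ζ) ^ (n + 1)) (((n + 1 : ℕ) : ℂ) * (s * ζ) ^ n * ζ) s := by
      have h2 : HasDerivAt (fun s : ℝ => (s : ℂ) * ζ) (1 * ζ) s := (Complex.ofRealCLM.hasDerivAt).mul_const ζ
      rw [one_mul] at h2
      have h4 : HasDerivAt (fun s : ℝ => ((s : ℂ) * ζ) ^ (n + 1))
          (((n + 1 : ℕ) : ℂ) * (s * ζ) ^ (n + 1 - 1) * ζ) s := h2.pow (n + 1)
      rwa [Nat.add_sub_cancel] at h4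
    have h3 : HasDerivAt (fun s : ℝ => RT F b ζ (n + 1) s +
        iteratedDeriv (n + 1) F (b - s * ζ) * (s * ζ) ^ (n + 1) / ((n + 1).factorial : ℂ))
        (-(ζ ^ (n + 1) * iteratedDeriv (n + 1) F (b - s * ζ) * (s : ℂ) ^ n / (n.factorial : ℂ)) +
          (-ζ * iteratedDeriv (n + 1 + 1) F (b - s * ζ) * (s * ζ) ^ (n + 1) +
            iteratedDeriv (n + 1) F (b - s * ζ) * (((n + 1 : ℕ) : ℂ) * (s * ζ) ^ n * ζ)) /
              ((n + 1).factorial : ℂ)) s :=
      ih.add ((((hk (n + 1)).mul h1)).div_const ((n + 1).factorial : ℂ))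
    refine h3.congr_deriv ?_
    have hf : ((n + 1).factorial : ℂ) = ((n + 1 : ℕ) : ℂ) * (n.factorial : ℂ) := by
      rw [Nat.factorial_succ]; push_cast; ring
    have hf0 : (n.factorial : ℂ) ≠ 0 := by exact_mod_cast n.factorial_ne_zero
    have hn0 : ((n + 1 : ℕ) : ℂ) ≠ 0 := by exact_mod_cast Nat.succ_ne_zero n
    rw [hf]
    field_simp
    ring

/-- Taylor's formula along the segment from `b - S ζ` to `b` -/
theorem taylor_seg {F : ℂ → ℂ} (hF : Differentiable ℂ F) (b ζ : ℂ) (n : ℕ) (S : ℝ) :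
    F b = RT F b ζ (n + 1) S + ((n + 1 : ℕ) : ℂ) * ζ ^ (n + 1) *
      ∫ s in (0 : ℝ)..S, (iteratedDeriv (n + 1) F (b - s * ζ) / ((n + 1).factorial : ℂ)) * (s : ℂ) ^ n := by
  have hcont : Continuous fun s : ℝ => -(ζ ^ (n + 1) * iteratedDeriv (n + 1) F (b - s * ζ) * (s : ℂ) ^ n /
      (n.factorial : ℂ)) := by
    have h1 : Continuous (iteratedDeriv (n + 1) F) := (iter_diff hF (n + 1)).continuous
    have h2 : Continuous fun s : ℝ => iteratedDeriv (n + 1) F (b - s * ζ) := h1.comp (by fun_prop)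
    fun_prop
  have h := intervalIntegral.integral_eq_sub_of_hasDerivAt (a := 0) (b := S)
    (fun s _ => RT_deriv hF b ζ n s) (hcont.intervalIntegrable _ _)
  have h0 : RT F b ζ (n + 1) 0 = F b := by
    simp only [RT]
    rw [Finset.sum_range_succ']
    simp
  rw [h0] at h
  have hf : ((n + 1).factorial : ℂ) = ((n + 1 : ℕ) : ℂ) * (n.factorial : ℂ) := by
    rw [Nat.factorial_succ]; push_cast; ring
  have hf0 : (n.factorial : ℂ) ≠ 0 := by exact_mod_cast n.factorial_ne_zero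
  have hn0 : ((n + 1 : ℕ) : ℂ) ≠ 0 := by exact_mod_cast Nat.succ_ne_zero n
  have e : ((n + 1 : ℕ) : ℂ) * ζ ^ (n + 1) *
      (∫ s in (0 : ℝ)..S, (iteratedDeriv (n + 1) F (b - s * ζ) / ((n + 1).factorial : ℂ)) * (s : ℂ) ^ n) =
      -∫ s in (0 : ℝ)..S, -(ζ ^ (n + 1) * iteratedDeriv (n + 1) F (b - s * ζ) * (s : ℂ) ^ n /
      (n.factorial : ℂ)) := by
    rw [← intervalIntegral.integral_const_mul, ← intervalIntegral.integral_neg]
    congr 1
    funext s
    rw [hf]
    field_simp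
  rw [e, h]
  ring

/-- the Taylor polynomial is small -/
lemma RT_le {F : ℂ → ℂ} (hF : Differentiable ℂ F) {b ζ : ℂ} {m : ℕ} {S r M : ℝ} (hr : 0 < r) (hM : 0 ≤ M)
    (hS : 0 ≤ S) (hSr : r ≤ S * ‖ζ‖) (hb : ∀ z ∈ sphere (b - S * ζ) r, ‖F z‖ ≤ M) :
    ‖RT F b ζ m S‖ ≤ m * (M * (S * ‖ζ‖ / r) ^ m) := by
  have hq : 1 ≤ S * ‖ζ‖ / r := by rw [one_le_div hr]; exact hSr
  unfold RT
  refine (norm_sum_le _ _).trans ?_
  have h1 : ∀ k ∈ Finset.range m,
      ‖iteratedDeriv k F (b - S * ζ) * (S * ζ) ^ k / (k.factorial : ℂ)‖ ≤ M * (S * ‖ζ‖ / r) ^ m := by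
    intro k hk
    have hkm : k ≤ m := (Finset.mem_range.1 hk).le
    have h2 := norm_iteratedDeriv_le_of_forall_mem_sphere_norm_le k hr
      hF.diffContOnCl hb
    have hf : (0 : ℝ) < k.factorial := by exact_mod_cast k.factorial_pos
    rw [norm_div, norm_mul, norm_pow, norm_mul, Complex.norm_natCast, Complex.norm_real,
      Real.norm_of_nonneg hS]
    calc ‖iteratedDeriv k F (b - S * ζ)‖ * (S * ‖ζ‖) ^ k / k.factorial
        ≤ (k.factorial * M / r ^ k) * (S * ‖ζ‖) ^ k / k.factorial := by gcongr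
      _ = M * (S * ‖ζ‖ / r) ^ k := by rw [div_pow]; field_simp
      _ ≤ M * (S * ‖ζ‖ / r) ^ m := by gcongr
  refine (Finset.sum_le_sum h1).trans ?_
  simp

/-- one point lower bound -/
theorem one_pt {ρ1 ρ2 η : ℝ} (hρ1 : 0 < ρ1) (h12 : ρ1 ≤ ρ2) (h2 : ρ2 < 1) (hη : 0 < η) :
    ∃ ε > 0, ∃ L0 : ℝ, 1 ≤ L0 ∧ ∀ (F : ℂ → ℂ) (M L ρ x t : ℝ) (n : ℕ), Differentiable ℂ F → 0 < M → L0 ≤ L →
      ρ1 ≤ ρ → ρ ≤ ρ2 → ((n + 1 : ℕ) : ℝ) = ρ * L →
      (∀ w : ℂ, x - 1 ≤ w.re → w.re ≤ x + 2 → |w.im - t| ≤ 1 → ‖F w‖ ≤ M * Real.exp (L * w.re + ε * L)) →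
      M * Real.exp (L * (x + 1) - ε * L) ≤ ‖F ((x + 1 : ℝ) + t * I)‖ →
      ∃ u : ℝ, x ≤ u ∧ u ≤ x + 1 ∧ M * Real.exp (L * (u + ρ) - η * L) / ρ ^ (n + 1) ≤
        ‖iteratedDeriv (n + 1) F (u + t * I) / ((n + 1).factorial : ℂ)‖ := by
  set G : ℝ := (1 - Real.sqrt ρ2) ^ 2 with hG
  have hs2 : Real.sqrt ρ2 < 1 := by
    rw [Real.sqrt_lt' one_pos]; linarith
  have hGp : 0 < G := by
    rw [hG]
    have : 0 < 1 - Real.sqrt ρ2 := by linarith
    positivity
  set ε : ℝ := min (η / 4) (G / 4) with hε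
  have hεp : 0 < ε := by positivity
  have hε1 : ε ≤ η / 4 := min_le_left _ _
  have hε2 : ε ≤ G / 4 := min_le_right _ _
  -- large `L`
  have hev : ∀ᶠ L : ℝ in atTop, 4 * (ρ2 * L) ≤ Real.exp (ε * L) ∧ 12 * (ρ2 * L) ≤ ρ1 * Real.exp (ε * L) := by
    have h1 : Tendsto (fun L : ℝ => L * Real.exp (-(ε * L))) atTop (𝓝 0) := by
      have := Real.tendsto_pow_mul_exp_neg_atTop_nhds_zero 1
      have h3 := (tendsto_rpow_mul_exp_neg_mul_atTop_nhds_zero 1 ε hεp)
      simpa [neg_mul] using h3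
    have h3 : ∀ᶠ L : ℝ in atTop, L * Real.exp (-(ε * L)) < min (1 / (4 * ρ2)) (ρ1 / (12 * ρ2)) := by
      apply h1.eventually_lt_const
      have : 0 < ρ2 := by linarith
      positivity
    filter_upwards [h3] with L hL
    have hρ2 : 0 < ρ2 := by linarith
    have e1 := lt_of_lt_of_le hL (min_le_left _ _)
    have e2 := lt_of_lt_of_le hL (min_le_right _ _)
    rw [Real.exp_neg, ← div_eq_mul_inv, div_lt_div_iff₀ (Real.exp_pos _) (by positivity)] at e1 e2
    constructor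
    · linarith
    · linarith
  obtain ⟨L0, hL0⟩ := eventually_atTop.1 hev
  refine ⟨ε, hεp, max 1 L0, le_max_left _ _, ?_⟩
  intro F M L ρ x t n hF hM hL g1 g2 hn hup hlow
  obtain ⟨k1, k2⟩ := hL0 L ((le_max_right _ _).trans hL)
  have hLp : 0 < L := lt_of_lt_of_le one_pos ((le_max_left _ _).trans hL)
  have hρ : 0 < ρ := by linarith
  have hρ1' : ρ < 1 := by linarith
  by_contra hcon
  push Not at hcon
  set b : ℂ := ((x + 1 : ℝ) : ℂ) + t * I with hb
  have ht := taylor_seg hF b 1 n 1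
  simp only [mul_one, one_pow] at ht
  -- the head
  have hhead := RT_le hF (b := b) (ζ := 1) (m := n + 1) (S := 1) (r := ρ) (M := M * Real.exp (L * (x + ρ) + ε * L))
    hρ (by positivity) zero_le_one (by simp; linarith) (by
      intro z hz
      rw [mem_sphere_iff_norm] at hz
      have e0 : b - ((1 : ℝ) : ℂ) * 1 = x + t * I := by rw [hb]; push_cast; ring
      rw [e0] at hz
      have a1 := Complex.abs_re_le_norm (z - (x + t * I))
      have a2 := Complex.abs_im_le_norm (z - (x + t * I))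
      rw [hz] at a1 a2
      simp at a1 a2
      rw [abs_le] at a1
      refine (hup z (by linarith [a1.1]) (by linarith [a1.2]) (a2.trans hρ1'.le)).trans ?_
      gcongr
      linarith [a1.2])
  simp only [norm_one, mul_one] at hhead
  -- the remainder
  have hrem : ‖∫ s in (0 : ℝ)..1, (iteratedDeriv (n + 1) F (b - s) / ((n + 1).factorial : ℂ)) * (s : ℂ) ^ n‖ ≤
      M * Real.exp (L * (x + 1) - η * L + 1) / ρ := by
    have h1 : ∀ s ∈ Set.uIoc (0 : ℝ) 1, ‖(iteratedDeriv (n + 1) F (b - s) / ((n + 1).factorial : ℂ)) * (s : ℂ) ^ n‖ ≤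
        M * Real.exp (L * (x + 1) - η * L + 1) / ρ := by
      intro s hs
      rw [uIoc_of_le zero_le_one] at hs
      have h2 := hcon (x + 1 - s) (by linarith [hs.2]) (by linarith [hs.1])
      have e0 : b - s = ((x + 1 - s : ℝ) : ℂ) + t * I := by rw [hb]; push_cast; ring
      rw [e0, norm_mul, norm_pow, Complex.norm_real, Real.norm_of_nonneg hs.1.le]
      have hs0 : 0 < s := hs.1
      have h3 : (s / ρ) ^ n ≤ Real.exp (n * (s / ρ - 1)) := by
        have : s / ρ ≤ Real.exp (s / ρ - 1) := by linarith [Real.add_one_le_exp (s / ρ - 1)]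
        calc (s / ρ) ^ n ≤ (Real.exp (s / ρ - 1)) ^ n := pow_le_pow_left₀ (by positivity) this n
          _ = _ := by rw [← Real.exp_nat_mul]
      have h4 : (n : ℝ) * (s / ρ - 1) ≤ L * (s - ρ) + 1 := by
        have e1 : (n : ℝ) = ρ * L - 1 := by
          have := hn
          push_cast at this
          linarith
        rw [e1]
        have e2 : (ρ * L - 1) * (s / ρ - 1) = L * (s - ρ) + 1 - s / ρ := by field_simp; ring
        rw [e2]
        have : 0 < s / ρ := by positivity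
        linarith
      have h5 : s ^ n / ρ ^ (n + 1) ≤ Real.exp (L * (s - ρ) + 1) / ρ := by
        have e3 : s ^ n / ρ ^ (n + 1) = (s / ρ) ^ n / ρ := by
          rw [div_pow, pow_succ]; field_simp
        rw [e3]
        gcongr
        exact h3.trans (Real.exp_le_exp.2 h4)
      calc ‖iteratedDeriv (n + 1) F (((x + 1 - s : ℝ) : ℂ) + t * I) / ((n + 1).factorial : ℂ)‖ * s ^ n
          ≤ (M * Real.exp (L * (x + 1 - s + ρ) - η * L) / ρ ^ (n + 1)) * s ^ n := by gcongr
        _ = M * Real.exp (L * (x + 1 - s + ρ) - η * L) * (s ^ n / ρ ^ (n + 1)) := by ring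
        _ ≤ M * Real.exp (L * (x + 1 - s + ρ) - η * L) * (Real.exp (L * (s - ρ) + 1) / ρ) := by gcongr
        _ = _ := by
            rw [mul_assoc, ← mul_div_assoc, ← Real.exp_add, mul_div_assoc]
            congr 3
            ring
    have := intervalIntegral.norm_integral_le_of_norm_le_const h1
    simpa using this
  -- comparison
  have hcmp : ‖F b‖ ≤ (n + 1 : ℕ) * (M * Real.exp (L * (x + ρ) + ε * L) * (1 / ρ) ^ (n + 1)) +
      (n + 1 : ℕ) * (M * Real.exp (L * (x + 1) - η * L + 1) / ρ) := by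
    rw [ht]
    refine (norm_add_le _ _).trans (add_le_add hhead ?_)
    rw [norm_mul, Complex.norm_natCast]
    gcongr
  rw [hn] at hcmp
  have hB : 0 < M * Real.exp (L * (x + 1) - ε * L) := by positivity
  -- first term
  have t1 : ρ * L * (M * Real.exp (L * (x + ρ) + ε * L) * (1 / ρ) ^ (n + 1)) ≤
      1 / 4 * (M * Real.exp (L * (x + 1) - ε * L)) := by
    have e1 : (1 / ρ) ^ (n + 1) = Real.exp (-(ρ * L * Real.log ρ)) := by
      rw [← hn, ← mul_neg, Real.exp_nat_mul, Real.exp_neg, Real.exp_log hρ, one_div]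
    have e2 : ρ + -(ρ * Real.log ρ) ≤ 1 - G := by
      have s1 : 0 < Real.sqrt ρ := Real.sqrt_pos.2 hρ
      have s2 : Real.sqrt ρ ≤ Real.sqrt ρ2 := Real.sqrt_le_sqrt g2
      have s3 : Real.sqrt ρ * Real.sqrt ρ = ρ := Real.mul_self_sqrt hρ.le
      have s4 : Real.log ρ = 2 * Real.log (Real.sqrt ρ) := by
        rw [Real.log_sqrt hρ.le]; ring
      have s5 : 1 - (Real.sqrt ρ)⁻¹ ≤ Real.log (Real.sqrt ρ) := Real.one_sub_inv_le_log_of_pos s1
      have s6 : ρ * (1 - (Real.sqrt ρ)⁻¹) ≤ ρ * Real.log (Real.sqrt ρ) := by gcongr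
      have s7 : ρ * (1 - (Real.sqrt ρ)⁻¹) = ρ - Real.sqrt ρ := by
        have : ρ * (Real.sqrt ρ)⁻¹ = Real.sqrt ρ := by
          rw [← div_eq_mul_inv, div_eq_iff s1.ne']
          exact s3.symm
        linear_combination -this
      have s8 : G ≤ (1 - Real.sqrt ρ) ^ 2 := by
        rw [hG]
        apply pow_le_pow_left₀ (by linarith)
        linarith
      nlinarith
    rw [e1]
    have e3 : M * Real.exp (L * (x + ρ) + ε * L) * Real.exp (-(ρ * L * Real.log ρ)) ≤
        M * Real.exp (L * (x + 1) - ε * L) * Real.exp (-(ε * L)) := by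
      rw [mul_assoc M (Real.exp _) (Real.exp _), mul_assoc M (Real.exp _) (Real.exp _), ← Real.exp_add,
        ← Real.exp_add]
      have : L * (ρ + -(ρ * Real.log ρ)) ≤ L * (1 - G) := by gcongr
      refine mul_le_mul_of_nonneg_left (Real.exp_le_exp.2 ?_) hM.le
      nlinarith
    calc ρ * L * (M * Real.exp (L * (x + ρ) + ε * L) * Real.exp (-(ρ * L * Real.log ρ)))
        ≤ (1 / 4 * Real.exp (ε * L)) * (M * Real.exp (L * (x + 1) - ε * L) * Real.exp (-(ε * L))) := by
          apply mul_le_mul _ e3 (by positivity) (by positivity)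
          have : ρ * L ≤ ρ2 * L := by gcongr
          linarith
      _ = 1 / 4 * (M * Real.exp (L * (x + 1) - ε * L)) * (Real.exp (ε * L) * Real.exp (-(ε * L))) := by ring
      _ = _ := by rw [← Real.exp_add]; simp
  have hρ2 : 0 < ρ2 := by linarith
  have t2 : ρ * L * (M * Real.exp (L * (x + 1) - η * L + 1) / ρ) ≤
      1 / 4 * (M * Real.exp (L * (x + 1) - ε * L)) := by
    have e1 : Real.exp (L * (x + 1) - η * L + 1) ≤ 3 * (Real.exp (L * (x + 1) - ε * L) * Real.exp (-(ε * L))) := by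
      rw [← Real.exp_add, Real.exp_add, mul_comm]
      have : Real.exp 1 ≤ 3 := by
        have := Real.exp_one_lt_d9
        linarith
      refine mul_le_mul this (Real.exp_le_exp.2 ?_) (Real.exp_pos _).le (by norm_num)
      nlinarith
    calc ρ * L * (M * Real.exp (L * (x + 1) - η * L + 1) / ρ)
        ≤ (ρ2 * L) * (M * (3 * (Real.exp (L * (x + 1) - ε * L) * Real.exp (-(ε * L)))) / ρ1) := by gcongr
      _ = (12 * (ρ2 * L) / ρ1) * (1 / 4 * (M * Real.exp (L * (x + 1) - ε * L)) * Real.exp (-(ε * L))) := by ring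
      _ ≤ Real.exp (ε * L) * (1 / 4 * (M * Real.exp (L * (x + 1) - ε * L)) * Real.exp (-(ε * L))) := by
          gcongr
          rw [div_le_iff₀ hρ1]
          linarith
      _ = 1 / 4 * (M * Real.exp (L * (x + 1) - ε * L)) * (Real.exp (ε * L) * Real.exp (-(ε * L))) := by ring
      _ = _ := by rw [← Real.exp_add]; simp
  linarith

end Pool.Agent.Helper85.DQ
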