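import Pool.Agent.Helper85.DQ.Tra
import Pool.Agent.Helper85.DQ.Tay

/-!
The abstract converse: if `F^(n+1)` is zero-free in `Re w > δ` near height `t`, then `F` is not small near
`Re w = 1/2`.
-/

set_option autoImplicit false
set_option maxHeartbeats 1000000

open Complex Filter Topology Set Metric MeasureTheory

namespace Pool.Agent.Helper85.DQ

/-- the horizontal saddle point lower bound -/
def SaddleLow : Prop := ∀ ρ1 ρ2 q : ℝ, 0 < ρ1 → ρ1 ≤ ρ2 → 0 < q →
    ∃ η0 > 0, ∃ L0 : ℝ, 1 ≤ L0 ∧ ∀ (h : ℂ → ℂ) (b : ℂ) (a0 L ρ η : ℝ) (κ : ℕ),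
      Differentiable ℂ h → 0 < η → η ≤ η0 → L0 ≤ L → ρ1 ≤ ρ → ρ ≤ ρ2 → (κ : ℝ) = ρ * L →
      a0 + q ≤ b.re - ρ → b.re - a0 ≤ ρ2 + 1 →
      (∀ u : ℂ, a0 ≤ u.re → u.re ≤ b.re → |u.im - b.im| ≤ q → h u ≠ 0 ∧ ‖logDeriv h u - L‖ ≤ η * L) →
      ∃ z0 : ℂ, ‖z0 - ρ‖ ≤ 2 * ρ * η ∧ ∀ S : ℝ, S * z0.re = b.re - a0 →
        ‖h (b - z0)‖ / (2 * Real.sqrt κ) ≤ ‖∫ s in (0 : ℝ)..S, h (b - z0 * s) * (s : ℂ) ^ κ‖

/-- Cauchy's estimate with the factorial -/
lemma cauchy_h {F : ℂ → ℂ} (hF : Differentiable ℂ F) {w : ℂ} {r V : ℝ} (m : ℕ) (hr : 0 < r)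
    (hV : ∀ z ∈ sphere w r, ‖F z‖ ≤ V) : ‖iteratedDeriv m F w / (m.factorial : ℂ)‖ ≤ V / r ^ m := by
  have h := norm_iteratedDeriv_le_of_forall_mem_sphere_norm_le m hr hF.diffContOnCl hV
  have hf : (0 : ℝ) < m.factorial := by exact_mod_cast m.factorial_pos
  rw [norm_div, Complex.norm_natCast, div_le_iff₀ hf]
  refine h.trans (le_of_eq ?_)
  ring

/-- the final comparison of the head and of the remainder -/
lemma cnv_arith {g s L ρ β M N A R I : ℝ} (hg : 0 < g) (hs : 0 < s) (hM : 0 < M) (hL : 0 < L)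
    (hN : 0 ≤ N) (hNL : N * 32 ≤ Real.exp (g * s / 8 * L)) (hg1 : g ≤ 1 / 2)
    (hL16 : 16 ≤ Real.exp (s / 2 * L))
    (hA : A ≤ N * (M * Real.exp (L * (β - 3 / 8 * (g * s)))))
    (hI : 1 / 8 * (M * Real.exp (L * (β - 8 / 100 * (g * s)))) ≤ I) (hR : I - A ≤ R) :
    M * Real.exp (L * (β - s)) ≤ R := by
  have h1 : N * (M * Real.exp (L * (β - 3 / 8 * (g * s)))) ≤ 1 / 32 * (M * Real.exp (L * (β - 2 / 8 * (g * s)))) := by
    have e : Real.exp (L * (β - 2 / 8 * (g * s))) =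
        Real.exp (g * s / 8 * L) * Real.exp (L * (β - 3 / 8 * (g * s))) := by
      rw [← Real.exp_add]; congr 1; ring
    rw [e]
    have hp : 0 < M * Real.exp (L * (β - 3 / 8 * (g * s))) := by positivity
    nlinarith
  have h2 : Real.exp (L * (β - 2 / 8 * (g * s))) ≤ Real.exp (L * (β - 8 / 100 * (g * s))) := by
    apply Real.exp_le_exp.2
    have : 0 < g * s := by positivity
    nlinarith
  have h3 : M * Real.exp (L * (β - 2 / 8 * (g * s))) ≤ M * Real.exp (L * (β - 8 / 100 * (g * s))) := by gcongr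
  have h4 : 16 * Real.exp (L * (β - s)) ≤ Real.exp (L * (β - 8 / 100 * (g * s))) := by
    calc 16 * Real.exp (L * (β - s)) ≤ Real.exp (s / 2 * L) * Real.exp (L * (β - s)) := by gcongr
      _ = Real.exp (L * (β - s / 2)) := by rw [← Real.exp_add]; congr 1; ring
      _ ≤ _ := by
        apply Real.exp_le_exp.2
        have : g * s ≤ 1 / 2 * s := by gcongr
        nlinarith
  have h5 : M * (16 * Real.exp (L * (β - s))) ≤ M * Real.exp (L * (β - 8 / 100 * (g * s))) := by gcongr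
  have h6 : 0 < M * Real.exp (L * (β - s)) := by positivity
  linarith

/-- the head -/
lemma cnv_head {g s δ ρ ρ2 β L M η : ℝ} {N : ℕ} {z0 : ℂ} {S V : ℝ} (hg : 0 < g) (hs : 0 < s) (hsg : s ≤ g / 4)
    (hρ : 0 < ρ) (hδ : 0 < δ) (hρ2 : ρ ≤ ρ2) (hgd : g = 1 / 2 - δ - ρ2) (hL : 0 < L) (hN : (N : ℝ) = ρ * L)
    (hη : 0 < η) (hη1 : η ≤ g * s / 100) (hβ1 : 1 / 2 - s / 4 ≤ β) (hβ2 : β ≤ 1 / 2)
    (hz0 : 0 < z0.re) (hzn : ‖z0‖ ≤ z0.re * (1 + 6 * η)) (hS : S * z0.re = β - (δ + g / 4)) (hM : 0 < M)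
    (hV : V ≤ N * (M * Real.exp ((1 / 2 - s + g / 4 * s) * L) * (S * ‖z0‖ / (1 / 2 - s - (δ + g / 4))) ^ N)) :
    V ≤ N * (M * Real.exp (L * (β - 3 / 8 * (g * s)))) := by
  set r : ℝ := 1 / 2 - s - (δ + g / 4) with hr
  have hr0 : 0 < r := by rw [hr]; linarith
  have hrρ : ρ ≤ (1 - g) * r := by
    have h1 : ρ2 + g / 2 ≤ r := by rw [hr]; linarith
    have hg1 : g < 1 := by linarith
    have h2 : (1 - g) * (ρ2 + g / 2) ≤ (1 - g) * r := by
      apply mul_le_mul_of_nonneg_left h1; linarith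
    nlinarith
  have hS0 : 0 ≤ S := by
    by_contra h
    push Not at h
    have : S * z0.re < 0 := mul_neg_of_neg_of_pos h hz0
    linarith
  have hSz : S * ‖z0‖ ≤ (β - (δ + g / 4)) * (1 + 6 * η) := by
    calc S * ‖z0‖ ≤ S * (z0.re * (1 + 6 * η)) := by gcongr
      _ = (S * z0.re) * (1 + 6 * η) := by ring
      _ = _ := by rw [hS]
  have h1 : S * ‖z0‖ / r ≤ Real.exp (S * ‖z0‖ / r - 1) := by
    linarith [Real.add_one_le_exp (S * ‖z0‖ / r - 1)]
  have h2 : (S * ‖z0‖ / r) ^ N ≤ Real.exp (ρ * L * (S * ‖z0‖ / r - 1)) := by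
    rw [← hN, Real.exp_nat_mul]
    exact pow_le_pow_left₀ (by positivity) h1 N
  have h3 : ρ * (S * ‖z0‖ / r - 1) ≤ (1 - g) * (s - (1 / 2 - β)) + 3 * η := by
    have e1 : ρ * (S * ‖z0‖ / r - 1) = ρ / r * (S * ‖z0‖ - r) := by field_simp
    have e2 : ρ / r ≤ 1 - g := by rw [div_le_iff₀ hr0]; exact hrρ
    have e3 : S * ‖z0‖ - r ≤ s - (1 / 2 - β) + 3 * η := by
      have : (β - (δ + g / 4)) * (6 * η) ≤ 1 / 2 * (6 * η) := by
        apply mul_le_mul_of_nonneg_right _ (by positivity)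
        linarith
      rw [hr]
      linarith
    have e4 : 0 ≤ s - (1 / 2 - β) + 3 * η := by linarith
    rw [e1]
    calc ρ / r * (S * ‖z0‖ - r) ≤ ρ / r * (s - (1 / 2 - β) + 3 * η) := by gcongr
      _ ≤ (1 - g) * (s - (1 / 2 - β) + 3 * η) := by gcongr
      _ ≤ _ := by nlinarith
  refine hV.trans ?_
  apply mul_le_mul_of_nonneg_left _ (Nat.cast_nonneg N)
  calc M * Real.exp ((1 / 2 - s + g / 4 * s) * L) * (S * ‖z0‖ / r) ^ N
      ≤ M * Real.exp ((1 / 2 - s + g / 4 * s) * L) * Real.exp (ρ * L * (S * ‖z0‖ / r - 1)) := by gcongr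
    _ = M * Real.exp ((1 / 2 - s + g / 4 * s) * L + ρ * L * (S * ‖z0‖ / r - 1)) := by
        rw [mul_assoc, ← Real.exp_add]
    _ ≤ _ := by
        refine mul_le_mul_of_nonneg_left (Real.exp_le_exp.2 ?_) hM.le
        have h4 : ρ * L * (S * ‖z0‖ / r - 1) ≤ ((1 - g) * (s - (1 / 2 - β)) + 3 * η) * L := by
          calc ρ * L * (S * ‖z0‖ / r - 1) = ρ * (S * ‖z0‖ / r - 1) * L := by ring
            _ ≤ _ := by gcongr
        have h5 : (1 / 2 - s + g / 4 * s) + ((1 - g) * (s - (1 / 2 - β)) + 3 * η) ≤ β - 3 / 8 * (g * s) := by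
          have : g * (1 / 2 - β) ≤ g * (s / 4) := by gcongr; linarith
          nlinarith
        calc (1 / 2 - s + g / 4 * s) * L + ρ * L * (S * ‖z0‖ / r - 1)
            ≤ (1 / 2 - s + g / 4 * s) * L + ((1 - g) * (s - (1 / 2 - β)) + 3 * η) * L := by gcongr
          _ = ((1 / 2 - s + g / 4 * s) + ((1 - g) * (s - (1 / 2 - β)) + 3 * η)) * L := by ring
          _ ≤ (β - 3 / 8 * (g * s)) * L := by gcongr
          _ = _ := by ring

/-- the remainder -/
lemma cnv_rem {g s ρ ρ' β L M η η' cre hc hb : ℝ} {n : ℕ} {z0 : ℂ} {J : ℝ} (hM : 0 < M)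
    (hρ : 0 < ρ) (hρ1 : ρ ≤ 1 / 2) (hL : 0 < L) (hN : ((n + 1 : ℕ) : ℝ) = ρ * L) (hN' : (n : ℝ) = ρ' * L)
    (hη : 0 < η) (hη1 : η ≤ 1 / 10) (hηs : 7 * η + η' ≤ 8 / 100 * (g * s)) (hn : 1 ≤ n)
    (hz0 : ‖z0 - ρ'‖ ≤ 2 * ρ' * η) (hc1 : M * Real.exp (L * (cre + ρ) - η' * L) / ρ ^ (n + 1) ≤ hc)
    (hb1 : hc * Real.exp (L * (β - z0.re - cre) - η * L) ≤ hb)
    (hJ : hb / (2 * Real.sqrt n) ≤ J) :
    1 / 8 * (M * Real.exp (L * (β - 8 / 100 * (g * s)))) ≤ ((n + 1 : ℕ) : ℝ) * ‖z0‖ ^ (n + 1) * J := by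
  have hn0 : (0 : ℝ) < n := by exact_mod_cast hn
  have hρ' : 0 < ρ' := by
    by_contra h
    push Not at h
    have : ρ' * L ≤ 0 := mul_nonpos_of_nonpos_of_nonneg h hL.le
    linarith
  have hρρ : ρ' ≤ ρ := by
    have h1 : ρ' * L ≤ ρ * L := by rw [← hN, ← hN']; push_cast; linarith
    exact le_of_mul_le_mul_right h1 hL
  have hsq : Real.sqrt n ≤ n + 1 := by
    rw [Real.sqrt_le_left (by positivity)]
    nlinarith
  have hsq0 : 0 < Real.sqrt n := Real.sqrt_pos.2 hn0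
  have hz0re : z0.re ≤ ρ' + 2 * ρ' * η := by
    have := (Complex.abs_re_le_norm (z0 - ρ')).trans hz0
    rw [sub_re, ofReal_re, abs_le] at this
    linarith [this.2]
  have hznlow : ρ' * (1 - 2 * η) ≤ ‖z0‖ := by
    have h1 : ‖(ρ' : ℂ)‖ - ‖z0‖ ≤ ‖(ρ' : ℂ) - z0‖ := norm_sub_norm_le _ _
    rw [norm_sub_rev, Complex.norm_real, Real.norm_of_nonneg hρ'.le] at h1
    linarith
  have hE : Real.exp (-(4 * η)) ≤ 1 - 2 * η := by
    have h1 : Real.exp (4 * η) ≥ 1 + 4 * η := by linarith [Real.add_one_le_exp (4 * η)]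
    rw [Real.exp_neg, inv_le_comm₀ (Real.exp_pos _) (by linarith)]
    rw [inv_le_comm₀ (by linarith) (Real.exp_pos _)]
    rw [inv_le_comm₀ (Real.exp_pos _) (by linarith), inv_le_iff_one_le_mul₀ (by linarith)]
    nlinarith
  have hpow1 : (1 / 4 : ℝ) ≤ (ρ' / ρ) ^ (n + 1) := by
    have e1 : ρ' / ρ = n / ((n + 1 : ℕ) : ℝ) := by
      rw [hN, hN']
      field_simp
    rw [e1]
    have e2 : (n : ℝ) / ((n + 1 : ℕ) : ℝ) = (1 + 1 / (n : ℝ))⁻¹ := by
      push_cast
      field_simp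
    rw [e2, inv_pow, ← one_div, one_div_le_one_div (by norm_num) (by positivity)]
    have e3 : (1 + 1 / (n : ℝ)) ≤ Real.exp (1 / (n : ℝ)) := by
      linarith [Real.add_one_le_exp (1 / (n : ℝ))]
    rcases Nat.lt_or_ge n 3 with h3 | h3
    · interval_cases n <;> norm_num
    · have e4 : (1 + 1 / (n : ℝ)) ^ (n + 1) ≤ Real.exp (((n + 1 : ℕ) : ℝ) * (1 / (n : ℝ))) := by
        rw [Real.exp_nat_mul]
        exact pow_le_pow_left₀ (by positivity) e3 _
      refine e4.trans ?_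
      have e5 : ((n + 1 : ℕ) : ℝ) * (1 / (n : ℝ)) ≤ 4 / 3 := by
        have : (3 : ℝ) ≤ n := by exact_mod_cast h3
        push_cast
        rw [mul_one_div, div_le_div_iff₀ (by positivity) (by norm_num)]
        linarith
      have e6 : Real.exp (4 / 3 : ℝ) ≤ 4 := by
        have h1 := Real.exp_one_lt_d9
        have h2 : Real.exp (4 / 3 : ℝ) ^ 3 = Real.exp 1 ^ 4 := by
          rw [← Real.exp_nat_mul, ← Real.exp_nat_mul]
          norm_num
        have h3 : Real.exp 1 ^ 4 ≤ 64 := by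
          have : Real.exp 1 ^ 4 ≤ 2.7182818286 ^ 4 := by gcongr
          refine this.trans (by norm_num)
        by_contra hcon
        push Not at hcon
        have h4 : (4 : ℝ) ^ 3 < Real.exp (4 / 3 : ℝ) ^ 3 := by gcongr
        rw [h2] at h4
        linarith
      exact (Real.exp_le_exp.2 e5).trans e6
  have hpow : 1 / 4 * Real.exp (-(4 * η * L)) * ρ ^ (n + 1) ≤ ‖z0‖ ^ (n + 1) := by
    have h1 : (ρ' * Real.exp (-(4 * η))) ^ (n + 1) ≤ ‖z0‖ ^ (n + 1) := by
      apply pow_le_pow_left₀ (by positivity)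
      refine le_trans ?_ hznlow
      gcongr
    refine le_trans ?_ h1
    have e1 : (ρ' * Real.exp (-(4 * η))) ^ (n + 1) = (ρ' / ρ) ^ (n + 1) * ρ ^ (n + 1) * Real.exp (-(4 * η * (ρ * L))) := by
      rw [mul_pow, div_pow, ← hN, ← Real.exp_nat_mul]
      have : ρ ^ (n + 1) ≠ 0 := by positivity
      field_simp
    rw [e1]
    have e2 : Real.exp (-(4 * η * L)) ≤ Real.exp (-(4 * η * (ρ * L))) := by
      apply Real.exp_le_exp.2
      have : ρ * L ≤ 1 * L := by gcongr; linarith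
      have : 4 * η * (ρ * L) ≤ 4 * η * (1 * L) := by gcongr
      linarith
    calc 1 / 4 * Real.exp (-(4 * η * L)) * ρ ^ (n + 1) ≤ (ρ' / ρ) ^ (n + 1) * Real.exp (-(4 * η * (ρ * L))) * ρ ^ (n + 1) := by
          gcongr
      _ = _ := by ring
  -- `hb`
  have hρn : 0 < ρ ^ (n + 1) := by positivity
  have hb2 : M * Real.exp (L * (β - 2 * η - η' - η)) / ρ ^ (n + 1) ≤ hb := by
    refine le_trans ?_ hb1
    calc M * Real.exp (L * (β - 2 * η - η' - η)) / ρ ^ (n + 1)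
        ≤ M * Real.exp (L * (cre + ρ) - η' * L + (L * (β - z0.re - cre) - η * L)) / ρ ^ (n + 1) := by
          gcongr
          have h1 : z0.re ≤ ρ + 2 * η := by
            have : 2 * ρ' * η ≤ 2 * 1 * η := by gcongr; linarith
            linarith
          have h2 : L * (β - 2 * η - η' - η) ≤ L * (β - z0.re + ρ - η' - η) := by
            apply mul_le_mul_of_nonneg_left _ hL.le
            linarith
          linarith
      _ = M * Real.exp (L * (cre + ρ) - η' * L) / ρ ^ (n + 1) * Real.exp (L * (β - z0.re - cre) - η * L) := by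
          rw [Real.exp_add]; ring
      _ ≤ hc * Real.exp (L * (β - z0.re - cre) - η * L) := by gcongr
  have hb0 : 0 < hb := lt_of_lt_of_le (by positivity) hb2
  calc 1 / 8 * (M * Real.exp (L * (β - 8 / 100 * (g * s))))
      ≤ 1 / 8 * (M * Real.exp (L * (β - 2 * η - η' - η) + -(4 * η * L))) := by
        refine mul_le_mul_of_nonneg_left (mul_le_mul_of_nonneg_left (Real.exp_le_exp.2 ?_) hM.le) (by norm_num)
        nlinarith
    _ = (1 / 4 * Real.exp (-(4 * η * L)) * ρ ^ (n + 1)) * (M * Real.exp (L * (β - 2 * η - η' - η)) / ρ ^ (n + 1)) / 2 := by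
        rw [Real.exp_add]
        field_simp
        ring
    _ ≤ ‖z0‖ ^ (n + 1) * hb / 2 := by gcongr
    _ ≤ ((n + 1 : ℕ) : ℝ) * ‖z0‖ ^ (n + 1) * (hb / (2 * Real.sqrt n)) := by
        have e : ((n + 1 : ℕ) : ℝ) * ‖z0‖ ^ (n + 1) * (hb / (2 * Real.sqrt n)) =
            ‖z0‖ ^ (n + 1) * hb / 2 * (((n + 1 : ℕ) : ℝ) / Real.sqrt n) := by ring
        rw [e]
        apply le_mul_of_one_le_right (by positivity)
        rw [one_le_div hsq0]
        push_cast
        exact hsq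
    _ ≤ _ := by gcongr

/-- **The abstract converse.** -/
theorem cnv (SL : SaddleLow) {ρ1 ρ2 δ : ℝ} (hρ1 : 0 < ρ1) (h12 : ρ1 ≤ ρ2) (hδ : 0 < δ) (hρδ : ρ2 + δ < 1 / 2) :
    ∃ e0 > 0, ∃ s1 > 0, ∀ s : ℝ, 0 < s → s ≤ s1 → ∃ e1 > 0, ∃ L0 : ℝ, 1 ≤ L0 ∧
      ∀ (F : ℂ → ℂ) (M L ρ t : ℝ) (n : ℕ), Differentiable ℂ F → 0 < M → L0 ≤ L → ρ1 ≤ ρ → ρ ≤ ρ2 →
        ((n + 1 : ℕ) : ℝ) = ρ * L →
        (∀ w : ℂ, 3 / 4 ≤ w.re → w.re ≤ 8 → |w.im - t| ≤ 3 → ‖F w‖ ≤ M * Real.exp (L * w.re + e1 * L)) →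
        M * Real.exp (L * 5 - e1 * L) ≤ ‖F ((5 : ℝ) + t * I)‖ →
        (∀ w : ℂ, |w.re| ≤ 12 → |w.im - t| ≤ 6 → ‖F w‖ ≤ M * Real.exp (30 * L)) →
        (∀ w : ℂ, |w.re| ≤ 1 / 2 - s → |w.im - t| ≤ 1 → ‖F w‖ ≤ M * Real.exp ((1 / 2 - s + e0 * s) * L)) →
        (∀ w : ℂ, δ < w.re → w.re < 11 → |w.im - t| < 5 → iteratedDeriv (n + 1) F w ≠ 0) →
        ∀ β : ℝ, 1 / 2 - s / 4 ≤ β → β ≤ 1 / 2 → M * Real.exp (L * (β - s)) ≤ ‖F (β + t * I)‖ := by
  set g : ℝ := 1 / 2 - δ - ρ2 with hg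
  have hρ2 : 0 < ρ2 := by linarith
  have hg0 : 0 < g := by linarith
  have hgh : g ≤ 1 / 2 := by linarith
  refine ⟨g / 4, by positivity, g / 4, by positivity, fun s hs hsg => ?_⟩
  obtain ⟨η0, hη0, LS, hLS1, HS⟩ := SL (ρ1 / 2) ρ2 (g / 8) (by positivity) (by linarith) (by positivity)
  set η : ℝ := min (g * s / 100) (min η0 (1 / 100)) with hη
  have hηp : 0 < η := by positivity
  have hη1 : η ≤ g * s / 100 := min_le_left _ _
  have hη2 : η ≤ η0 := (min_le_right _ _).trans (min_le_left _ _)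
  have hη3 : η ≤ 1 / 100 := (min_le_right _ _).trans (min_le_right _ _)
  clear_value η
  obtain ⟨η1, hη1p, HT⟩ := transport2 (δ1 := δ) (δ2 := δ + g / 8) (C := 30) (η := η) hδ.le (by linarith)
    (by linarith) (by norm_num) hηp
  set η' : ℝ := min (g * s / 100) (min (η1 / 2) 1) with hη'
  have hη'p : 0 < η' := by positivity
  have hη'1 : η' ≤ g * s / 100 := min_le_left _ _
  have hη'2 : η' ≤ η1 / 2 := (min_le_right _ _).trans (min_le_left _ _)
  have hη'3 : η' ≤ 1 := (min_le_right _ _).trans (min_le_right _ _)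
  clear_value η'
  obtain ⟨εP, hεP, LP, hLP1, HP⟩ := one_pt (ρ1 := ρ1) (ρ2 := ρ2) (η := η') hρ1 h12 (by linarith) hη'p
  set e1 : ℝ := min εP (η1 / 2) with he1
  have he1p : 0 < e1 := by positivity
  have he11 : e1 ≤ εP := min_le_left _ _
  have he12 : e1 ≤ η1 / 2 := min_le_right _ _
  clear_value e1
  have hgs : 0 < g * s := by positivity
  have hev : ∀ᶠ L : ℝ in atTop, ρ2 * L * 32 ≤ Real.exp (g * s / 8 * L) ∧ 16 ≤ Real.exp (s / 2 * L) ∧
      4 / ρ1 ≤ L := by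
    have h1 : Tendsto (fun L : ℝ => L * Real.exp (-(g * s / 8 * L))) atTop (𝓝 0) := by
      have h3 := (tendsto_rpow_mul_exp_neg_mul_atTop_nhds_zero 1 (g * s / 8) (by positivity))
      simpa [neg_mul] using h3
    have h3 : ∀ᶠ L : ℝ in atTop, L * Real.exp (-(g * s / 8 * L)) < 1 / (32 * ρ2) :=
      h1.eventually_lt_const (by positivity)
    have h4 : ∀ᶠ L : ℝ in atTop, 16 ≤ Real.exp (s / 2 * L) :=
      (Real.tendsto_exp_atTop.comp (tendsto_id.const_mul_atTop (by positivity : 0 < s / 2))).eventually_ge_atTop _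
    filter_upwards [h3, h4, eventually_ge_atTop (4 / ρ1)] with L hL h5 h6
    refine ⟨?_, h5, h6⟩
    rw [Real.exp_neg, ← div_eq_mul_inv, div_lt_div_iff₀ (Real.exp_pos _) (by positivity)] at hL
    linarith
  obtain ⟨LE, hLE⟩ := eventually_atTop.1 hev
  refine ⟨e1, he1p, max (max LS LP) LE, hLS1.trans ((le_max_left _ _).trans (le_max_left _ _)), ?_⟩
  intro F M L ρ t n hF hM hL g1 g2 hn hup hlow hcr hst hzf β hβ1 hβ2
  have hLLS : LS ≤ L := ((le_max_left _ _).trans (le_max_left _ _)).trans hL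
  have hLLP : LP ≤ L := ((le_max_right _ _).trans (le_max_left _ _)).trans hL
  obtain ⟨k1, k2, k3⟩ := hLE L ((le_max_right _ _).trans hL)
  have hLp : 0 < L := lt_of_lt_of_le one_pos (hLS1.trans hLLS)
  have hρ : 0 < ρ := lt_of_lt_of_le hρ1 g1
  have hρh : ρ ≤ 1 / 2 := by linarith
  -- the order
  have hn4 : 4 ≤ ρ1 * L := by
    rw [div_le_iff₀ hρ1] at k3
    linarith
  have hn3 : (3 : ℝ) ≤ n := by
    have : ρ1 * L ≤ ρ * L := by gcongr
    push_cast at hn
    linarith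
  have hn1 : 1 ≤ n := by
    have : (1 : ℝ) ≤ n := by linarith
    exact_mod_cast this
  set ρ' : ℝ := n / L with hρ'
  have hN' : (n : ℝ) = ρ' * L := by rw [hρ']; field_simp
  have hρ'1 : ρ1 / 2 ≤ ρ' := by
    rw [hρ', le_div_iff₀ hLp]
    have : ρ1 * L ≤ ρ * L := by gcongr
    push_cast at hn
    linarith
  have hρ'ρ : ρ' ≤ ρ := by
    rw [hρ', div_le_iff₀ hLp, ← hn]
    push_cast
    linarith
  clear_value ρ'
  have hρ'0 : 0 < ρ' := by linarith
  -- the function `h`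
  set h : ℂ → ℂ := fun w => iteratedDeriv (n + 1) F w / ((n + 1).factorial : ℂ) with hh
  have hfac : ((n + 1).factorial : ℂ) ≠ 0 := by exact_mod_cast (n + 1).factorial_ne_zero
  have hhd : Differentiable ℂ h := (iter_diff hF (n + 1)).div_const _
  -- the point `c`
  obtain ⟨u, hu1, hu2, hu3⟩ := HP F M L ρ 4 t n hF hM hLLP g1 g2 hn
    (fun w a b c => (hup w (by linarith) (by linarith) (by linarith)).trans (by
      gcongr)) (by
      have e : ((4 + 1 : ℝ) : ℂ) = ((5 : ℝ) : ℂ) := by push_cast; norm_num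
      rw [e]
      refine le_trans ?_ hlow
      refine mul_le_mul_of_nonneg_left (Real.exp_le_exp.2 ?_) hM.le
      have : e1 * L ≤ εP * L := by gcongr
      linarith)
  set c : ℂ := (u : ℂ) + t * I with hc
  have hcre : c.re = u := by simp [hc]
  have hcim : c.im = t := by simp [hc]
  have hhc : M * Real.exp (L * (u + ρ) - η' * L) / ρ ^ (n + 1) ≤ ‖h c‖ := hu3
  have hρn : 0 < ρ ^ (n + 1) := by positivity
  have hρn1 : ρ ^ (n + 1) ≤ 1 := pow_le_one₀ hρ.le (by linarith)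
  have hhcM : M ≤ ‖h c‖ := by
    refine le_trans ?_ hhc
    rw [le_div_iff₀ hρn]
    calc M * ρ ^ (n + 1) ≤ M * 1 := by gcongr
      _ ≤ M * Real.exp (L * (u + ρ) - η' * L) := by
        apply mul_le_mul_of_nonneg_left _ hM.le
        rw [Real.one_le_exp_iff]
        have h1 : η' * L ≤ 1 * L := by gcongr
        have h2 : L * 4 ≤ L * (u + ρ) := by gcongr; linarith
        linarith
  have hball : ∀ w : ℂ, ∀ R : ℝ, ‖w - c‖ < R → |w.re - u| < R ∧ |w.im - t| < R := by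
    intro w R hw
    have h1 := (Complex.abs_re_le_norm (w - c)).trans_lt hw
    have h2 := (Complex.abs_im_le_norm (w - c)).trans_lt hw
    rw [sub_re, hcre] at h1
    rw [sub_im, hcim] at h2
    exact ⟨h1, h2⟩
  -- transport
  have HT' := HT h c L hLp hhd (by rw [hcre]; exact hu1) (by rw [hcre]; linarith)
    (fun w hw => by
      rw [hcre] at hw
      obtain ⟨h1, h2⟩ := hball w _ hw
      rw [abs_lt] at h1
      exact div_ne_zero (hzf w (by linarith [h1.1]) (by linarith [h1.2]) (by linarith)) hfac)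
    (fun w hw => by
      rw [hcre] at hw
      obtain ⟨h1, h2⟩ := hball w _ hw
      rw [abs_lt] at h1 h2
      have h3 := cauchy_h hF (w := w) (r := 1) (V := M * Real.exp (30 * L)) (n + 1) one_pos (fun z hz => by
        rw [mem_sphere_iff_norm] at hz
        have a1 := Complex.abs_re_le_norm (z - w)
        have a2 := Complex.abs_im_le_norm (z - w)
        rw [hz, sub_re, abs_le] at a1
        rw [hz, sub_im, abs_le] at a2
        refine hcr z ?_ ?_
        · rw [abs_le]; constructor <;> linarith [a1.1, a1.2, h1.1, h1.2]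
        · rw [abs_le]; constructor <;> linarith [a2.1, a2.2, h2.1, h2.2])
      rw [one_pow, div_one] at h3
      refine h3.trans ?_
      gcongr)
    (fun w hw => by
      obtain ⟨h1, h2⟩ := hball w _ hw
      rw [abs_lt] at h1 h2
      have h3 := cauchy_h hF (w := w) (r := ρ) (V := M * Real.exp (L * (w.re + ρ) + e1 * L)) (n + 1) hρ
        (fun z hz => by
          rw [mem_sphere_iff_norm] at hz
          have a1 := Complex.abs_re_le_norm (z - w)
          have a2 := Complex.abs_im_le_norm (z - w)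
          rw [hz, sub_re, abs_le] at a1
          rw [hz, sub_im, abs_le] at a2
          refine (hup z ?_ ?_ ?_).trans ?_
          · linarith [a1.1, h1.1]
          · linarith [a1.2, h1.2]
          · rw [abs_le]; constructor <;> linarith [a2.1, a2.2, h2.1, h2.2]
          · gcongr
            linarith [a1.2])
      refine h3.trans ?_
      rw [hcre]
      calc M * Real.exp (L * (w.re + ρ) + e1 * L) / ρ ^ (n + 1)
          ≤ M * Real.exp (L * (u + ρ) - η' * L + (L * (w.re - u) + η1 * L)) / ρ ^ (n + 1) := by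
            refine div_le_div_of_nonneg_right
              (mul_le_mul_of_nonneg_left (Real.exp_le_exp.2 ?_) hM.le) hρn.le
            have i1 : e1 * L ≤ η1 / 2 * L := by gcongr
            have i2 : η' * L ≤ η1 / 2 * L := by gcongr
            linarith only [i1, i2]
        _ = M * Real.exp (L * (u + ρ) - η' * L) / ρ ^ (n + 1) * Real.exp (L * (w.re - u) + η1 * L) := by
            rw [Real.exp_add]; ring
        _ ≤ _ := by gcongr)
  -- the region for the saddle point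
  set b : ℂ := (β : ℂ) + t * I with hb
  have hbre : b.re = β := by simp [hb]
  have hbim : b.im = t := by simp [hb]
  have hregion : ∀ w : ℂ, δ + g / 4 ≤ w.re → w.re ≤ 1 / 2 → |w.im - t| ≤ g / 8 →
      ‖w - c‖ ≤ c.re - (δ + g / 8) := by
    intro w h1 h2 h3
    rw [hcre]
    have h4 : ‖w - c‖ ^ 2 = (w.re - u) ^ 2 + (w.im - t) ^ 2 := by
      rw [← Complex.normSq_eq_norm_sq, Complex.normSq_apply, sub_re, sub_im, hcre, hcim]
      ring
    have h5 : (w.im - t) ^ 2 ≤ (g / 8) ^ 2 := by rw [← sq_abs]; gcongr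
    have h6 : (w.re - u) ^ 2 ≤ (u - (δ + g / 4)) ^ 2 := by
      have : (w.re - u) ^ 2 = (u - w.re) ^ 2 := by ring
      rw [this]
      apply pow_le_pow_left₀ (by linarith)
      linarith
    have h7 : 0 ≤ u - (δ + g / 8) := by linarith
    have h8 : ‖w - c‖ ^ 2 ≤ (u - (δ + g / 8)) ^ 2 := by
      rw [h4]
      nlinarith
    exact (sq_le_sq₀ (norm_nonneg _) h7).1 h8
  obtain ⟨z0, hz0, HJ⟩ := HS h b (δ + g / 4) L ρ' η n hhd hηp hη2 hLLS hρ'1 (by linarith) hN'
    (by rw [hbre]; linarith) (by rw [hbre]; linarith) (fun w a1 a2 a3 => by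
      rw [hbre] at a2
      rw [hbim] at a3
      have hw := hregion w a1 (by linarith) a3
      refine ⟨?_, (HT' w hw).1⟩
      have hwR : ‖w - c‖ < c.re - δ := by linarith
      rw [hcre] at hwR
      obtain ⟨h1, h2⟩ := hball w _ hwR
      rw [abs_lt] at h1
      exact div_ne_zero (hzf w (by linarith [h1.1]) (by linarith [h1.2]) (by linarith)) hfac)
  have hz0' : ‖z0 - ρ'‖ ≤ ρ' * (2 * η) := by linarith
  have hz0re : ρ' * (1 - 2 * η) ≤ z0.re ∧ z0.re ≤ ρ' * (1 + 2 * η) := by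
    have := (Complex.abs_re_le_norm (z0 - ρ')).trans hz0'
    rw [sub_re, ofReal_re, abs_le] at this
    constructor <;> linarith [this.1, this.2]
  have hz0p : 0 < z0.re := by
    refine lt_of_lt_of_le ?_ hz0re.1
    have : 0 < 1 - 2 * η := by linarith
    positivity
  have hz0n : ‖z0‖ ≤ ρ' * (1 + 2 * η) := by
    have h1 : ‖z0‖ ≤ ‖z0 - ρ'‖ + ‖(ρ' : ℂ)‖ := by
      have : z0 = (z0 - ρ') + ρ' := by ring
      calc ‖z0‖ = ‖(z0 - ρ') + ρ'‖ := by rw [← this]
        _ ≤ _ := norm_add_le _ _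
    rw [Complex.norm_real, Real.norm_of_nonneg hρ'0.le] at h1
    linarith
  have hz0n2 : ‖z0‖ ≤ z0.re * (1 + 6 * η) := by
    refine hz0n.trans ?_
    calc ρ' * (1 + 2 * η) ≤ ρ' * ((1 - 2 * η) * (1 + 6 * η)) := by
          apply mul_le_mul_of_nonneg_left _ hρ'0.le
          nlinarith
      _ = ρ' * (1 - 2 * η) * (1 + 6 * η) := by ring
      _ ≤ z0.re * (1 + 6 * η) := by
          apply mul_le_mul_of_nonneg_right hz0re.1
          linarith
  set S : ℝ := (b.re - (δ + g / 4)) / z0.re with hS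
  have hSz : S * z0.re = b.re - (δ + g / 4) := by rw [hS]; field_simp
  have hSz' : S * z0.re = β - (δ + g / 4) := by rw [hSz, hbre]
  have hJ := HJ S hSz
  have hS0 : 0 ≤ S := by
    rw [hS, hbre]
    apply div_nonneg _ hz0p.le
    linarith
  -- Taylor
  have hT := taylor_seg hF b z0 n S
  have hint : (∫ x in (0 : ℝ)..S, (iteratedDeriv (n + 1) F (b - x * z0) / ((n + 1).factorial : ℂ)) * (x : ℂ) ^ n) =
      ∫ x in (0 : ℝ)..S, h (b - z0 * x) * (x : ℂ) ^ n := by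
    congr 1
    funext x
    rw [hh]
    simp only
    rw [mul_comm z0 (x : ℂ)]
  rw [hint] at hT
  -- the head
  have hr0 : 0 < 1 / 2 - s - (δ + g / 4) := by linarith
  have hhead := RT_le hF (b := b) (ζ := z0) (m := n + 1) (S := S) (r := 1 / 2 - s - (δ + g / 4))
    (M := M * Real.exp ((1 / 2 - s + g / 4 * s) * L)) hr0 (by positivity) hS0 (by
      have : S * z0.re ≤ S * ‖z0‖ := by
        gcongr
        exact Complex.re_le_norm z0
      linarith) (by
      intro z hz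
      rw [mem_sphere_iff_norm] at hz
      have a1 := Complex.abs_re_le_norm (z - (b - S * z0))
      have a2 := Complex.abs_im_le_norm (z - (b - S * z0))
      have e1 : (z - (b - S * z0)).re = z.re - (δ + g / 4) := by
        have : (b - S * z0).re = δ + g / 4 := by
          rw [sub_re, Complex.re_ofReal_mul, hSz]; ring
        rw [sub_re, this]
      have e2 : (z - (b - S * z0)).im = z.im - t + S * z0.im := by
        rw [sub_im, sub_im, Complex.im_ofReal_mul, hbim]; ring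
      have e3 : |S * z0.im| ≤ 1 / 2 := by
        have h1 : |z0.im| ≤ ρ' * (2 * η) := by
          have := (Complex.abs_im_le_norm (z0 - ρ')).trans hz0'
          rwa [sub_im, ofReal_im, sub_zero] at this
        rw [abs_mul, abs_of_nonneg hS0]
        have h2 : ρ' * (2 * η) ≤ z0.re := by
          refine le_trans ?_ hz0re.1
          gcongr
          linarith
        calc S * |z0.im| ≤ S * z0.re := by gcongr; exact h1.trans h2
          _ ≤ _ := by rw [hSz']; linarith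
      rw [hz, e1, abs_le] at a1
      rw [hz, e2] at a2
      refine hst z ?_ ?_
      · rw [abs_le]; constructor <;> linarith [a1.1, a1.2]
      · rw [abs_le] at a2 e3 ⊢
        constructor <;> linarith [a2.1, a2.2, e3.1, e3.2])
  have hA := cnv_head (g := g) (s := s) (δ := δ) (ρ := ρ) (ρ2 := ρ2) (β := β) (L := L) (M := M) (η := η)
    (N := n + 1) (z0 := z0) (S := S) hg0 hs hsg hρ hδ g2 hg hLp hn hηp hη1 hβ1 hβ2 hz0p hz0n2 hSz' hM hhead
  -- the remainder
  have hbz : ‖(b - z0) - c‖ ≤ c.re - (δ + g / 8) := by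
    refine hregion _ ?_ ?_ ?_
    · rw [sub_re, hbre]
      have : z0.re ≤ ρ' + ρ' * (2 * η) := by linarith [hz0re.2]
      have : ρ' * (2 * η) ≤ 1 / 2 * (2 * (g * s / 100)) := by gcongr; linarith
      have : g * s ≤ g * (1 / 8) := by gcongr; linarith
      linarith
    · rw [sub_re, hbre]; linarith
    · rw [sub_im, hbim]
      have h1 : |z0.im| ≤ ρ' * (2 * η) := by
        have := (Complex.abs_im_le_norm (z0 - ρ')).trans hz0'
        rwa [sub_im, ofReal_im, sub_zero] at this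
      have : ρ' * (2 * η) ≤ 1 / 2 * (2 * (g * s / 100)) := by gcongr; linarith
      have : g * s ≤ g * (1 / 8) := by gcongr; linarith
      have e : t - z0.im - t = -z0.im := by ring
      rw [e, abs_neg]
      linarith
  have hhb := (HT' (b - z0) hbz).2
  rw [sub_re, hbre, hcre] at hhb
  have hI := cnv_rem (g := g) (s := s) (ρ := ρ) (ρ' := ρ') (β := β) (L := L) (M := M) (η := η) (η' := η')
    (cre := u) (hc := ‖h c‖) (hb := ‖h (b - z0)‖) (n := n) (z0 := z0)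
    (J := ‖∫ x in (0 : ℝ)..S, h (b - z0 * x) * (x : ℂ) ^ n‖) hM hρ hρh hLp hn hN' hηp (by linarith)
    (by linarith) hn1 hz0 hhc hhb hJ
  refine cnv_arith (g := g) (s := s) (L := L) (ρ := ρ) (β := β) (M := M) (N := ((n + 1 : ℕ) : ℝ))
    (A := ‖RT F b z0 (n + 1) S‖) (R := ‖F b‖)
    (I := ((n + 1 : ℕ) : ℝ) * ‖z0‖ ^ (n + 1) * ‖∫ x in (0 : ℝ)..S, h (b - z0 * x) * (x : ℂ) ^ n‖)
    hg0 hs hM hLp (by positivity) ?_ hgh k2 hA hI ?_
  · rw [hn]
    refine le_trans ?_ k1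
    gcongr
  · rw [hT]
    have e : ‖((n + 1 : ℕ) : ℂ) * z0 ^ (n + 1) * ∫ x in (0 : ℝ)..S, h (b - z0 * x) * (x : ℂ) ^ n‖ =
        ((n + 1 : ℕ) : ℝ) * ‖z0‖ ^ (n + 1) * ‖∫ x in (0 : ℝ)..S, h (b - z0 * x) * (x : ℂ) ^ n‖ := by
      rw [norm_mul, norm_mul, norm_pow, Complex.norm_natCast]
    rw [← e]
    have h1 := norm_sub_norm_le (((n + 1 : ℕ) : ℂ) * z0 ^ (n + 1) * ∫ x in (0 : ℝ)..S, h (b - z0 * x) * (x : ℂ) ^ n)
      (-(RT F b z0 (n + 1) S))
    rw [norm_neg, sub_neg_eq_add, add_comm (((n + 1 : ℕ) : ℂ) * z0 ^ (n + 1) *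
      ∫ x in (0 : ℝ)..S, h (b - z0 * x) * (x : ℂ) ^ n) _] at h1
    exact h1

end Pool.Agent.Helper85.DQ
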