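import Pool.Agent.Helper75.JE.XiG
import Pool.Agent.Helper75.JE.Half
import Pool.Agent.Helper75.Xi.Fin2

/-!
The local converse: under the growth bound to the right of `θ`, every zero `β + iγ` of zeta with `β > θ` is
followed by zeros of the derivatives `ξ^(m)` with real parts at least `β - 2m/log γ - ε`.
-/

set_option autoImplicit false
set_option maxHeartbeats 1000000

open Complex Filter Topology Metric MeasureTheory Set

namespace Pool.Agent.Helper85.DQ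

open Pool.Agent.Helper75.Jen Pool.Agent.Helper75.JE Pool.Agent.Helper75.Xi

/-- the abstract converse, shifted -/
theorem conv_shift {ρ1 ρ2 b0 : ℝ} (h1 : 0 < ρ1) (h12 : ρ1 ≤ ρ2) (h2b : ρ2 < b0)
    (hb0 : b0 ≤ 1 / 2) :
    ∃ ε > 0, ∃ L0 : ℝ, ∀ (F : ℂ → ℂ) (t M L b δ : ℝ) (n : ℕ), Differentiable ℂ F → 0 < M → L0 ≤ L →
      ρ1 * L ≤ n + 1 → (n : ℝ) + 1 ≤ ρ2 * L → 0 ≤ δ → b0 + δ ≤ b → b ≤ 1 / 2 →
      (∀ w : ℂ, |w.re| ≤ 13 → |w.im - t| ≤ 13 →
        ‖F w‖ ≤ M * Real.exp (L * max |w.re| (δ + ρ2) + ε * L)) →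
      M * Real.exp (L * (5 + δ) - ε * L) ≤ ‖F ((5 + δ : ℝ) + t * I)‖ →
      (∀ w : ℂ, δ < w.re → |w.im - t| ≤ 11 → iteratedDeriv (n + 1) F w ≠ 0) →
      F ((b : ℂ) + t * I) ≠ 0 := by
  obtain ⟨ε, hε, L0, HC⟩ := conv_gr saddleLow (ρ1 := ρ1) (ρ2 := ρ2) (b0 := b0) (σ := 1) h1 h12 h2b hb0 one_pos
  refine ⟨ε, hε, max L0 1, fun F t M L b δ n hF hM hL hn1 hn2 hδ hb1 hb2 hU hLo hZ => ?_⟩
  have hL0 : L0 ≤ L := (le_max_left _ _).trans hL
  have hLp : 0 < L := lt_of_lt_of_le one_pos ((le_max_right _ _).trans hL)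
  have hδh : δ ≤ 1 / 2 := by linarith
  set G : ℂ → ℂ := fun w => F (((δ : ℂ) + t * I) + 1 * w) with hG
  have hGd : Differentiable ℂ G := hF.comp (by fun_prop)
  have hre : ∀ w : ℂ, (((δ : ℂ) + t * I) + 1 * w).re = δ + w.re := by intro w; simp
  have him : ∀ w : ℂ, (((δ : ℂ) + t * I) + 1 * w).im = t + w.im := by intro w; simp
  have hexp : ∀ x : ℝ, M * Real.exp (L * δ) * Real.exp x = M * Real.exp (L * δ + x) := by
    intro x
    rw [Real.exp_add]
    ring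
  have hend := HC G (M * Real.exp (L * δ)) L (b - δ) n hGd (by positivity) hL0 hn1 hn2 (by linarith)
    (by linarith) (by
      intro w hw
      have h2 := (Complex.abs_re_le_norm w).trans hw
      have h3 := (Complex.abs_im_le_norm w).trans hw
      have h4 := abs_le.1 h2
      refine (hU _ (by rw [hre, abs_le]; constructor <;> linarith [h4.1, h4.2]) (by
        rw [him, add_sub_cancel_left]; linarith)).trans ?_
      rw [hexp, hre]
      have h5 : max |δ + w.re| (δ + ρ2) ≤ δ + max |w.re| ρ2 := by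
        refine max_le ?_ (by linarith [le_max_right |w.re| ρ2])
        have h6 := abs_add_le δ w.re
        rw [abs_of_nonneg hδ] at h6
        linarith [le_max_left |w.re| ρ2]
      have h7 := mul_le_mul_of_nonneg_left h5 hLp.le
      have : L * max |δ + w.re| (δ + ρ2) + ε * L ≤ L * δ + (L * max |w.re| ρ2 + ε * L) := by linarith
      gcongr) (by
      rw [hexp]
      have e : G 5 = F ((5 + δ : ℝ) + t * I) := by
        rw [hG]
        simp only
        congr 1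
        push_cast
        ring
      rw [e]
      refine le_trans (le_of_eq ?_) hLo
      congr 2
      ring) (by
      intro w hw hw2 h0
      have e0 := congrFun (iter_aff hF ((δ : ℂ) + t * I) 1 (n + 1)) w
      rw [one_pow, one_mul] at e0
      rw [hG, e0] at h0
      refine hZ _ ?_ ?_ h0
      · rw [hre]; linarith
      · rw [him, add_sub_cancel_left]
        exact (Complex.abs_im_le_norm w).trans hw2)
  have hGb : G ((b - δ : ℝ) : ℂ) = F ((b : ℂ) + t * I) := by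
    rw [hG]
    simp only
    congr 1
    push_cast
    ring
  intro h0
  rw [hGb, h0, norm_zero] at hend
  have : 0 < M * Real.exp (L * δ) * Real.exp (L * (b - δ) - 1 * L) := by positivity
  linarith

/-- finitely many thresholds -/
lemma unif_T {P : ℕ → ℝ → Prop} (hmono : ∀ j T T', T ≤ T' → P j T → P j T') (N : ℕ)
    (h : ∀ j < N, ∃ T, P j T) : ∃ T, ∀ j < N, P j T := by
  induction N with
  | zero => exact ⟨0, fun j hj => absurd hj (Nat.not_lt_zero j)⟩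
  | succ N ih =>
    obtain ⟨T1, h1⟩ := ih fun j hj => h j (Nat.lt_succ_of_lt hj)
    obtain ⟨T2, h2⟩ := h N (Nat.lt_succ_self N)
    refine ⟨max T1 T2, fun j hj => ?_⟩
    rcases Nat.lt_succ_iff_lt_or_eq.1 hj with h3 | h3
    · exact hmono j _ _ (le_max_left _ _) (h1 j h3)
    · rw [h3]
      exact hmono N _ _ (le_max_right _ _) h2

/-- one window of orders -/
lemma window {β : ℝ} (hfx : FxGr β) {ρ1 ε : ℝ} (h1 : 0 < ρ1) (hε : 0 < ε) :
    ∃ T : ℝ, ∀ w0 : ℂ, T ≤ w0.im → fx w0 = 0 → β + ε ≤ w0.re → ρ1 + 2 * ε ≤ w0.re →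
      ∀ m : ℕ, ρ1 * (Real.log w0.im / 2) ≤ m → (m : ℝ) ≤ (ρ1 + ε) * (Real.log w0.im / 2) →
        ∃ z : ℂ, iteratedDeriv m fx z = 0 ∧ w0.re - ρ1 - 2 * ε < z.re ∧ |z.im - w0.im| ≤ 11 := by
  rcases lt_or_ge (1 / 2) (ρ1 + 2 * ε) with hbig | hsmall
  · refine ⟨0, fun w0 _ h0 _ h2 => ?_⟩
    have := (abs_lt.1 (fx_zero_re h0)).2
    linarith
  obtain ⟨e, he, L0, HC⟩ := conv_shift (ρ1 := ρ1) (ρ2 := ρ1 + ε) (b0 := ρ1 + 2 * ε) h1 (by linarith)
    (by linarith) hsmall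
  obtain ⟨τ1, hτ1, H1⟩ := hfx (e / 2) 13 (by positivity) (by norm_num)
  obtain ⟨K, hK, HK⟩ := Pool.Agent.Helper82.JE.size_right (δ := 1) (R := 14) one_pos le_rfl (by norm_num)
  set L1 : ℝ := max L0 (max (84 * K / e) 1) with hL1
  refine ⟨max τ1 (max 420 (Real.exp (2 * L1))), fun w0 hw0 hfx0 hβ hρ m hm1 hm2 => ?_⟩
  simp only [max_le_iff] at hw0
  obtain ⟨a1, a3, a4⟩ := hw0
  obtain ⟨b, hb⟩ : ∃ b : ℝ, b = w0.re := ⟨_, rfl⟩
  obtain ⟨τ, hτ⟩ : ∃ τ : ℝ, τ = w0.im := ⟨_, rfl⟩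
  rw [← hτ] at a1 a3 a4 hm1 hm2 ⊢
  rw [← hb] at hβ hρ ⊢
  have hw0eq : w0 = (b : ℂ) + τ * I := by
    rw [hb, hτ]; exact (Complex.re_add_im w0).symm
  have hb2 : |b| < 1 / 2 := by rw [hb]; exact fx_zero_re hfx0
  have hb2' := abs_lt.1 hb2
  have hτ0 : 0 < τ := by linarith
  obtain ⟨L, hL⟩ : ∃ L : ℝ, L = Real.log τ / 2 := ⟨_, rfl⟩
  rw [← hL] at hm1 hm2
  have hLL1 : L1 ≤ L := by
    rw [hL, le_div_iff₀ (by norm_num), Real.le_log_iff_exp_le hτ0, mul_comm]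
    exact a4
  have hLL := hLL1
  rw [hL1] at hLL
  simp only [max_le_iff] at hLL
  obtain ⟨l1, l2, l3⟩ := hLL
  have hL0 : 0 < L := by linarith
  have hM := Mf_pos τ
  have hm0 : 0 < m := by
    have : (0 : ℝ) < m := lt_of_lt_of_le (by positivity) hm1
    exact_mod_cast this
  obtain ⟨n, hn⟩ : ∃ n : ℕ, m = n + 1 := ⟨m - 1, by omega⟩
  have hmn : (m : ℝ) = n + 1 := by rw [hn]; push_cast; ring
  by_contra hcon
  push Not at hcon
  obtain ⟨δ, hδ⟩ : ∃ δ : ℝ, δ = b - ρ1 - 2 * ε := ⟨_, rfl⟩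
  refine HC fx τ (Mf τ) L b δ n fx_diff hM l1 (by linarith) (by linarith) (by linarith) (by linarith)
    hb2'.2.le ?_ ?_ ?_ (by rw [← hw0eq]; exact hfx0)
  · intro w hw1 hw2
    have h1 := H1 τ a1 w hw1 hw2
    rw [← hL] at h1
    refine h1.trans (mul_le_mul_of_nonneg_left (Real.exp_le_exp.2 ?_) hM.le)
    have h2 : L * max |w.re| β ≤ L * max |w.re| (δ + (ρ1 + ε)) := by
      gcongr
      linarith
    have h3 : 0 ≤ e * L := by positivity
    linarith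
  · have h5r : (((5 + δ : ℝ) : ℂ) + τ * I).re = 5 + δ := by simp
    have h5i : (((5 + δ : ℝ) : ℂ) + τ * I).im - τ = 0 := by simp
    obtain ⟨g1, -, g3⟩ := HK τ (by linarith) (((5 + δ : ℝ) : ℂ) + τ * I) (by rw [h5r]; linarith)
      (by rw [h5r]; linarith) (by rw [h5i]; norm_num)
    rw [h5r, ← hL] at g3
    have g3' := (abs_le.1 g3).1
    have hf1 : fx (1 + τ * I) ≠ 0 := by
      intro h0
      have h1 := fx_zero_re h0
      have h2 : (1 + (τ : ℂ) * I).re = 1 := by simp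
      rw [h2] at h1
      norm_num at h1
    have hpos1 := norm_pos_iff.2 hf1
    have hpos5 := norm_pos_iff.2 g1
    have hMe : Mf τ * Real.exp (L * (5 + δ) - e * L) =
        Real.exp (Real.log ‖fx (1 + τ * I)‖ + (L * (5 + δ - 1) - e * L)) := by
      unfold Mf
      rw [Real.exp_add, Real.exp_log hpos1, mul_assoc, ← Real.exp_add, ← hL]
      congr 2
      ring
    rw [hMe, ← Real.le_log_iff_exp_le hpos5]
    have h6 : 84 * K ≤ e * L := by
      rw [div_le_iff₀ he] at l2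
      linarith
    linarith
  · intro w hw1 hw2 h0
    have := hcon w (by rw [hn]; exact h0) (by linarith)
    linarith

/-- **The local converse.** -/
theorem loc_fx {β : ℝ} (hfx : FxGr β) {ε : ℝ} (hε : 0 < ε) :
    ∃ T : ℝ, ∀ w0 : ℂ, T ≤ w0.im → fx w0 = 0 → β + ε ≤ w0.re → ∀ m : ℕ, ε * Real.log w0.im ≤ m →
      2 * m / Real.log w0.im ≤ w0.re - ε →
        ∃ z : ℂ, iteratedDeriv m fx z = 0 ∧ w0.re - 2 * m / Real.log w0.im - ε < z.re ∧
          |z.im - w0.im| ≤ 11 := by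
  set d : ℝ := ε / 4 with hd
  have hd0 : 0 < d := by positivity
  obtain ⟨N, hN⟩ := exists_nat_ge (1 / d)
  obtain ⟨T, hT⟩ := unif_T (P := fun j T => ∀ w0 : ℂ, T ≤ w0.im → fx w0 = 0 → β + d ≤ w0.re →
      (j + 1) * d + 2 * d ≤ w0.re → ∀ m : ℕ, (j + 1) * d * (Real.log w0.im / 2) ≤ m →
      (m : ℝ) ≤ ((j + 1) * d + d) * (Real.log w0.im / 2) →
        ∃ z : ℂ, iteratedDeriv m fx z = 0 ∧ w0.re - (j + 1) * d - 2 * d < z.re ∧ |z.im - w0.im| ≤ 11)
    (fun j T T' hTT h w0 hw0 => h w0 (hTT.trans hw0)) N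
    (fun j _ => window hfx (ρ1 := (j + 1) * d) (ε := d) (by positivity) hd0)
  refine ⟨max T 3, fun w0 hw0 h0 hβ m hm1 hm2 => ?_⟩
  rw [max_le_iff] at hw0
  have hlog : 0 < Real.log w0.im := Real.log_pos (by linarith [hw0.2])
  obtain ⟨ρ, hρ⟩ : ∃ ρ : ℝ, ρ = 2 * m / Real.log w0.im := ⟨_, rfl⟩
  rw [← hρ] at hm2 ⊢
  have hmρ : (m : ℝ) = ρ * (Real.log w0.im / 2) := by rw [hρ]; field_simp
  have hρ1 : 4 * d ≤ ρ := by
    rw [hρ, le_div_iff₀ hlog, hd]
    have := mul_pos hε hlog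
    linarith
  have hre := (abs_lt.1 (fx_zero_re h0)).2
  obtain ⟨j, hj⟩ : ∃ j : ℕ, j = ⌊ρ / d - 1⌋₊ := ⟨_, rfl⟩
  have hρd : 4 ≤ ρ / d := by rw [le_div_iff₀ hd0]; exact hρ1
  have hj1 : (j : ℝ) ≤ ρ / d - 1 := by rw [hj]; exact Nat.floor_le (by linarith)
  have hj2 : ρ / d - 1 < j + 1 := by rw [hj]; exact Nat.lt_floor_add_one _
  have hj3 : ((j : ℝ) + 1) * d ≤ ρ := by
    have : (j : ℝ) + 1 ≤ ρ / d := by linarith
    rwa [le_div_iff₀ hd0] at this
  have hj4 : ρ ≤ ((j : ℝ) + 1) * d + d := by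
    have : ρ / d ≤ j + 1 + 1 := by linarith
    rw [div_le_iff₀ hd0] at this
    linarith
  have hjN : j < N := by
    have h1 : (j : ℝ) * d < 1 := by linarith
    have h2 : (j : ℝ) < 1 / d := by rwa [lt_div_iff₀ hd0]
    have : (j : ℝ) < N := lt_of_lt_of_le h2 hN
    exact_mod_cast this
  obtain ⟨z, hz1, hz2, hz3⟩ := hT j hjN w0 hw0.1 h0 (by linarith) (by linarith) m
    (by rw [hmρ]; gcongr) (by rw [hmρ]; gcongr)
  exact ⟨z, hz1, by linarith, hz3⟩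

end Pool.Agent.Helper85.DQ
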