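import Pool.Agent.Helper82.JE.FxGr
import Pool.Agent.Helper85.DQ.LocGr

/-!
The fate of a zero of zeta off the critical line: if zeta is small to the right of `β - ε` near the zero `β + iγ`,
then the zero is followed by zeros of `ξ^(m)` with real parts at least `β - 2m/log γ - ε`.
-/

set_option autoImplicit false
set_option maxHeartbeats 1000000

open Complex Filter Topology Metric MeasureTheory Set

namespace Pool.Agent.Helper85.DQ

open Pool.Agent.Helper75.Jen Pool.Agent.Helper75.HD Pool.Agent.Helper82.JE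

/-- zeta is at most `τ^κ` to the right of `1/2 + σ`, at the distance `H` from the height `τ` -/
def Small (σ H κ τ : ℝ) : Prop := ∀ s : ℂ, 1 / 2 + σ ≤ s.re → |s.im - τ| ≤ H → ‖riemannZeta s‖ ≤ τ ^ (κ : ℝ)

/-- to the right of a line on which the zeta function is small -/
lemma line_loc {ε R : ℝ} (hε : 0 < ε) (hR : 1 ≤ R) :
    ∃ τ0 : ℝ, 30 * R ≤ τ0 ∧ ∀ σ τ : ℝ, 0 ≤ σ → τ0 ≤ τ → Small σ R (ε / 8) τ → ∀ w : ℂ, σ ≤ w.re →
      w.re ≤ R → |w.im - τ| ≤ R →
      ‖fx w‖ ≤ Pool.Agent.Helper82.JE.Mf τ * Real.exp (Real.log τ / 2 * w.re + ε * (Real.log τ / 2)) := by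
  obtain ⟨C1, hC1, hLB⟩ := logDeriv_Gx
  have hC : LB C1 := ⟨hC1, hLB⟩
  obtain ⟨K, hK1, hK⟩ := size_right (δ := 1) (R := R) one_pos le_rfl hR
  obtain ⟨C0, hC0, hz⟩ := zeta_right' (η := 1 / 4) (by norm_num)
  -- the constant
  set A : ℝ := C0 * Real.exp (K * (6 * R)) * Real.exp ((C1 + 1) * R) with hA
  have hA0 : 0 < A := by positivity
  refine ⟨max (30 * R) (Real.exp (8 * |Real.log A| / ε)), le_max_left _ _, ?_⟩
  intro σ τ hσ hτ hS w hw0 hwR hwi
  have hτ1 : 30 * R ≤ τ := (le_max_left _ _).trans hτ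
  have hτ2 : Real.exp (8 * |Real.log A| / ε) ≤ τ := (le_max_right _ _).trans hτ
  have hτ0 : 0 < τ := by linarith
  obtain ⟨i1, i2⟩ := abs_le.1 hwi
  set y : ℝ := w.im with hy
  have hy0 : 0 < y := by linarith
  set w1 : ℂ := 1 + y * I with hw1
  have hw1re : w1.re = 1 := by simp [hw1]
  have hw1im : w1.im = y := by simp [hw1]
  -- the value at 1 + iy
  obtain ⟨-, -, hsz⟩ := hK τ hτ1 w1 (by rw [hw1re]; norm_num) (by rw [hw1re]; linarith)
    (by rw [hw1im]; linarith)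
  rw [hw1re, sub_self, mul_zero, sub_zero] at hsz
  have hap : ∀ x : ℝ, 0 < ‖fx (1 + x * I)‖ := by
    intro x
    refine norm_pos_iff.2 fun h => ?_
    have h1 := fx_zero_re h
    have h2 : (1 + (x : ℂ) * I).re = 1 := by simp
    rw [h2] at h1
    norm_num at h1
  have hsz2 : ‖fx w1‖ ≤ ‖fx (1 + τ * I)‖ * Real.exp (K * (6 * R)) := by
    have h1 := (abs_le.1 hsz).2
    have h2 : Real.log ‖fx w1‖ ≤ Real.log (‖fx (1 + τ * I)‖ * Real.exp (K * (6 * R))) := by
      rw [Real.log_mul (hap τ).ne' (Real.exp_pos _).ne', Real.log_exp]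
      linarith
    exact (Real.log_le_log_iff (hap y) (mul_pos (hap τ) (Real.exp_pos _))).1 h2
  -- Gx at 1 + iy
  have hfw1 : fx w1 = Gx w1 * riemannZeta (1 / 2 + w1) := by
    apply fx_eq
    · rw [hw1re]; norm_num
    · intro h
      have := congrArg Complex.re h
      rw [hw1re] at this
      norm_num at this
  obtain ⟨-, -, -, hzl⟩ := hz (1 / 2 + w1) (by
    simp only [add_re, hw1re]
    norm_num)
  have hG1 : ‖Gx w1‖ ≤ C0 * ‖fx w1‖ := by
    rw [hfw1, norm_mul]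
    have h0 := norm_nonneg (Gx w1)
    calc ‖Gx w1‖ = ‖Gx w1‖ * 1 := (mul_one _).symm
      _ ≤ ‖Gx w1‖ * (C0 * ‖riemannZeta (1 / 2 + w1)‖) := by gcongr
      _ = _ := by ring
  -- horizontally
  have hwabs : |w.re| ≤ R := by rw [abs_of_nonneg (hσ.trans hw0)]; exact hwR
  have hG2 := Gx_hor hC (w := w1) (w' := w) (X := R) (by rw [hw1im]; linarith) (by rw [hw1im])
    (by rw [hw1im]; linarith) (by rw [hw1re, abs_one]; exact hR) hwabs
  rw [hw1re, hw1im] at hG2
  have e1 : |w.re - 1| ≤ R := by rw [abs_le]; constructor <;> linarith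
  have hfw : fx w = Gx w * riemannZeta (1 / 2 + w) := by
    apply fx_eq
    · linarith
    · intro h
      have := congrArg Complex.im h
      rw [← hy] at this
      norm_num at this
      linarith
  have hzy : ‖riemannZeta (1 / 2 + w)‖ ≤ τ ^ (ε / 8 : ℝ) :=
    hS (1 / 2 + w) (by simp; linarith) (by
      have h2 : (1 / 2 + w).im = y := by simp [hy]
      rw [h2]; exact hwi)
  have hy2 : y ≤ 2 * τ := by linarith
  have hl2 : Real.log 2 ≤ 1 := by
    have := Real.log_two_lt_d9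
    linarith
  have hlogy : |Real.log y - Real.log τ| ≤ 1 := by
    rw [abs_le]
    constructor
    · have h1 : τ / 2 ≤ y := by linarith
      have h2 : Real.log (τ / 2) ≤ Real.log y := Real.log_le_log (by positivity) h1
      rw [Real.log_div hτ0.ne' (by norm_num)] at h2
      linarith
    · have h2 : Real.log y ≤ Real.log (2 * τ) := Real.log_le_log hy0 hy2
      rw [Real.log_mul (by norm_num) hτ0.ne'] at h2
      linarith
  have hτp : τ ^ (ε / 8 : ℝ) = Real.exp (ε / 8 * Real.log τ) := by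
    rw [Real.rpow_def_of_pos hτ0, mul_comm]
  have hlogA : Real.log A ≤ ε / 8 * Real.log τ := by
    have h1 : 8 * |Real.log A| / ε ≤ Real.log τ := by
      rw [Real.le_log_iff_exp_le hτ0]; exact hτ2
    rw [div_le_iff₀ hε] at h1
    have := le_abs_self (Real.log A)
    linarith
  have hAexp : A ≤ Real.exp (ε / 8 * Real.log τ) := by
    rw [← Real.log_le_iff_le_exp hA0]; exact hlogA
  have hτpos : 0 ≤ Real.log τ := Real.log_nonneg (by linarith)
  have hexp : Real.exp (1 / 2 * Real.log y * (w.re - 1) + C1 * |w.re - 1|) ≤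
      Real.exp (Real.log τ / 2 * (w.re - 1) + (C1 + 1) * R) := by
    refine Real.exp_le_exp.2 ?_
    have h1 : (Real.log y - Real.log τ) * (w.re - 1) ≤ 1 * R := by
      refine (le_abs_self _).trans ?_
      rw [abs_mul]
      exact mul_le_mul hlogy e1 (abs_nonneg _) (by norm_num)
    have h2 : C1 * |w.re - 1| ≤ C1 * R := by gcongr
    nlinarith
  have hG3 : ‖Gx w1‖ ≤ C0 * (‖fx (1 + τ * I)‖ * Real.exp (K * (6 * R))) :=
    hG1.trans (by gcongr)
  calc ‖fx w‖ = ‖Gx w‖ * ‖riemannZeta (1 / 2 + w)‖ := by rw [hfw, norm_mul]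
    _ ≤ (‖Gx w1‖ * Real.exp (1 / 2 * Real.log y * (w.re - 1) + C1 * |w.re - 1|)) *
          (τ ^ (ε / 8 : ℝ)) := by
        gcongr
    _ ≤ ((C0 * (‖fx (1 + τ * I)‖ * Real.exp (K * (6 * R)))) *
          Real.exp (Real.log τ / 2 * (w.re - 1) + (C1 + 1) * R)) *
          (τ ^ (ε / 8)) := by
        gcongr
    _ = Pool.Agent.Helper82.JE.Mf τ * (Real.exp (Real.log τ / 2 * w.re) * (A * Real.exp (ε / 8 * Real.log τ))) := by
        have e3 : Real.log τ / 2 * (w.re - 1) + (C1 + 1) * R =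
            -(Real.log τ / 2) + (Real.log τ / 2 * w.re + (C1 + 1) * R) := by ring
        rw [hτp, e3, Real.exp_add, Real.exp_add, hA]
        unfold Pool.Agent.Helper82.JE.Mf
        ring
    _ ≤ Pool.Agent.Helper82.JE.Mf τ * (Real.exp (Real.log τ / 2 * w.re) *
          (Real.exp (ε / 8 * Real.log τ) * Real.exp (ε / 8 * Real.log τ))) := by
        have := (Pool.Agent.Helper82.JE.Mf_pos τ).le
        gcongr
    _ ≤ Pool.Agent.Helper82.JE.Mf τ * Real.exp (Real.log τ / 2 * w.re + ε * (Real.log τ / 2)) := by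
        rw [← Real.exp_add, ← Real.exp_add]
        have := (Pool.Agent.Helper82.JE.Mf_pos τ).le
        gcongr
        nlinarith

/-- the size of `fx` near the height `τ` -/
lemma fx_loc {ε R : ℝ} (hε : 0 < ε) (hR : 1 ≤ R) :
    ∃ H κ τ0 : ℝ, 0 < κ ∧ 2 ≤ τ0 ∧ ∀ σ τ : ℝ, 0 < σ → σ ≤ 1 → τ0 ≤ τ → Small σ H κ τ → ∀ w : ℂ,
      |w.re| ≤ R → |w.im - τ| ≤ R →
      ‖fx w‖ ≤ Pool.Agent.Helper82.JE.Mf τ *
        Real.exp (Real.log τ / 2 * max |w.re| σ + ε * (Real.log τ / 2)) := by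
  obtain ⟨Cg, τg, hCg, hτg, hgr⟩ := Pool.Agent.Helper82.JE.growth
  set H : ℝ := 128 * Cg / ε + R + 1 + 3 with hH
  have hHR : R + 1 + 3 ≤ H := by
    have : 0 ≤ 128 * Cg / ε := by positivity
    linarith
  have hH1 : 1 ≤ H := by linarith
  set R' : ℝ := H + R + 1 with hR'
  have hR'1 : 1 ≤ R' := by linarith
  obtain ⟨τ1, hτ1, h1⟩ := line_loc (ε := ε / 4) (R := R') (by positivity) hR'1
  refine ⟨R', ε / 4 / 8, max τ1 τg, by positivity, hτg.trans (le_max_right _ _), ?_⟩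
  intro r τ hr0 hr1 hτ hS
  simp only [max_le_iff] at hτ
  obtain ⟨a1, a2⟩ := hτ
  have hτR : 30 * R' ≤ τ := hτ1.trans a1
  have hτ0 : 0 < τ := by linarith
  set L : ℝ := Real.log τ / 2 with hL
  have hlogτ : 0 ≤ Real.log τ := Real.log_nonneg (show 1 ≤ τ by linarith)
  have hL0 : 0 ≤ L := by positivity
  have hM0 : 0 < Pool.Agent.Helper82.JE.Mf τ := Pool.Agent.Helper82.JE.Mf_pos τ
  -- outside of the strip
  have hout : ∀ w : ℂ, r ≤ |w.re| → |w.re| ≤ R' → |w.im - τ| ≤ R' →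
      ‖fx w‖ ≤ Pool.Agent.Helper82.JE.Mf τ * Real.exp (L * |w.re| + ε / 4 * L) := by
    intro w b1 b2 b3
    rcases le_total 0 w.re with h | h
    · rw [abs_of_nonneg h] at b1 b2 ⊢
      exact h1 r τ hr0.le a1 hS w b1 b2 b3
    · rw [abs_of_nonpos h] at b1 b2 ⊢
      have h4 : (-(starRingEnd ℂ w)).re = -w.re := by simp
      have h5 : (-(starRingEnd ℂ w)).im = w.im := by simp
      have h3 := h1 r τ hr0.le a1 hS (-(starRingEnd ℂ w)) (by rw [h4]; exact b1) (by rw [h4]; exact b2)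
        (by rw [h5]; exact b3)
      rw [fx_even, fx_conj, RCLike.norm_conj, h4] at h3
      exact h3
  intro w c1 c3
  have hgoal : ‖fx w‖ ≤ Pool.Agent.Helper82.JE.Mf τ * Real.exp (L * max |w.re| r + ε * L) := by
    rcases le_or_gt r |w.re| with hw | hw
    · refine (hout w hw (by linarith) (by linarith)).trans ?_
      have h2 : |w.re| ≤ max |w.re| r := le_max_left _ _
      gcongr
      linarith
    -- the strip
    set t : ℝ := w.im with ht
    obtain ⟨t1, t2⟩ := abs_le.1 c3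
    set V : ℝ := Pool.Agent.Helper82.JE.Mf τ * Real.exp (L * r + ε / 4 * L) with hV
    have hV0 : 0 ≤ V := by positivity
    set Kt : ℝ := Cg * Real.log τ * (2 * H) with hKt
    have hKt0 : 0 ≤ Kt := by positivity
    have hside : ∀ u : ℂ, |u.re| = r → |u.im - t| ≤ H → ‖fx u‖ ≤ V := by
      intro u d1 d2
      obtain ⟨s1, s2⟩ := abs_le.1 d2
      have hclose : |u.im - τ| ≤ R' := by rw [abs_le]; constructor <;> linarith
      have h3 := hout u d1.ge (by rw [d1]; linarith) hclose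
      rw [d1] at h3
      exact h3
    have htop : ∀ u : ℂ, |u.re| ≤ r → |u.im - t| = H → ‖fx u‖ ≤ V * Real.exp Kt := by
      intro u d1 d2
      obtain ⟨s1, s2⟩ := abs_le.1 d2.le
      obtain ⟨s3, s4⟩ := abs_le.1 d1
      have hd : ‖u - τ * I‖ ≤ H + R + r := by
        refine (Complex.norm_le_abs_re_add_abs_im _).trans ?_
        have e1 : (u - τ * I).re = u.re := by simp
        have e2 : (u - τ * I).im = u.im - τ := by simp
        rw [e1, e2]
        have h4 : |u.im - τ| ≤ H + R := by rw [abs_le]; constructor <;> linarith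
        linarith
      have hn : ‖u‖ ≤ 2 * τ := by
        have h3 : ‖u‖ ≤ ‖u - τ * I‖ + ‖(τ : ℂ) * I‖ := by
          simpa using norm_add_le (u - τ * I) (τ * I)
        have h4 : ‖(τ : ℂ) * I‖ = τ := by
          rw [norm_mul, Complex.norm_I, mul_one, Complex.norm_real, Real.norm_of_nonneg hτ0.le]
        linarith
      have h3 := hgr τ a2 _ hn
      calc ‖fx u‖
          ≤ Pool.Agent.Helper82.JE.Mf τ * Real.exp (Cg * Real.log τ * (1 + ‖u - τ * I‖)) := h3
        _ ≤ V * Real.exp Kt := by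
            rw [hV, hKt]
            have h6 : Pool.Agent.Helper82.JE.Mf τ ≤ Pool.Agent.Helper82.JE.Mf τ * Real.exp (L * r + ε / 4 * L) := by
              have : 1 ≤ Real.exp (L * r + ε / 4 * L) := Real.one_le_exp (by positivity)
              nlinarith
            gcongr
            linarith
    have hmain := gauss_strip' fx_diff (r := r) (H := H) (t := t) (V := V) (K := Kt) hr0
      hH1 hV0 hKt0 hside htop w hw.le (by rw [← ht]; simp)
    have hKH : Kt / H ^ 2 * (r ^ 2 + 1) ≤ ε / 4 * L := by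
      have h3 : Kt / H ^ 2 * (r ^ 2 + 1) = 4 * (Cg * (r ^ 2 + 1)) * L / H := by
        rw [hKt, hL]
        field_simp
        ring
      rw [h3]
      have h4 : 128 * Cg / ε ≤ H := by linarith
      rw [div_le_iff₀ hε] at h4
      rw [div_le_iff₀ (by linarith)]
      have h5 := mul_le_mul_of_nonneg_right h4 hL0
      have h6 : 0 ≤ H * ε * L := by positivity
      have h9 : r ^ 2 ≤ 1 := by nlinarith
      have h7 : 4 * (Cg * (r ^ 2 + 1)) * L ≤ 1 / 16 * (128 * Cg * L) := by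
        have : Cg * L * (r ^ 2 + 1) ≤ Cg * L * 2 := by gcongr; linarith
        nlinarith
      have h8 : ε / 4 * L * H = 1 / 4 * (H * ε * L) := by ring
      rw [h8]
      linarith
    have hmax : r ≤ max |w.re| r := le_max_right _ _
    calc ‖fx w‖ ≤ V * Real.exp (Kt / H ^ 2 * (r ^ 2 + 1)) := hmain
      _ ≤ V * Real.exp (ε / 4 * L) := by gcongr
      _ = Pool.Agent.Helper82.JE.Mf τ * Real.exp (L * r + ε / 4 * L + ε / 4 * L) := by
          rw [hV, mul_assoc, ← Real.exp_add]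
      _ ≤ Pool.Agent.Helper82.JE.Mf τ * Real.exp (L * max |w.re| r + ε * L) := by
          refine mul_le_mul_of_nonneg_left (Real.exp_le_exp.2 ?_) hM0.le
          have h7 : L * r ≤ L * max |w.re| r := by gcongr
          have h8 : 0 ≤ ε * L := by positivity
          linarith
  exact hgoal

/-- one window of orders -/
lemma window_loc {ρ1 ε : ℝ} (h1 : 0 < ρ1) (hε : 0 < ε) :
    ∃ H κ T : ℝ, 0 < κ ∧ ∀ w0 : ℂ, T ≤ w0.im → fx w0 = 0 → ρ1 + 2 * ε ≤ w0.re →
      Small (w0.re - ε) H κ w0.im →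
      ∀ m : ℕ, ρ1 * (Real.log w0.im / 2) ≤ m → (m : ℝ) ≤ (ρ1 + ε) * (Real.log w0.im / 2) →
        ∃ z : ℂ, iteratedDeriv m fx z = 0 ∧ w0.re - ρ1 - 2 * ε < z.re ∧ |z.im - w0.im| ≤ 11 := by
  rcases lt_or_ge (1 / 2) (ρ1 + 2 * ε) with hbig | hsmall
  · refine ⟨0, 1, 0, one_pos, fun w0 _ h0 h2 _ => ?_⟩
    have := (abs_lt.1 (fx_zero_re h0)).2
    linarith
  obtain ⟨e, he, L0, HC⟩ := conv_shift (ρ1 := ρ1) (ρ2 := ρ1 + ε) (b0 := ρ1 + 2 * ε) h1 (by linarith)
    (by linarith) hsmall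
  obtain ⟨H, κ, τ1, hκ, hτ1, H1⟩ := fx_loc (ε := e / 2) (R := 13) (by positivity) (by norm_num)
  obtain ⟨K, hK, HK⟩ := Pool.Agent.Helper82.JE.size_right (δ := 1) (R := 14) one_pos le_rfl (by norm_num)
  set L1 : ℝ := max L0 (max (84 * K / e) 1) with hL1
  refine ⟨H, κ, max τ1 (max 420 (Real.exp (2 * L1))), hκ, fun w0 hw0 hfx0 hρ hS m hm1 hm2 => ?_⟩
  simp only [max_le_iff] at hw0
  obtain ⟨a1, a3, a4⟩ := hw0
  obtain ⟨b, hb⟩ : ∃ b : ℝ, b = w0.re := ⟨_, rfl⟩
  obtain ⟨τ, hτ⟩ : ∃ τ : ℝ, τ = w0.im := ⟨_, rfl⟩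
  rw [← hτ] at a1 a3 a4 hm1 hm2 hS ⊢
  rw [← hb] at hρ hS ⊢
  have hw0eq : w0 = (b : ℂ) + τ * I := by
    rw [hb, hτ]; exact (Complex.re_add_im w0).symm
  have hb2 : |b| < 1 / 2 := by rw [hb]; exact fx_zero_re hfx0
  have hb2' := abs_lt.1 hb2
  have hτ0 : 0 < τ := by linarith
  obtain ⟨L, hL⟩ : ∃ L : ℝ, L = Real.log τ / 2 := ⟨_, rfl⟩
  rw [← hL] at hm1 hm2
  have hLL1 : L1 ≤ L := by
    rw [hL, le_div_iff₀ (by norm_num), Real.le_log_iff_exp_le hτ0, mul_comm]
    exact a4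
  have hLL := hLL1
  rw [hL1] at hLL
  simp only [max_le_iff] at hLL
  obtain ⟨l1, l2, l3⟩ := hLL
  have hL0 : 0 < L := by linarith
  have hM := Pool.Agent.Helper82.JE.Mf_pos τ
  have hm0 : 0 < m := by
    have : (0 : ℝ) < m := lt_of_lt_of_le (by positivity) hm1
    exact_mod_cast this
  obtain ⟨n, hn⟩ : ∃ n : ℕ, m = n + 1 := ⟨m - 1, by omega⟩
  have hmn : (m : ℝ) = n + 1 := by rw [hn]; push_cast; ring
  by_contra hcon
  push Not at hcon
  obtain ⟨δ, hδ⟩ : ∃ δ : ℝ, δ = b - ρ1 - 2 * ε := ⟨_, rfl⟩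
  refine HC fx τ (Pool.Agent.Helper82.JE.Mf τ) L b δ n fx_diff hM l1 (by linarith) (by linarith) (by linarith) (by linarith)
    hb2'.2.le ?_ ?_ ?_ (by rw [← hw0eq]; exact hfx0)
  · intro w hw1 hw2
    have h1 := H1 (b - ε) τ (by linarith) (by linarith) a1 hS w hw1 hw2
    rw [← hL] at h1
    refine h1.trans (mul_le_mul_of_nonneg_left (Real.exp_le_exp.2 ?_) hM.le)
    have h2 : L * max |w.re| (b - ε) ≤ L * max |w.re| (δ + (ρ1 + ε)) := by
      gcongr
      linarith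
    have h3 : 0 ≤ e * L := by positivity
    linarith
  · have h5r : (((5 + δ : ℝ) : ℂ) + τ * I).re = 5 + δ := by simp
    have h5i : (((5 + δ : ℝ) : ℂ) + τ * I).im - τ = 0 := by simp
    obtain ⟨g1, -, g3⟩ := HK τ (by linarith) (((5 + δ : ℝ) : ℂ) + τ * I) (by rw [h5r]; linarith)
      (by rw [h5r]; linarith) (by rw [h5i]; norm_num)
    rw [h5r, ← hL] at g3
    have g3' := (abs_le.1 g3).1
    have hf1 : fx (1 + τ * I) ≠ 0 := by
      intro h0
      have h1 := fx_zero_re h0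
      have h2 : (1 + (τ : ℂ) * I).re = 1 := by simp
      rw [h2] at h1
      norm_num at h1
    have hpos1 := norm_pos_iff.2 hf1
    have hpos5 := norm_pos_iff.2 g1
    have hMe : Pool.Agent.Helper82.JE.Mf τ * Real.exp (L * (5 + δ) - e * L) =
        Real.exp (Real.log ‖fx (1 + τ * I)‖ + (L * (5 + δ - 1) - e * L)) := by
      unfold Pool.Agent.Helper82.JE.Mf
      rw [Real.exp_add, Real.exp_log hpos1, mul_assoc, ← Real.exp_add, ← hL]
      congr 2
      ring
    rw [hMe, ← Real.le_log_iff_exp_le hpos5]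
    have h6 : 84 * K ≤ e * L := by
      rw [div_le_iff₀ he] at l2
      linarith
    linarith
  · intro w hw1 hw2 h0
    have := hcon w (by rw [hn]; exact h0) (by linarith)
    linarith

lemma Small.mono {σ σ' H H' κ κ' τ : ℝ} (h : Small σ H κ τ) (h1 : σ ≤ σ') (h2 : H' ≤ H) (h3 : κ ≤ κ')
    (h4 : 1 ≤ τ) : Small σ' H' κ' τ := fun s hs1 hs2 =>
  (h s (by linarith) (by linarith)).trans (Real.rpow_le_rpow_of_exponent_le h4 h3)

/-- **The fate of a zero of zeta off the critical line.** -/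
theorem fate_fx {ε : ℝ} (hε : 0 < ε) :
    ∃ K : ℝ, 1 ≤ K ∧ ∀ w0 : ℂ, K ≤ w0.im → fx w0 = 0 → Small (w0.re - ε) K (1 / K) w0.im →
      ∀ m : ℕ, ε * Real.log w0.im ≤ m → 2 * m / Real.log w0.im ≤ w0.re - ε →
        ∃ z : ℂ, iteratedDeriv m fx z = 0 ∧ w0.re - 2 * m / Real.log w0.im - ε < z.re ∧
          |z.im - w0.im| ≤ 11 := by
  set d : ℝ := ε / 4 with hd
  have hd0 : 0 < d := by positivity
  obtain ⟨N, hN⟩ := exists_nat_ge (1 / d)
  obtain ⟨K, hK⟩ := unif_T (P := fun j K => 1 ≤ K ∧ ∀ w0 : ℂ, K ≤ w0.im → fx w0 = 0 →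
      (j + 1) * d + 2 * d ≤ w0.re → Small (w0.re - d) K (1 / K) w0.im →
      ∀ m : ℕ, (j + 1) * d * (Real.log w0.im / 2) ≤ m →
      (m : ℝ) ≤ ((j + 1) * d + d) * (Real.log w0.im / 2) →
        ∃ z : ℂ, iteratedDeriv m fx z = 0 ∧ w0.re - (j + 1) * d - 2 * d < z.re ∧ |z.im - w0.im| ≤ 11)
    (fun j T T' hTT h => ⟨h.1.trans hTT, fun w0 hw0 h0 h1 h2 =>
      h.2 w0 (hTT.trans hw0) h0 h1 (h2.mono le_rfl hTT (by
        have := h.1
        gcongr) ((h.1.trans hTT).trans hw0))⟩) N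
    (fun j _ => by
      obtain ⟨H, κ, T, hκ, h⟩ := window_loc (ρ1 := (j + 1) * d) (ε := d) (by positivity) hd0
      refine ⟨max (max H (1 / κ)) (max T 1), (le_max_right _ _).trans (le_max_right _ _),
        fun w0 hw0 h0 h1 h2 => ?_⟩
      simp only [max_le_iff] at hw0
      obtain ⟨⟨a1, a2⟩, a3, a4⟩ := hw0
      refine h w0 a3 h0 h1 (h2.mono le_rfl ((le_max_left _ _).trans (le_max_left _ _)) ?_ a4)
      have h3 : 1 / κ ≤ max (max H (1 / κ)) (max T 1) := (le_max_right _ _).trans (le_max_left _ _)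
      have h4 : 0 < 1 / κ := by positivity
      calc 1 / max (max H (1 / κ)) (max T 1) ≤ 1 / (1 / κ) := one_div_le_one_div_of_le h4 h3
        _ = κ := one_div_one_div κ)
  refine ⟨max K 3, (by norm_num : (1 : ℝ) ≤ 3).trans (le_max_right _ _), fun w0 hw0 h0 hS m hm1 hm2 => ?_⟩
  rw [max_le_iff] at hw0
  have hlog : 0 < Real.log w0.im := Real.log_pos (by linarith [hw0.2])
  obtain ⟨ρ, hρ⟩ : ∃ ρ : ℝ, ρ = 2 * m / Real.log w0.im := ⟨_, rfl⟩
  rw [← hρ] at hm2 ⊢
  have hmρ : (m : ℝ) = ρ * (Real.log w0.im / 2) := by rw [hρ]; field_simp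
  have hρ1 : 4 * d ≤ ρ := by
    rw [hρ, le_div_iff₀ hlog, hd]
    have := mul_pos hε hlog
    linarith
  have hre := (abs_lt.1 (fx_zero_re h0)).2
  obtain ⟨j, hj⟩ : ∃ j : ℕ, j = ⌊ρ / d - 1⌋₊ := ⟨_, rfl⟩
  have hρd : 4 ≤ ρ / d := by rw [le_div_iff₀ hd0]; exact hρ1
  have hj1 : (j : ℝ) ≤ ρ / d - 1 := by rw [hj]; exact Nat.floor_le (by linarith)
  have hj2 : ρ / d - 1 < j + 1 := by rw [hj]; exact Nat.lt_floor_add_one _
  have hj3 : ((j : ℝ) + 1) * d ≤ ρ := by
    have : (j : ℝ) + 1 ≤ ρ / d := by linarith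
    rwa [le_div_iff₀ hd0] at this
  have hj4 : ρ ≤ ((j : ℝ) + 1) * d + d := by
    have : ρ / d ≤ j + 1 + 1 := by linarith
    rw [div_le_iff₀ hd0] at this
    linarith
  have hjN : j < N := by
    have h1 : (j : ℝ) * d < 1 := by linarith
    have h2 : (j : ℝ) < 1 / d := by rwa [lt_div_iff₀ hd0]
    have : (j : ℝ) < N := lt_of_lt_of_le h2 hN
    exact_mod_cast this
  obtain ⟨hK1, hK2⟩ := hK j hjN
  obtain ⟨z, hz1, hz2, hz3⟩ := hK2 w0 hw0.1 h0 (by linarith)
    (hS.mono (by linarith) (le_max_left _ _) (one_div_le_one_div_of_le (by linarith) (le_max_left _ _))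
      (by linarith)) m
    (by rw [hmρ]; gcongr) (by rw [hmρ]; gcongr)
  exact ⟨z, hz1, by linarith, hz3⟩

end Pool.Agent.Helper85.DQ
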