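import Pool.Agent.Helper85.DQ.Back
import Pool.Agent.Helper85.DQ.Fate
import Pool.Agent.Helper85.LG.Thr

/-!
Few zeros of zeta in a box imply that zeta is small in the box; the fate of the zeros of zeta under differentiation.
-/

set_option autoImplicit false
set_option maxHeartbeats 1000000

open Complex Filter Topology Metric MeasureTheory Set
open scoped ENNReal
open Pool.Agent.H306R2 (Zt Zt_differentiableAt zeta_eq_pos)

namespace Pool.Agent.Helper85.DQ

open Pool.Agent.H21.Xi (cnt)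

lemma zeta_anal {s : ℂ} (h1 : s ≠ 1) : AnalyticAt ℂ riemannZeta s := by
  have h : DifferentiableOn ℂ riemannZeta {1}ᶜ := fun z hz =>
    (differentiableAt_riemannZeta hz).differentiableWithinAt
  exact h.analyticAt (isOpen_compl_singleton.mem_nhds h1)

lemma order_Zt {s : ℂ} (hs : 0 < s.re) (h1 : s ≠ 1) {k : ℂ} (hk : k ≠ 0) :
    analyticOrderAt (fun z => Zt z / k) s = analyticOrderAt riemannZeta s := by
  have h2 : (fun z => Zt z / k) =ᶠ[𝓝 s] (fun z => (z - 1) / k) * riemannZeta := by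
    have ho : IsOpen {z : ℂ | 0 < z.re} := isOpen_lt continuous_const Complex.continuous_re
    filter_upwards [ho.mem_nhds hs, isOpen_compl_singleton.mem_nhds h1] with z hz hz1
    have := zeta_eq_pos (s := z) hz hz1
    simp only [Pi.mul_apply]
    rw [← this]
    ring
  rw [analyticOrderAt_congr h2]
  have hA1 : AnalyticAt ℂ (fun z : ℂ => (z - 1) / k) s := by fun_prop
  rw [analyticOrderAt_mul hA1 (zeta_anal h1), hA1.analyticOrderAt_eq_zero.2 (div_ne_zero (sub_ne_zero.2 h1) hk),
    zero_add]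

lemma cnt_mono {f : ℂ → ℂ} {S S' : Set ℂ} (h : S ⊆ S') : cnt f S ≤ cnt f S' :=
  ENNReal.tsum_mono_subtype (fun z => ((analyticOrderAt f z : ℕ∞) : ℝ≥0∞)) h

/-- the zeros of the shifted function -/
lemma cnt_shift {c k : ℂ} (hk : k ≠ 0) {R : ℝ} (hc : R < c.re) (hc1 : ∀ z : ℂ, ‖z‖ ≤ R → c + z ≠ 1) :
    cnt (fun z => Zt (c + z) / k) (closedBall 0 R) = cnt riemannZeta (closedBall c R) := by
  classical
  unfold Pool.Agent.H21.Xi.cnt
  rw [tsum_subtype (closedBall (0 : ℂ) R)
      (fun z => ((analyticOrderAt (fun z => Zt (c + z) / k) z : ℕ∞) : ℝ≥0∞)),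
    tsum_subtype (closedBall c R) (fun z => ((analyticOrderAt riemannZeta z : ℕ∞) : ℝ≥0∞)),
    ← (Equiv.addLeft c).tsum_eq ((closedBall c R).indicator _)]
  refine tsum_congr fun w => ?_
  have e0 : (Equiv.addLeft c) w = c + w := rfl
  rw [e0]
  have hiff : c + w ∈ closedBall c R ↔ w ∈ closedBall (0 : ℂ) R := by
    simp [mem_closedBall, dist_eq_norm]
  by_cases h : w ∈ closedBall (0 : ℂ) R
  · rw [Set.indicator_of_mem h, Set.indicator_of_mem (hiff.2 h)]
    have hwn : ‖w‖ ≤ R := by simpa using h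
    have h1 : AnalyticAt ℂ (fun s : ℂ => c + s) w := by fun_prop
    have h2 : deriv (fun s : ℂ => c + s) w ≠ 0 := by
      have h0 : HasDerivAt (fun s : ℂ => c + s) 1 w := (hasDerivAt_id _).const_add _
      rw [h0.deriv]
      exact one_ne_zero
    have h3 := analyticOrderAt_comp_of_deriv_ne_zero (f := fun s => Zt s / k) h1 h2
    have h4 := order_Zt (s := c + w) (by
      have := (abs_le.1 (Complex.abs_re_le_norm w)).1
      simp only [add_re]
      linarith) (hc1 w hwn) hk
    rw [← h4, ← h3]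
    rfl
  · rw [Set.indicator_of_notMem h, Set.indicator_of_notMem (fun h' => h (hiff.1 h'))]

/-- few zeros imply that zeta is small -/
theorem sparse_small {g η : ℝ} (hg : 0 < g) (hg1 : g ≤ 1 / 4) (hη : 0 < η) :
    ∃ κ > 0, ∃ T : ℝ, 3 ≤ T ∧ ∀ σ0 t : ℝ, T ≤ t → 1 / 2 + g ≤ σ0 → σ0 ≤ 1 →
      cnt riemannZeta (closedBall (2 + t * I) (2 - σ0)) ≤ ENNReal.ofReal (κ * Real.log t) →
      ∀ s : ℂ, s.im = t → σ0 + g ≤ s.re → ‖riemannZeta s‖ ≤ t ^ (η : ℝ) := by
  obtain ⟨B, hB1, hB⟩ := Pool.Agent.Helper85.LG.zeta_two_sided (σ := 3 / 2) (by norm_num)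
  have hlB : 0 ≤ Real.log (3 * B) := Real.log_nonneg (by linarith)
  have hlB2 : 0 ≤ Real.log (2 * B ^ 2) := Real.log_nonneg (by nlinarith)
  obtain ⟨κ, hκ, L0, H⟩ := backlund (A := Real.log (3 * B) + 10) (C0 := Real.log (2 * B ^ 2)) (g := g)
    (η := η / 2) (r0 := 1 / 2) (by linarith) hlB2 hg hg1 (by positivity) (by norm_num) le_rfl
  have hev : ∀ᶠ t : ℝ in atTop, max L0 (2 * Real.log (2 * B) / η) ≤ Real.log t :=
    Real.tendsto_log_atTop.eventually_ge_atTop _
  obtain ⟨T0, hT0⟩ := eventually_atTop.1 hev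
  refine ⟨κ, hκ, max T0 3, le_max_right _ _, fun σ0 t ht hσ0 hσ1 hcnt s hst hs => ?_⟩
  rw [max_le_iff] at ht
  obtain ⟨ht1, ht3⟩ := ht
  have hL := hT0 t ht1
  rw [max_le_iff] at hL
  obtain ⟨hL1, hL2⟩ := hL
  rw [div_le_iff₀ hη] at hL2
  have ht0 : 0 < t := by linarith
  obtain ⟨L, hLdef⟩ : ∃ L : ℝ, L = Real.log t := ⟨_, rfl⟩
  rw [← hLdef] at hL1 hL2 hcnt
  have hlog1 : 1 ≤ L := by
    rw [hLdef, Real.le_log_iff_exp_le (by linarith)]
    have := Real.exp_one_lt_d9
    linarith
  have htη : t ^ (η : ℝ) = Real.exp (η * L) := by rw [Real.rpow_def_of_pos ht0, hLdef, mul_comm]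
  have hlog2B : Real.log (2 * B) ≤ η / 2 * L := by linarith
  rcases lt_or_ge 2 s.re with hs2 | hs2
  · -- the half-plane of absolute convergence
    refine (hB s (by linarith)).1.trans ?_
    rw [htη]
    have h1 : B ≤ Real.exp (Real.log (2 * B)) := by
      rw [Real.exp_log (by positivity)]
      linarith
    refine h1.trans (Real.exp_le_exp.2 ?_)
    have : 0 ≤ η * L := by positivity
    linarith
  set c : ℂ := 2 + t * I with hc
  have hcre : c.re = 2 := by simp [hc]
  have hcim : c.im = t := by simp [hc]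
  have hc1 : c ≠ 1 := by
    intro h
    have := congrArg Complex.re h
    rw [hcre] at this
    norm_num at this
  have hZc : Zt c = (c - 1) * riemannZeta c := (zeta_eq_pos (by rw [hcre]; norm_num) hc1).symm
  have hcn1 : 1 ≤ ‖c - 1‖ := by
    have := Complex.re_le_norm (c - 1)
    simp only [sub_re, hcre, one_re] at this
    linarith
  have hcn2 : ‖c - 1‖ ≤ 1 + t := by
    refine (Complex.norm_le_abs_re_add_abs_im _).trans ?_
    simp only [sub_re, hcre, one_re, sub_im, hcim, one_im, sub_zero]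
    rw [abs_of_pos ht0]
    norm_num
  obtain ⟨hζc1, hζc2⟩ := hB c (by rw [hcre]; norm_num)
  have hZcn : 1 ≤ B * ‖Zt c‖ := by
    rw [hZc, norm_mul]
    have h7 : 0 ≤ B * ‖riemannZeta c‖ := by positivity
    nlinarith
  have hZc0 : Zt c ≠ 0 := by
    intro h
    rw [h, norm_zero, mul_zero] at hZcn
    linarith
  have hZcpos : 0 < ‖Zt c‖ := norm_pos_iff.2 hZc0
  have hmain := H L hL1 (2 - σ0) (by linarith) (by linarith) (fun z => Zt (c + z) / Zt c) ?_ ?_ ?_ ?_
    (s - c) ?_
  · simp only [add_sub_cancel, norm_div] at hmain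
    rw [div_le_iff₀ hZcpos] at hmain
    have hs1 : s ≠ 1 := by
      intro h
      have := congrArg Complex.im h
      rw [hst, one_im] at this
      linarith
    have hZs : Zt s = (s - 1) * riemannZeta s := (zeta_eq_pos (by linarith) hs1).symm
    rw [hZs, norm_mul] at hmain
    have h1 : t ≤ ‖s - 1‖ := by
      have h2 := Complex.abs_im_le_norm (s - 1)
      rw [sub_im, hst, one_im, sub_zero, abs_of_pos ht0] at h2
      exact h2
    have h2 : ‖Zt c‖ ≤ (1 + t) * B := by
      rw [hZc, norm_mul]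
      gcongr
    have h3 : t * ‖riemannZeta s‖ ≤ t * (2 * B * Real.exp (η / 2 * L)) := by
      calc t * ‖riemannZeta s‖ ≤ ‖s - 1‖ * ‖riemannZeta s‖ := by gcongr
        _ ≤ Real.exp (η / 2 * L) * ‖Zt c‖ := hmain
        _ ≤ Real.exp (η / 2 * L) * ((1 + t) * B) := by gcongr
        _ ≤ Real.exp (η / 2 * L) * ((2 * t) * B) := by gcongr; linarith
        _ = _ := by ring
    have h4 : ‖riemannZeta s‖ ≤ 2 * B * Real.exp (η / 2 * L) := le_of_mul_le_mul_left h3 ht0
    refine h4.trans ?_
    rw [htη]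
    calc 2 * B * Real.exp (η / 2 * L) = Real.exp (Real.log (2 * B)) * Real.exp (η / 2 * L) := by
          rw [Real.exp_log (by positivity)]
      _ = Real.exp (Real.log (2 * B) + η / 2 * L) := by rw [Real.exp_add]
      _ ≤ _ := Real.exp_le_exp.2 (by linarith)
  · -- differentiable
    intro z hz
    rw [mem_ball_zero_iff] at hz
    have hzre := (abs_le.1 (Complex.abs_re_le_norm z)).1
    have h1 : DifferentiableAt ℂ Zt (c + z) := Zt_differentiableAt (by
      simp only [add_re, hcre]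
      linarith)
    have h2 : DifferentiableAt ℂ (fun z => Zt (c + z)) z := h1.comp z (by fun_prop)
    exact (h2.div_const _).differentiableWithinAt
  · -- growth
    intro z hz
    have hzre := (abs_le.1 (Complex.abs_re_le_norm z)).1
    have h2 : ‖Zt (c + z)‖ ≤ 3 * (‖c + z‖ + 1) ^ 2 := by
      apply Pool.Agent.H306R2.Zt_norm_le
      simp only [add_re, hcre]
      linarith
    have h3 : ‖c + z‖ ≤ t + 7 / 2 := by
      have h4 : ‖c‖ ≤ 2 + t := by
        refine (Complex.norm_le_abs_re_add_abs_im _).trans ?_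
        rw [hcre, hcim, abs_of_pos ht0]
        norm_num
      linarith [norm_add_le c z]
    have h5 : ‖Zt (c + z)‖ ≤ 3 * (t + 9 / 2) ^ 2 := by
      refine h2.trans ?_
      have : (‖c + z‖ + 1) ^ 2 ≤ (t + 9 / 2) ^ 2 :=
        pow_le_pow_left₀ (by positivity) (by linarith) 2
      linarith
    rw [norm_div, div_le_iff₀ hZcpos]
    have h6 : 3 * (t + 9 / 2) ^ 2 ≤ 3 * B * (t + 9 / 2) ^ 2 * ‖Zt c‖ := by
      have : 0 ≤ 3 * (t + 9 / 2) ^ 2 := by positivity
      nlinarith
    refine (h5.trans h6).trans (mul_le_mul_of_nonneg_right ?_ hZcpos.le)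
    rw [← Real.log_le_iff_le_exp (by positivity), Real.log_mul (by positivity) (by positivity), Real.log_pow]
    have h7 : Real.log (t + 9 / 2) ≤ 2 * L := by
      have : t + 9 / 2 ≤ t ^ 2 := by nlinarith
      calc Real.log (t + 9 / 2) ≤ Real.log (t ^ 2) := Real.log_le_log (by positivity) this
        _ = _ := by rw [Real.log_pow, hLdef]; norm_num
    push_cast
    nlinarith
  · -- the small disc
    intro z hz
    have hzre := (abs_le.1 (Complex.abs_re_le_norm z)).1
    have hre : (c + z).re = 2 + z.re := by simp only [add_re, hcre]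
    have hz1 : c + z ≠ 1 := by
      intro h
      have := congrArg Complex.re h
      rw [hre, one_re] at this
      linarith
    have hZz : Zt (c + z) = (c + z - 1) * riemannZeta (c + z) :=
      (zeta_eq_pos (by rw [hre]; linarith) hz1).symm
    obtain ⟨g1, g2⟩ := hB (c + z) (by rw [hre]; linarith)
    have hu : ‖c + z - 1‖ ≤ 2 * ‖c - 1‖ := by
      have e : c + z - 1 = (c - 1) + z := by ring
      rw [e]
      linarith [norm_add_le (c - 1) z]
    have hl : ‖c - 1‖ ≤ 2 * ‖c + z - 1‖ := by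
      have e : c - 1 = (c + z - 1) - z := by ring
      have := norm_sub_le (c + z - 1) z
      rw [← e] at this
      linarith
    have hB0 : 0 < B := by linarith
    rw [norm_div, hZz, hZc, norm_mul, norm_mul, Real.exp_neg, Real.exp_log (by positivity)]
    have hden : 0 < ‖c - 1‖ * ‖riemannZeta c‖ := by
      rw [← norm_mul, ← hZc]; exact hZcpos
    constructor
    · rw [le_div_iff₀ hden, inv_mul_le_iff₀ (by positivity)]
      calc ‖c - 1‖ * ‖riemannZeta c‖ ≤ (2 * ‖c + z - 1‖) * B := by gcongr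
        _ = (2 * B * ‖c + z - 1‖) * 1 := by ring
        _ ≤ (2 * B * ‖c + z - 1‖) * (B * ‖riemannZeta (c + z)‖) := by gcongr
        _ = _ := by ring
    · rw [div_le_iff₀ hden]
      calc ‖c + z - 1‖ * ‖riemannZeta (c + z)‖ ≤ (2 * ‖c - 1‖) * B := by gcongr
        _ = (2 * B * ‖c - 1‖) * 1 := by ring
        _ ≤ (2 * B * ‖c - 1‖) * (B * ‖riemannZeta c‖) := by gcongr
        _ = _ := by ring
  · -- the number of zeros
    rw [cnt_shift hZc0 (by rw [hcre]; linarith) (fun z hz h => by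
      have h1 := congrArg Complex.im h
      rw [add_im, hcim, one_im] at h1
      have h2 := (abs_le.1 ((Complex.abs_im_le_norm z).trans hz)).1
      linarith)]
    exact hcnt
  · have e : s - c = ((s.re - 2 : ℝ) : ℂ) := by
      apply Complex.ext
      · simp [hcre]
      · simp [hcim, hst]
    rw [e, Complex.norm_real, Real.norm_eq_abs, abs_of_nonpos (by linarith)]
    linarith

open Pool.Agent.Helper75.Jen in
/-- **The fate of a zero of zeta off the critical line.** -/
theorem fate_sparse {ε : ℝ} (hε : 0 < ε) :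
    ∃ K : ℝ, 1 ≤ K ∧ ∀ w0 : ℂ, K ≤ w0.im → fx w0 = 0 →
      cnt riemannZeta {s : ℂ | 1 / 2 + w0.re - ε ≤ s.re ∧ |s.im - w0.im| ≤ K} ≤
        ENNReal.ofReal (Real.log w0.im / K) →
      ∀ m : ℕ, ε * Real.log w0.im ≤ m → 2 * m / Real.log w0.im ≤ w0.re - ε →
        ∃ z : ℂ, iteratedDeriv m fx z = 0 ∧ w0.re - 2 * m / Real.log w0.im - ε < z.re ∧
          |z.im - w0.im| ≤ 11 := by
  obtain ⟨K1, hK1, H1⟩ := fate_fx (ε := ε / 2) (by positivity)
  obtain ⟨κ, hκ, T, hT3, H2⟩ := sparse_small (g := min (ε / 2) (1 / 4)) (η := 1 / (2 * K1))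
    (lt_min (by positivity) (by norm_num)) (min_le_right _ _) (by positivity)
  refine ⟨max (max (K1 + 2) (2 / κ)) (2 * T + 2 * K1), ?_, fun w0 hw0 h0 hcnt m hm1 hm2 => ?_⟩
  · exact le_trans (by linarith) ((le_max_left _ _).trans (le_max_left _ _))
  obtain ⟨K, hK⟩ : ∃ K : ℝ, K = max (max (K1 + 2) (2 / κ)) (2 * T + 2 * K1) := ⟨_, rfl⟩
  rw [← hK] at hw0 hcnt
  have hKa : K1 + 2 ≤ K := by rw [hK]; exact (le_max_left _ _).trans (le_max_left _ _)
  have hKb : 2 / κ ≤ K := by rw [hK]; exact (le_max_right _ _).trans (le_max_left _ _)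
  have hKc : 2 * T + 2 * K1 ≤ K := by rw [hK]; exact le_max_right _ _
  obtain ⟨τ, hτ⟩ : ∃ τ : ℝ, τ = w0.im := ⟨_, rfl⟩
  rw [← hτ] at hw0 hcnt hm1 hm2 ⊢
  have hτ0 : 0 < τ := by linarith
  have hK0 : 0 < K := by linarith
  have hlog : 0 < Real.log τ := Real.log_pos (by linarith)
  have hre := (abs_lt.1 (fx_zero_re h0)).2
  have hb : 3 * ε ≤ w0.re := by
    have h1 : 2 * ε ≤ 2 * m / Real.log τ := by
      rw [le_div_iff₀ hlog]
      linarith
    linarith
  have hε4 : min (ε / 2) (1 / 4) ≤ ε / 2 := min_le_left _ _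
  obtain ⟨z, hz1, hz2, hz3⟩ := H1 w0 (by rw [← hτ]; linarith) h0 (fun s hs1 hs2 => by
    rw [← hτ] at hs2 ⊢
    have hs2' := abs_le.1 hs2
    have ht1 : T ≤ s.im := by linarith
    have ht2 : τ / 2 ≤ s.im := by linarith
    have ht3 : s.im ≤ τ ^ 2 := by nlinarith
    have hs0 : 0 < s.im := by linarith
    have hlogs : 1 / 2 * Real.log τ ≤ Real.log s.im := by
      have h1 : τ ≤ s.im ^ 2 := by nlinarith
      have h2 := Real.log_le_log hτ0 h1
      rw [Real.log_pow] at h2
      push_cast at h2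
      linarith
    have h1 := H2 (1 / 2 + w0.re - ε) s.im ht1 (by linarith) (by linarith) ?_ s rfl (by linarith)
    · refine h1.trans ?_
      calc s.im ^ (1 / (2 * K1) : ℝ) ≤ (τ ^ 2) ^ (1 / (2 * K1) : ℝ) :=
            Real.rpow_le_rpow hs0.le ht3 (by positivity)
        _ = τ ^ (1 / K1 : ℝ) := by
            rw [← Real.rpow_natCast, ← Real.rpow_mul hτ0.le]
            congr 1
            push_cast
            field_simp
    · refine (cnt_mono ?_).trans (hcnt.trans (ENNReal.ofReal_le_ofReal ?_))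
      · intro z hz
        rw [mem_closedBall, dist_eq_norm] at hz
        have g1 := (abs_le.1 ((Complex.abs_re_le_norm _).trans hz)).1
        have g2 := abs_le.1 ((Complex.abs_im_le_norm _).trans hz)
        simp only [sub_re, add_re, re_ofNat, mul_re, ofReal_re, I_re, mul_zero, ofReal_im, I_im, mul_one,
          sub_self, add_zero] at g1
        simp only [sub_im, add_im, im_ofNat, mul_im, ofReal_re, I_im, mul_one, ofReal_im, I_re, mul_zero,
          add_zero, zero_add] at g2
        refine ⟨by linarith, ?_⟩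
        rw [abs_le]
        constructor <;> linarith [g2.1, g2.2, hs2'.1, hs2'.2]
      · rw [div_le_iff₀ (by linarith)]
        rw [div_le_iff₀ hκ] at hKb
        have h2 : κ * (1 / 2 * Real.log τ) * K ≤ κ * Real.log s.im * K := by gcongr
        nlinarith) m (by rw [← hτ]; nlinarith) (by rw [← hτ]; linarith)
  rw [← hτ] at hz2 hz3
  exact ⟨z, hz1, by linarith, hz3⟩

end Pool.Agent.Helper85.DQ
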