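import Pool.Agent.Helper85.DQ.Origin
import Pool.Agent.Helper85.DQ.Sparse
import Pool.Agent.Helper75.Xi.Blk

/-!
The number of the exceptional zeros of `ξ^(m)` is bounded by the number of zeros of zeta to the right of
`1/2 + 2m/log T - δ`.
-/

set_option autoImplicit false
set_option maxHeartbeats 1000000

open Complex Filter Topology Metric MeasureTheory Set
open scoped ENNReal

namespace Pool.Agent.Helper85.DQ

open Pool.Agent.H21.Xi (cnt)
open Pool.Agent.Helper75.Jen Pool.Agent.Helper75.Xi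

/-- the number of zeros in a short window -/
lemma win_all : ∃ T0 : ℝ, 3 ≤ T0 ∧ ∀ T : ℝ, T0 ≤ T → ∀ P : ℝ, P = Real.log T / 2 → ∀ m : ℕ, (10 : ℝ) ^ 9 ≤ m →
    (m : ℝ) ≤ 10000 * P → 1 ≤ P ∧ ∀ t ∈ Icc T (2 * T),
      cnt (iteratedDeriv m fx) {w : ℂ | |w.im - t| ≤ 1 / P ∧ |w.re| ≤ 1 / 2} ≤
        ENNReal.ofReal (510000 * P) := by
  obtain ⟨C1, hC1, hLB⟩ := logDeriv_Gx
  obtain ⟨C0, hC0, hz⟩ := Pool.Agent.Helper82.JE.zeta_right' (η := 1 / 4) (by norm_num)
  obtain ⟨C, c, -, -, hgood⟩ := good_sets (C1 := C1) (C0 := C0) ⟨hC1, hLB⟩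
    ⟨hC0, fun s hs => hz s (by linarith)⟩
  obtain ⟨T0, hT0⟩ := eventually_atTop.1 hgood
  refine ⟨max T0 (10 ^ 10), le_trans (by norm_num) (le_max_right _ _), fun T hT P hP m hm hmP => ?_⟩
  rw [max_le_iff] at hT
  obtain ⟨henv, -⟩ := hT0 T hT.1 P hP
  have hP9 := henv.P9
  have hP0 : 0 < P := by linarith
  refine ⟨by linarith, fun t ht => ?_⟩
  have hT10 : (10 : ℝ) ^ 10 ≤ T := hT.2
  have hcone := henv.cone_det ht (M := 10000 * P) (H := 400000 * P) (by linarith) (by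
    rw [mul_div_cancel_right₀ _ hP0.ne']
    linarith)
  have hlow := henv.low_det ht (M := 10000 * P) le_rfl (by
    rw [mul_div_cancel_right₀ _ hP0.ne']
    linarith)
  refine (win_count hP0 hm hmP (by linarith) (by norm_num) hcone hlow (S :=
    {w : ℂ | |w.im - t| ≤ 1 / P ∧ |w.re| ≤ 1 / 2}) (fun w hw => ⟨hw.1, ?_⟩)).trans ?_
  · have := mul_le_mul_of_nonneg_left hw.2 hP0.le
    linarith
  · refine ENNReal.ofReal_le_ofReal ?_
    linarith

/-- the number of zeros in a long window -/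
lemma win_wide {H : ℝ} (hH : 0 ≤ H) : ∃ T0 : ℝ, 3 ≤ T0 ∧ ∀ T : ℝ, T0 ≤ T → ∀ P : ℝ, P = Real.log T / 2 → ∀ m : ℕ,
    (10 : ℝ) ^ 9 ≤ m → (m : ℝ) ≤ 10000 * P → ∀ y : ℝ,
      cnt (iteratedDeriv m fx) {w : ℂ | T ≤ w.im ∧ w.im ≤ 2 * T ∧ |w.im - y| ≤ H ∧ |w.re| ≤ 1 / 2} ≤
        ENNReal.ofReal (510000 * (2 * H + 1) * P ^ 2) := by
  obtain ⟨T0, hT03, hT0⟩ := win_all
  refine ⟨T0, hT03, fun T hT P hP m hm hmP y => ?_⟩
  obtain ⟨hP1, hwin⟩ := hT0 T hT P hP m hm hmP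
  have hP0 : 0 < P := by linarith
  have hT3 : 3 ≤ T := hT03.trans hT
  set N : ℕ := ⌊2 * H * P⌋₊ + 1 with hN
  set tk : ℕ → ℝ := fun k => max T (min (2 * T) (y - H + k / P)) with htk
  have htkI : ∀ k, tk k ∈ Icc T (2 * T) := fun k =>
    ⟨le_max_left _ _, max_le (by linarith) (min_le_left _ _)⟩
  have h1 := cnt_union (iteratedDeriv m fx)
    (S := {w : ℂ | T ≤ w.im ∧ w.im ≤ 2 * T ∧ |w.im - y| ≤ H ∧ |w.re| ≤ 1 / 2}) (N := N)
    (Sk := fun k => {w : ℂ | |w.im - tk k| ≤ 1 / P ∧ |w.re| ≤ 1 / 2}) (by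
      rintro w ⟨w1, w2, w3, w4⟩
      obtain ⟨w5, w6⟩ := abs_le.1 w3
      set x : ℝ := w.im - (y - H) with hx
      have hx0 : 0 ≤ x := by linarith
      have hxH : x ≤ 2 * H := by linarith
      refine ⟨⌊x * P⌋₊, ?_, ?_, w4⟩
      · rw [hN]
        refine Nat.lt_succ_of_le (Nat.floor_le_floor ?_)
        gcongr
      · have h2 : (⌊x * P⌋₊ : ℝ) ≤ x * P := Nat.floor_le (by positivity)
        have h3 : x * P < ⌊x * P⌋₊ + 1 := Nat.lt_floor_add_one _
        have h4 : (⌊x * P⌋₊ : ℝ) / P ≤ x := by rwa [div_le_iff₀ hP0]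
        have h5 : x - 1 / P ≤ (⌊x * P⌋₊ : ℝ) / P := by
          rw [le_div_iff₀ hP0, sub_mul, one_div_mul_cancel hP0.ne']
          linarith
        rw [abs_le]
        simp only [htk]
        constructor
        · have h6 : max T (min (2 * T) (y - H + (⌊x * P⌋₊ : ℝ) / P)) ≤ w.im + 1 / P := by
            have h7 : 0 < 1 / P := by positivity
            refine max_le (by linarith) ((min_le_right _ _).trans ?_)
            linarith
          linarith
        · have h6 : w.im - 1 / P ≤ max T (min (2 * T) (y - H + (⌊x * P⌋₊ : ℝ) / P)) := by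
            have h7 : 0 < 1 / P := by positivity
            refine le_trans (le_min ?_ ?_) (le_max_right _ _)
            · linarith
            · linarith
          linarith)
  refine h1.trans ((Finset.sum_le_sum fun k _ => hwin (tk k) (htkI k)).trans ?_)
  rw [Finset.sum_const, Finset.card_range, nsmul_eq_mul, ← ENNReal.ofReal_natCast,
    ← ENNReal.ofReal_mul (by positivity)]
  refine ENNReal.ofReal_le_ofReal ?_
  have h2 : (N : ℝ) ≤ 2 * H * P + 1 := by
    rw [hN]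
    push_cast
    have := Nat.floor_le (show 0 ≤ 2 * H * P by positivity)
    linarith
  calc (N : ℝ) * (510000 * P) ≤ (2 * H * P + 1) * (510000 * P) := by gcongr
    _ ≤ (2 * H * P + P) * (510000 * P) := by gcongr
    _ = _ := by ring

lemma one_le_cnt {Z : Set ℂ} (h : ∀ s ∈ Z, riemannZeta s = 0 ∧ s ≠ 1) :
    ∑' _ : Z, (1 : ℝ≥0∞) ≤ cnt riemannZeta Z := by
  unfold Pool.Agent.H21.Xi.cnt
  refine ENNReal.tsum_le_tsum fun s => ?_
  obtain ⟨h0, h1⟩ := h s s.2
  have h2 : analyticOrderAt riemannZeta (s : ℂ) ≠ 0 := fun h3 =>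
    ((zeta_anal h1).analyticOrderAt_eq_zero.1 h3) h0
  have h6 : (1 : ℕ∞) ≤ analyticOrderAt riemannZeta (s : ℂ) := ENat.one_le_iff_ne_zero.2 h2
  exact_mod_cast h6

/-- **Zero density for the exceptional zeros.** -/
theorem dens {δ : ℝ} (hδ : 0 < δ) : ∃ K : ℝ, 1 ≤ K ∧ ∀ T : ℝ, K ≤ T → ∀ m : ℕ, δ * Real.log T ≤ m →
    cnt (iteratedDeriv m fx) {w : ℂ | T ≤ w.im ∧ w.im ≤ 2 * T ∧ w ∈ Bad m} ≤
      ENNReal.ofReal (K * Real.log T ^ 2) *
        cnt riemannZeta {s : ℂ | 1 / 2 + 2 * m / Real.log (2 * T) - δ ≤ s.re ∧ T - K ≤ s.im ∧ s.im ≤ 2 * T + K} := by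
  set δ' : ℝ := min (δ / 2) 1 with hδ'
  have hδ'0 : 0 < δ' := lt_min (by positivity) one_pos
  have hδ'1 : δ' ≤ 1 := min_le_right _ _
  have hδ'2 : δ' ≤ δ / 2 := min_le_left _ _
  obtain ⟨H0, T1, hT1, hor⟩ := origin_Fx hδ'0
  obtain ⟨H, hHdef⟩ : ∃ H : ℝ, H = |H0| := ⟨_, rfl⟩
  have hH0 : 0 ≤ H := by rw [hHdef]; exact abs_nonneg _
  have hHH : H0 ≤ H := by rw [hHdef]; exact le_abs_self _
  obtain ⟨T2, hT23, hwide⟩ := win_wide hH0
  have hev : ∀ᶠ t : ℝ in atTop, (10 : ℝ) ^ 9 / δ + 2 ≤ Real.log t :=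
    Real.tendsto_log_atTop.eventually_ge_atTop _
  obtain ⟨T3, hT3⟩ := eventually_atTop.1 hev
  refine ⟨max (max (max T1 T2) (max T3 (H + 2))) (510000 * (2 * H + 1)), ?_, fun T hT m hm => ?_⟩
  · exact hT1.trans ((le_max_left _ _).trans ((le_max_left _ _).trans (le_max_left _ _)))
  obtain ⟨K, hK⟩ : ∃ K : ℝ, K = max (max (max T1 T2) (max T3 (H + 2))) (510000 * (2 * H + 1)) := ⟨_, rfl⟩
  rw [← hK] at hT ⊢
  have hK1 : 510000 * (2 * H + 1) ≤ K := by rw [hK]; exact le_max_right _ _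
  have hK2 : H + 2 ≤ K := by rw [hK]; exact (le_max_right _ _).trans ((le_max_right _ _).trans (le_max_left _ _))
  have hTa : T1 ≤ T := by
    refine le_trans ?_ hT
    rw [hK]; exact (le_max_left _ _).trans ((le_max_left _ _).trans (le_max_left _ _))
  have hTb : T2 ≤ T := by
    refine le_trans ?_ hT
    rw [hK]; exact (le_max_right _ _).trans ((le_max_left _ _).trans (le_max_left _ _))
  have hTc : T3 ≤ T := by
    refine le_trans ?_ hT
    rw [hK]; exact (le_max_left _ _).trans ((le_max_right _ _).trans (le_max_left _ _))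
  have hlogT := hT3 T hTc
  have hT0 : 0 < T := by linarith
  have h109 : 0 < (10 : ℝ) ^ 9 / δ := by positivity
  have hm9 : (10 : ℝ) ^ 9 ≤ m := by
    have h1 : (10 : ℝ) ^ 9 / δ ≤ Real.log T := by linarith
    rw [div_le_iff₀ hδ] at h1
    linarith
  have hlog2 : Real.log (2 * T) ≤ 2 * Real.log T := by
    rw [Real.log_mul (by norm_num) hT0.ne']
    have := Real.log_two_lt_d9
    linarith
  have hlog2' : 0 < Real.log (2 * T) := Real.log_pos (by linarith)
  set Z : Set ℂ := {s : ℂ | riemannZeta s = 0 ∧ 1 / 2 + 2 * m / Real.log (2 * T) - δ ≤ s.re ∧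
    T - K ≤ s.im ∧ s.im ≤ 2 * T + K ∧ 0 < s.im} with hZ
  -- every exceptional zero is near a zero in `Z`
  have key : ∀ w ∈ {w : ℂ | T ≤ w.im ∧ w.im ≤ 2 * T ∧ w ∈ Bad m}, iteratedDeriv m fx w = 0 →
      (m : ℝ) ≤ 10000 * (Real.log T / 2) ∧ ∃ s ∈ Z, |w.im - s.im| ≤ H := by
    rintro w ⟨w1, w2, w3⟩ h0
    have hw0 : 0 < w.im := by linarith
    have hlogw : Real.log w.im ≤ Real.log (2 * T) := Real.log_le_log hw0 w2
    have hlogw1 : Real.log T ≤ Real.log w.im := Real.log_le_log hT0 w1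
    have hlogw0 : 0 < Real.log w.im := by linarith
    have hmw : δ' * Real.log w.im ≤ m := by
      calc δ' * Real.log w.im ≤ (δ / 2) * (2 * Real.log T) :=
            mul_le_mul hδ'2 (hlogw.trans hlog2) hlogw0.le (by positivity)
        _ = δ * Real.log T := by ring
        _ ≤ m := hm
    have hF0 : iteratedDeriv m Fx w = 0 := by
      have := fx_iter m w
      rw [h0] at this
      simpa using this.symm
    have hbad : w.re ≠ 0 ∨ iteratedDeriv (m + 1) Fx w = 0 := by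
      rcases w3 with h | h
      · exact Or.inl h
      · right
        have := fx_iter (m + 1) w
        rw [h] at this
        simpa using this.symm
    have hex : ∃ s : ℂ, riemannZeta s = 0 ∧ |s.im - w.im| ≤ H0 ∧
        1 / 2 + 2 * m / Real.log w.im - δ' ≤ s.re := by
      rcases le_total 0 w.re with hr | hr
      · obtain ⟨s, s1, s2, s3⟩ := hor m w (by linarith) hmw hF0 hr hbad
        exact ⟨s, s1, s2, by linarith⟩
      · have e1 : (-(starRingEnd ℂ) w).im = w.im := by simp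
        have e2 : (-(starRingEnd ℂ) w).re = -w.re := by simp
        obtain ⟨s, s1, s2, s3⟩ := hor m (-(starRingEnd ℂ) w) (by rw [e1]; linarith) (by rw [e1]; exact hmw)
          (by rw [iter_even, iter_conj, hF0]; simp) (by rw [e2]; linarith) (by
            rcases hbad with h | h
            · left
              rw [e2]
              exact neg_ne_zero.2 h
            · right
              rw [iter_even, iter_conj, h]
              simp)
        rw [e1, e2] at s3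
        rw [e1] at s2
        exact ⟨s, s1, s2, by linarith⟩
    obtain ⟨s, s1, s2, s3⟩ := hex
    have hs1 : s.re < 1 := by
      by_contra hcon
      push Not at hcon
      exact riemannZeta_ne_zero_of_one_le_re hcon s1
    obtain ⟨s4, s5⟩ := abs_le.1 (s2.trans hHH)
    constructor
    · have h1 : 2 * m / Real.log w.im ≤ 2 := by linarith
      rw [div_le_iff₀ hlogw0] at h1
      linarith
    · refine ⟨s, ⟨s1, ?_, by linarith, by linarith, by linarith⟩, ?_⟩
      · have h1 : 2 * (m : ℝ) / Real.log (2 * T) ≤ 2 * m / Real.log w.im := by gcongr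
        linarith
      · rw [abs_le]
        constructor <;> linarith
  by_cases hmP : (m : ℝ) ≤ 10000 * (Real.log T / 2)
  swap
  · have h0 : cnt (iteratedDeriv m fx) {w : ℂ | T ≤ w.im ∧ w.im ≤ 2 * T ∧ w ∈ Bad m} = 0 :=
      cnt_zero (fx_iter_diff m) fun w hw h0 => hmP (key w hw h0).1
    rw [h0]
    exact bot_le
  have hsub : cnt (iteratedDeriv m fx) {w : ℂ | T ≤ w.im ∧ w.im ≤ 2 * T ∧ w ∈ Bad m} ≤
      cnt (iteratedDeriv m fx) (⋃ s : Z, {w : ℂ | T ≤ w.im ∧ w.im ≤ 2 * T ∧ |w.im - (s : ℂ).im| ≤ H ∧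
        |w.re| ≤ 1 / 2}) := by
    refine cnt_le_of_zeros (fx_iter_diff m) fun w hw h0 => ?_
    obtain ⟨-, s, hs, hs2⟩ := key w hw h0
    exact Set.mem_iUnion.2 ⟨⟨s, hs⟩, hw.1, hw.2.1, hs2, strip_zero m h0⟩
  refine hsub.trans ?_
  have h1 : cnt (iteratedDeriv m fx) (⋃ s : Z, {w : ℂ | T ≤ w.im ∧ w.im ≤ 2 * T ∧ |w.im - (s : ℂ).im| ≤ H ∧
        |w.re| ≤ 1 / 2}) ≤ ∑' s : Z, cnt (iteratedDeriv m fx) {w : ℂ | T ≤ w.im ∧ w.im ≤ 2 * T ∧
          |w.im - (s : ℂ).im| ≤ H ∧ |w.re| ≤ 1 / 2} := by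
    unfold Pool.Agent.H21.Xi.cnt
    exact ENNReal.tsum_iUnion_le_tsum (fun z => ((analyticOrderAt (iteratedDeriv m fx) z : ℕ∞) : ℝ≥0∞)) _
  refine h1.trans ((ENNReal.tsum_le_tsum fun s : Z => hwide T hTb _ rfl m hm9 hmP (s : ℂ).im).trans ?_)
  have h2 : ∑' _ : Z, ENNReal.ofReal (510000 * (2 * H + 1) * (Real.log T / 2) ^ 2) =
      ENNReal.ofReal (510000 * (2 * H + 1) * (Real.log T / 2) ^ 2) * ∑' _ : Z, 1 := by
    rw [← ENNReal.tsum_mul_left, mul_one]
  rw [h2]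
  refine mul_le_mul' (ENNReal.ofReal_le_ofReal ?_) ?_
  · have h3 : (Real.log T / 2) ^ 2 ≤ Real.log T ^ 2 := by
      have : 0 ≤ Real.log T := by linarith
      exact pow_le_pow_left₀ (by positivity) (by linarith) 2
    have h4 : 0 ≤ Real.log T ^ 2 := sq_nonneg _
    have h5 : 0 ≤ (Real.log T / 2) ^ 2 := sq_nonneg _
    exact mul_le_mul hK1 h3 h5 (by linarith)
  · refine (one_le_cnt (Z := Z) fun s hs => ⟨hs.1, fun h => ?_⟩).trans (cnt_mono fun s hs => ⟨hs.2.1, hs.2.2.1, hs.2.2.2.1⟩)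
    have := hs.2.2.2.2
    rw [h, one_im] at this
    exact lt_irrefl _ this

end Pool.Agent.Helper85.DQ
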