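import Pool.Agent.Helper85.DQ.PQ2

/-!
Derivatives of high order: no zeros off the critical line, and simple zeros on it.
-/

set_option autoImplicit false
set_option maxHeartbeats 1000000

open Complex Filter Topology Set MeasureTheory

namespace Pool.Agent.Helper85.DQ

lemma gk_diffAt {F : ℂ → ℂ} (hF : Differentiable ℂ F) (κ : ℕ) (w : ℂ) :
    ∀ z : ℂ, z ≠ 0 → DifferentiableAt ℂ (gk F κ w) z := by
  intro z hz
  unfold gk
  exact ((hF.comp (by fun_prop)) z).div (by fun_prop) (pow_ne_zero _ hz)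

lemma AA_eq {F : ℂ → ℂ} (hF : Differentiable ℂ F) (κ : ℕ) (w : ℂ) {h r r' : ℝ} (hh : 0 < h) (hr : 0 < r)
    (hr' : 0 < r') : AA (gk F κ w) h r = AA (gk F κ w) h r' :=
  AA_indep (gk_diffAt hF κ w) hh hr hr'

lemma deriv_conj' {F : ℂ → ℂ} (hcj : ∀ z, F ((starRingEnd ℂ) z) = (starRingEnd ℂ) (F z)) (z : ℂ) :
    deriv F ((starRingEnd ℂ) z) = (starRingEnd ℂ) (deriv F z) := by
  have h1 : deriv ((starRingEnd ℂ) ∘ F ∘ (starRingEnd ℂ)) = (starRingEnd ℂ) ∘ deriv F ∘ (starRingEnd ℂ) :=
    deriv_conj_conj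
  have h2 : (starRingEnd ℂ) ∘ F ∘ (starRingEnd ℂ) = F := by
    funext z
    simp [hcj]
  rw [h2] at h1
  have h3 := congrFun h1 ((starRingEnd ℂ) z)
  rw [h3]
  simp

theorem dir {F : ℂ → ℂ} (hF : Differentiable ℂ F) (hev : ∀ z, F (-z) = F z)
    (hcj : ∀ z, F ((starRingEnd ℂ) z) = (starRingEnd ℂ) (F z)) {h L t ρ y0 d : ℝ} {n : ℕ} (hh : 0 < h)
    (hL : 0 < L) (hd : 0 < d) (hu : 0 < ρ - y0 - d)
    (H : ∀ w : ℂ, w.im = t → -(ρ - y0 - d) ≤ w.re → w.re ≤ 1 / 2 →
        ∃ r > 0, PC F (n + 1) h L w r ∧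
          (ρ - y0 - d ≤ w.re → ∀ w' : ℂ, w'.im = t → w'.re = -w.re →
            ∃ r' > 0, NN (gk F (n + 1) w') h r' ≤ Real.exp (-(d * L)) * ‖AA (gk F (n + 1) w) h r‖))
    {w : ℂ} (hw : w.im = t) :
    (0 < w.re → w.re ≤ 1 / 2 → iteratedDeriv n F w ≠ 0) ∧
    (w.re = 0 → iteratedDeriv n F w = 0 → iteratedDeriv (n + 1) F w ≠ 0) := by
  set κ := n + 1 with hκ
  set a : ℂ → ℂ := fun w => AA (gk F κ w) h 1 with ha
  set a' : ℂ → ℂ := fun w => AA (gk (deriv F) κ w) h 1 with ha'
  have hdF : Differentiable ℂ (deriv F) := by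
    intro z
    exact ((hF.analyticAt z).deriv).differentiableAt
  have haa : ∀ w, HasDerivAt a (a' w) w := fun w => AA_deriv hF κ hh one_pos w
  have hfact : (n.factorial : ℂ) ≠ 0 := by exact_mod_cast n.factorial_ne_zero
  have hpi : (2 * Real.pi * I : ℂ) ≠ 0 := by
    simp [Real.pi_ne_zero]
  have hdec : ∀ w, iteratedDeriv n F w = (n.factorial / (2 * Real.pi * I)) * (a w + (-1) ^ n * a (-w)) := by
    intro w
    have := decomp hF hev hh one_pos n w
    simp only [ha, hκ]
    rw [← this]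
    field_simp
  have hdec' : ∀ w, iteratedDeriv (n + 1) F w =
      (n.factorial / (2 * Real.pi * I)) * (a' w - (-1) ^ n * a' (-w)) := by
    intro w
    rw [iteratedDeriv_succ]
    have h1 : iteratedDeriv n F = fun w => (n.factorial / (2 * Real.pi * I)) * (a w + (-1) ^ n * a (-w)) := by
      funext w; exact hdec w
    rw [h1]
    have h2 : HasDerivAt (fun w => a (-w)) (a' (-w) * -1) w := (haa (-w)).comp w (hasDerivAt_neg w)
    have h3 : HasDerivAt (fun w => (n.factorial / (2 * Real.pi * I)) * (a w + (-1) ^ n * a (-w)))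
        ((n.factorial / (2 * Real.pi * I)) * (a' w + (-1) ^ n * (a' (-w) * -1))) w :=
      ((haa w).add (h2.const_mul ((-1) ^ n))).const_mul (n.factorial / (2 * Real.pi * I) : ℂ)
    rw [h3.deriv]
    ring
  have hconj : ∀ w, a ((starRingEnd ℂ) w) = -(starRingEnd ℂ) (a w) := by
    intro w
    have := AA_conj hcj κ h 1 w
    simp only [ha]
    rw [this, neg_neg]
  have hconj' : ∀ w, a' ((starRingEnd ℂ) w) = -(starRingEnd ℂ) (a' w) := by
    intro w
    have := AA_conj (F := deriv F) (deriv_conj' hcj) κ h 1 w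
    simp only [ha']
    rw [this, neg_neg]
  -- the facts at the points of the segment
  have hP : ∀ w : ℂ, w.im = t → -(ρ - y0 - d) ≤ w.re → w.re ≤ 1 / 2 → a w ≠ 0 ∧ ‖a' w - L * a w‖ ≤ 1 / 2 * L * ‖a w‖ := by
    intro w h1 h2 h3
    obtain ⟨r, hr, hpc, -⟩ := H w h1 h2 h3
    have e1 : AA (gk F κ w) h r = a w := AA_eq hF κ w hh hr one_pos
    have e2 : AA (gk (deriv F) κ w) h r = a' w := AA_eq hdF κ w hh hr one_pos
    have := hpc.pos
    have := hpc.der
    rw [e1, e2] at this
    rw [e1] at *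
    exact ⟨norm_pos_iff.1 ‹_›, this⟩
  constructor
  · intro hre hre2 h0
    have hlt : ‖a (-w)‖ < ‖a w‖ := by
      have e1 : ‖a (-w)‖ = ‖a (⟨-w.re, t⟩ : ℂ)‖ := by
        have : -w = (starRingEnd ℂ) (⟨-w.re, t⟩ : ℂ) := by
          apply Complex.ext <;> simp [hw]
        rw [this, hconj, norm_neg, RCLike.norm_conj]
      rw [e1]
      by_cases hbig : ρ - y0 - d ≤ w.re
      · obtain ⟨r, hr, hpc, h2⟩ := H w hw (by linarith) hre2
        obtain ⟨r', hr', h3⟩ := h2 hbig ⟨-w.re, t⟩ rfl rfl
        have e2 : AA (gk F κ w) h r = a w := AA_eq hF κ w hh hr one_pos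
        have e3 : AA (gk F κ ⟨-w.re, t⟩) h r' = a ⟨-w.re, t⟩ := AA_eq hF κ _ hh hr' one_pos
        have h4 := AA_le_NN (gk F κ ⟨-w.re, t⟩) hh hr'
        rw [e3] at h4
        rw [e2] at h3
        have h5 := hpc.pos
        rw [e2] at h5
        have h6 : Real.exp (-(d * L)) < 1 := by
          rw [Real.exp_lt_one_iff]
          nlinarith
        calc ‖a ⟨-w.re, t⟩‖ ≤ Real.exp (-(d * L)) * ‖a w‖ := h4.trans h3
          _ < 1 * ‖a w‖ := by gcongr
          _ = ‖a w‖ := one_mul _
      · push Not at hbig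
        have hgr := growth (g := a) (z1 := w) (z2 := ⟨-w.re, t⟩) (L := L) (M := 1 / 2 * L)
          (fun z _ => (haa z).differentiableAt) ?_ ?_
        · have e2 : ((⟨-w.re, t⟩ : ℂ) - w) = ((-(2 * w.re) : ℝ) : ℂ) := by
            apply Complex.ext <;> simp [hw]
            ring
          rw [e2, Complex.norm_real, Real.norm_eq_abs, abs_neg, abs_of_pos (by linarith)] at hgr
          simp only at hgr
          have h5 : 0 < ‖a w‖ := norm_pos_iff.2 (hP w hw (by linarith) hre2).1
          have h6 : Real.exp (L * (-w.re - w.re) + 1 / 2 * L * (2 * w.re)) < 1 := by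
            rw [Real.exp_lt_one_iff]
            nlinarith [mul_pos hL hre]
          calc ‖a ⟨-w.re, t⟩‖ ≤ _ := hgr
            _ < ‖a w‖ * 1 := by gcongr
            _ = ‖a w‖ := mul_one _
        · intro z hz
          rw [segment_eq_image'] at hz
          obtain ⟨τ, hτ, rfl⟩ := hz
          refine (hP _ ?_ ?_ ?_).1
          · simp [hw]
          · simp
            nlinarith [hτ.1, hτ.2]
          · simp
            nlinarith [hτ.1, hτ.2]
        · intro z hz
          rw [segment_eq_image'] at hz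
          obtain ⟨τ, hτ, rfl⟩ := hz
          set z : ℂ := w + τ • ((⟨-w.re, t⟩ : ℂ) - w) with hz
          have h7 := hP z (by simp [hz, hw]) (by simp [hz]; nlinarith [hτ.1, hτ.2])
            (by simp [hz]; nlinarith [hτ.1, hτ.2])
          have h8 : 0 < ‖a z‖ := norm_pos_iff.2 h7.1
          rw [logDeriv_apply, (haa z).deriv]
          have e3 : a' z / a z - L = (a' z - L * a z) / a z := by
            have := h7.1
            field_simp
          rw [e3, norm_div, div_le_iff₀ h8]
          exact h7.2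
    rw [hdec] at h0
    have h1 : a w + (-1) ^ n * a (-w) = 0 := by
      rcases mul_eq_zero.1 h0 with h | h
      · exact absurd h (div_ne_zero hfact hpi)
      · exact h
    have h2 : a w = -((-1) ^ n * a (-w)) := by linear_combination h1
    rw [h2, norm_neg, norm_mul, norm_pow, norm_neg, norm_one, one_pow, one_mul] at hlt
    exact lt_irrefl _ hlt
  · intro hre h0 h1
    rw [hdec] at h0
    rw [hdec'] at h1
    have hwc : -w = (starRingEnd ℂ) w := by
      apply Complex.ext <;> simp [hre]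
    rw [hwc, hconj] at h0
    rw [hwc, hconj'] at h1
    have hne := div_ne_zero hfact hpi
    have h0' := (mul_eq_zero.1 h0).resolve_left hne
    have h1' := (mul_eq_zero.1 h1).resolve_left hne
    obtain ⟨hane, hder⟩ := hP w hw (by rw [hre]; linarith) (by rw [hre]; norm_num)
    -- `a w = (-1)^n conj (a w)` and `a' w = - (-1)^n conj (a' w)`
    have e1 : (-1) ^ n * (starRingEnd ℂ) (a w) = a w := by linear_combination -h0'
    have e2 : (-1) ^ n * (starRingEnd ℂ) (a' w) = -a' w := by linear_combination h1'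
    set q : ℂ := a' w / a w with hq
    have hq' : a' w = q * a w := by rw [hq]; field_simp
    have e3 : (starRingEnd ℂ) q = -q := by
      have h2 : (-1) ^ n * ((starRingEnd ℂ) q * (starRingEnd ℂ) (a w)) = -(q * a w) := by
        rw [← map_mul, ← hq']; exact e2
      have h3 : (starRingEnd ℂ) q * a w = -q * a w := by
        calc (starRingEnd ℂ) q * a w = (starRingEnd ℂ) q * ((-1) ^ n * (starRingEnd ℂ) (a w)) := by rw [e1]
          _ = (-1) ^ n * ((starRingEnd ℂ) q * (starRingEnd ℂ) (a w)) := by ring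
          _ = -(q * a w) := h2
          _ = _ := by ring
      exact mul_right_cancel₀ hane h3
    have e4 : q.re = 0 := by
      have := congrArg re e3
      simp at this
      linarith
    have e5 : ‖q - L‖ ≤ 1 / 2 * L := by
      have h8 : 0 < ‖a w‖ := norm_pos_iff.2 hane
      have e6 : q - L = (a' w - L * a w) / a w := by
        rw [hq]
        field_simp
      rw [e6, norm_div, div_le_iff₀ h8]
      exact hder
    have e7 := (Complex.abs_re_le_norm (q - L)).trans e5
    simp [e4] at e7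
    rw [abs_of_pos hL] at e7
    linarith

end Pool.Agent.Helper85.DQ
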