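import Pool.Agent.Helper85.DQ.XiDir

set_option autoImplicit false

open Complex Filter Topology Set

namespace Pool.Agent.Helper85.DQ

open Pool.Agent.Helper85.LG

lemma dir_one {F : ℂ → ℂ} (hF : Differentiable ℂ F) (hev : ∀ z, F (-z) = F z)
    (hcj : ∀ z, F ((starRingEnd ℂ) z) = (starRingEnd ℂ) (F z)) {h L t d : ℝ} {n : ℕ}
    (hh : 0 < h) (hL : 0 < L) (hd : 0 < d) {w : ℂ} (hw : w.im = t)
    (H : ∃ r > 0, PC F (n + 1) h L w r ∧ (∀ w' : ℂ, w'.im = t → w'.re = -w.re →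
      ∃ r' > 0, NN (gk F (n + 1) w') h r' ≤ Real.exp (-(d * L)) * ‖AA (gk F (n + 1) w) h r‖)) :
    iteratedDeriv n F w ≠ 0 := by
  intro h0
  obtain ⟨r, hr, hpc, h2⟩ := H
  obtain ⟨r', hr', h3⟩ := h2 ⟨-w.re, t⟩ rfl rfl
  have hdec := decomp hF hev hh one_pos n w
  rw [h0, zero_div, mul_zero] at hdec
  have e2 : AA (gk F (n + 1) w) h r = AA (gk F (n + 1) w) h 1 := AA_eq hF (n + 1) w hh hr one_pos
  have e3 : AA (gk F (n + 1) ⟨-w.re, t⟩) h r' = AA (gk F (n + 1) ⟨-w.re, t⟩) h 1 :=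
    AA_eq hF (n + 1) _ hh hr' one_pos
  have h4 := AA_le_NN (gk F (n + 1) ⟨-w.re, t⟩) hh hr'
  have h5 := hpc.pos
  rw [e3] at h4
  rw [e2] at h3 h5
  have e1 : ‖AA (gk F (n + 1) (-w)) h 1‖ = ‖AA (gk F (n + 1) ⟨-w.re, t⟩) h 1‖ := by
    have h6 : -w = (starRingEnd ℂ) (⟨-w.re, t⟩ : ℂ) := by
      apply Complex.ext <;> simp [hw]
    have h7 := AA_conj hcj (n + 1) h 1 (⟨-w.re, t⟩ : ℂ)
    rw [h6, ← norm_neg, ← h7, RCLike.norm_conj]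
  have h6 : Real.exp (-(d * L)) < 1 := by
    rw [Real.exp_lt_one_iff]
    nlinarith
  have hlt : ‖AA (gk F (n + 1) (-w)) h 1‖ < ‖AA (gk F (n + 1) w) h 1‖ := by
    rw [e1]
    calc _ ≤ Real.exp (-(d * L)) * ‖AA (gk F (n + 1) w) h 1‖ := h4.trans h3
      _ < 1 * ‖AA (gk F (n + 1) w) h 1‖ := by gcongr
      _ = _ := one_mul _
  have h8 : AA (gk F (n + 1) w) h 1 = -((-1) ^ n * AA (gk F (n + 1) (-w)) h 1) := by
    linear_combination -hdec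
  rw [h8, norm_neg, norm_mul, norm_pow, norm_neg, norm_one, one_pow, one_mul] at hlt
  exact lt_irrefl _ hlt

/-- no zeros of the `m`-th derivative at the right of `max (y0 - ρ) 0`, `ρ = 2 (m + 1) / log t` -/
theorem xi_left {y0 ρ1 ρ2 μ : ℝ} (hy0 : 0 < y0) (hreg : Reg y0) (hρ1 : 0 < ρ1) (h12 : ρ1 ≤ ρ2)
    (hhalf : y0 + 1 / 4 ≤ ρ2) (hhalf' : 1 / 2 ≤ ρ2) (hμ : 0 < μ) :
    ∃ T : ℝ, 1 ≤ T ∧ ∀ (m : ℕ) (w : ℂ), T ≤ w.im →
      ρ1 * (1 / 2 * Real.log w.im) ≤ ((m + 1 : ℕ) : ℝ) → ((m + 1 : ℕ) : ℝ) ≤ ρ2 * (1 / 2 * Real.log w.im) →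
      w.re ≤ 1 / 2 →
      (y0 + μ) * (1 / 2 * Real.log w.im) ≤ w.re * (1 / 2 * Real.log w.im) + ((m + 1 : ℕ) : ℝ) →
      ((m + 1 : ℕ) : ℝ) ≤ (w.re + y0) * (1 / 2 * Real.log w.im) →
      iteratedDeriv m Fx w ≠ 0 := by
  set d : ℝ := min (μ / 7) (1 / 4) with hd
  have hd0 : 0 < d := lt_min (by linarith) (by norm_num)
  have hd1 : d ≤ μ / 7 := min_le_left _ _
  have hd2 : d ≤ 1 / 4 := min_le_right _ _
  clear_value d
  obtain ⟨h, hh, ε, hε, L0, hL0, P⟩ :=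
    PQg (R0 := y0 + 1 / 4) (d := d) (B := ρ2 + 2 + 13) hy0 hρ1 h12 hhalf' (by linarith) hd0 hd2 (by linarith)
      (by linarith) (by linarith) (by linarith)
  obtain ⟨T, hT1, hT⟩ := hy_xi hy0 hreg (ρ1 := y0 + 1 / 4) (by linarith) (Y := ρ2 + 2) (by linarith) hε h
  refine ⟨max T (Real.exp (2 * L0)), le_trans hT1 (le_max_left _ _), ?_⟩
  intro m w hw h1 h2 h3 h4 h5
  have hTt : T ≤ w.im := (le_max_left _ _).trans hw
  have ht0 : 0 < w.im := by linarith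
  have hlog : 2 * L0 ≤ Real.log w.im := by
    rw [← Real.log_exp (2 * L0)]
    exact Real.log_le_log (Real.exp_pos _) ((le_max_right _ _).trans hw)
  set L : ℝ := 1 / 2 * Real.log w.im with hL
  have hLL : L0 ≤ L := by rw [hL]; linarith
  have hLpos : 0 < L := by linarith
  set ρ : ℝ := ((m + 1 : ℕ) : ℝ) / L with hρ
  have hκ : ((m + 1 : ℕ) : ℝ) = ρ * L := by rw [hρ]; field_simp
  have g1 : ρ1 ≤ ρ := by rw [hρ, le_div_iff₀ hLpos]; exact h1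
  have g2 : ρ ≤ ρ2 := by rw [hρ, div_le_iff₀ hLpos]; exact h2
  have g4 : y0 + μ ≤ w.re + ρ := by
    rw [hκ] at h4
    have : (y0 + μ) * L ≤ (w.re + ρ) * L := by linarith
    exact le_of_mul_le_mul_right this hLpos
  have g5 : ρ ≤ w.re + y0 := by
    rw [hκ] at h5
    exact le_of_mul_le_mul_right h5 hLpos
  obtain ⟨r, hr, hpc, hm⟩ := P Fx w.im L ρ (m + 1) Fx_diff hLL g1 g2 hκ (hT _ hTt) w rfl (by linarith) h3
  exact dir_one Fx_diff Fx_even Fx_conj hh hLpos hd0 rfl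
    ⟨r, hr, hpc, hm (by linarith) (by linarith)⟩

end Pool.Agent.Helper85.DQ
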