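import Pool.Agent.Helper85.DQ.XiCnv
import Pool.Agent.Helper85.DQ.Dir2
import Pool.Agent.Helper85.LG.Thr
import Pool.Agent.Helper39.LG.RegZf
import Pool.Agent.Helper75.Xi.Fin2

set_option autoImplicit false
set_option maxHeartbeats 1000000

open Complex Filter Topology Set

namespace Pool.Agent.Helper85.DQ

open Pool.Agent.Helper85.LG Pool.Agent.H306R2 Pool.Agent.Helper75.Jen Pool.Agent.Helper75.Xi

lemma fx_eq : fx = fun w => 8 * Fx w := by
  funext w
  unfold Fx Pool.Agent.Helper85.LG.xi fx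
  ring

lemma fx_iter (m : ℕ) (w : ℂ) : iteratedDeriv m fx w = 8 * iteratedDeriv m Fx w := by
  rw [fx_eq]
  have := iteratedDeriv_const_mul_field (𝕜 := ℂ) (n := m) (8 : ℂ) Fx (x := w)
  simpa using this

lemma strip_Fx (m : ℕ) {w : ℂ} (h : iteratedDeriv m Fx w = 0) : |w.re| ≤ 1 / 2 :=
  strip_zero m (by rw [fx_iter, h, mul_zero])

lemma Fx_iter_xi (m : ℕ) (w : ℂ) : iteratedDeriv m Fx w = iteratedDeriv m xi (1 / 2 + w) := by
  have := congrFun (iteratedDeriv_comp_const_add m xi (1 / 2 : ℂ)) w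
  exact this

/-- all zeros up to the height `e^(Am)` -/
theorem dir_all {θ A : ℝ} (hz : ∀ s : ℂ, θ < s.re → riemannZeta s ≠ 0) (hA : 0 < A)
    (hAθ : θ - 1 / 2 < 2 / A) :
    ∃ m0 : ℕ, ∀ m : ℕ, m0 ≤ m → ∀ w : ℂ, |w.im| ≤ Real.exp (A * m) → iteratedDeriv m Fx w = 0 →
      w.re = 0 ∧ iteratedDeriv (m + 1) Fx w ≠ 0 := by
  obtain ⟨y0, hy1, hy2⟩ : ∃ y0 : ℝ, max 0 (θ - 1 / 2) < y0 ∧ y0 < 2 / A :=
    exists_between (max_lt (by positivity) hAθ)
  rw [max_lt_iff] at hy1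
  have hreg : Reg y0 := Pool.Agent.Helper39.LG.reg_zf hz hy1.1 hy1.2
  obtain ⟨C, c, m1, hC, hc, hlow⟩ := main_prop
  obtain ⟨m2, hm2⟩ := xi_dir hy1.1 hreg hA hy2 hc
  refine ⟨max m1 m2, fun m hm w hw hz => ?_⟩
  have hm1 : m1 ≤ m := (le_max_left _ _).trans hm
  have hm2' : m2 ≤ m := (le_max_right _ _).trans hm
  rcases le_total (Real.exp (c * m)) |w.im| with h | h
  · exact hm2 m hm2' w h hw (strip_Fx m hz) hz
  · have key : ∀ w : ℂ, 0 ≤ w.im → w.im ≤ Real.exp (c * m) → iteratedDeriv m Fx w = 0 →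
        w.re = 0 ∧ iteratedDeriv (m + 1) Fx w ≠ 0 := by
      intro w h1 h2 h3
      have := (hlow m hm1).1 w h1 h2 (by rw [fx_iter, h3, mul_zero])
      refine ⟨this.1, fun h4 => this.2 ?_⟩
      rw [fx_iter, h4, mul_zero]
    rcases le_total 0 w.im with h6 | h6
    · exact key w h6 (by rwa [abs_of_nonneg h6] at h) hz
    · rw [abs_of_nonpos h6] at h
      have h7 := key ((starRingEnd ℂ) w) (by simpa using h6) (by simpa using h)
        (by rw [iter_conj, hz, map_zero])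
      refine ⟨by simpa using h7.1, fun h8 => h7.2 ?_⟩
      rw [iter_conj, h8, map_zero]

/-- the real parts at greater heights -/
theorem left_all {θ : ℝ} (hz : ∀ s : ℂ, θ < s.re → riemannZeta s ≠ 0) (hθ : 1 / 2 ≤ θ) {δ : ℝ} (hδ : 0 < δ) :
    ∃ T : ℝ, 1 ≤ T ∧ ∀ (m : ℕ) (w : ℂ), T ≤ |w.im| → δ * Real.log (|w.im|) ≤ m → iteratedDeriv m Fx w = 0 →
      w.re ≤ max 0 (θ - 1 / 2 - 2 * m / Real.log (|w.im|)) + δ := by
  set y0 : ℝ := θ - 1 / 2 + δ / 4 with hy0
  have hy0p : 0 < y0 := by linarith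
  have hreg : Reg y0 := Pool.Agent.Helper39.LG.reg_zf hz hy0p (by linarith)
  obtain ⟨m0, hm0⟩ := dir_all (θ := θ) (A := 2 / (y0 + δ / 8)) hz (by positivity) (by
    have : 2 / (2 / (y0 + δ / 8)) = y0 + δ / 8 := by field_simp
    rw [this]
    linarith)
  obtain ⟨T1, hT1, H1⟩ := xi_left (y0 := y0) (ρ1 := 2 * δ) (ρ2 := y0 + 2 * δ + 1) (μ := δ / 2) hy0p hreg
    (by positivity) (by linarith) (by linarith) (by linarith) (by positivity)
  refine ⟨max (max T1 (Real.exp (m0 / δ))) (Real.exp (4 / δ)), hT1.trans ((le_max_left _ _).trans (le_max_left _ _)),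
    fun m w hT hm h0 => ?_⟩
  have ht1 : T1 ≤ |w.im| := ((le_max_left _ _).trans (le_max_left _ _)).trans hT
  have ht2 : Real.exp (m0 / δ) ≤ |w.im| := ((le_max_right _ _).trans (le_max_left _ _)).trans hT
  have ht3 : Real.exp (4 / δ) ≤ |w.im| := (le_max_right _ _).trans hT
  have htpos : 0 < |w.im| := lt_of_lt_of_le (Real.exp_pos _) ht2
  have hlog1 : m0 / δ ≤ Real.log (|w.im|) := by
    rw [← Real.log_exp (m0 / δ)]
    exact Real.log_le_log (Real.exp_pos _) ht2
  have hlog2 : 4 / δ ≤ Real.log (|w.im|) := by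
    rw [← Real.log_exp (4 / δ)]
    exact Real.log_le_log (Real.exp_pos _) ht3
  have hlogpos : 0 < Real.log (|w.im|) := lt_of_lt_of_le (by positivity) hlog2
  rw [div_le_iff₀ hδ] at hlog1 hlog2
  have hmm0 : m0 ≤ m := by
    have : (m0 : ℝ) ≤ m := by linarith
    exact_mod_cast this
  by_cases hbig : |w.im| ≤ Real.exp (2 / (y0 + δ / 8) * m)
  · rw [(hm0 m hmm0 w hbig h0).1]
    have := le_max_left 0 (θ - 1 / 2 - 2 * m / Real.log (|w.im|))
    linarith
  push Not at hbig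
  have hbig' : 2 / (y0 + δ / 8) * m < Real.log (|w.im|) := by
    rw [← Real.log_exp (2 / (y0 + δ / 8) * m)]
    exact Real.log_lt_log (Real.exp_pos _) hbig
  have hmlt : (m : ℝ) < (y0 + δ / 8) * (1 / 2 * Real.log (|w.im|)) := by
    rw [div_mul_eq_mul_div, div_lt_iff₀ (by positivity)] at hbig'
    linarith
  by_contra hcon
  push Not at hcon
  -- reduction to the upper half-plane
  have key : ∀ w' : ℂ, w'.im = |w.im| → w'.re = w.re → iteratedDeriv m Fx w' = 0 → False := by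
    intro w' h1 h2 h3
    set L : ℝ := 1 / 2 * Real.log (|w.im|) with hL
    have hLp : 0 < L := by positivity
    have hlogL : Real.log (|w.im|) = 2 * L := by rw [hL]; ring
    rw [hlogL] at hcon hm hlog2
    have hc1 : 0 + δ < w.re := lt_of_le_of_lt (by gcongr; exact le_max_left _ _) hcon
    have hc2 : θ - 1 / 2 - 2 * m / (2 * L) + δ < w.re := lt_of_le_of_lt (by gcongr; exact le_max_right _ _) hcon
    have hc3 : (θ - 1 / 2 + δ) * L < w.re * L + m := by
      have e : 2 * (m : ℝ) / (2 * L) * L = m := by field_simp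
      have := mul_lt_mul_of_pos_right hc2 hLp
      linarith
    have hc4 : δ * L ≤ w.re * L := by gcongr; linarith
    refine H1 m w' (by rw [h1]; exact ht1) ?_ ?_ ?_ ?_ ?_ h3
    · rw [h1, ← hL]; push_cast; linarith
    · rw [h1, ← hL]; push_cast
      have h5 : 0 < δ * L := by positivity
      have h6 : (y0 + 2 * δ + 1) * L = (y0 + δ / 8) * L + (15 / 8) * (δ * L) + L := by ring
      rw [h6]
      linarith
    · rw [h2]
      exact (abs_le.1 (strip_Fx m h0)).2
    · rw [h1, h2, ← hL]; push_cast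
      have h5 : (y0 + δ / 2) * L = (θ - 1 / 2 + δ) * L - δ / 4 * L := by rw [hy0]; ring
      rw [h5]
      have : 0 < δ / 4 * L := by positivity
      linarith
    · rw [h1, h2, ← hL]; push_cast
      have h5 : (w.re + y0) * L = w.re * L + y0 * L := by ring
      rw [h5]
      linarith
  rcases le_total 0 w.im with h6 | h6
  · exact key w (abs_of_nonneg h6).symm rfl h0
  · exact key ((starRingEnd ℂ) w) (by rw [abs_of_nonpos h6]; simp) (by simp) (by rw [iter_conj, h0, map_zero])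

/-- the converse for the zeros of the zeta function -/
theorem seen_all (SL : SaddleLow) {c ε : ℝ} (hc : 0 < c) (hc4 : c < 1 / 4) (hε : 0 < ε) :
    ∃ θ < 1, ∃ κ > 0, ∀ s : ℂ, θ < s.re → riemannZeta s = 0 → ∀ m : ℕ,
      |(m : ℝ) - c * Real.log (|s.im|)| ≤ κ * Real.log (|s.im|) →
      ∃ z : ℂ, iteratedDeriv m xi z = 0 ∧ 1 - 2 * c - ε < z.re ∧ |z.im - s.im| < 5 := by
  obtain ⟨τ, hτ, κ, hκ, T, hT1, H⟩ := xi_cnv SL hc hc4 hε
  obtain ⟨θ, hθ, hθ2⟩ := bounded_zeros T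
  refine ⟨max (max θ (1 - τ)) (1 / 2), max_lt (max_lt hθ (by linarith)) (by norm_num), κ, hκ, ?_⟩
  intro s hs h m hm
  rw [max_lt_iff, max_lt_iff] at hs
  obtain ⟨⟨h1, h2⟩, h3⟩ := hs
  have hre1 : s.re < 1 := by
    by_contra hcon
    push Not at hcon
    exact riemannZeta_ne_zero_of_one_le_re hcon h
  have him2 : T ≤ |s.im| := by
    by_contra hcon
    push Not at hcon
    exact hθ2 s h1 hcon.le h
  have e1 : (s - 1 / 2).re = s.re - 1 / 2 := by simp
  have e2 : (s - 1 / 2).im = s.im := by simp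
  obtain ⟨z, hz1, hz2, hz3⟩ := H (s - 1 / 2) m (by rw [e1]; linarith) (by rw [e1]; linarith) (by rw [e2]; exact him2)
    (by rw [e2]; exact hm) (by
      unfold Fx
      have e : (1 / 2 + (s - 1 / 2) : ℂ) = s := by ring
      rw [e, xi_eq (by linarith), (Zt_zero_iff (by linarith)).2 h, zero_mul])
  refine ⟨1 / 2 + z, ?_, ?_, ?_⟩
  · rw [← Fx_iter_xi]; exact hz1
  · simp; linarith
  · rw [e2] at hz3
    simpa using hz3

end Pool.Agent.Helper85.DQ
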