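import Pool.Agent.Helper85.DQ.Fin

set_option autoImplicit false
set_option maxHeartbeats 1000000

open Complex Filter Topology Set

namespace Pool.Agent.Helper85.DQ

open Pool.Agent.Helper85.LG Pool.Agent.H306R2

/-- the equivalence with the exponent `A > 4` -/
theorem iff_four (SL : SaddleLow) : (∃ θ < 1, ∀ s : ℂ, θ < s.re → riemannZeta s ≠ 0) ↔
    ∃ A > 4, ∃ m0 : ℕ, ∀ m : ℕ, m0 ≤ m → ∀ s : ℂ, |s.im| ≤ Real.exp (A * m) →
      iteratedDeriv m xi s = 0 → s.re = 1 / 2 := by
  constructor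
  · rintro ⟨θ, hθ, hz⟩
    set θ' : ℝ := max θ (3 / 4) with hθ'
    have h1 : θ' < 1 := max_lt hθ (by norm_num)
    have h2 : 3 / 4 ≤ θ' := le_max_right _ _
    have hz' : ∀ s : ℂ, θ' < s.re → riemannZeta s ≠ 0 := fun s hs => hz s (lt_of_le_of_lt (le_max_left _ _) hs)
    clear_value θ'
    have h3 : 4 < 2 / (θ' - 1 / 2) := by
      rw [lt_div_iff₀ (by linarith)]
      linarith
    set A : ℝ := (4 + 2 / (θ' - 1 / 2)) / 2 with hA
    have hA4 : 4 < A := by rw [hA]; linarith
    have hA2 : A < 2 / (θ' - 1 / 2) := by rw [hA]; linarith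
    clear_value A
    obtain ⟨m0, hm0⟩ := dir_all hz' (A := A) (by linarith) (by
      rw [lt_div_iff₀ (by linarith)] at hA2 ⊢
      linarith)
    refine ⟨A, hA4, m0, fun m hm s hs h => ?_⟩
    have h5 := (hm0 m hm (s - 1 / 2) (by simpa using hs) (by
      rw [Fx_iter_xi]
      have e : (1 / 2 + (s - 1 / 2) : ℂ) = s := by ring
      rw [e]
      exact h)).1
    simp at h5
    linarith
  · rintro ⟨A, hA, m0, H⟩
    obtain ⟨c, hc1, hc2⟩ : ∃ c : ℝ, 1 / A < c ∧ c < 1 / 4 :=
      exists_between (by rw [one_div_lt_one_div (by linarith) (by norm_num)]; exact hA)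
    have hc0 : 0 < c := lt_trans (by positivity) hc1
    have hAc : 1 < A * c := by
      rw [div_lt_iff₀ (by linarith)] at hc1
      linarith
    obtain ⟨θ, hθ, κ, hκ, Hs⟩ := seen_all SL hc0 hc2 (ε := (1 / 2 - 2 * c) / 2) (by linarith)
    -- large heights
    have hev : ∀ᶠ t : ℝ in atTop, 1 ≤ κ * Real.log t ∧ (m0 : ℝ) ≤ c * Real.log t ∧
        Real.log 6 ≤ (A * c - 1) * Real.log t ∧ 1 ≤ t := by
      refine ((Real.tendsto_log_atTop.const_mul_atTop hκ).eventually_ge_atTop _).and
        (((Real.tendsto_log_atTop.const_mul_atTop hc0).eventually_ge_atTop _).and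
        (((Real.tendsto_log_atTop.const_mul_atTop (by linarith : 0 < A * c - 1)).eventually_ge_atTop _).and
        (eventually_ge_atTop _)))
    obtain ⟨T, hT⟩ := eventually_atTop.1 hev
    obtain ⟨θ1, hθ1, hb⟩ := bounded_zeros T
    refine ⟨max θ θ1, max_lt hθ hθ1, fun s hs h => ?_⟩
    rw [max_lt_iff] at hs
    have him : T ≤ |s.im| := by
      by_contra hcon
      push Not at hcon
      exact hb s hs.2 hcon.le h
    obtain ⟨k1, k2, k3, k4⟩ := hT _ him
    set t : ℝ := |s.im| with ht
    have hlog : 0 ≤ Real.log t := Real.log_nonneg k4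
    have hceil1 := Nat.le_ceil (c * Real.log t)
    have hceil2 := Nat.ceil_lt_add_one (a := c * Real.log t) (by positivity)
    obtain ⟨z, hz1, hz2, hz3⟩ := Hs s hs.1 h ⌈c * Real.log t⌉₊ (by
      rw [abs_le]
      constructor <;> linarith)
    have hm0 : m0 ≤ ⌈c * Real.log t⌉₊ := by
      have : (m0 : ℝ) ≤ ⌈c * Real.log t⌉₊ := by linarith
      exact_mod_cast this
    have hzim : |z.im| ≤ Real.exp (A * ⌈c * Real.log t⌉₊) := by
      have h1 : |z.im| ≤ 6 * t := by
        have : |z.im| ≤ |z.im - s.im| + |s.im| := by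
          have e : z.im = (z.im - s.im) + s.im := by ring
          calc |z.im| = |(z.im - s.im) + s.im| := by rw [← e]
            _ ≤ _ := abs_add_le _ _
        linarith
      refine h1.trans ?_
      have h2 : 6 * t = Real.exp (Real.log 6 + Real.log t) := by
        rw [Real.exp_add, Real.exp_log (by norm_num), Real.exp_log (by linarith)]
      rw [h2]
      apply Real.exp_le_exp.2
      have h3 : A * (c * Real.log t) ≤ A * ⌈c * Real.log t⌉₊ := by gcongr
      have h4 : A * (c * Real.log t) = (A * c - 1) * Real.log t + Real.log t := by ring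
      linarith
    have := H _ hm0 z hzim hz1
    linarith

/-- the equivalence for each `c < 1/4` -/
theorem iff_c (SL : SaddleLow) {c : ℝ} (hc : 0 < c) (hc4 : c < 1 / 4) :
    (∃ θ < 1, ∀ s : ℂ, θ < s.re → riemannZeta s ≠ 0) ↔
    ∃ δ > 0, ∃ T : ℝ, ∀ (m : ℕ) (s : ℂ), T ≤ |s.im| → |s.im| ≤ Real.exp (m / c) →
      iteratedDeriv m xi s = 0 → s.re ≤ 1 - 2 * c - δ := by
  constructor
  · rintro ⟨θ, hθ, hz⟩
    set θ' : ℝ := max θ (1 / 2) with hθ'
    have h1 : θ' < 1 := max_lt hθ (by norm_num)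
    have h2 : 1 / 2 ≤ θ' := le_max_right _ _
    have hz' : ∀ s : ℂ, θ' < s.re → riemannZeta s ≠ 0 := fun s hs => hz s (lt_of_le_of_lt (le_max_left _ _) hs)
    clear_value θ'
    set δ : ℝ := min c (min ((1 - θ') / 2) ((1 / 2 - 2 * c) / 2)) with hδ
    have hδp : 0 < δ := lt_min hc (lt_min (by linarith) (by linarith))
    have hδ1 : δ ≤ c := min_le_left _ _
    have hδ2 : δ ≤ (1 - θ') / 2 := (min_le_right _ _).trans (min_le_left _ _)
    have hδ3 : δ ≤ (1 / 2 - 2 * c) / 2 := (min_le_right _ _).trans (min_le_right _ _)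
    clear_value δ
    obtain ⟨T, hT1, H⟩ := left_all hz' h2 hδp
    refine ⟨δ, hδp, max T 3, fun m s hs1 hs2 h => ?_⟩
    have htT : T ≤ |s.im| := (le_max_left _ _).trans hs1
    have ht3 : 3 ≤ |s.im| := (le_max_right _ _).trans hs1
    have hlog : 1 ≤ Real.log (|s.im|) := by
      rw [Real.le_log_iff_exp_le (by linarith)]
      have := Real.exp_one_lt_d9
      linarith
    have hlm : c * Real.log (|s.im|) ≤ m := by
      have h3 : Real.log (|s.im|) ≤ m / c := by
        rw [← Real.log_exp (m / c)]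
        exact Real.log_le_log (by linarith) hs2
      rw [le_div_iff₀ hc] at h3
      linarith
    have e2 : (s - 1 / 2).im = s.im := by simp
    have h5 := H m (s - 1 / 2) (by rw [e2]; exact htT) (by
      rw [e2]
      refine le_trans ?_ hlm
      gcongr) (by
      rw [Fx_iter_xi]
      have e : (1 / 2 + (s - 1 / 2) : ℂ) = s := by ring
      rw [e]
      exact h)
    rw [e2] at h5
    have e1 : (s - 1 / 2).re = s.re - 1 / 2 := by simp
    rw [e1] at h5
    have h6 : 2 * c ≤ 2 * m / Real.log (|s.im|) := by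
      rw [le_div_iff₀ (by linarith)]
      linarith
    have h7 : max 0 (θ' - 1 / 2 - 2 * m / Real.log (|s.im|)) ≤ 1 / 2 - 2 * c - 2 * δ := by
      apply max_le <;> linarith
    linarith
  · rintro ⟨δ, hδ, T0, H⟩
    obtain ⟨θ, hθ, κ, hκ, Hs⟩ := seen_all SL hc hc4 hδ
    have hev : ∀ᶠ t : ℝ in atTop, 1 + c * Real.log 6 ≤ κ * Real.log t ∧ 1 ≤ t ∧ T0 + 5 ≤ t := by
      exact ((Real.tendsto_log_atTop.const_mul_atTop hκ).eventually_ge_atTop _).and
        ((eventually_ge_atTop _).and (eventually_ge_atTop _))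
    obtain ⟨T, hT⟩ := eventually_atTop.1 hev
    obtain ⟨θ1, hθ1, hb⟩ := bounded_zeros T
    refine ⟨max θ θ1, max_lt hθ hθ1, fun s hs h => ?_⟩
    rw [max_lt_iff] at hs
    have him : T ≤ |s.im| := by
      by_contra hcon
      push Not at hcon
      exact hb s hs.2 hcon.le h
    obtain ⟨k1, k2, k3⟩ := hT _ him
    set t : ℝ := |s.im| with ht
    have hlog : 0 ≤ Real.log t := Real.log_nonneg k2
    have hlog6 : 0 ≤ Real.log 6 := Real.log_nonneg (by norm_num)
    have hl6 : Real.log (6 * t) = Real.log 6 + Real.log t := Real.log_mul (by norm_num) (by linarith)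
    have hceil1 := Nat.le_ceil (c * Real.log (6 * t))
    have hceil2 := Nat.ceil_lt_add_one (a := c * Real.log (6 * t)) (by rw [hl6]; positivity)
    obtain ⟨z, hz1, hz2, hz3⟩ := Hs s hs.1 h ⌈c * Real.log (6 * t)⌉₊ (by
      rw [hl6] at hceil1 hceil2 ⊢
      have : 0 ≤ c * Real.log 6 := by positivity
      rw [abs_le]
      constructor <;> linarith)
    rw [abs_lt] at hz3
    have hz4 : |z.im| ≤ 6 * t := by
      have : |z.im| ≤ |z.im - s.im| + |s.im| := by
        have e : z.im = (z.im - s.im) + s.im := by ring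
        calc |z.im| = |(z.im - s.im) + s.im| := by rw [← e]
          _ ≤ _ := abs_add_le _ _
      have h5 : |z.im - s.im| < 5 := abs_lt.2 hz3
      linarith
    have hz5 : T0 ≤ |z.im| := by
      have : |s.im| ≤ |z.im - s.im| + |z.im| := by
        have e : s.im = -(z.im - s.im) + z.im := by ring
        calc |s.im| = |-(z.im - s.im) + z.im| := by rw [← e]
          _ ≤ |-(z.im - s.im)| + |z.im| := abs_add_le _ _
          _ = _ := by rw [abs_neg]
      have h5 : |z.im - s.im| < 5 := abs_lt.2 hz3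
      linarith
    have := H _ z hz5 (by
      refine hz4.trans ?_
      have h2 : 6 * t = Real.exp (Real.log (6 * t)) := by rw [Real.exp_log (by linarith)]
      rw [h2]
      apply Real.exp_le_exp.2
      rw [le_div_iff₀ hc, ← h2]
      linarith) hz1
    linarith

end Pool.Agent.Helper85.DQ
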