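import Pool.Agent.Helper85.DQ.LocGr
import Pool.Agent.Helper85.DQ.Fin2
import Pool.Agent.Helper75.JE.Mas

/-!
The laws relating the zeros of zeta at large heights, the growth of zeta and the zeros of the derivatives of `ξ`.
-/

set_option autoImplicit false
set_option maxHeartbeats 1000000

open Complex Filter Topology Set

namespace Pool.Agent.Helper85.DQ

open Pool.Agent.Helper85.LG Pool.Agent.H306R2 Pool.Agent.Helper75.Jen Pool.Agent.Helper75.Xi
open Pool.Agent.Helper75.JE (Few Gr FxGr LHyp)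

/-- all zeros up to the height `e^(Am)` -/
theorem dir_reg {y0 A : ℝ} (hy0 : 0 < y0) (hreg : Reg y0) (hA : 0 < A) (hy2 : y0 < 2 / A) :
    ∃ m0 : ℕ, ∀ m : ℕ, m0 ≤ m → ∀ w : ℂ, |w.im| ≤ Real.exp (A * m) → iteratedDeriv m Fx w = 0 →
      w.re = 0 ∧ iteratedDeriv (m + 1) Fx w ≠ 0 := by
  obtain ⟨C, c, m1, hC, hc, hlow⟩ := main_prop
  obtain ⟨m2, hm2⟩ := xi_dir hy0 hreg hA hy2 hc
  refine ⟨max m1 m2, fun m hm w hw hz => ?_⟩
  have hm1 : m1 ≤ m := (le_max_left _ _).trans hm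
  have hm2' : m2 ≤ m := (le_max_right _ _).trans hm
  rcases le_total (Real.exp (c * m)) |w.im| with h | h
  · exact hm2 m hm2' w h hw (strip_Fx m hz) hz
  · have key : ∀ w : ℂ, 0 ≤ w.im → w.im ≤ Real.exp (c * m) → iteratedDeriv m Fx w = 0 →
        w.re = 0 ∧ iteratedDeriv (m + 1) Fx w ≠ 0 := by
      intro w h1 h2 h3
      have := (hlow m hm1).1 w h1 h2 (by rw [fx_iter, h3, mul_zero])
      refine ⟨this.1, fun h4 => this.2 ?_⟩
      rw [fx_iter, h4, mul_zero]
    rcases le_total 0 w.im with h6 | h6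
    · exact key w h6 (by rwa [abs_of_nonneg h6] at h) hz
    · rw [abs_of_nonpos h6] at h
      have h7 := key ((starRingEnd ℂ) w) (by simpa using h6) (by simpa using h)
        (by rw [iter_conj, hz, map_zero])
      refine ⟨by simpa using h7.1, fun h8 => h7.2 ?_⟩
      rw [iter_conj, h8, map_zero]

theorem dir_few {θ A : ℝ} (hF : Few θ) (hA : 0 < A) (hAθ : θ - 1 / 2 < 2 / A) :
    ∃ m0 : ℕ, ∀ m : ℕ, m0 ≤ m → ∀ w : ℂ, |w.im| ≤ Real.exp (A * m) → iteratedDeriv m Fx w = 0 →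
      w.re = 0 ∧ iteratedDeriv (m + 1) Fx w ≠ 0 := by
  obtain ⟨y0, hy1, hy2⟩ : ∃ y0 : ℝ, max 0 (θ - 1 / 2) < y0 ∧ y0 < 2 / A :=
    exists_between (max_lt (by positivity) hAθ)
  rw [max_lt_iff] at hy1
  obtain ⟨T, hT⟩ := hF
  exact dir_reg hy1.1 (Pool.Agent.Helper68.JE.reg_few hT hy1.1 hy1.2) hA hy2

/-- the real parts at greater heights -/
theorem left_few {θ : ℝ} (hF : Few θ) (hθ : 1 / 2 ≤ θ) {δ : ℝ} (hδ : 0 < δ) :
    ∃ T : ℝ, 1 ≤ T ∧ ∀ (m : ℕ) (w : ℂ), T ≤ |w.im| → δ * Real.log (|w.im|) ≤ m → iteratedDeriv m Fx w = 0 →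
      w.re ≤ max 0 (θ - 1 / 2 - 2 * m / Real.log (|w.im|)) + δ := by
  set y0 : ℝ := θ - 1 / 2 + δ / 4 with hy0
  have hy0p : 0 < y0 := by linarith
  have hreg : Reg y0 := by
    obtain ⟨T, hT⟩ := hF
    exact Pool.Agent.Helper68.JE.reg_few hT hy0p (by linarith)
  obtain ⟨m0, hm0⟩ := dir_reg (y0 := y0) (A := 2 / (y0 + δ / 8)) hy0p hreg (by positivity) (by
    have : 2 / (2 / (y0 + δ / 8)) = y0 + δ / 8 := by field_simp
    rw [this]
    linarith)
  obtain ⟨T1, hT1, H1⟩ := xi_left (y0 := y0) (ρ1 := 2 * δ) (ρ2 := y0 + 2 * δ + 1) (μ := δ / 2) hy0p hreg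
    (by positivity) (by linarith) (by linarith) (by linarith) (by positivity)
  refine ⟨max (max T1 (Real.exp (m0 / δ))) (Real.exp (4 / δ)), hT1.trans ((le_max_left _ _).trans (le_max_left _ _)),
    fun m w hT hm h0 => ?_⟩
  have ht1 : T1 ≤ |w.im| := ((le_max_left _ _).trans (le_max_left _ _)).trans hT
  have ht2 : Real.exp (m0 / δ) ≤ |w.im| := ((le_max_right _ _).trans (le_max_left _ _)).trans hT
  have ht3 : Real.exp (4 / δ) ≤ |w.im| := (le_max_right _ _).trans hT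
  have htpos : 0 < |w.im| := lt_of_lt_of_le (Real.exp_pos _) ht2
  have hlog1 : m0 / δ ≤ Real.log (|w.im|) := by
    rw [← Real.log_exp (m0 / δ)]
    exact Real.log_le_log (Real.exp_pos _) ht2
  have hlog2 : 4 / δ ≤ Real.log (|w.im|) := by
    rw [← Real.log_exp (4 / δ)]
    exact Real.log_le_log (Real.exp_pos _) ht3
  have hlogpos : 0 < Real.log (|w.im|) := lt_of_lt_of_le (by positivity) hlog2
  rw [div_le_iff₀ hδ] at hlog1 hlog2
  have hmm0 : m0 ≤ m := by
    have : (m0 : ℝ) ≤ m := by linarith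
    exact_mod_cast this
  by_cases hbig : |w.im| ≤ Real.exp (2 / (y0 + δ / 8) * m)
  · rw [(hm0 m hmm0 w hbig h0).1]
    have := le_max_left 0 (θ - 1 / 2 - 2 * m / Real.log (|w.im|))
    linarith
  push Not at hbig
  have hbig' : 2 / (y0 + δ / 8) * m < Real.log (|w.im|) := by
    rw [← Real.log_exp (2 / (y0 + δ / 8) * m)]
    exact Real.log_lt_log (Real.exp_pos _) hbig
  have hmlt : (m : ℝ) < (y0 + δ / 8) * (1 / 2 * Real.log (|w.im|)) := by
    rw [div_mul_eq_mul_div, div_lt_iff₀ (by positivity)] at hbig'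
    linarith
  by_contra hcon
  push Not at hcon
  -- reduction to the upper half-plane
  have key : ∀ w' : ℂ, w'.im = |w.im| → w'.re = w.re → iteratedDeriv m Fx w' = 0 → False := by
    intro w' h1 h2 h3
    set L : ℝ := 1 / 2 * Real.log (|w.im|) with hL
    have hLp : 0 < L := by positivity
    have hlogL : Real.log (|w.im|) = 2 * L := by rw [hL]; ring
    rw [hlogL] at hcon hm hlog2
    have hc1 : 0 + δ < w.re := lt_of_le_of_lt (by gcongr; exact le_max_left _ _) hcon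
    have hc2 : θ - 1 / 2 - 2 * m / (2 * L) + δ < w.re := lt_of_le_of_lt (by gcongr; exact le_max_right _ _) hcon
    have hc3 : (θ - 1 / 2 + δ) * L < w.re * L + m := by
      have e : 2 * (m : ℝ) / (2 * L) * L = m := by field_simp
      have := mul_lt_mul_of_pos_right hc2 hLp
      linarith
    have hc4 : δ * L ≤ w.re * L := by gcongr; linarith
    refine H1 m w' (by rw [h1]; exact ht1) ?_ ?_ ?_ ?_ ?_ h3
    · rw [h1, ← hL]; push_cast; linarith
    · rw [h1, ← hL]; push_cast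
      have h5 : 0 < δ * L := by positivity
      have h6 : (y0 + 2 * δ + 1) * L = (y0 + δ / 8) * L + (15 / 8) * (δ * L) + L := by ring
      rw [h6]
      linarith
    · rw [h2]
      exact (abs_le.1 (strip_Fx m h0)).2
    · rw [h1, h2, ← hL]; push_cast
      have h5 : (y0 + δ / 2) * L = (θ - 1 / 2 + δ) * L - δ / 4 * L := by rw [hy0]; ring
      rw [h5]
      have : 0 < δ / 4 * L := by positivity
      linarith
    · rw [h1, h2, ← hL]; push_cast
      have h5 : (w.re + y0) * L = w.re * L + y0 * L := by ring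
      rw [h5]
      linarith
  rcases le_total 0 w.im with h6 | h6
  · exact key w (abs_of_nonneg h6).symm rfl h0
  · exact key ((starRingEnd ℂ) w) (by rw [abs_of_nonpos h6]; simp) (by simp) (by rw [iter_conj, h0, map_zero])

/-- all zeros of `ξ^(m)` up to the height `e^(Am)` are on the line, for large `m` -/
def OnLine (A : ℝ) : Prop := ∃ m0 : ℕ, ∀ m : ℕ, m0 ≤ m → ∀ s : ℂ, |s.im| ≤ Real.exp (A * m) →
  iteratedDeriv m xi s = 0 → s.re = 1 / 2

lemma OnLine_few {θ A : ℝ} (hF : Few θ) (hA : 0 < A) (hAθ : A * (θ - 1 / 2) < 2) : OnLine A := by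
  obtain ⟨m0, hm0⟩ := dir_few hF hA (by rw [lt_div_iff₀ hA]; linarith)
  refine ⟨m0, fun m hm s hs h => ?_⟩
  have e2 : (s - 1 / 2).im = s.im := by simp
  have e1 : (s - 1 / 2).re = s.re - 1 / 2 := by simp
  have h5 := (hm0 m hm (s - 1 / 2) (by rw [e2]; exact hs) (by
    rw [Fx_iter_xi]
    have e : (1 / 2 + (s - 1 / 2) : ℂ) = s := by ring
    rw [e]
    exact h)).1
  rw [e1] at h5
  linarith

lemma OnLine_fx {A : ℝ} (h : OnLine A) : ∃ m0 : ℕ, ∀ m : ℕ, m0 ≤ m → ∀ w : ℂ, |w.im| ≤ Real.exp (A * m) →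
      iteratedDeriv m fx w = 0 → w.re ≤ 0 := by
  obtain ⟨m0, hm0⟩ := h
  refine ⟨m0, fun m hm w hw h0 => ?_⟩
  have e2 : (1 / 2 + w).im = w.im := by simp
  have e1 : (1 / 2 + w).re = 1 / 2 + w.re := by simp
  have h5 := hm0 m hm (1 / 2 + w) (by rw [e2]; exact hw) (by
    rw [← Fx_iter_xi]
    rw [fx_iter] at h0
    simpa using h0)
  rw [e1] at h5
  linarith

theorem few_of_onLine {β : ℝ} (hfx : FxGr β) {A : ℝ} (hA : 0 < A) (hβA : β ≤ 2 / A) (h : OnLine A) {e : ℝ}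
    (he : 0 < e) : Few (1 / 2 + (2 / A + e)) := by
  obtain ⟨m0, H⟩ := OnLine_fx h
  obtain ⟨T, hT⟩ := Pool.Agent.Helper75.JE.xi_strip_gr Pool.Agent.Helper75.JE.saddleLow hfx hA hβA H he
  exact Pool.Agent.Helper75.JE.few_of_strip (by positivity) hT

/-- **The master law.** -/
theorem master_xi {θ : ℝ} (hθ : 1 / 2 ≤ θ) :
    (∀ ε > 0, Few (θ + ε)) ↔ Gr θ ∧ ∀ A : ℝ, 0 < A → A * (θ - 1 / 2) < 2 → OnLine A := by
  constructor
  · intro h
    refine ⟨Pool.Agent.Helper75.JE.grOfFew hθ h, fun A hA hAθ => ?_⟩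
    set ε : ℝ := (2 - A * (θ - 1 / 2)) / (2 * A) with hε
    have hε0 : 0 < ε := div_pos (by linarith) (by linarith)
    refine OnLine_few (h ε hε0) hA ?_
    have h5 : A * ε = (2 - A * (θ - 1 / 2)) / 2 := by
      rw [hε]; field_simp
    have h7 : A * (θ + ε - 1 / 2) = A * (θ - 1 / 2) + A * ε := by ring
    rw [h7]
    linarith
  · rintro ⟨hG, hH⟩ ε hε
    obtain ⟨β, hβ⟩ : ∃ β : ℝ, β = θ - 1 / 2 := ⟨_, rfl⟩
    have hβ0 : 0 ≤ β := by linarith
    have hpos : 0 < β + ε / 2 := by linarith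
    set A : ℝ := 2 / (β + ε / 2) with hA
    have hA0 : 0 < A := by positivity
    have h2A : 2 / A = β + ε / 2 := by rw [hA]; field_simp
    have hAβ : A * (θ - 1 / 2) < 2 := by
      rw [← hβ, hA, div_mul_eq_mul_div, div_lt_iff₀ hpos]
      linarith
    have := few_of_onLine (β := β) (by rw [hβ]; exact Pool.Agent.Helper75.JE.fxGrOf hθ hG) hA0
      (by rw [h2A]; linarith) (hH A hA0 hAβ) (half_pos hε)
    rw [h2A] at this
    refine this.mono ?_
    linarith

/-- the master law at `θ = 1/2` -/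
theorem master_xi_lh : (∀ ε > 0, Few (1 / 2 + ε)) ↔ LHyp ∧ ∀ A : ℝ, OnLine A := by
  constructor
  · intro h
    refine ⟨Pool.Agent.Helper68.JE.lh_of_few h, fun A => ?_⟩
    have hA0 := abs_nonneg A
    obtain ⟨m0, H⟩ : OnLine (|A| + 1) := by
      refine OnLine_few (h (1 / (|A| + 1)) (by positivity)) (by positivity) ?_
      have h1 : (|A| + 1) * (1 / 2 + 1 / (|A| + 1) - 1 / 2) = 1 := by field_simp; ring
      rw [h1]
      norm_num
    refine ⟨m0, fun m hm s hs => H m hm s (hs.trans (Real.exp_le_exp.2 ?_))⟩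
    have : A ≤ |A| + 1 := by linarith [le_abs_self A]
    gcongr
  · rintro ⟨hL, hH⟩ ε hε
    have := few_of_onLine (Pool.Agent.Helper75.JE.fxGr_zero hL) (A := 4 / ε) (by positivity) (by positivity)
      (hH _) (half_pos hε)
    refine this.mono ?_
    have : 2 / (4 / ε) = ε / 2 := by field_simp; norm_num
    rw [this]
    linarith

/-- **The local law.** -/
theorem loc_xi {θ : ℝ} (hθ : 1 / 2 ≤ θ) (hG : Gr θ) {ε : ℝ} (hε : 0 < ε) :
    ∃ T : ℝ, ∀ s : ℂ, riemannZeta s = 0 → θ + ε ≤ s.re → T ≤ |s.im| → ∀ m : ℕ,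
      ε * Real.log |s.im| ≤ m → 2 * m / Real.log |s.im| ≤ s.re - 1 / 2 - ε →
        ∃ z : ℂ, iteratedDeriv m xi z = 0 ∧ s.re - 2 * m / Real.log |s.im| - ε < z.re ∧
          |z.im - s.im| ≤ 11 := by
  obtain ⟨T, hT⟩ := loc_fx (Pool.Agent.Helper75.JE.fxGrOf hθ hG) hε
  refine ⟨max T 1, fun s hs hre hTs m hm1 hm2 => ?_⟩
  rw [max_le_iff] at hTs
  have hfx : fx (s - 1 / 2) = 0 := by
    rw [Pool.Agent.Helper75.Jen.fx_eq (by
      have : (s - 1 / 2).re = s.re - 1 / 2 := by simp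
      rw [this]
      linarith) (by
      intro h
      have h1 : (s - 1 / 2).im = 0 := by rw [h]; norm_num
      have h2 : s.im = 0 := by simpa using h1
      rw [h2, abs_zero] at hTs
      linarith [hTs.2])]
    rw [show (1 / 2 + (s - 1 / 2) : ℂ) = s by ring, hs, mul_zero]
  have key : ∀ w : ℂ, w.re = s.re - 1 / 2 → w.im = |s.im| → fx w = 0 →
      ∃ z : ℂ, iteratedDeriv m Fx z = 0 ∧ s.re - 1 / 2 - 2 * m / Real.log |s.im| - ε < z.re ∧
        |z.im - w.im| ≤ 11 := by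
    intro w h1 h2 h3
    obtain ⟨z, hz1, hz2, hz3⟩ := hT w (by rw [h2]; exact hTs.1) h3 (by rw [h1]; linarith) m
      (by rw [h2]; exact hm1) (by rw [h2, h1]; exact hm2)
    rw [h2, h1] at hz2
    refine ⟨z, ?_, hz2, hz3⟩
    rw [fx_iter] at hz1
    simpa using hz1
  rcases le_total 0 s.im with h0 | h0
  · obtain ⟨z, hz1, hz2, hz3⟩ := key (s - 1 / 2) (by simp) (by rw [abs_of_nonneg h0]; simp) hfx
    refine ⟨1 / 2 + z, by rw [← Fx_iter_xi]; exact hz1, ?_, ?_⟩
    · have : (1 / 2 + z).re = 1 / 2 + z.re := by simp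
      rw [this]
      linarith
    · have : (1 / 2 + z).im = z.im := by simp
      rw [this]
      simpa using hz3
  · obtain ⟨z, hz1, hz2, hz3⟩ := key (starRingEnd ℂ (s - 1 / 2)) (by simp)
      (by rw [abs_of_nonpos h0]; simp) (by rw [fx_conj, hfx, map_zero])
    refine ⟨1 / 2 + starRingEnd ℂ z, by rw [← Fx_iter_xi, iter_conj, hz1, map_zero], ?_, ?_⟩
    · have : (1 / 2 + starRingEnd ℂ z).re = 1 / 2 + z.re := by simp
      rw [this]
      linarith
    · have : (1 / 2 + starRingEnd ℂ z).im - s.im = -(z.im - (starRingEnd ℂ (s - 1 / 2)).im) := by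
        simp
        ring
      rw [this, abs_neg]
      exact hz3

end Pool.Agent.Helper85.DQ
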