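import Pool.Agent.Helper85.DQ.Dens
import Pool.Agent.Helper85.DQ.Fin3

/-!
The origin and the fate of the zeros, for `ξ`.
-/

set_option autoImplicit false
set_option maxHeartbeats 1000000

open Complex Filter Topology Metric MeasureTheory Set
open scoped ENNReal

namespace Pool.Agent.Helper85.DQ

open Pool.Agent.Helper85.LG
open Pool.Agent.H21.Xi (cnt)
open Pool.Agent.Helper75.Jen (fx fx_zero_re)

/-- **Origin.** -/
theorem origin_xi {δ : ℝ} (hδ : 0 < δ) : ∃ K : ℝ, ∀ (m : ℕ) (s : ℂ), K ≤ s.im →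
    δ * Real.log s.im ≤ m → iteratedDeriv m xi s = 0 → (s.re ≠ 1 / 2 ∨ iteratedDeriv (m + 1) xi s = 0) →
      ∃ ρ : ℂ, riemannZeta ρ = 0 ∧ |ρ.im - s.im| ≤ K ∧
        1 / 2 + |s.re - 1 / 2| + 2 * m / Real.log s.im - δ ≤ ρ.re := by
  obtain ⟨H, T, hT1, hor⟩ := origin_Fx hδ
  refine ⟨max H T, fun m s hs hm h0 hbad => ?_⟩
  have hsT : T ≤ s.im := (le_max_right _ _).trans hs
  have e3 : (1 / 2 + (s - 1 / 2) : ℂ) = s := by ring
  obtain ⟨w, hw⟩ : ∃ w : ℂ, w = s - 1 / 2 := ⟨_, rfl⟩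
  rw [← hw] at e3
  have hwim : w.im = s.im := by rw [hw]; simp
  have hwre : w.re = s.re - 1 / 2 := by rw [hw]; simp
  have hF0 : iteratedDeriv m Fx w = 0 := by rw [Fx_iter_xi, e3]; exact h0
  have hbad' : w.re ≠ 0 ∨ iteratedDeriv (m + 1) Fx w = 0 := by
    rcases hbad with h | h
    · left
      rw [hwre]
      intro h1
      apply h
      linarith
    · right
      rw [Fx_iter_xi, e3]
      exact h
  rw [← hwim] at hsT hm ⊢
  rw [← hwre]
  rcases le_total 0 w.re with hr | hr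
  · obtain ⟨ρ, s1, s2, s3⟩ := hor m w hsT hm hF0 hr hbad'
    exact ⟨ρ, s1, s2.trans (le_max_left _ _), by rw [abs_of_nonneg hr]; exact s3⟩
  · have e1 : (-(starRingEnd ℂ) w).im = w.im := by simp
    have e2 : (-(starRingEnd ℂ) w).re = -w.re := by simp
    obtain ⟨ρ, s1, s2, s3⟩ := hor m (-(starRingEnd ℂ) w) (by rw [e1]; exact hsT) (by rw [e1]; exact hm)
      (by rw [iter_even, iter_conj, hF0]; simp) (by rw [e2]; linarith) (by
        rcases hbad' with h | h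
        · left
          rw [e2]
          exact neg_ne_zero.2 h
        · right
          rw [iter_even, iter_conj, h]
          simp)
    rw [e1, e2] at s3
    rw [e1] at s2
    exact ⟨ρ, s1, s2.trans (le_max_left _ _), by rw [abs_of_nonpos hr]; exact s3⟩

/-- **Fate.** -/
theorem fate_xi {ε : ℝ} (hε : 0 < ε) : ∃ K : ℝ, 0 < K ∧ ∀ ρ : ℂ, riemannZeta ρ = 0 → K ≤ ρ.im →
    cnt riemannZeta {s : ℂ | ρ.re - ε ≤ s.re ∧ ρ.im - K ≤ s.im ∧ s.im ≤ ρ.im + K} ≤
      ENNReal.ofReal (Real.log ρ.im / K) →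
    ∀ m : ℕ, ε * Real.log ρ.im ≤ m → 2 * m / Real.log ρ.im ≤ ρ.re - 1 / 2 - ε →
      ∃ z : ℂ, iteratedDeriv m xi z = 0 ∧ ρ.re - 2 * m / Real.log ρ.im - ε < z.re ∧ |z.im - ρ.im| ≤ 11 := by
  obtain ⟨K, hK1, H⟩ := fate_sparse hε
  refine ⟨max K 3, by positivity, fun ρ hρ hK hcnt m hm1 hm2 => ?_⟩
  have hKK : K ≤ ρ.im := (le_max_left _ _).trans hK
  have hK3 : 3 ≤ ρ.im := (le_max_right _ _).trans hK
  have hlog : 0 < Real.log ρ.im := Real.log_pos (by linarith)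
  have hpos : 1 / 2 < ρ.re := by
    have h1 : 2 * ε ≤ 2 * m / Real.log ρ.im := by
      rw [le_div_iff₀ hlog]
      linarith
    linarith
  have hwim : (ρ - 1 / 2).im = ρ.im := by simp
  have hwre : (ρ - 1 / 2).re = ρ.re - 1 / 2 := by simp
  have hfx : fx (ρ - 1 / 2) = 0 := by
    rw [Pool.Agent.Helper75.Jen.fx_eq (by rw [hwre]; linarith) (by
      intro h
      have h1 : (ρ - 1 / 2).im = 0 := by rw [h]; norm_num
      rw [hwim] at h1
      linarith)]
    rw [show (1 / 2 + (ρ - 1 / 2) : ℂ) = ρ by ring, hρ, mul_zero]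
  obtain ⟨z, hz1, hz2, hz3⟩ := H (ρ - 1 / 2) (by rw [hwim]; exact hKK) hfx (by
    rw [hwim, hwre]
    refine (cnt_mono ?_).trans (hcnt.trans (ENNReal.ofReal_le_ofReal ?_))
    · rintro s ⟨h1, h2⟩
      obtain ⟨h3, h4⟩ := abs_le.1 h2
      have h5 := le_max_left K 3
      exact ⟨by linarith, by linarith, by linarith⟩
    · exact div_le_div_of_nonneg_left hlog.le (by linarith) (le_max_left _ _)) m
    (by rw [hwim]; exact hm1) (by rw [hwim, hwre]; linarith)
  rw [hwim, hwre] at hz2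
  rw [hwim] at hz3
  refine ⟨1 / 2 + z, ?_, ?_, ?_⟩
  · rw [← Fx_iter_xi]
    rw [fx_iter] at hz1
    simpa using hz1
  · have : (1 / 2 + z).re = 1 / 2 + z.re := by simp
    rw [this]
    linarith
  · have : (1 / 2 + z).im = z.im := by simp
    rw [this]
    exact hz3

end Pool.Agent.Helper85.DQ
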