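import Mathlib

/-!
Elementary lemmas for the saddle point method: growth along segments, a Gaussian integral with a
complex perturbation, existence of the saddle point.
-/

set_option autoImplicit false
set_option maxHeartbeats 1000000

open Complex Filter Topology Set MeasureTheory

namespace Pool.Agent.Helper85.DQ

/-- growth along a segment -/
lemma growth {g : ℂ → ℂ} {z1 z2 : ℂ} {L M : ℝ}
    (hd : ∀ z ∈ segment ℝ z1 z2, DifferentiableAt ℂ g z)
    (hne : ∀ z ∈ segment ℝ z1 z2, g z ≠ 0)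
    (hl : ∀ z ∈ segment ℝ z1 z2, ‖logDeriv g z - L‖ ≤ M) :
    ‖g z2‖ ≤ ‖g z1‖ * Real.exp (L * (z2.re - z1.re) + M * ‖z2 - z1‖) := by
  set d : ℂ := z2 - z1 with hd'
  have hmem : ∀ τ : ℝ, τ ∈ Icc (0 : ℝ) 1 → z1 + τ * d ∈ segment ℝ z1 z2 := by
    intro τ hτ
    rw [segment_eq_image']
    exact ⟨τ, hτ, by simp [hd']⟩
  set q : ℝ → ℂ := fun τ => g (z1 + τ * d) * cexp (-(τ * (L * d))) with hq
  have hq' : ∀ τ ∈ Icc (0 : ℝ) 1, HasDerivAt q (q τ * (d * (logDeriv g (z1 + τ * d) - L))) τ := by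
    intro τ hτ
    have h1 := hd _ (hmem τ hτ)
    have h2 := hne _ (hmem τ hτ)
    have e1 : HasDerivAt (fun τ : ℝ => z1 + (τ : ℂ) * d) d τ := by
      have := (ofRealCLM.hasDerivAt (x := τ)).mul_const d
      simpa using this.const_add z1
    have e2 : HasDerivAt (fun τ : ℝ => g (z1 + (τ : ℂ) * d)) (deriv g (z1 + τ * d) * d) τ :=
      h1.hasDerivAt.comp τ e1
    have e3 : HasDerivAt (fun τ : ℝ => cexp (-((τ : ℂ) * (L * d))))
        (cexp (-((τ : ℂ) * (L * d))) * (-(L * d))) τ := by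
      have := ((ofRealCLM.hasDerivAt (x := τ)).mul_const ((L : ℂ) * d)).neg
      simpa using this.cexp
    have e4 := e2.mul e3
    refine e4.congr_deriv ?_
    simp only [hq, logDeriv_apply]
    field_simp
    ring
  have hcont : ContinuousOn q (Icc 0 1) := fun τ hτ => (hq' τ hτ).continuousAt.continuousWithinAt
  have hgr := norm_le_gronwallBound_of_norm_deriv_right_le (f := q)
    (f' := fun τ => q τ * (d * (logDeriv g (z1 + τ * d) - L))) (δ := ‖g z1‖) (K := M * ‖d‖) (ε := 0)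
    (a := 0) (b := 1) hcont (fun τ hτ => (hq' τ ⟨hτ.1, hτ.2.le⟩).hasDerivWithinAt)
    (by simp [hq]) (by
      intro τ hτ
      have := hl _ (hmem τ ⟨hτ.1, hτ.2.le⟩)
      show ‖q τ * (d * (logDeriv g (z1 + τ * d) - L))‖ ≤ M * ‖d‖ * ‖q τ‖ + 0
      have h0 := norm_nonneg (q τ)
      have h0' := norm_nonneg d
      calc ‖q τ * (d * (logDeriv g (z1 + τ * d) - L))‖ =
          ‖q τ‖ * (‖d‖ * ‖logDeriv g (z1 + τ * d) - L‖) := by rw [norm_mul (q τ), norm_mul d]
        _ ≤ ‖q τ‖ * (‖d‖ * M) := by gcongr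
        _ = _ := by ring)
    1 (by simp)
  rw [gronwallBound_ε0, sub_zero, mul_one] at hgr
  have e5 : ‖q 1‖ = ‖g z2‖ * Real.exp (-(L * d.re)) := by
    simp only [hq]
    rw [norm_mul, Complex.norm_exp]
    congr 2
    · simp [hd']
    · simp
  rw [e5] at hgr
  have e6 : d.re = z2.re - z1.re := by simp [hd']
  calc ‖g z2‖ = ‖g z2‖ * Real.exp (-(L * d.re)) * Real.exp (L * d.re) := by
        rw [mul_assoc, ← Real.exp_add]; simp
    _ ≤ ‖g z1‖ * Real.exp (M * ‖d‖) * Real.exp (L * d.re) := by gcongr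
    _ = _ := by rw [mul_assoc, ← Real.exp_add, e6]; ring_nf

lemma exp_half_lower : 0.6 ≤ Real.exp (-(1 / 2)) := by
  have h1 := Real.exp_one_lt_d9
  have h2 : Real.exp (1 / 2) ^ 2 = Real.exp 1 := by
    rw [← Real.exp_nat_mul]; norm_num
  have h3 : 0 < Real.exp (1 / 2) := Real.exp_pos _
  have h4 : Real.exp (1 / 2) ≤ 1.65 := by
    by_contra hcon
    push Not at hcon
    nlinarith
  have h5 : Real.exp (-(1 / 2)) * Real.exp (1 / 2) = 1 := by
    rw [← Real.exp_add]; simp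
  nlinarith [Real.exp_pos (-(1 / 2) : ℝ)]

/-- a perturbed Gaussian integral -/
lemma gauss_seg {a δ : ℝ} (ha : 0 < a) (hδ0 : 0 < δ) (hδ : 1 ≤ a * δ ^ 2) {H : ℝ → ℂ}
    (hc : ContinuousOn H (Icc (-δ) δ))
    (hE : ∀ y : ℝ, |y| ≤ δ → ∃ E : ℂ, ‖E + ((a / 2 * y ^ 2 : ℝ) : ℂ)‖ ≤ a / 20 * y ^ 2 ∧ H y = cexp E) :
    1 / Real.sqrt a ≤ ‖∫ y in (-δ)..δ, H y‖ ∧ ∫ y in (-δ)..δ, ‖H y‖ ≤ 3 / Real.sqrt a := by
  have hsa : 0 < Real.sqrt a := Real.sqrt_pos.2 ha
  have hsa2 : Real.sqrt a ^ 2 = a := Real.sq_sqrt ha.le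
  have hle : -δ ≤ δ := by linarith
  have hHi : IntervalIntegrable H volume (-δ) δ := by
    apply ContinuousOn.intervalIntegrable
    rwa [uIcc_of_le hle]
  set g1 : ℝ → ℝ := fun y => Real.exp (-(a / 2) * y ^ 2) with hg1
  set g2 : ℝ → ℝ := fun y => Real.exp (-(9 * a / 20) * y ^ 2) with hg2
  have hg1i : Integrable g1 := integrable_exp_neg_mul_sq (by positivity)
  have hg2i : Integrable g2 := integrable_exp_neg_mul_sq (by positivity)
  have h12 : ∀ y, g1 y ≤ g2 y := by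
    intro y
    simp only [hg1, hg2]
    apply Real.exp_le_exp.2
    nlinarith [sq_nonneg y, mul_nonneg ha.le (sq_nonneg y)]
  have hdiff : ∀ y : ℝ, |y| ≤ δ → ‖H y - (g1 y : ℂ)‖ ≤ g2 y - g1 y ∧ ‖H y‖ ≤ g2 y := by
    intro y hy
    obtain ⟨E, hE1, hE2⟩ := hE y hy
    set R : ℂ := E + ((a / 2 * y ^ 2 : ℝ) : ℂ) with hR
    have hER : E = ((-(a / 2) * y ^ 2 : ℝ) : ℂ) + R := by rw [hR]; push_cast; ring
    have h1 : H y = (g1 y : ℂ) * cexp R := by
      rw [hE2, hER, Complex.exp_add, hg1]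
      push_cast
      rfl
    have h2 : ‖cexp R - 1‖ ≤ Real.exp (‖R‖) - 1 := by
      have := Complex.norm_exp_sub_sum_le_exp_norm_sub_sum R 1
      simpa using this
    have h3 : Real.exp ‖R‖ ≤ Real.exp (a / 20 * y ^ 2) := Real.exp_le_exp.2 hE1
    have hg1p : 0 < g1 y := Real.exp_pos _
    have h4 : g1 y * Real.exp (a / 20 * y ^ 2) = g2 y := by
      simp only [hg1, hg2]
      rw [← Real.exp_add]
      congr 1
      ring
    constructor
    · have : H y - (g1 y : ℂ) = (g1 y : ℂ) * (cexp R - 1) := by rw [h1]; ring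
      rw [this, norm_mul, Complex.norm_real, Real.norm_of_nonneg hg1p.le]
      calc g1 y * ‖cexp R - 1‖ ≤ g1 y * (Real.exp (a / 20 * y ^ 2) - 1) := by
            apply mul_le_mul_of_nonneg_left _ hg1p.le
            linarith
        _ = _ := by rw [mul_sub, h4]; ring
    · rw [h1, norm_mul, Complex.norm_real, Real.norm_of_nonneg hg1p.le, Complex.norm_exp, ← h4]
      apply mul_le_mul_of_nonneg_left _ hg1p.le
      exact Real.exp_le_exp.2 ((Complex.re_le_norm R).trans hE1)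
  have hI1 : ∫ y, g1 y = Real.sqrt (Real.pi / (a / 2)) := integral_gaussian (a / 2)
  have hI2 : ∫ y, g2 y = Real.sqrt (Real.pi / (9 * a / 20)) := integral_gaussian (9 * a / 20)
  have hpi := Real.pi_gt_d2
  have hpi' := Real.pi_lt_d2
  have hI1l : 2.5 / Real.sqrt a ≤ ∫ y, g1 y := by
    rw [hI1]
    apply Real.le_sqrt_of_sq_le
    rw [div_pow, hsa2, div_le_div_iff₀ ha (by positivity)]
    nlinarith
  have hI2u : ∫ y, g2 y ≤ 2.65 / Real.sqrt a := by
    rw [hI2]
    apply Real.sqrt_le_iff.2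
    refine ⟨by positivity, ?_⟩
    rw [div_pow, hsa2, div_le_div_iff₀ (by positivity) ha]
    nlinarith
  have hg2g1 : ∫ y in (-δ)..δ, (g2 y - g1 y) ≤ 0.15 / Real.sqrt a := by
    have e1 : ∫ y in (-δ)..δ, (g2 y - g1 y) ≤ ∫ y, (g2 y - g1 y) := by
      rw [intervalIntegral.integral_of_le hle]
      apply setIntegral_le_integral (hg2i.sub hg1i)
      exact Eventually.of_forall fun y => sub_nonneg.2 (h12 y)
    rw [integral_sub hg2i hg1i] at e1
    have : (0.15 : ℝ) / Real.sqrt a = 2.65 / Real.sqrt a - 2.5 / Real.sqrt a := by ring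
    linarith
  have hg1low : 1.2 / Real.sqrt a ≤ ∫ y in (-δ)..δ, g1 y := by
    have hs : 1 / Real.sqrt a ≤ δ := by
      rw [div_le_iff₀ hsa]
      have : (1 : ℝ) ≤ (δ * Real.sqrt a) ^ 2 := by rw [mul_pow, hsa2]; linarith
      nlinarith [mul_pos hδ0 hsa]
    have hs0 : 0 < 1 / Real.sqrt a := by positivity
    have e1 : ∫ y in (-(1 / Real.sqrt a))..(1 / Real.sqrt a), g1 y ≤ ∫ y in (-δ)..δ, g1 y := by
      apply intervalIntegral.integral_mono_interval (by linarith) (by linarith) hs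
      · exact Eventually.of_forall fun y => (Real.exp_pos _).le
      · exact hg1i.intervalIntegrable
    have e2 : ∫ y in (-(1 / Real.sqrt a))..(1 / Real.sqrt a), (Real.exp (-(1 / 2)) : ℝ) ≤
        ∫ y in (-(1 / Real.sqrt a))..(1 / Real.sqrt a), g1 y := by
      apply intervalIntegral.integral_mono_on (by linarith) (by simp) hg1i.intervalIntegrable
      intro y hy
      simp only [hg1]
      apply Real.exp_le_exp.2
      have hy2 : y ^ 2 ≤ (1 / Real.sqrt a) ^ 2 := by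
        apply sq_le_sq'
        · linarith [hy.1]
        · exact hy.2
      rw [div_pow, hsa2, one_pow, le_div_iff₀ ha] at hy2
      nlinarith
    rw [intervalIntegral.integral_const, smul_eq_mul] at e2
    have h6 := exp_half_lower
    have e3 : 1.2 / Real.sqrt a ≤ (1 / Real.sqrt a - -(1 / Real.sqrt a)) * Real.exp (-(1 / 2)) := by
      have : (1.2 : ℝ) / Real.sqrt a = (1 / Real.sqrt a - -(1 / Real.sqrt a)) * 0.6 := by ring
      rw [this]
      gcongr
      linarith
    linarith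
  constructor
  · have e1 : ‖∫ y in (-δ)..δ, (H y - (g1 y : ℂ))‖ ≤ 0.15 / Real.sqrt a := by
      refine le_trans ?_ hg2g1
      apply intervalIntegral.norm_integral_le_of_norm_le hle
      · refine Eventually.of_forall fun y hy => (hdiff y ?_).1
        rw [abs_le]
        exact ⟨hy.1.le, hy.2⟩
      · exact (hg2i.sub hg1i).intervalIntegrable
    have hg1c : IntervalIntegrable (fun y => ((g1 y : ℝ) : ℂ)) volume (-δ) δ :=
      hg1i.ofReal.intervalIntegrable
    rw [intervalIntegral.integral_sub hHi hg1c, intervalIntegral.integral_ofReal] at e1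
    have e2 : ‖((∫ y in (-δ)..δ, g1 y : ℝ) : ℂ)‖ ≤ ‖∫ y in (-δ)..δ, H y‖ + 0.15 / Real.sqrt a := by
      have := norm_sub_norm_le (((∫ y in (-δ)..δ, g1 y : ℝ) : ℂ)) (∫ y in (-δ)..δ, H y)
      rw [norm_sub_rev] at this
      linarith
    rw [Complex.norm_real] at e2
    have e3 := (le_abs_self (∫ y in (-δ)..δ, g1 y)).trans e2
    have e4 : (1 : ℝ) / Real.sqrt a ≤ 1.2 / Real.sqrt a - 0.15 / Real.sqrt a := by
      rw [← sub_div]
      apply div_le_div_of_nonneg_right _ hsa.le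
      norm_num
    linarith
  · have e1 : ∫ y in (-δ)..δ, ‖H y‖ ≤ ∫ y in (-δ)..δ, g2 y := by
      apply intervalIntegral.integral_mono_on hle hHi.norm hg2i.intervalIntegrable
      intro y hy
      exact (hdiff y (abs_le.2 ⟨hy.1, hy.2⟩)).2
    have e2 : ∫ y in (-δ)..δ, g2 y ≤ ∫ y, g2 y := by
      rw [intervalIntegral.integral_of_le hle]
      apply setIntegral_le_integral hg2i
      exact Eventually.of_forall fun y => (Real.exp_pos _).le
    have e3 : (2.65 : ℝ) / Real.sqrt a ≤ 3 / Real.sqrt a := by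
      apply div_le_div_of_nonneg_right _ hsa.le
      norm_num
    linarith

end Pool.Agent.Helper85.DQ
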