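import Pool.Agent.Helper85.DQ.XiLoc
import Pool.Agent.Helper85.DQ.Dir2
import Pool.Agent.Helper85.DQ.Fin

/-!
The origin of the off-line zeros of the derivatives: every zero of `ξ^(m)` at the height `t` off the critical line
comes from a zero of zeta at a bounded distance whose real part is larger by `2 m / log t`.
-/

set_option autoImplicit false
set_option maxHeartbeats 1000000

open Complex Filter Topology Set

namespace Pool.Agent.Helper85.DQ

open Pool.Agent.Helper85.LG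

/-- no zeros off the line, and simple zeros on it -/
lemma dir_loc {θ y0 ρ1 ρ2 : ℝ} (hθ : 1 / 2 ≤ θ) (hy : θ - 1 / 2 < y0) (h01 : y0 < ρ1) (h12 : ρ1 ≤ ρ2)
    (hhalf : 1 / 2 ≤ ρ2) :
    ∃ H T : ℝ, 1 ≤ T ∧ ∀ (m : ℕ) (w : ℂ), T ≤ w.im → FreeBox θ H w.im →
      ρ1 * (1 / 2 * Real.log w.im) ≤ ((m + 1 : ℕ) : ℝ) → ((m + 1 : ℕ) : ℝ) ≤ ρ2 * (1 / 2 * Real.log w.im) →
      |w.re| ≤ 1 / 2 → iteratedDeriv m Fx w = 0 → w.re = 0 ∧ iteratedDeriv (m + 1) Fx w ≠ 0 := by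
  have hy0 : 0 < y0 := by linarith
  obtain ⟨d, hd, h4d, h, hh, ε, hε, L0, hL0, P⟩ :=
    PQ hy0 h01 h12 hhalf (B := ρ2 + 2 + 13) (by linarith)
  obtain ⟨T, hT1, hT⟩ := hy_loc hθ hy h01 (Y := ρ2 + 2) (by linarith) hε h
  refine ⟨|h + 1| + 2, max T (Real.exp (2 * L0)), le_trans hT1 (le_max_left _ _), ?_⟩
  intro m w hw hfree h1 h2 hre hz
  have hTt : T ≤ w.im := (le_max_left _ _).trans hw
  have ht0 : 0 < w.im := by linarith
  have hlog : 2 * L0 ≤ Real.log w.im := by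
    rw [← Real.log_exp (2 * L0)]
    exact Real.log_le_log (Real.exp_pos _) ((le_max_right _ _).trans hw)
  obtain ⟨t, ht⟩ : ∃ t : ℝ, t = w.im := ⟨_, rfl⟩
  rw [← ht] at hTt ht0 hlog h1 h2 hfree
  set L : ℝ := 1 / 2 * Real.log t with hL
  have hLL : L0 ≤ L := by rw [hL]; linarith
  have hLpos : 0 < L := by linarith
  set ρ : ℝ := ((m + 1 : ℕ) : ℝ) / L with hρ
  have hκ : ((m + 1 : ℕ) : ℝ) = ρ * L := by rw [hρ]; field_simp
  have hρ1ρ : ρ1 ≤ ρ := by rw [hρ, le_div_iff₀ hLpos]; exact h1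
  have hρρ2 : ρ ≤ ρ2 := by rw [hρ, div_le_iff₀ hLpos]; exact h2
  have hP := P Fx t L ρ (m + 1) Fx_diff hLL hρ1ρ hρρ2 hκ (hT t hTt hfree)
  have hu : 0 < ρ - y0 - d := by linarith
  have key : ∀ w' : ℂ, w'.im = t → (0 < w'.re → w'.re ≤ 1 / 2 → iteratedDeriv m Fx w' ≠ 0) ∧
      (w'.re = 0 → iteratedDeriv m Fx w' = 0 → iteratedDeriv (m + 1) Fx w' ≠ 0) := fun w' hw' =>
    dir Fx_diff Fx_even Fx_conj hh hLpos hd hu hP hw'
  obtain ⟨ha, hb⟩ := abs_le.1 hre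
  rcases lt_trichotomy w.re 0 with h1 | h1 | h1
  · exfalso
    have h2 : iteratedDeriv m Fx (-(starRingEnd ℂ) w) = 0 := by
      rw [iter_even, iter_conj, hz]
      simp
    refine (key (-(starRingEnd ℂ) w) (by simp [ht])).1 ?_ ?_ h2
    · simp only [neg_re, conj_re]; linarith
    · simp only [neg_re, conj_re]; linarith
  · exact ⟨h1, (key w ht.symm).2 h1 hz⟩
  · exact absurd hz ((key w ht.symm).1 h1 hb)

/-- no zeros to the right of `max (y0 - ρ) 0` -/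
lemma left_loc {θ y0 ρ1 ρ2 μ : ℝ} (hθ : 1 / 2 ≤ θ) (hy : θ - 1 / 2 < y0) (hρ1 : 0 < ρ1) (h12 : ρ1 ≤ ρ2)
    (hhalf : y0 + 1 / 4 ≤ ρ2) (hhalf' : 1 / 2 ≤ ρ2) (hμ : 0 < μ) :
    ∃ H T : ℝ, 1 ≤ T ∧ ∀ (m : ℕ) (w : ℂ), T ≤ w.im → FreeBox θ H w.im →
      ρ1 * (1 / 2 * Real.log w.im) ≤ ((m + 1 : ℕ) : ℝ) → ((m + 1 : ℕ) : ℝ) ≤ ρ2 * (1 / 2 * Real.log w.im) →
      w.re ≤ 1 / 2 →
      (y0 + μ) * (1 / 2 * Real.log w.im) ≤ w.re * (1 / 2 * Real.log w.im) + ((m + 1 : ℕ) : ℝ) →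
      ((m + 1 : ℕ) : ℝ) ≤ (w.re + y0) * (1 / 2 * Real.log w.im) →
      iteratedDeriv m Fx w ≠ 0 := by
  have hy0 : 0 < y0 := by linarith
  set d : ℝ := min (μ / 7) (1 / 4) with hd
  have hd0 : 0 < d := lt_min (by linarith) (by norm_num)
  have hd1 : d ≤ μ / 7 := min_le_left _ _
  have hd2 : d ≤ 1 / 4 := min_le_right _ _
  clear_value d
  obtain ⟨h, hh, ε, hε, L0, hL0, P⟩ :=
    PQg (R0 := y0 + 1 / 4) (d := d) (B := ρ2 + 2 + 13) hy0 hρ1 h12 hhalf' (by linarith) hd0 hd2 (by linarith)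
      (by linarith) (by linarith) (by linarith)
  obtain ⟨T, hT1, hT⟩ := hy_loc hθ hy (ρ1 := y0 + 1 / 4) (by linarith) (Y := ρ2 + 2) (by linarith) hε h
  refine ⟨|h + 1| + 2, max T (Real.exp (2 * L0)), le_trans hT1 (le_max_left _ _), ?_⟩
  intro m w hw hfree h1 h2 h3 h4 h5
  have hTt : T ≤ w.im := (le_max_left _ _).trans hw
  have ht0 : 0 < w.im := by linarith
  have hlog : 2 * L0 ≤ Real.log w.im := by
    rw [← Real.log_exp (2 * L0)]
    exact Real.log_le_log (Real.exp_pos _) ((le_max_right _ _).trans hw)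
  set L : ℝ := 1 / 2 * Real.log w.im with hL
  have hLL : L0 ≤ L := by rw [hL]; linarith
  have hLpos : 0 < L := by linarith
  set ρ : ℝ := ((m + 1 : ℕ) : ℝ) / L with hρ
  have hκ : ((m + 1 : ℕ) : ℝ) = ρ * L := by rw [hρ]; field_simp
  have g1 : ρ1 ≤ ρ := by rw [hρ, le_div_iff₀ hLpos]; exact h1
  have g2 : ρ ≤ ρ2 := by rw [hρ, div_le_iff₀ hLpos]; exact h2
  have g4 : y0 + μ ≤ w.re + ρ := by
    rw [hκ] at h4
    have : (y0 + μ) * L ≤ (w.re + ρ) * L := by linarith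
    exact le_of_mul_le_mul_right this hLpos
  have g5 : ρ ≤ w.re + y0 := by
    rw [hκ] at h5
    exact le_of_mul_le_mul_right h5 hLpos
  obtain ⟨r, hr, hpc, hm⟩ := P Fx w.im L ρ (m + 1) Fx_diff hLL g1 g2 hκ (hT _ hTt hfree) w rfl (by linarith) h3
  exact dir_one Fx_diff Fx_even Fx_conj hh hLpos hd0 rfl
    ⟨r, hr, hpc, hm (by linarith) (by linarith)⟩

/-- finitely many pairs of thresholds -/
lemma unif_HT {P : ℕ → ℝ → ℝ → Prop} (hmono : ∀ j H H' T T', H ≤ H' → T ≤ T' → P j H T → P j H' T') (N : ℕ)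
    (h : ∀ j < N, ∃ H T, P j H T) : ∃ H T, ∀ j < N, P j H T := by
  induction N with
  | zero => exact ⟨0, 0, fun j hj => absurd hj (Nat.not_lt_zero j)⟩
  | succ N ih =>
    obtain ⟨H1, T1, h1⟩ := ih fun j hj => h j (Nat.lt_succ_of_lt hj)
    obtain ⟨H2, T2, h2⟩ := h N (Nat.lt_succ_self N)
    refine ⟨max H1 H2, max T1 T2, fun j hj => ?_⟩
    rcases Nat.lt_succ_iff_lt_or_eq.1 hj with h3 | h3
    · exact hmono j _ _ _ _ (le_max_left _ _) (le_max_left _ _) (h1 j h3)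
    · rw [h3]
      exact hmono N _ _ _ _ (le_max_right _ _) (le_max_right _ _) h2

/-- **The origin of the exceptional zeros.** -/
theorem origin_Fx {δ : ℝ} (hδ : 0 < δ) : ∃ H T : ℝ, 1 ≤ T ∧ ∀ (m : ℕ) (w : ℂ), T ≤ w.im →
    δ * Real.log w.im ≤ m → iteratedDeriv m Fx w = 0 → 0 ≤ w.re →
    (w.re ≠ 0 ∨ iteratedDeriv (m + 1) Fx w = 0) →
      ∃ s : ℂ, riemannZeta s = 0 ∧ |s.im - w.im| ≤ H ∧ 1 / 2 + w.re + 2 * m / Real.log w.im - δ ≤ s.re := by
  obtain ⟨C, c, m1, hC, hc, hlow⟩ := Pool.Agent.Helper75.Xi.main_prop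
  set ρ2 : ℝ := 4 / c + 2 with hρ2
  have h2c : 0 < 2 / c := by positivity
  have h4c : 4 / c = 2 * (2 / c) := by ring
  set d : ℝ := δ / 8 with hd
  have hd0 : 0 < d := by positivity
  obtain ⟨N, hN⟩ := exists_nat_gt ((2 / c + 1 / 2) / d)
  have hNd : 2 / c + 1 / 2 < N * d := by rwa [div_lt_iff₀ hd0] at hN
  -- the two statements for each `j`
  obtain ⟨Ha, Ta, ha⟩ := unif_HT (P := fun j H T => (j + 2) * d ≤ ρ2 → ∀ (m : ℕ) (w : ℂ), T ≤ w.im →
      FreeBox (1 / 2 + j * d) H w.im →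
      ((j + 1) * d + d) * (1 / 2 * Real.log w.im) ≤ ((m + 1 : ℕ) : ℝ) →
      ((m + 1 : ℕ) : ℝ) ≤ ρ2 * (1 / 2 * Real.log w.im) →
      |w.re| ≤ 1 / 2 → iteratedDeriv m Fx w = 0 → w.re = 0 ∧ iteratedDeriv (m + 1) Fx w ≠ 0)
    (fun j H H' T T' hH hT h h0 m w hw hf => h h0 m w (hT.trans hw) (hf.mono hH)) N
    (fun j _ => by
      by_cases hj : (j + 2) * d ≤ ρ2
      · obtain ⟨H, T, -, h⟩ := dir_loc (θ := 1 / 2 + j * d) (y0 := (j + 1) * d) (ρ1 := (j + 1) * d + d) (ρ2 := ρ2)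
          (by have : 0 ≤ (j : ℝ) * d := by positivity
              linarith) (by linarith) (by linarith) (by linarith) (by rw [hρ2]; linarith [h4c])
        exact ⟨H, T, fun _ => h⟩
      · exact ⟨0, 0, fun h => absurd h hj⟩)
  obtain ⟨Hb, Tb, hb⟩ := unif_HT (P := fun j H T => (j + 1) * d + 1 / 4 ≤ ρ2 → ∀ (m : ℕ) (w : ℂ), T ≤ w.im →
      FreeBox (1 / 2 + j * d) H w.im →
      (2 * δ) * (1 / 2 * Real.log w.im) ≤ ((m + 1 : ℕ) : ℝ) →
      ((m + 1 : ℕ) : ℝ) ≤ (ρ2 + 2 * δ) * (1 / 2 * Real.log w.im) →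
      w.re ≤ 1 / 2 →
      ((j + 1) * d + d) * (1 / 2 * Real.log w.im) ≤ w.re * (1 / 2 * Real.log w.im) + ((m + 1 : ℕ) : ℝ) →
      ((m + 1 : ℕ) : ℝ) ≤ (w.re + (j + 1) * d) * (1 / 2 * Real.log w.im) →
      iteratedDeriv m Fx w ≠ 0)
    (fun j H H' T T' hH hT h h0 m w hw hf => h h0 m w (hT.trans hw) (hf.mono hH)) N
    (fun j _ => by
      by_cases hj : (j + 1) * d + 1 / 4 ≤ ρ2
      · obtain ⟨H, T, -, h⟩ := left_loc (θ := 1 / 2 + j * d) (y0 := (j + 1) * d) (ρ1 := 2 * δ) (ρ2 := ρ2 + 2 * δ)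
          (μ := d)
          (by have : 0 ≤ (j : ℝ) * d := by positivity
              linarith) (by linarith) (by linarith) (by rw [hρ2]; linarith [h4c]) (by linarith)
          (by rw [hρ2]; linarith [h4c]) hd0
        exact ⟨H, T, fun _ => h⟩
      · exact ⟨0, 0, fun h => absurd h hj⟩)
  set T1 : ℝ := Real.exp (max (max (m1 / δ) (2 / d)) (max (2 * c + 2) 1)) with hT1
  refine ⟨max Ha Hb, max (max Ta Tb) T1, (Real.one_le_exp (by positivity)).trans (le_max_right _ _), ?_⟩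
  intro m w hw hm h0 hre hexc
  rw [max_le_iff, max_le_iff] at hw
  obtain ⟨⟨hwa, hwb⟩, hw1⟩ := hw
  have ht0 : 0 < w.im := lt_of_lt_of_le (Real.exp_pos _) hw1
  have hlog : max (max (m1 / δ) (2 / d)) (max (2 * c + 2) 1) ≤ Real.log w.im := by
    rw [Real.le_log_iff_exp_le ht0]; exact hw1
  simp only [max_le_iff] at hlog
  obtain ⟨⟨l1, l2⟩, l3, l4⟩ := hlog
  obtain ⟨L, hL⟩ : ∃ L : ℝ, L = 1 / 2 * Real.log w.im := ⟨_, rfl⟩
  have hlogL : Real.log w.im = 2 * L := by rw [hL]; ring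
  have hLp : 0 < L := by linarith
  rw [div_le_iff₀ hδ] at l1
  have hm1 : m1 ≤ m := by
    have : (m1 : ℝ) ≤ m := by linarith
    exact_mod_cast this
  -- the height is large
  have hbig : c * m < Real.log w.im := by
    by_contra hcon
    push Not at hcon
    have h1 := (hlow m hm1).1 w ht0.le (by
      rw [← Real.exp_log ht0]
      exact Real.exp_le_exp.2 hcon) (by rw [fx_iter, h0, mul_zero])
    rcases hexc with h2 | h2
    · exact h2 h1.1
    · exact h1.2 (by rw [fx_iter, h2, mul_zero])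
  by_contra hno
  push Not at hno
  rw [hlogL] at hno hbig hm l2
  obtain ⟨ρ, hρ⟩ : ∃ ρ : ℝ, ρ = 2 * m / (2 * L) := ⟨_, rfl⟩
  rw [← hρ] at hno
  have hmρ : (m : ℝ) = ρ * L := by rw [hρ]; field_simp
  have hρδ : 2 * δ ≤ ρ := by
    rw [hmρ] at hm
    by_contra hcon
    push Not at hcon
    have := mul_lt_mul_of_pos_right hcon hLp
    linarith
  have hρc : ρ < 2 / c := by
    rw [lt_div_iff₀ hc]
    rw [hmρ] at hbig
    by_contra hcon
    push Not at hcon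
    have := mul_le_mul_of_nonneg_right hcon hLp.le
    linarith
  have hdL : 1 ≤ d * L := by
    rw [div_le_iff₀ hd0] at l2
    linarith
  have hstrip := abs_le.1 (strip_Fx m h0)
  -- the grid
  obtain ⟨b, hb'⟩ : ∃ b : ℝ, b = w.re + ρ - δ := ⟨_, rfl⟩
  have hbpos : 0 < b := by linarith
  obtain ⟨j, hj⟩ : ∃ j : ℕ, j = ⌈b / d⌉₊ := ⟨_, rfl⟩
  have hj1 : b ≤ j * d := by
    have := Nat.le_ceil (b / d)
    rw [← hj, div_le_iff₀ hd0] at this
    exact this
  have hj2 : (j : ℝ) * d < b + d := by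
    have := Nat.ceil_lt_add_one (a := b / d) (by positivity)
    rw [← hj, ← sub_lt_iff_lt_add, lt_div_iff₀ hd0] at this
    linarith
  have hδd : δ = 8 * d := by rw [hd]; ring
  have hjN : j < N := by
    have h1 : (j : ℝ) * d < N * d := by linarith
    have h2 : (j : ℝ) < N := lt_of_mul_lt_mul_right h1 hd0.le
    exact_mod_cast h2
  have hfree : ∀ H, H ≤ max Ha Hb → FreeBox (1 / 2 + j * d) H w.im := by
    intro H hH s hs him
    have := hno s hs (him.trans hH)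
    linarith
  have hm1' : ((m + 1 : ℕ) : ℝ) = ρ * L + 1 := by push_cast; rw [hmρ]
  by_cases hcase : w.re < 4 * d
  · -- near the line
    have h1 := ha j hjN (by rw [hρ2]; linarith [h4c]) m w hwa (hfree Ha (le_max_left _ _)) (by
        rw [← hL, hm1']
        have : ((j + 1) * d + d) * L ≤ ρ * L :=
          mul_le_mul_of_nonneg_right (by linarith) hLp.le
        linarith) (by
        rw [← hL, hm1']
        have h2 : ρ * L + 1 ≤ (2 / c) * L + d * L := by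
          have := mul_le_mul_of_nonneg_right hρc.le hLp.le
          linarith
        have h3 : (2 / c) * L + d * L ≤ ρ2 * L := by
          have h5 : d ≤ 1 / 2 + 2 / c + 1 := by linarith
          have : 2 / c + d ≤ ρ2 := by rw [hρ2]; linarith [h4c]
          have := mul_le_mul_of_nonneg_right this hLp.le
          linarith
        linarith) (strip_Fx m h0) h0
    rcases hexc with h2 | h2
    · exact h2 h1.1
    · exact h1.2 h2
  · push Not at hcase
    refine hb j hjN (by rw [hρ2]; linarith [h4c]) m w hwb (hfree Hb (le_max_right _ _)) ?_ ?_ hstrip.2 ?_ ?_ h0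
    · rw [← hL, hm1']
      have := mul_le_mul_of_nonneg_right hρδ hLp.le
      linarith
    · rw [← hL, hm1']
      have h2 : ρ * L + 1 ≤ (2 / c) * L + d * L := by
        have := mul_le_mul_of_nonneg_right hρc.le hLp.le
        linarith
      have : 2 / c + d ≤ ρ2 + 2 * δ := by rw [hρ2]; linarith [h4c]
      have := mul_le_mul_of_nonneg_right this hLp.le
      linarith
    · rw [← hL, hm1']
      have : ((j + 1) * d + d) * L ≤ (w.re + ρ) * L :=
        mul_le_mul_of_nonneg_right (by linarith) hLp.le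
      linarith
    · rw [← hL, hm1']
      have : (ρ + d) * L ≤ (w.re + (j + 1) * d) * L :=
        mul_le_mul_of_nonneg_right (by linarith) hLp.le
      linarith

end Pool.Agent.Helper85.DQ
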