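import Pool.Agent.Helper85.DQ.Path

/-!
Symmetry and derivative of the path integrals.
-/

set_option autoImplicit false
set_option maxHeartbeats 1000000

open Complex Filter Topology Set MeasureTheory

namespace Pool.Agent.Helper85.DQ

lemma int_conj {a b : ℝ} (G : ℝ → ℂ) :
    (starRingEnd ℂ) (∫ x in a..b, G x) = ∫ x in a..b, (starRingEnd ℂ) (G x) := by
  rw [intervalIntegral, intervalIntegral, map_sub, ← integral_conj, ← integral_conj]

lemma AA_conj {F : ℂ → ℂ} (hcj : ∀ z, F ((starRingEnd ℂ) z) = (starRingEnd ℂ) (F z)) (κ : ℕ)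
    (h r : ℝ) (w : ℂ) :
    (starRingEnd ℂ) (AA (gk F κ w) h r) = -AA (gk F κ ((starRingEnd ℂ) w)) h r := by
  have hg : ∀ z : ℂ, (starRingEnd ℂ) (gk F κ w z) = gk F κ ((starRingEnd ℂ) w) ((starRingEnd ℂ) z) := by
    intro z
    unfold gk
    rw [map_div₀, map_pow, ← hcj, map_add]
  unfold AA
  rw [map_sub, map_add, map_mul, int_conj, int_conj, int_conj, conj_I]
  have e1 : ∫ x in (0 : ℝ)..r, (starRingEnd ℂ) (gk F κ w (x - h * I)) =
      ∫ x in (0 : ℝ)..r, gk F κ ((starRingEnd ℂ) w) (x + h * I) := by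
    refine intervalIntegral.integral_congr fun x _ => ?_
    rw [hg]
    congr 1
    simp
  have e2 : ∫ x in (0 : ℝ)..r, (starRingEnd ℂ) (gk F κ w (x + h * I)) =
      ∫ x in (0 : ℝ)..r, gk F κ ((starRingEnd ℂ) w) (x - h * I) := by
    refine intervalIntegral.integral_congr fun x _ => ?_
    rw [hg]
    congr 1
    simp
    ring
  have e3 : ∫ v in (-h)..h, (starRingEnd ℂ) (gk F κ w (r + v * I)) =
      ∫ v in (-h)..h, gk F κ ((starRingEnd ℂ) w) (r + v * I) := by
    have := intervalIntegral.integral_comp_neg (a := -h) (b := h)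
      (fun v => gk F κ ((starRingEnd ℂ) w) (r + v * I))
    rw [neg_neg] at this
    rw [← this]
    refine intervalIntegral.integral_congr fun v _ => ?_
    rw [hg]
    congr 1
    simp
  rw [e1, e2, e3]
  ring

lemma deriv_int {F : ℂ → ℂ} (hF : Differentiable ℂ F) {γ k : ℝ → ℂ} (hγ : Continuous γ)
    (hk : Continuous k) (a b : ℝ) (w0 : ℂ) :
    HasDerivAt (fun w : ℂ => ∫ x in a..b, F (w + γ x) / k x) (∫ x in a..b, deriv F (w0 + γ x) / k x) w0 ∨
      ¬ ∀ x, k x ≠ 0 := by
  by_cases hk0 : ∀ x, k x ≠ 0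
  swap
  · exact Or.inr hk0
  left
  have hdF : Continuous (deriv F) := (hF.contDiff (n := 1)).continuous_deriv le_rfl
  have hcomp : IsCompact (Metric.closedBall w0 1 ×ˢ uIcc a b) :=
    (isCompact_closedBall w0 1).prod isCompact_uIcc
  have hcont : Continuous (fun p : ℂ × ℝ => ‖deriv F (p.1 + γ p.2) / k p.2‖) := by
    have h1 : Continuous fun p : ℂ × ℝ => deriv F (p.1 + γ p.2) :=
      hdF.comp (continuous_fst.add (hγ.comp continuous_snd))
    exact (h1.div (hk.comp continuous_snd) (fun p => hk0 _)).norm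
  obtain ⟨M, hM⟩ := hcomp.exists_bound_of_continuousOn (f := fun p : ℂ × ℝ => ‖deriv F (p.1 + γ p.2) / k p.2‖)
    hcont.continuousOn
  have hFc : ∀ w : ℂ, Continuous fun x : ℝ => F (w + γ x) / k x := fun w =>
    (hF.continuous.comp (continuous_const.add hγ)).div hk hk0
  have hF'c : ∀ w : ℂ, Continuous fun x : ℝ => deriv F (w + γ x) / k x := fun w =>
    (hdF.comp (continuous_const.add hγ)).div hk hk0
  refine (intervalIntegral.hasDerivAt_integral_of_dominated_loc_of_deriv_le
    (F := fun (w : ℂ) (x : ℝ) => F (w + γ x) / k x)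
    (F' := fun (w : ℂ) (x : ℝ) => deriv F (w + γ x) / k x) (s := Metric.closedBall w0 1) (bound := fun _ => M)
    (Metric.closedBall_mem_nhds w0 one_pos) ?_ ?_ ?_ ?_ ?_ ?_).2
  · exact Eventually.of_forall fun w => (hFc w).aestronglyMeasurable
  · exact (hFc w0).intervalIntegrable _ _
  · exact (hF'c w0).aestronglyMeasurable
  · refine Eventually.of_forall fun x hx w hw => ?_
    have := hM (w, x) ⟨hw, uIoc_subset_uIcc hx⟩
    simpa using this
  · simp
  · refine Eventually.of_forall fun x _ w _ => ?_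
    have h1 : HasDerivAt (fun w : ℂ => F (w + γ x)) (deriv F (w + γ x)) w := by
      have := (hF (w + γ x)).hasDerivAt.comp_add_const w (γ x)
      exact this
    exact h1.div_const _

lemma AA_deriv {F : ℂ → ℂ} (hF : Differentiable ℂ F) (κ : ℕ) {h r : ℝ} (hh : 0 < h) (hr : 0 < r) (w0 : ℂ) :
    HasDerivAt (fun w => AA (gk F κ w) h r) (AA (gk (deriv F) κ w0) h r) w0 := by
  have h1 := deriv_int hF (γ := fun x : ℝ => (x - h * I : ℂ)) (k := fun x : ℝ => (x - h * I : ℂ) ^ κ)
    (by fun_prop) (by fun_prop) 0 r w0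
  have h2 := deriv_int hF (γ := fun x : ℝ => (x + h * I : ℂ)) (k := fun x : ℝ => (x + h * I : ℂ) ^ κ)
    (by fun_prop) (by fun_prop) 0 r w0
  have h3 := deriv_int hF (γ := fun v : ℝ => (r + v * I : ℂ)) (k := fun v : ℝ => (r + v * I : ℂ) ^ κ)
    (by fun_prop) (by fun_prop) (-h) h w0
  have g1 := h1.resolve_right (fun hn => hn fun x => pow_ne_zero _ (line_ne hh x).1)
  have g2 := h2.resolve_right (fun hn => hn fun x => pow_ne_zero _ (line_ne hh x).2)
  have g3 := h3.resolve_right (fun hn => hn fun x => pow_ne_zero _ (vline_ne hr.ne' x))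
  unfold AA gk
  exact (g1.add (g3.const_mul I)).sub g2

end Pool.Agent.Helper85.DQ
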