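import Pool.Agent.Helper85.DQ.Vert
import Pool.Agent.Helper85.DQ.Path2

/-!
The saddle point analysis of the path integrals on both sides of the critical line.
-/

set_option autoImplicit false
set_option maxHeartbeats 4000000

open Complex Filter Topology Set MeasureTheory

namespace Pool.Agent.Helper85.DQ

/-- the integral of the absolute value over the path -/
noncomputable def NN (g : ℂ → ℂ) (h r : ℝ) : ℝ :=
  (∫ x in (0 : ℝ)..r, ‖g (x - h * I)‖) + (∫ v in (-h)..h, ‖g (r + v * I)‖) +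
    ∫ x in (0 : ℝ)..r, ‖g (x + h * I)‖

/-- the horizontal part -/
noncomputable def HH (g : ℂ → ℂ) (h r : ℝ) : ℝ :=
  (∫ x in (0 : ℝ)..r, ‖g (x - h * I)‖) + ∫ x in (0 : ℝ)..r, ‖g (x + h * I)‖

lemma NN_eq (g : ℂ → ℂ) (h r : ℝ) : NN g h r = HH g h r + ∫ v in (-h)..h, ‖g (r + v * I)‖ := by
  unfold NN HH; ring

lemma AA_le_NN (g : ℂ → ℂ) {h r : ℝ} (hh : 0 < h) (hr : 0 < r) : ‖AA g h r‖ ≤ NN g h r := by
  unfold AA NN
  have h1 := intervalIntegral.norm_integral_le_integral_norm (μ := volume) (f := fun x : ℝ => g (x - h * I)) hr.le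
  have h2 := intervalIntegral.norm_integral_le_integral_norm (μ := volume) (f := fun x : ℝ => g (x + h * I)) hr.le
  have h3 := intervalIntegral.norm_integral_le_integral_norm (μ := volume) (f := fun v : ℝ => g (r + v * I))
    (by linarith : -h ≤ h)
  refine (norm_sub_le _ _).trans ?_
  refine add_le_add ((norm_add_le _ _).trans (add_le_add h1 ?_)) h2
  rw [norm_mul, norm_I, one_mul]
  exact h3

lemma AA_sub_vert (g : ℂ → ℂ) {h r : ℝ} (hr : 0 < r) :
    ‖AA g h r - I * ∫ v in (-h)..h, g (r + v * I)‖ ≤ HH g h r := by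
  unfold AA HH
  have h1 := intervalIntegral.norm_integral_le_integral_norm (μ := volume) (f := fun x : ℝ => g (x - h * I)) hr.le
  have h2 := intervalIntegral.norm_integral_le_integral_norm (μ := volume) (f := fun x : ℝ => g (x + h * I)) hr.le
  have : ∀ a b c : ℂ, a + I * b - c - I * b = a - c := fun a b c => by ring
  rw [this]
  exact (norm_sub_le _ _).trans (add_le_add h1 h2)

lemma HH_le {F : ℂ → ℂ} (hF : Continuous F) {κ : ℕ} {w : ℂ} {h r E : ℝ} (hh : 0 < h) (hr : 0 < r)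
    (hE : ∀ x : ℝ, 0 ≤ x → x ≤ r → ‖F (w + (x - h * I))‖ ≤ E ∧ ‖F (w + (x + h * I))‖ ≤ E) :
    HH (gk F κ w) h r ≤ 2 * r * (E / h ^ κ) := by
  have hc := gk_cont hF κ w
  obtain ⟨c1, c2⟩ := cont_h hc hh
  have hE0 : 0 ≤ E := (norm_nonneg _).trans (hE 0 le_rfl hr.le).1
  have key : ∀ z : ℂ, |z.im| = h → ‖F (w + z)‖ ≤ E → ‖gk F κ w z‖ ≤ E / h ^ κ := by
    intro z hz hEz
    unfold gk
    rw [norm_div, norm_pow]
    have : h ≤ ‖z‖ := hz ▸ Complex.abs_im_le_norm z
    gcongr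
  have h1 : ∫ x in (0 : ℝ)..r, ‖gk F κ w (x - h * I)‖ ≤ r * (E / h ^ κ) := by
    have := intervalIntegral.integral_mono_on (μ := volume) hr.le (c1.norm.intervalIntegrable _ _)
      (g := fun _ => E / h ^ κ) (by simp) (fun x hx => key _ (by simp [abs_of_pos hh]) (hE x hx.1 hx.2).1)
    rw [intervalIntegral.integral_const, smul_eq_mul, sub_zero] at this
    exact this
  have h2 : ∫ x in (0 : ℝ)..r, ‖gk F κ w (x + h * I)‖ ≤ r * (E / h ^ κ) := by
    have := intervalIntegral.integral_mono_on (μ := volume) hr.le (c2.norm.intervalIntegrable _ _)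
      (g := fun _ => E / h ^ κ) (by simp) (fun x hx => key _ (by simp [abs_of_pos hh]) (hE x hx.1 hx.2).2)
    rw [intervalIntegral.integral_const, smul_eq_mul, sub_zero] at this
    exact this
  unfold HH
  linarith

lemma ld_shift (F : ℂ → ℂ) (w z : ℂ) : logDeriv (fun z => F (w + z)) z = logDeriv F (w + z) := by
  rw [logDeriv_apply, logDeriv_apply, deriv_comp_const_add]

/-- growth inside the region of regularity -/
lemma grow {F : ℂ → ℂ} (hF : Differentiable ℂ F) {y0 Y t H L ε : ℝ}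
    (hreg : ∀ w : ℂ, y0 ≤ w.re → w.re ≤ Y → |w.im - t| ≤ H → F w ≠ 0 ∧ ‖logDeriv F w - L‖ ≤ ε * L)
    {z1 z2 : ℂ} (h1 : y0 ≤ z1.re ∧ z1.re ≤ Y ∧ |z1.im - t| ≤ H) (h2 : y0 ≤ z2.re ∧ z2.re ≤ Y ∧ |z2.im - t| ≤ H) :
    ‖F z2‖ ≤ ‖F z1‖ * Real.exp (L * (z2.re - z1.re) + ε * L * ‖z2 - z1‖) := by
  have hconv : Convex ℝ {w : ℂ | y0 ≤ w.re ∧ w.re ≤ Y ∧ |w.im - t| ≤ H} := by
    intro a ha b hb p q hp hq hpq
    simp only [mem_ofPred_eq] at ha hb ⊢
    obtain ⟨ha1, ha2, ha3⟩ := ha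
    obtain ⟨hb1, hb2, hb3⟩ := hb
    have e1 : (p • a + q • b).re = p * a.re + q * b.re := by simp
    have e2 : (p • a + q • b).im = p * a.im + q * b.im := by simp
    rw [e1, e2]
    rw [abs_le] at ha3 hb3 ⊢
    have hq' : q = 1 - p := by linarith
    subst hq'
    refine ⟨?_, ?_, ?_, ?_⟩ <;> nlinarith
  have hs := hconv.segment_subset (x := z1) (y := z2) h1 h2
  refine growth (fun z _ => hF z) (fun z hz => ?_) (fun z hz => ?_)
  · obtain ⟨a, b, c⟩ := hs hz
    exact (hreg z a b c).1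
  · obtain ⟨a, b, c⟩ := hs hz
    exact (hreg z a b c).2

end Pool.Agent.Helper85.DQ
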