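import Pool.Agent.Helper85.DQ.PQ

/-!
The saddle point analysis of the path integrals on both sides of the critical line.
-/

set_option autoImplicit false
set_option maxHeartbeats 4000000

open Complex Filter Topology Set MeasureTheory

namespace Pool.Agent.Helper85.DQ

lemma E_arith {ρ1 ρ2 B L ρ h K ε R Fw V : ℝ} {κ : ℕ} (hρ1 : 0 < ρ1) (h1 : ρ1 ≤ ρ) (h2 : ρ ≤ ρ2) (hL : 0 < L)
    (hκ : (κ : ℝ) = ρ * L) (hh : h = ρ2 * Real.exp K) (hK : K * ρ1 = B + 7 * ρ2 + 4) (hB : 0 ≤ B)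
    (hε1 : ε ≤ 1)
    (hR : R ≤ Fw * Real.exp ((2 * ρ2 + 1) * L))
    (hV : Fw / ρ ^ κ * Real.exp (-((5 * ρ2 + 1) * ε * L)) ≤ V) (hFw : 0 ≤ Fw)
    (hLbig : 200 * (ρ2 + 1) ≤ Real.exp L) :
    2 * (ρ2 + 1) * (Real.exp (B * L) * R / h ^ κ) ≤ 1 / 100 * Real.exp (-L) * V := by
  have hρ : 0 < ρ := by linarith
  have hρ2 : 0 < ρ2 := by linarith
  have hK0 : 0 < K := by
    by_contra hcon
    push Not at hcon
    nlinarith
  have hV0 : 0 ≤ V := le_trans (by positivity) hV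
  have hρκ : 0 < ρ ^ κ := by positivity
  have hhκ : ρ ^ κ * Real.exp (K * κ) ≤ h ^ κ := by
    calc ρ ^ κ * Real.exp (K * κ) ≤ ρ2 ^ κ * Real.exp (K * κ) := by gcongr
      _ = _ := by rw [hh, mul_pow, ← Real.exp_nat_mul]; ring_nf
  have hFV : Fw ≤ V * ρ ^ κ * Real.exp ((5 * ρ2 + 1) * L) := by
    have e1 : Fw / ρ ^ κ ≤ V * Real.exp ((5 * ρ2 + 1) * ε * L) := by
      calc Fw / ρ ^ κ = Fw / ρ ^ κ * Real.exp (-((5 * ρ2 + 1) * ε * L)) * Real.exp ((5 * ρ2 + 1) * ε * L) := by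
            rw [mul_assoc, ← Real.exp_add]; simp
        _ ≤ _ := by gcongr
    rw [div_le_iff₀ hρκ] at e1
    have e2 : Real.exp ((5 * ρ2 + 1) * ε * L) ≤ Real.exp ((5 * ρ2 + 1) * L) := by
      apply Real.exp_le_exp.2
      have : (5 * ρ2 + 1) * ε ≤ (5 * ρ2 + 1) * 1 := by gcongr
      nlinarith
    calc Fw ≤ V * Real.exp ((5 * ρ2 + 1) * ε * L) * ρ ^ κ := e1
      _ ≤ V * Real.exp ((5 * ρ2 + 1) * L) * ρ ^ κ := by gcongr
      _ = _ := by ring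
  have hKκ : (B + 7 * ρ2 + 4) * L ≤ K * κ := by
    rw [hκ, ← hK]
    have : K * ρ1 ≤ K * ρ := by gcongr
    nlinarith
  have hden : 0 < ρ ^ κ * Real.exp (K * κ) := by positivity
  have h3 : Real.exp (B * L) * R / h ^ κ ≤ V * Real.exp (-(2 * L)) := by
    rw [div_le_iff₀ (lt_of_lt_of_le hden hhκ)]
    calc Real.exp (B * L) * R ≤ Real.exp (B * L) *
          ((V * ρ ^ κ * Real.exp ((5 * ρ2 + 1) * L)) * Real.exp ((2 * ρ2 + 1) * L)) := by
          gcongr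
          exact hR.trans (by gcongr)
      _ = V * ρ ^ κ * Real.exp ((B + 7 * ρ2 + 2) * L) := by
          have : Real.exp ((B + 7 * ρ2 + 2) * L) = Real.exp (B * L) * Real.exp ((5 * ρ2 + 1) * L) *
              Real.exp ((2 * ρ2 + 1) * L) := by
            rw [← Real.exp_add, ← Real.exp_add]; ring_nf
          rw [this]; ring
      _ = V * Real.exp (-(2 * L)) * (ρ ^ κ * Real.exp ((B + 7 * ρ2 + 4) * L)) := by
          have : Real.exp ((B + 7 * ρ2 + 2) * L) = Real.exp (-(2 * L)) * Real.exp ((B + 7 * ρ2 + 4) * L) := by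
            rw [← Real.exp_add]; ring_nf
          rw [this]; ring
      _ ≤ V * Real.exp (-(2 * L)) * (ρ ^ κ * Real.exp (K * κ)) := by gcongr
      _ ≤ _ := by gcongr
  calc 2 * (ρ2 + 1) * (Real.exp (B * L) * R / h ^ κ) ≤ 2 * (ρ2 + 1) * (V * Real.exp (-(2 * L))) := by gcongr
    _ = 1 / 100 * (200 * (ρ2 + 1)) * (V * Real.exp (-(2 * L))) := by ring
    _ ≤ 1 / 100 * Real.exp L * (V * Real.exp (-(2 * L))) := by gcongr
    _ = 1 / 100 * Real.exp (-L) * V := by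
        have : Real.exp (-L) = Real.exp L * Real.exp (-(2 * L)) := by
          rw [← Real.exp_add]; ring_nf
        rw [this]; ring

/-- the hypotheses at height `t` -/
structure Hy (F : ℂ → ℂ) (t L ε h y0 Y B R : ℝ) : Prop where
  reg : ∀ w : ℂ, y0 ≤ w.re → w.re ≤ Y → |w.im - t| ≤ h + 1 → F w ≠ 0 ∧ ‖logDeriv F w - L‖ ≤ ε * L
  crude : ∀ w : ℂ, |w.re| ≤ Y → |w.im - t| ≤ h + 1 → ‖F w‖ ≤ Real.exp (B * L) * ‖F (R + t * I)‖ ∧
    ‖deriv F w‖ ≤ Real.exp (B * L) * ‖F (R + t * I)‖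

/-- the conclusion for points not too far to the left of the critical line -/
structure PC (F : ℂ → ℂ) (κ : ℕ) (h L : ℝ) (w : ℂ) (r : ℝ) : Prop where
  pos : 0 < ‖AA (gk F κ w) h r‖
  n0 : NN (gk F κ w) h r ≤ 6 * ‖AA (gk F κ w) h r‖
  n1 : NN (gk (deriv F) κ w) h r ≤ 12 * L * ‖AA (gk F κ w) h r‖
  der : ‖AA (gk (deriv F) κ w) h r - L * AA (gk F κ w) h r‖ ≤ 1 / 2 * L * ‖AA (gk F κ w) h r‖

/-- the horizontal parts -/
lemma hgen {F : ℂ → ℂ} (hF : Differentiable ℂ F) {t L ε h y0 ρ2 B ρ1 : ℝ} (hh0 : 0 < h)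
    (hy : Hy F t L ε h y0 (ρ2 + 2) B ρ1) (κ : ℕ) {w' : ℂ} {r : ℝ} (hw' : w'.im = t)
    (hw're : |w'.re| ≤ ρ2) (hr : 0 < r) (hr2 : w'.re + r ≤ ρ2 + 2) (hr3 : r ≤ ρ2 + 1) :
    HH (gk F κ w') h r ≤ 2 * (ρ2 + 1) * (Real.exp (B * L) * ‖F (ρ1 + t * I)‖ / h ^ κ) ∧
      HH (gk (deriv F) κ w') h r ≤ 2 * (ρ2 + 1) * (Real.exp (B * L) * ‖F (ρ1 + t * I)‖ / h ^ κ) := by
  set E : ℝ := Real.exp (B * L) * ‖F (ρ1 + t * I)‖ with hE
  have hreg : ∀ x : ℝ, 0 ≤ x → x ≤ r → ∀ s : ℝ, |s| = h → |(w' + (x + s * I)).re| ≤ ρ2 + 2 ∧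
      |(w' + (x + s * I)).im - t| ≤ h + 1 := by
    intro x hx hxr s hs
    rw [abs_le] at hw're
    constructor
    · simp
      rw [abs_le]
      constructor <;> linarith [hw're.1, hw're.2]
    · simp [hw', hs]
  have e1 : ∀ x : ℝ, ((x : ℂ) - h * I) = x + ((-h : ℝ) : ℂ) * I := fun x => by push_cast; ring
  have hcr : ∀ x : ℝ, 0 ≤ x → x ≤ r → (‖F (w' + (x - h * I))‖ ≤ E ∧ ‖F (w' + (x + h * I))‖ ≤ E) ∧
      (‖deriv F (w' + (x - h * I))‖ ≤ E ∧ ‖deriv F (w' + (x + h * I))‖ ≤ E) := by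
    intro x hx hxr
    have a1 := hreg x hx hxr (-h) (by rw [abs_neg, abs_of_pos hh0])
    have a2 := hreg x hx hxr h (abs_of_pos hh0)
    have b1 := hy.crude _ a1.1 a1.2
    have b2 := hy.crude _ a2.1 a2.2
    rw [e1]
    exact ⟨⟨b1.1, b2.1⟩, ⟨b1.2, b2.2⟩⟩
  have hdc : Continuous (deriv F) := (hF.contDiff (n := 1)).continuous_deriv le_rfl
  have c1 := HH_le hF.continuous (κ := κ) (w := w') hh0 hr (fun x hx hxr => (hcr x hx hxr).1)
  have c2 := HH_le hdc (κ := κ) (w := w') hh0 hr (fun x hx hxr => (hcr x hx hxr).2)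
  have hEh : 0 ≤ E / h ^ κ := by positivity
  have c3 : 2 * r * (E / h ^ κ) ≤ 2 * (ρ2 + 1) * (E / h ^ κ) := by
    apply mul_le_mul_of_nonneg_right _ hEh
    linarith only [hr3]
  exact ⟨c1.trans c3, c2.trans c3⟩

lemma PC_of {F : ℂ → ℂ} (hF : Differentiable ℂ F) {κ : ℕ} {w : ℂ} {h L ε r0 : ℝ} {V : ℂ} (hh0 : 0 < h)
    (hL1 : 1 ≤ L) (hε0 : 0 < ε) (hε2 : ε ≤ 1 / 1000) (hr0 : 0 < r0)
    (hVdef : V = ∫ v in (-h)..h, gk F κ w (r0 + v * I)) (hVpos : 0 < ‖V‖)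
    (hN' : ∫ v in (-h)..h, ‖gk F κ w (r0 + v * I)‖ ≤ 5 * ‖V‖)
    (hH1 : HH (gk F κ w) h r0 ≤ 1 / 100 * ‖V‖) (hH2 : HH (gk (deriv F) κ w) h r0 ≤ 1 / 100 * ‖V‖)
    (hdv : ∀ v : ℝ, v ∈ Icc (-h) h → gk (deriv F) κ w (r0 + v * I) =
      logDeriv F (w + (r0 + v * I)) * gk F κ w (r0 + v * I) ∧
      ‖logDeriv F (w + (r0 + v * I)) - L‖ ≤ ε * L) :
    PC F κ h L w r0 ∧ 99 / 100 * ‖V‖ ≤ ‖AA (gk F κ w) h r0‖ := by
  have hLp : 0 < L := by linarith
  have hAV := AA_sub_vert (gk F κ w) (h := h) hr0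
  have hAV' := AA_sub_vert (gk (deriv F) κ w) (h := h) hr0
  rw [← hVdef] at hAV
  set A : ℂ := AA (gk F κ w) h r0 with hA
  set A' : ℂ := AA (gk (deriv F) κ w) h r0 with hA'
  have hAlow : 99 / 100 * ‖V‖ ≤ ‖A‖ := by
    have h3 : ‖I * V‖ ≤ ‖A‖ + ‖A - I * V‖ := by
      have : I * V = A - (A - I * V) := by ring
      calc ‖I * V‖ = ‖A - (A - I * V)‖ := by rw [← this]
        _ ≤ _ := norm_sub_le _ _
    rw [norm_mul, norm_I, one_mul] at h3
    have h4 : ‖A - I * V‖ ≤ 1 / 100 * ‖V‖ := hAV.trans hH1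
    linarith only [h3, h4]
  have hgc := cont_v (gk_cont hF.continuous κ w) hr0.ne'
  have hdc : Continuous (deriv F) := (hF.contDiff (n := 1)).continuous_deriv le_rfl
  have hgc' := cont_v (gk_cont hdc κ w) hr0.ne'
  have hderV : ‖(∫ v in (-h)..h, gk (deriv F) κ w (r0 + v * I)) - L * V‖ ≤ ε * L * (5 * ‖V‖) := by
    rw [hVdef, ← intervalIntegral.integral_const_mul, ← intervalIntegral.integral_sub
      (hgc'.intervalIntegrable _ _) ((hgc.intervalIntegrable _ _).const_mul _), ← hVdef]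
    have h3 : ‖∫ v in (-h)..h, (gk (deriv F) κ w (r0 + v * I) - L * gk F κ w (r0 + v * I))‖ ≤
        ∫ v in (-h)..h, ε * L * ‖gk F κ w (r0 + v * I)‖ := by
      apply intervalIntegral.norm_integral_le_of_norm_le (by linarith)
      · refine Eventually.of_forall fun v hv => ?_
        obtain ⟨a1, a2⟩ := hdv v ⟨hv.1.le, hv.2⟩
        rw [a1, ← sub_mul, norm_mul]
        gcongr
      · exact (hgc.norm.intervalIntegrable _ _).const_mul _
    rw [intervalIntegral.integral_const_mul] at h3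
    refine h3.trans ?_
    gcongr
  have hNd : ∫ v in (-h)..h, ‖gk (deriv F) κ w (r0 + v * I)‖ ≤ (1 + ε) * L * (5 * ‖V‖) := by
    have h3 : ∫ v in (-h)..h, ‖gk (deriv F) κ w (r0 + v * I)‖ ≤
        ∫ v in (-h)..h, (1 + ε) * L * ‖gk F κ w (r0 + v * I)‖ := by
      apply intervalIntegral.integral_mono_on (by linarith) (hgc'.norm.intervalIntegrable _ _)
        ((hgc.norm.intervalIntegrable _ _).const_mul _)
      intro v hv
      obtain ⟨a1, a2⟩ := hdv v hv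
      rw [a1, norm_mul]
      gcongr
      have : logDeriv F (w + (r0 + v * I)) = (L : ℂ) + (logDeriv F (w + (r0 + v * I)) - L) := by ring
      rw [this]
      refine (norm_add_le _ _).trans ?_
      rw [Complex.norm_real, Real.norm_of_nonneg hLp.le]
      linarith only [a2]
    rw [intervalIntegral.integral_const_mul] at h3
    refine h3.trans ?_
    gcongr
  have hLV : 0 < L * ‖V‖ := mul_pos hLp hVpos
  have h5 : L * (99 / 100 * ‖V‖) ≤ L * ‖A‖ := by gcongr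
  have h6 : ‖V‖ ≤ L * ‖V‖ := le_mul_of_one_le_left hVpos.le hL1
  have h8 : ε * (L * ‖V‖) ≤ 1 / 1000 * (L * ‖V‖) := by gcongr
  refine ⟨⟨lt_of_lt_of_le (by positivity) hAlow, ?_, ?_, ?_⟩, hAlow⟩
  · rw [NN_eq]
    change _ ≤ 6 * ‖A‖
    linarith only [hN', hH1, hAlow, hVpos]
  · rw [NN_eq]
    have h9 : (1 + ε) * L * (5 * ‖V‖) = 5 * (L * ‖V‖) + 5 * (ε * (L * ‖V‖)) := by ring
    change _ ≤ 12 * L * ‖A‖
    linarith only [hNd, h9, h8, h5, h6, hH2, hLV]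
  · change ‖A' - L * A‖ ≤ 1 / 2 * L * ‖A‖
    have e1 : A' - L * A = (A' - I * ∫ v in (-h)..h, gk (deriv F) κ w (r0 + v * I)) +
        I * ((∫ v in (-h)..h, gk (deriv F) κ w (r0 + v * I)) - L * V) - L * (A - I * V) := by ring
    have e2 : ‖A' - L * A‖ ≤ 1 / 100 * ‖V‖ + ε * L * (5 * ‖V‖) + L * (1 / 100 * ‖V‖) := by
      rw [e1]
      refine (norm_sub_le _ _).trans (add_le_add ((norm_add_le _ _).trans (add_le_add (hAV'.trans hH2) ?_)) ?_)
      · rw [norm_mul, norm_I, one_mul]; exact hderV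
      · rw [norm_mul, Complex.norm_real, Real.norm_of_nonneg hLp.le]
        exact mul_le_mul_of_nonneg_left (hAV.trans hH1) hLp.le
    have h7 : ε * L * (5 * ‖V‖) = 5 * (ε * (L * ‖V‖)) := by ring
    linarith only [e2, h7, h8, h5, h6, hLV]

lemma left_vert {F : ℂ → ℂ} (hF : Differentiable ℂ F) {t L ε h y0 Y B R ρ r' c : ℝ} {κ : ℕ} {w' : ℂ}
    (hh0 : 0 < h) (hL : 0 < L) (hε : 0 < ε) (hρ : 0 < ρ) (hy : Hy F t L ε h y0 Y B R) (hr'ρ : ρ ≤ r')
    (hw't : w'.im = t) (hc : w'.re + r' = c) (hc1 : y0 ≤ c) (hc2 : c ≤ Y) :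
    ∫ v in (-h)..h, ‖gk F κ w' (r' + v * I)‖ ≤
      2 * h * (‖F (c + t * I)‖ * Real.exp (ε * L * h) / ρ ^ κ) := by
  have hr'p : 0 < r' := by linarith
  have hcv := cont_v (gk_cont hF.continuous κ w') hr'p.ne'
  have hyd : y0 ≤ (c + t * I : ℂ).re ∧ (c + t * I : ℂ).re ≤ Y ∧
      |(c + t * I : ℂ).im - t| ≤ h + 1 := by
    refine ⟨?_, ?_, ?_⟩
    · simp; linarith
    · simp; linarith
    · simp; linarith
  have hptw : ∀ v : ℝ, v ∈ Icc (-h) h → ‖gk F κ w' (r' + v * I)‖ ≤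
      ‖F (c + t * I)‖ * Real.exp (ε * L * h) / ρ ^ κ := by
    intro v hv
    unfold gk
    rw [norm_div, norm_pow]
    have e1 : w' + (r' + v * I) = c + t * I + v * I := by
      apply Complex.ext
      · simp [hc]
      · simp [hw't]
    have h3 : r' ≤ ‖(r' + v * I : ℂ)‖ := by
      have := Complex.re_le_norm (r' + v * I : ℂ)
      simpa using this
    have h4 : y0 ≤ (c + t * I + v * I : ℂ).re ∧ (c + t * I + v * I : ℂ).re ≤ Y ∧
        |(c + t * I + v * I : ℂ).im - t| ≤ h + 1 := by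
      refine ⟨?_, ?_, ?_⟩
      · simp; linarith
      · simp; linarith
      · simp
        rw [abs_le]
        constructor <;> linarith [hv.1, hv.2]
    have h5 := grow hF hy.reg hyd h4
    have e2 : (c + t * I + v * I - (c + t * I) : ℂ) = v * I := by ring
    have e3 : (c + t * I + v * I : ℂ).re - (c + t * I : ℂ).re = 0 := by simp
    rw [e2, e3, mul_zero, zero_add, norm_mul, norm_I, mul_one, Complex.norm_real, Real.norm_eq_abs] at h5
    rw [e1]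
    have h6 : |v| ≤ h := abs_le.2 hv
    have h7 : ρ ≤ ‖(r' + v * I : ℂ)‖ := hr'ρ.trans h3
    have h8 : ‖F (c + t * I + v * I)‖ ≤ ‖F (c + t * I)‖ * Real.exp (ε * L * h) := by
      refine h5.trans ?_
      gcongr
    gcongr
  have := intervalIntegral.integral_mono_on (μ := volume) (by linarith : -h ≤ h)
    (hcv.norm.intervalIntegrable _ _)
    (g := fun _ => ‖F (c + t * I)‖ * Real.exp (ε * L * h) / ρ ^ κ) (by simp) hptw
  rw [intervalIntegral.integral_const, smul_eq_mul] at this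
  have e : h - -h = 2 * h := by ring
  rw [e] at this
  exact this

lemma left_arith {h Fc Fw V ε L ρ ρ2 d : ℝ} {κ : ℕ} (hh0 : 0 < h) (hL : 0 < L) (hε : 0 < ε) (hρ : 0 < ρ)
    (hρ2 : 0 < ρ2) (hd0 : 0 < d) (hV0 : 0 ≤ V)
    (hgd : Fc ≤ Fw * Real.exp (-(6 * d * L) + ε * L * (ρ2 + 1)))
    (hV' : Fw / ρ ^ κ * Real.exp (-((5 * ρ2 + 1) * ε * L)) ≤ V)
    (hε3 : ε * (h + 6 * ρ2 + 3) ≤ d) (hLh : 100 * h ≤ Real.exp (d * L)) :
    2 * h * (Fc * Real.exp (ε * L * h) / ρ ^ κ) ≤ 1 / 2 * Real.exp (-(d * L)) * (99 / 100 * V) := by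
  have hρκ : 0 < ρ ^ κ := by positivity
  have e1 : Fw / ρ ^ κ ≤ V * Real.exp ((5 * ρ2 + 1) * ε * L) := by
    calc Fw / ρ ^ κ = Fw / ρ ^ κ * Real.exp (-((5 * ρ2 + 1) * ε * L)) *
          Real.exp ((5 * ρ2 + 1) * ε * L) := by
          rw [mul_assoc, ← Real.exp_add]; simp
      _ ≤ _ := by gcongr
  calc 2 * h * (Fc * Real.exp (ε * L * h) / ρ ^ κ) ≤
      2 * h * ((Fw * Real.exp (-(6 * d * L) + ε * L * (ρ2 + 1))) * Real.exp (ε * L * h) / ρ ^ κ) := by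
        gcongr
    _ = 2 * h * (Fw / ρ ^ κ) * Real.exp (-(6 * d * L) + ε * L * (ρ2 + 1) + ε * L * h) := by
        rw [Real.exp_add (-(6 * d * L) + ε * L * (ρ2 + 1))]; ring
    _ ≤ 2 * h * (V * Real.exp ((5 * ρ2 + 1) * ε * L)) *
        Real.exp (-(6 * d * L) + ε * L * (ρ2 + 1) + ε * L * h) := by gcongr
    _ = 2 * h * V * Real.exp (-(6 * d * L) + ε * (h + 6 * ρ2 + 2) * L) := by
        rw [mul_assoc (2 * h), mul_assoc V, ← Real.exp_add, ← mul_assoc]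
        congr 2
        ring
    _ ≤ 2 * h * V * Real.exp (-(2 * d * L)) := by
        refine mul_le_mul_of_nonneg_left (Real.exp_le_exp.2 ?_) (by positivity)
        have h1 : ε * (h + 6 * ρ2 + 2) * L ≤ d * L := by
          apply mul_le_mul_of_nonneg_right _ hL.le
          linarith only [hε3, hε]
        have h2 : 0 < d * L := mul_pos hd0 hL
        linarith only [h1, h2]
    _ = 2 / 100 * (100 * h) * V * Real.exp (-(2 * d * L)) := by ring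
    _ ≤ 2 / 100 * Real.exp (d * L) * V * Real.exp (-(2 * d * L)) := by gcongr
    _ = 2 / 100 * (Real.exp (-(d * L)) * V) := by
        have : Real.exp (-(d * L)) = Real.exp (d * L) * Real.exp (-(2 * d * L)) := by
          rw [← Real.exp_add]; ring_nf
        rw [this]; ring
    _ ≤ _ := by
        have h3 : 0 ≤ Real.exp (-(d * L)) * V := by positivity
        linarith only [h3]

/-- the saddle point `w + ρ` lies in the regular region; `R0` normalises the crude bound -/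
theorem PQg {y0 ρ1 ρ2 B R0 d : ℝ} (hy0 : 0 < y0) (hρ1 : 0 < ρ1) (h12 : ρ1 ≤ ρ2) (hhalf : 1 / 2 ≤ ρ2)
    (hB : 0 ≤ B) (hd0 : 0 < d) (hd2 : d ≤ 1 / 4) (hR1 : y0 ≤ R0) (hR2 : R0 ≤ ρ2 + 1 / 2)
    (hR3 : R0 ≤ ρ2 + y0) (hyρ : y0 + d ≤ ρ2 + 1 / 2) :
    ∃ h > 0, ∃ ε > 0, ∃ L0 : ℝ, 1 ≤ L0 ∧ ∀ (F : ℂ → ℂ) (t L ρ : ℝ) (κ : ℕ),
      Differentiable ℂ F → L0 ≤ L → ρ1 ≤ ρ → ρ ≤ ρ2 → (κ : ℝ) = ρ * L →
      Hy F t L ε h y0 (ρ2 + 2) B R0 →
      ∀ w : ℂ, w.im = t → y0 + d ≤ w.re + ρ → w.re ≤ 1 / 2 →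
        ∃ r > 0, PC F κ h L w r ∧
          (y0 + 7 * d ≤ w.re + ρ → ρ - y0 - d ≤ w.re → ∀ w' : ℂ, w'.im = t → w'.re = -w.re →
            ∃ r' > 0, NN (gk F κ w') h r' ≤ Real.exp (-(d * L)) * ‖AA (gk F κ w) h r‖) := by
  have hρ2 : 0 < ρ2 := by linarith
  set K : ℝ := (B + 7 * ρ2 + 4) / ρ1 with hK
  have hK0 : 0 < K := by positivity
  have hKρ : K * ρ1 = B + 7 * ρ2 + 4 := by rw [hK]; field_simp
  set h : ℝ := ρ2 * Real.exp K with hh
  have hhρ : ρ2 ≤ h := by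
    rw [hh]
    nlinarith [Real.add_one_le_exp K]
  have hh0 : 0 < h := by linarith
  obtain ⟨ε0, hε0, hvert⟩ := vert (ρ1 := ρ1) (ρ2 := ρ2) (d := d) (h := h) hρ1 h12 hd0 (by linarith)
  set ε : ℝ := min (min ε0 (1 / 1000)) (min (d / (h + 6 * ρ2 + 3)) (1 / (4 * ρ2 + 4))) with hε
  have hεp : 0 < ε := by positivity
  have hε1 : ε ≤ ε0 := (min_le_left _ _).trans (min_le_left _ _)
  have hε2 : ε ≤ 1 / 1000 := (min_le_left _ _).trans (min_le_right _ _)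
  have hε3 : ε ≤ d / (h + 6 * ρ2 + 3) := (min_le_right _ _).trans (min_le_left _ _)
  have hε4 : ε ≤ 1 / (4 * ρ2 + 4) := (min_le_right _ _).trans (min_le_right _ _)
  rw [le_div_iff₀ (by positivity)] at hε3 hε4
  obtain ⟨Lv, hLv1, hLv⟩ := hvert ε hεp hε1
  have hev : ∀ᶠ L : ℝ in atTop, 200 * (ρ2 + 1) ≤ Real.exp L ∧ 100 * h ≤ Real.exp (d * L) := by
    refine (Real.tendsto_exp_atTop.eventually_ge_atTop _).and ?_
    exact (Real.tendsto_exp_atTop.comp (tendsto_id.const_mul_atTop hd0)).eventually_ge_atTop _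
  obtain ⟨Le, hLe⟩ := eventually_atTop.1 hev
  clear_value ε
  clear hvert hev hε1 hε0
  refine ⟨h, hh0, ε, hεp, max Lv Le, hLv1.trans (le_max_left _ _), ?_⟩
  intro F t L ρ κ hF hL h1 h2 hκ hy w hwt hw1 hw2
  have hLLv : Lv ≤ L := (le_max_left _ _).trans hL
  have hLLe : Le ≤ L := (le_max_right _ _).trans hL
  obtain ⟨hL200, hLh⟩ := hLe L hLLe
  have hLp : 0 < L := by linarith only [hLv1, hLLv]
  have hL1 : 1 ≤ L := by linarith only [hLv1, hLLv]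
  have hρ : 0 < ρ := by linarith only [hρ1, h1]
  -- the vertical integral
  obtain ⟨r0, hr0, hr0ρ, hN, hV⟩ := hLv L ρ κ (fun z => F (w + z)) hLLv h1 h2 hκ (by fun_prop)
    (fun z hz1 hz2 => by
      rw [ld_shift]
      rw [abs_lt] at hz1
      refine hy.reg (w + z) ?_ ?_ ?_
      · simp; linarith only [hz1.1, hw1]
      · simp; linarith only [hz1.2, hw2, h2, hd2]
      · simp only [add_im, hwt]
        have : t + z.im - t = z.im := by ring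
        rw [this]
        linarith only [hz2, hd2])
  have hερ : 2 * ρ * ε ≤ d ∧ 2 * ρ * ε ≤ 1 := by
    have i1 : 2 * ρ * ε ≤ 2 * ρ2 * ε := by gcongr
    have i2 : 2 * ρ2 * ε ≤ ε * (h + 6 * ρ2 + 3) := by nlinarith only [hεp, hh0, hρ2, mul_pos hεp hρ2, mul_pos hεp hh0]
    constructor
    · linarith only [i1, i2, hε3]
    · linarith only [i1, i2, hε3, hd2]
  have hr0le : r0 ≤ ρ2 + 1 := by
    have := (abs_le.1 hr0ρ).2
    linarith only [this, hερ.2, h2]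
  have hr0l : ρ - d ≤ r0 := by
    have := (abs_le.1 hr0ρ).1
    linarith only [this, hερ.1]
  set V : ℂ := ∫ v in (-h)..h, gk F κ w (r0 + v * I) with hVdef
  have hN' : ∫ v in (-h)..h, ‖gk F κ w (r0 + v * I)‖ ≤ 5 * ‖V‖ := hN
  have hV' : ‖F (w + ρ)‖ / ρ ^ κ * Real.exp (-((5 * ρ2 + 1) * ε * L)) ≤ ‖V‖ := hV
  clear hN hV
  have hwρ : y0 ≤ (w + ρ).re ∧ (w + ρ).re ≤ ρ2 + 2 ∧ |(w + ρ).im - t| ≤ h + 1 := by
    refine ⟨?_, ?_, ?_⟩
    · simp; linarith only [hw1, hd0]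
    · simp; linarith only [hw2, h2]
    · simp [hwt]; linarith only [hh0]
  have hρ1t : y0 ≤ (R0 + t * I : ℂ).re ∧ (R0 + t * I : ℂ).re ≤ ρ2 + 2 ∧ |(R0 + t * I : ℂ).im - t| ≤ h + 1 := by
    refine ⟨?_, ?_, ?_⟩
    · simp; linarith only [hR1]
    · simp; linarith only [hR2]
    · simp; linarith only [hh0]
  have hR : ‖F (R0 + t * I)‖ ≤ ‖F (w + ρ)‖ * Real.exp ((2 * ρ2 + 1) * L) := by
    refine (grow hF hy.reg hwρ hρ1t).trans ?_
    refine mul_le_mul_of_nonneg_left (Real.exp_le_exp.2 ?_) (norm_nonneg _)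
    have e1 : (R0 + t * I - (w + ρ) : ℂ) = ((R0 - w.re - ρ : ℝ) : ℂ) := by
      apply Complex.ext <;> simp [hwt]
      ring
    have e2 : (R0 + t * I : ℂ).re - (w + ρ).re = R0 - w.re - ρ := by simp; ring
    rw [e1, e2, Complex.norm_real, Real.norm_eq_abs]
    have e3 : |R0 - w.re - ρ| ≤ ρ2 + 1 := by
      rw [abs_le]
      constructor
      · linarith only [hR1, hy0, hw2, h2]
      · linarith only [hw1, hy0, hd0, hR2]
    have e4 : R0 - w.re - ρ ≤ ρ2 := by linarith only [hw1, hd0, hR3]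
    have e5 : L * (R0 - w.re - ρ) ≤ L * ρ2 := by gcongr
    have e6 : ε * L * |R0 - w.re - ρ| ≤ 1 * L * (ρ2 + 1) := by gcongr; linarith only [hε2]
    linarith only [e5, e6]
  have hFw0 : F (w + ρ) ≠ 0 := (hy.reg _ hwρ.1 hwρ.2.1 hwρ.2.2).1
  have hEs := E_arith (ρ1 := ρ1) (ρ2 := ρ2) (B := B) (L := L) (ρ := ρ) (h := h) (K := K) (ε := ε)
    (R := ‖F (R0 + t * I)‖) (Fw := ‖F (w + ρ)‖) (V := ‖V‖) (κ := κ) hρ1 h1 h2 hLp hκ hh hKρ hB
    (by linarith only [hε2]) hR hV' (norm_nonneg _) hL200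
  have hVpos : 0 < ‖V‖ := by
    refine lt_of_lt_of_le ?_ hV'
    have := norm_pos_iff.2 hFw0
    positivity
  have hexpL : Real.exp (-L) ≤ 1 := by
    rw [Real.exp_le_one_iff]; linarith only [hLp]
  have hE1 : 2 * (ρ2 + 1) * (Real.exp (B * L) * ‖F (R0 + t * I)‖ / h ^ κ) ≤ 1 / 100 * ‖V‖ := by
    refine hEs.trans ?_
    have : Real.exp (-L) * ‖V‖ ≤ 1 * ‖V‖ := by gcongr
    linarith only [this]
  have hwre : |w.re| ≤ ρ2 := by
    rw [abs_le]
    constructor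
    · linarith only [hw1, hy0, hd0, h2]
    · linarith only [hw2, hhalf]
  have hH0 := hgen hF hh0 hy κ (w' := w) (r := r0) hwt hwre hr0 (by linarith only [hw2, hr0le]) hr0le
  obtain ⟨hPC, hAlow⟩ := PC_of hF (κ := κ) (w := w) (ε := ε) hh0 hL1 hεp hε2 hr0 hVdef hVpos hN'
    (hH0.1.trans hE1) (hH0.2.trans hE1) (fun v hv => by
      have := hy.reg (w + (r0 + v * I)) (by simp; linarith only [hw1, hr0l]) (by simp; linarith only [hw2, hr0le]) (by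
        simp only [add_im, ofReal_im, mul_im, ofReal_re, I_im, mul_one, I_re, mul_zero, add_zero, zero_add, hwt]
        rw [show t + v - t = v by ring, abs_le]
        constructor
        · linarith only [hv.1]
        · linarith only [hv.2])
      refine ⟨?_, this.2⟩
      unfold gk
      rw [logDeriv_apply]
      have h0 := this.1
      field_simp)
  refine ⟨r0, hr0, hPC, ?_⟩
  -- the left side
  intro hwsum hwbig w' hw't hw're
  set r' : ℝ := y0 + d + w.re with hr'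
  have hr'ρ : ρ ≤ r' := by linarith only [hwbig, hr']
  have hr'p : 0 < r' := by linarith only [hr'ρ, hρ]
  refine ⟨r', hr'p, ?_⟩
  have hH4 : HH (gk F κ w') h r' ≤ 1 / 100 * Real.exp (-L) * ‖V‖ :=
    (hgen hF hh0 hy κ hw't (by rw [hw're, abs_neg]; exact hwre) hr'p
      (by rw [hw're]; linarith only [hr', hyρ])
      (by linarith only [hr', hyρ, hw2])).1.trans hEs
  have hc1 : w'.re + r' = y0 + d := by rw [hw're]; linarith only [hr']
  have hlv := left_vert hF (κ := κ) hh0 hLp hεp hρ hy hr'ρ hw't hc1 (by linarith only [hd0])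
    (by linarith only [hyρ])
  have hyd : y0 ≤ (((y0 + d : ℝ) : ℂ) + t * I : ℂ).re ∧ (((y0 + d : ℝ) : ℂ) + t * I : ℂ).re ≤ ρ2 + 2 ∧
      |(((y0 + d : ℝ) : ℂ) + t * I : ℂ).im - t| ≤ h + 1 := by
    refine ⟨?_, ?_, ?_⟩
    · simp; linarith only [hd0]
    · simp; linarith only [hyρ]
    · simp; linarith only [hh0]
  have hgd : ‖F (((y0 + d : ℝ) : ℂ) + t * I)‖ ≤ ‖F (w + ρ)‖ * Real.exp (-(6 * d * L) + ε * L * (ρ2 + 1)) := by
    refine (grow hF hy.reg hwρ hyd).trans ?_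
    refine mul_le_mul_of_nonneg_left (Real.exp_le_exp.2 ?_) (norm_nonneg _)
    have e1 : (((y0 + d : ℝ) : ℂ) + t * I - (w + ρ) : ℂ) = ((y0 + d - w.re - ρ : ℝ) : ℂ) := by
      apply Complex.ext <;> simp [hwt]
      ring
    have e2 : (((y0 + d : ℝ) : ℂ) + t * I : ℂ).re - (w + ρ).re = y0 + d - w.re - ρ := by simp; ring
    rw [e1, e2, Complex.norm_real, Real.norm_eq_abs]
    have e4 : y0 + d - w.re - ρ ≤ -(6 * d) := by linarith only [hwsum]
    have e3 : |y0 + d - w.re - ρ| ≤ ρ2 + 1 := by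
      rw [abs_le]
      constructor
      · linarith only [hw2, h2, hy0, hd0]
      · linarith only [e4, hd0, hρ2]
    have e5 : L * (y0 + d - w.re - ρ) ≤ L * (-(6 * d)) := by gcongr
    have e6 : ε * L * |y0 + d - w.re - ρ| ≤ ε * L * (ρ2 + 1) := by gcongr
    linarith only [e5, e6]
  have hmain := left_arith (h := h) (κ := κ) hh0 hLp hεp hρ hρ2 hd0 hVpos.le hgd hV' hε3 hLh
  have hHH : HH (gk F κ w') h r' ≤ 1 / 2 * Real.exp (-(d * L)) * (99 / 100 * ‖V‖) := by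
    refine hH4.trans ?_
    have h3 : Real.exp (-L) * ‖V‖ ≤ Real.exp (-(d * L)) * ‖V‖ := by
      gcongr
      nlinarith only [hd2, hLp]
    have h4 : 0 < Real.exp (-(d * L)) * ‖V‖ := by positivity
    linarith only [h3, h4]
  rw [NN_eq]
  have hfin : Real.exp (-(d * L)) * (99 / 100 * ‖V‖) ≤
      Real.exp (-(d * L)) * ‖AA (gk F κ w) h r0‖ := by gcongr
  linarith only [hlv, hmain, hHH, hfin]

theorem PQ {y0 ρ1 ρ2 B : ℝ} (hy0 : 0 < y0) (h01 : y0 < ρ1) (h12 : ρ1 ≤ ρ2) (hhalf : 1 / 2 ≤ ρ2) (hB : 0 ≤ B) :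
    ∃ d > 0, 4 * d ≤ ρ1 - y0 ∧ ∃ h > 0, ∃ ε > 0, ∃ L0 : ℝ, 1 ≤ L0 ∧ ∀ (F : ℂ → ℂ) (t L ρ : ℝ) (κ : ℕ),
      Differentiable ℂ F → L0 ≤ L → ρ1 ≤ ρ → ρ ≤ ρ2 → (κ : ℝ) = ρ * L →
      Hy F t L ε h y0 (ρ2 + 2) B ρ1 →
      ∀ w : ℂ, w.im = t → -(ρ - y0 - d) ≤ w.re → w.re ≤ 1 / 2 →
        ∃ r > 0, PC F κ h L w r ∧
          (ρ - y0 - d ≤ w.re → ∀ w' : ℂ, w'.im = t → w'.re = -w.re →
            ∃ r' > 0, NN (gk F κ w') h r' ≤ Real.exp (-(d * L)) * ‖AA (gk F κ w) h r‖) := by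
  set d : ℝ := min ((ρ1 - y0) / 4) (1 / 4) with hd
  have hd0 : 0 < d := lt_min (by linarith) (by norm_num)
  have hd1 : d ≤ (ρ1 - y0) / 4 := min_le_left _ _
  have hd2 : d ≤ 1 / 4 := min_le_right _ _
  clear_value d
  obtain ⟨h, hh, ε, hε, L0, hL0, P⟩ := PQg (R0 := ρ1) (d := d) hy0 (by linarith) h12 hhalf hB hd0 hd2 h01.le
    (by linarith) (by linarith) (by linarith)
  refine ⟨d, hd0, by linarith, h, hh, ε, hε, L0, hL0, ?_⟩
  intro F t L ρ κ hF hL h1 h2 hκ hy w hwt hw1 hw2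
  obtain ⟨r, hr, hPC, hm⟩ := P F t L ρ κ hF hL h1 h2 hκ hy w hwt (by linarith) hw2
  exact ⟨r, hr, hPC, fun h3 => hm (by linarith) h3⟩

end Pool.Agent.Helper85.DQ
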