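import Pool.Agent.Helper85.LG.Cau

/-!
The decomposition of the derivatives of an even entire function into the integrals over the right half
of a rectangle.
-/

set_option autoImplicit false
set_option maxHeartbeats 1000000

open Complex Filter Topology Set MeasureTheory
open Pool.Agent.Helper85.LG (RI_coef)

namespace Pool.Agent.Helper85.DQ

/-- integral over the path `-ih → r - ih → r + ih → ih` -/
noncomputable def AA (g : ℂ → ℂ) (h r : ℝ) : ℂ :=
  (∫ x in (0 : ℝ)..r, g (x - h * I)) + I * (∫ v in (-h)..h, g (r + v * I)) -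
    ∫ x in (0 : ℝ)..r, g (x + h * I)

/-- the integrand -/
noncomputable def gk (F : ℂ → ℂ) (κ : ℕ) (w z : ℂ) : ℂ := F (w + z) / z ^ κ

lemma line_ne {h : ℝ} (hh : 0 < h) (x : ℝ) : (x - h * I : ℂ) ≠ 0 ∧ (x + h * I : ℂ) ≠ 0 := by
  constructor <;>
  · intro h0
    have := congrArg im h0
    simp at this
    linarith

lemma vline_ne {r : ℝ} (hr : r ≠ 0) (v : ℝ) : (r + v * I : ℂ) ≠ 0 := by
  intro h0
  have := congrArg re h0
  simp at this
  exact hr this

lemma cont_h {g : ℂ → ℂ} (hg : ∀ z : ℂ, z ≠ 0 → ContinuousAt g z) {h : ℝ} (hh : 0 < h) :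
    Continuous (fun x : ℝ => g (x - h * I)) ∧ Continuous (fun x : ℝ => g (x + h * I)) := by
  constructor <;> rw [continuous_iff_continuousAt] <;> intro x
  · exact ContinuousAt.comp (f := fun x : ℝ => (x - h * I : ℂ)) (hg _ (line_ne hh x).1)
      (by fun_prop)
  · exact ContinuousAt.comp (f := fun x : ℝ => (x + h * I : ℂ)) (hg _ (line_ne hh x).2)
      (by fun_prop)

lemma cont_v {g : ℂ → ℂ} (hg : ∀ z : ℂ, z ≠ 0 → ContinuousAt g z) {r : ℝ} (hr : r ≠ 0) :
    Continuous (fun v : ℝ => g (r + v * I)) := by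
  rw [continuous_iff_continuousAt]
  intro v
  exact ContinuousAt.comp (f := fun v : ℝ => (r + v * I : ℂ)) (hg _ (vline_ne hr v)) (by fun_prop)

lemma gk_cont {F : ℂ → ℂ} (hF : Continuous F) (κ : ℕ) (w : ℂ) :
    ∀ z : ℂ, z ≠ 0 → ContinuousAt (gk F κ w) z := by
  intro z hz
  unfold gk
  exact (hF.comp (by fun_prop)).continuousAt.div (by fun_prop) (pow_ne_zero _ hz)

/-- independence of the path -/
lemma AA_indep {g : ℂ → ℂ} (hg : ∀ z : ℂ, z ≠ 0 → DifferentiableAt ℂ g z) {h r r' : ℝ} (hh : 0 < h)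
    (hr : 0 < r) (hr' : 0 < r') : AA g h r = AA g h r' := by
  wlog hle : r ≤ r' with H
  · exact (H hg hh hr' hr (by linarith)).symm
  have hc : ∀ z : ℂ, z ≠ 0 → ContinuousAt g z := fun z hz => (hg z hz).continuousAt
  obtain ⟨c1, c2⟩ := cont_h hc hh
  have h1 := Complex.integral_boundary_rect_eq_zero_of_differentiableOn g ⟨r, -h⟩ ⟨r', h⟩ (by
    intro z hz
    refine (hg z ?_).differentiableWithinAt
    rw [mem_reProdIm] at hz
    simp only at hz
    rw [uIcc_of_le hle] at hz
    intro h0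
    rw [h0] at hz
    have := hz.1.1
    simp at this
    linarith)
  simp only [smul_eq_mul] at h1
  have e1 : ∫ x in (0 : ℝ)..r', g (x - h * I) = (∫ x in (0 : ℝ)..r, g (x - h * I)) +
      ∫ x in r..r', g (x - h * I) :=
    (intervalIntegral.integral_add_adjacent_intervals (c1.intervalIntegrable _ _)
      (c1.intervalIntegrable _ _)).symm
  have e2 : ∫ x in (0 : ℝ)..r', g (x + h * I) = (∫ x in (0 : ℝ)..r, g (x + h * I)) +
      ∫ x in r..r', g (x + h * I) :=
    (intervalIntegral.integral_add_adjacent_intervals (c2.intervalIntegrable _ _)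
      (c2.intervalIntegrable _ _)).symm
  have e3 : ∫ x in r..r', g (x + ((-h : ℝ) : ℂ) * I) = ∫ x in r..r', g (x - h * I) := by
    congr 1
    funext x
    congr 1
    push_cast
    ring
  rw [e3] at h1
  unfold AA
  rw [e1, e2]
  linear_combination -h1

/-- the decomposition -/
theorem decomp {F : ℂ → ℂ} (hF : Differentiable ℂ F) (hev : ∀ z, F (-z) = F z) {h r : ℝ} (hh : 0 < h)
    (hr : 0 < r) (n : ℕ) (w : ℂ) :
    2 * Real.pi * I * (iteratedDeriv n F w / (n.factorial : ℂ)) =
      AA (gk F (n + 1) w) h r + (-1) ^ n * AA (gk F (n + 1) (-w)) h r := by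
  have h1 := RI_coef (a := -r) (b := r) (c := -h) (d := h) (by linarith) hr (by linarith) hh n
    (f := fun s => F (w + s)) (by fun_prop)
  have e0 : iteratedDeriv n (fun s => F (w + s)) 0 = iteratedDeriv n F w := by
    have := iteratedDeriv_comp_const_add n F w
    have h2 := congrFun this 0
    simpa using h2
  rw [e0] at h1
  rw [← h1]
  have hc := gk_cont hF.continuous (n + 1) w
  obtain ⟨c1, c2⟩ := cont_h hc hh
  have hg : ∀ z : ℂ, gk F (n + 1) w (-z) = (-1) ^ (n + 1) * gk F (n + 1) (-w) z := by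
    intro z
    unfold gk
    have : F (w + -z) = F (-w + z) := by rw [← hev]; congr 1; ring
    rw [this, neg_pow]
    have h3 : ((-1 : ℂ) ^ (n + 1)) * ((-1 : ℂ) ^ (n + 1)) = 1 := by
      rw [← mul_pow]; norm_num
    have h4 : ((-1 : ℂ) ^ (n + 1)) ≠ 0 := pow_ne_zero _ (by norm_num)
    rw [mul_comm ((-1 : ℂ) ^ (n + 1)) (z ^ (n + 1)), ← div_div, div_eq_iff h4]
    linear_combination -(F (-w + z) / z ^ (n + 1)) * h3
  have hI0 : ∀ G : ℝ → ℂ, ∫ x in (-r)..0, G x = ∫ x in (0 : ℝ)..r, G (-x) := by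
    intro G
    have := intervalIntegral.integral_comp_neg (a := 0) (b := r) G
    rw [neg_zero] at this
    exact this.symm
  have e1 : ∫ x in (-r)..r, gk F (n + 1) w (x - h * I) =
      (-1) ^ (n + 1) * (∫ x in (0 : ℝ)..r, gk F (n + 1) (-w) (x + h * I)) +
        ∫ x in (0 : ℝ)..r, gk F (n + 1) w (x - h * I) := by
    rw [← intervalIntegral.integral_add_adjacent_intervals (b := 0) (c1.intervalIntegrable _ _)
      (c1.intervalIntegrable _ _), hI0, ← intervalIntegral.integral_const_mul]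
    congr 1
    refine intervalIntegral.integral_congr fun x _ => ?_
    rw [← hg]
    congr 1
    push_cast
    ring
  have e2 : ∫ x in (-r)..r, gk F (n + 1) w (x + h * I) =
      (-1) ^ (n + 1) * (∫ x in (0 : ℝ)..r, gk F (n + 1) (-w) (x - h * I)) +
        ∫ x in (0 : ℝ)..r, gk F (n + 1) w (x + h * I) := by
    rw [← intervalIntegral.integral_add_adjacent_intervals (b := 0) (c2.intervalIntegrable _ _)
      (c2.intervalIntegrable _ _), hI0, ← intervalIntegral.integral_const_mul]
    congr 1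
    refine intervalIntegral.integral_congr fun x _ => ?_
    rw [← hg]
    congr 1
    push_cast
    ring
  have e3 : ∫ v in (-h)..h, gk F (n + 1) w (((-r : ℝ) : ℂ) + v * I) =
      (-1) ^ (n + 1) * (∫ v in (-h)..h, gk F (n + 1) (-w) (r + v * I)) := by
    have := intervalIntegral.integral_comp_neg (a := -h) (b := h)
      (fun v => gk F (n + 1) w (((-r : ℝ) : ℂ) + v * I))
    rw [neg_neg] at this
    rw [← this, ← intervalIntegral.integral_const_mul]
    refine intervalIntegral.integral_congr fun v _ => ?_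
    rw [← hg]
    congr 1
    push_cast
    ring
  have e4 : H370.RI (-r) r (-h) h (fun s => F (w + s) / s ^ (n + 1)) =
      (∫ x in (-r)..r, gk F (n + 1) w (x - h * I)) - (∫ x in (-r)..r, gk F (n + 1) w (x + h * I)) +
        I * (∫ v in (-h)..h, gk F (n + 1) w (r + v * I)) -
        I * ∫ v in (-h)..h, gk F (n + 1) w (((-r : ℝ) : ℂ) + v * I) := by
    unfold H370.RI gk
    simp only [H370.mk_eq]
    have e5 : ∀ x : ℝ, ((x : ℂ) + ((-h : ℝ) : ℂ) * I) = x - h * I := fun x => by push_cast; ring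
    simp only [e5]
  rw [e4, e1, e2, e3]
  unfold AA
  rw [pow_succ]
  ring

end Pool.Agent.Helper85.DQ
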