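import Pool.Agent.Helper85.DQ.Gro

/-!
The saddle point of `f z / z ^ κ` for `f` with logarithmic derivative close to the constant `L`.
-/

set_option autoImplicit false
set_option maxHeartbeats 1000000

open Complex Filter Topology Set MeasureTheory

namespace Pool.Agent.Helper85.DQ

lemma ld_diffAt {f : ℂ → ℂ} {U : Set ℂ} (hU : IsOpen U) (hf : DifferentiableOn ℂ f U)
    {z : ℂ} (hz : z ∈ U) (h0 : f z ≠ 0) : DifferentiableAt ℂ (logDeriv f) z := by
  have h1 : DifferentiableAt ℂ f z := (hf z hz).differentiableAt (hU.mem_nhds hz)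
  have h2 : DifferentiableAt ℂ (deriv f) z :=
    ((hf.deriv hU) z hz).differentiableAt (hU.mem_nhds hz)
  exact h2.div h1 h0

/-- Lipschitz estimate for a logarithmic derivative close to a constant -/
lemma ld_lip {f : ℂ → ℂ} {U : Set ℂ} (hU : IsOpen U) {L B r : ℝ} (hr : 0 < r)
    (hf : DifferentiableOn ℂ f U) (hne : ∀ z ∈ U, f z ≠ 0) (hl : ∀ z ∈ U, ‖logDeriv f z - L‖ ≤ B)
    {s : Set ℂ} (hs : Convex ℝ s) (hsU : ∀ z ∈ s, Metric.closedBall z r ⊆ U) {z1 z2 : ℂ}
    (h1 : z1 ∈ s) (h2 : z2 ∈ s) :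
    ‖logDeriv f z2 - logDeriv f z1‖ ≤ B / r * ‖z2 - z1‖ := by
  have hdiff : ∀ z ∈ U, DifferentiableAt ℂ (logDeriv f) z := fun z hz => ld_diffAt hU hf hz (hne z hz)
  refine Convex.norm_image_sub_le_of_norm_deriv_le (𝕜 := ℂ) (s := s) (fun z hz => ?_) (fun z hz => ?_) hs h1 h2
  · exact hdiff z (hsU z hz (Metric.mem_closedBall_self hr.le))
  · have hd : deriv (logDeriv f) z = deriv (fun w => logDeriv f w - L) z := by
      rw [deriv_sub_const]
    rw [hd]
    apply Complex.norm_deriv_le_of_forall_mem_sphere_norm_le hr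
    · refine (DifferentiableOn.diffContOnCl_ball (U := Metric.closedBall z r) ?_ le_rfl)
      intro w hw
      exact ((hdiff w (hsU z hz hw)).sub_const _).differentiableWithinAt
    · intro w hw
      exact hl w (hsU z hz (Metric.sphere_subset_closedBall hw))

/-- existence of the saddle point -/
lemma exists_saddle {f : ℂ → ℂ} {ρ L ε d κ : ℝ} (hρ : 0 < ρ) (hL : 0 < L) (hκ : κ = ρ * L) (hd : 0 < d)
    (hε : 0 < ε) (hε1 : ε ≤ 1 / 10) (h1 : 8 * ρ * ε ≤ d)
    (hf : ∀ z : ℂ, ‖z - ρ‖ < d → DifferentiableAt ℂ f z ∧ f z ≠ 0 ∧ ‖logDeriv f z - L‖ ≤ ε * L) :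
    ∃ z0 : ℂ, ‖z0 - ρ‖ ≤ 2 * ρ * ε ∧ z0 * logDeriv f z0 = κ := by
  set s : Set ℂ := Metric.closedBall (ρ : ℂ) (2 * ρ * ε) with hs
  have hsd : ∀ z ∈ s, ‖z - ρ‖ < d := by
    intro z hz
    rw [hs, mem_closedBall_iff_norm] at hz
    have : 0 < ρ * ε := by positivity
    linarith
  have hlow : ∀ z ∈ s, 9 / 10 * L ≤ ‖logDeriv f z‖ := by
    intro z hz
    have h2 := (hf z (hsd z hz)).2.2
    have h3 : ‖((L : ℝ) : ℂ)‖ - ‖logDeriv f z‖ ≤ ‖((L : ℝ) : ℂ) - logDeriv f z‖ := norm_sub_norm_le _ _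
    rw [norm_sub_rev, Complex.norm_real, Real.norm_of_nonneg hL.le] at h3
    nlinarith
  have hne : ∀ z ∈ s, logDeriv f z ≠ 0 := by
    intro z hz h0
    have := hlow z hz
    rw [h0, norm_zero] at this
    linarith
  set T : ℂ → ℂ := fun z => κ / logDeriv f z with hT
  have hmaps : MapsTo T s s := by
    intro z hz
    rw [hs, mem_closedBall_iff_norm, hT]
    have e1 : (κ / logDeriv f z - ρ : ℂ) = ρ * (L - logDeriv f z) / logDeriv f z := by
      rw [hκ]
      have := hne z hz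
      field_simp
      push_cast
      ring
    simp only
    rw [e1, norm_div, norm_mul, Complex.norm_real, Real.norm_of_nonneg hρ.le]
    have h2 := (hf z (hsd z hz)).2.2
    rw [norm_sub_rev] at h2
    have h3 := hlow z hz
    rw [div_le_iff₀ (by nlinarith)]
    calc ρ * ‖(L : ℂ) - logDeriv f z‖ ≤ ρ * (ε * L) := by gcongr
      _ ≤ 2 * ρ * ε * (9 / 10 * L) := by nlinarith [mul_pos (mul_pos hρ hε) hL]
      _ ≤ _ := by gcongr
  have hU : IsOpen (Metric.ball (ρ : ℂ) d) := Metric.isOpen_ball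
  have hlip : ∀ z1 ∈ s, ∀ z2 ∈ s, ‖T z2 - T z1‖ ≤ 1 / 2 * ‖z2 - z1‖ := by
    intro z1 hz1 z2 hz2
    have h2 := ld_lip (f := f) (U := Metric.ball (ρ : ℂ) d) hU (L := L) (B := ε * L) (r := 5 * d / 8)
      (by positivity)
      (fun z hz => (hf z (mem_ball_iff_norm.1 hz)).1.differentiableWithinAt)
      (fun z hz => (hf z (mem_ball_iff_norm.1 hz)).2.1)
      (fun z hz => (hf z (mem_ball_iff_norm.1 hz)).2.2)
      (s := s) (convex_closedBall _ _) (by
        intro z hz w hw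
        rw [hs, mem_closedBall_iff_norm] at hz
        rw [mem_closedBall_iff_norm] at hw
        rw [mem_ball_iff_norm]
        have : w - ρ = (w - z) + (z - ρ) := by ring
        rw [this]
        refine (norm_add_le _ _).trans_lt ?_
        linarith) hz1 hz2
    have e1 : T z2 - T z1 = κ * (logDeriv f z1 - logDeriv f z2) / (logDeriv f z1 * logDeriv f z2) := by
      simp only [hT]
      have := hne z1 hz1
      have := hne z2 hz2
      field_simp
    rw [e1, norm_div, norm_mul, norm_mul, Complex.norm_real, hκ, Real.norm_of_nonneg (by positivity)]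
    have h3 := hlow z1 hz1
    have h4 := hlow z2 hz2
    have h5 : (9 / 10 * L) * (9 / 10 * L) ≤ ‖logDeriv f z1‖ * ‖logDeriv f z2‖ := by gcongr
    rw [div_le_iff₀ (by nlinarith), norm_sub_rev]
    have hn := norm_nonneg (z2 - z1)
    have h6 : ρ * L * (ε * L / (5 * d / 8) * ‖z2 - z1‖) ≤ L ^ 2 * ‖z2 - z1‖ / 5 := by
      have : ρ * L * (ε * L / (5 * d / 8) * ‖z2 - z1‖) =
          (8 * ρ * ε) / d * (L ^ 2 * ‖z2 - z1‖ / 5) := by
        field_simp
      rw [this]
      have h7 : 8 * ρ * ε / d ≤ 1 := by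
        rw [div_le_one hd]; exact h1
      calc (8 * ρ * ε) / d * (L ^ 2 * ‖z2 - z1‖ / 5) ≤ 1 * (L ^ 2 * ‖z2 - z1‖ / 5) := by gcongr
        _ = _ := one_mul _
    calc ρ * L * ‖logDeriv f z2 - logDeriv f z1‖ ≤ ρ * L * (ε * L / (5 * d / 8) * ‖z2 - z1‖) := by
          gcongr
      _ ≤ L ^ 2 * ‖z2 - z1‖ / 5 := h6
      _ ≤ 1 / 2 * ‖z2 - z1‖ * ((9 / 10 * L) * (9 / 10 * L)) := by nlinarith [sq_nonneg L, mul_nonneg (sq_nonneg L) hn]
      _ ≤ _ := by gcongr
  have hcomp : IsComplete s := Metric.isClosed_closedBall.isComplete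
  have hcontr : ContractingWith (1 / 2) (hmaps.restrict T s s) := by
    constructor
    · rw [← NNReal.coe_lt_coe]; norm_num
    · apply LipschitzWith.of_dist_le_mul
      intro a b
      have := hlip b.1 b.2 a.1 a.2
      simp only [Subtype.dist_eq, MapsTo.val_restrict_apply, Complex.dist_eq]
      push_cast
      exact this
  have hρs : (ρ : ℂ) ∈ s := by
    rw [hs]; exact Metric.mem_closedBall_self (by positivity)
  obtain ⟨z0, hz0, hfix, -⟩ := hcontr.exists_fixedPoint' hcomp hmaps hρs (edist_ne_top _ _)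
  refine ⟨z0, mem_closedBall_iff_norm.1 hz0, ?_⟩
  have h2 : κ / logDeriv f z0 = z0 := hfix
  have h3 := hne z0 hz0
  rw [div_eq_iff h3] at h2
  exact h2.symm

end Pool.Agent.Helper85.DQ
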