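import Pool.Agent.Helper85.DQ.XiReg
import Pool.Agent.Helper85.DQ.Dir

set_option autoImplicit false

open Complex Filter Topology Set

namespace Pool.Agent.Helper85.DQ

open Pool.Agent.Helper85.LG

lemma iter_even (n : ℕ) (w : ℂ) : iteratedDeriv n Fx (-w) = (-1) ^ n * iteratedDeriv n Fx w := by
  have h1 : (fun z => Fx (-z)) = Fx := funext Fx_even
  have h := iteratedDeriv_comp_neg n Fx w
  rw [h1] at h
  rw [h]
  simp only [smul_eq_mul]
  rw [← mul_assoc, ← mul_pow]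
  norm_num

lemma iter_conj (n : ℕ) (w : ℂ) :
    iteratedDeriv n Fx ((starRingEnd ℂ) w) = (starRingEnd ℂ) (iteratedDeriv n Fx w) := by
  induction n generalizing w with
  | zero => simpa using Fx_conj w
  | succ n ih =>
    rw [iteratedDeriv_succ]
    exact deriv_conj' ih w

/-- the zeros of the `m`-th derivative at the heights `e^(δm) ≤ |t| ≤ e^(Am)` -/
theorem xi_dir {y0 A δ : ℝ} (hy0 : 0 < y0) (hreg : Reg y0) (hA : 0 < A) (hAy : y0 < 2 / A) (hδ : 0 < δ) :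
    ∃ m0 : ℕ, ∀ m : ℕ, m0 ≤ m → ∀ w : ℂ, Real.exp (δ * m) ≤ |w.im| → |w.im| ≤ Real.exp (A * m) →
      |w.re| ≤ 1 / 2 → iteratedDeriv m Fx w = 0 → w.re = 0 ∧ iteratedDeriv (m + 1) Fx w ≠ 0 := by
  set ρ1 : ℝ := 2 / A with hρ1
  set ρ2 : ℝ := max (4 / δ) (max ρ1 (1 / 2)) with hρ2
  have h12 : ρ1 ≤ ρ2 := le_trans (le_max_left _ _) (le_max_right _ _)
  have hhalf : 1 / 2 ≤ ρ2 := le_trans (le_max_right _ _) (le_max_right _ _)
  have h4δ : 4 / δ ≤ ρ2 := le_max_left _ _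
  have hρ1pos : 0 < ρ1 := by positivity
  obtain ⟨d, hd, h4d, h, hh, ε, hε, L0, hL0, P⟩ :=
    PQ hy0 hAy h12 hhalf (B := ρ2 + 2 + 13) (by linarith)
  obtain ⟨T, hT1, hT⟩ := hy_xi hy0 hreg hAy (Y := ρ2 + 2) (by linarith) hε h
  -- the large `m`
  obtain ⟨m0, hm0⟩ := exists_nat_ge (max (Real.log T / δ) (max (2 * L0 / δ) 1))
  refine ⟨m0, fun m hm w hw1 hw2 hre hz => ?_⟩
  have hmR : (m0 : ℝ) ≤ m := by exact_mod_cast hm
  have hm1 : (1 : ℝ) ≤ m :=
    le_trans (le_trans (le_trans (le_max_right _ _) (le_max_right _ _)) hm0) hmR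
  have hmT : Real.log T / δ ≤ m := le_trans (le_trans (le_max_left _ _) hm0) hmR
  have hmL : 2 * L0 / δ ≤ m :=
    le_trans (le_trans (le_trans (le_max_left _ _) (le_max_right _ _)) hm0) hmR
  rw [div_le_iff₀ hδ] at hmT hmL
  set t : ℝ := |w.im| with ht
  have ht0 : 0 < t := lt_of_lt_of_le (Real.exp_pos _) hw1
  have hlog1 : δ * m ≤ Real.log t := by
    rw [← Real.log_exp (δ * m)]
    exact Real.log_le_log (Real.exp_pos _) hw1
  have hlog2 : Real.log t ≤ A * m := by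
    rw [← Real.log_exp (A * m)]
    exact Real.log_le_log ht0 hw2
  have hTt : T ≤ t := by
    have h1 : Real.log T ≤ Real.log t := by linarith
    exact (Real.log_le_log_iff (by linarith) ht0).1 h1
  have hlogpos : 0 < Real.log t := lt_of_lt_of_le (by positivity) hlog1
  set L : ℝ := 1 / 2 * Real.log t with hL
  have hLpos : 0 < L := by positivity
  have hLL0 : L0 ≤ L := by rw [hL]; linarith
  set ρ : ℝ := ((m + 1 : ℕ) : ℝ) / L with hρ
  have hκ : ((m + 1 : ℕ) : ℝ) = ρ * L := by rw [hρ]; field_simp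
  have hρ1ρ : ρ1 ≤ ρ := by
    rw [hρ, le_div_iff₀ hLpos, hρ1, hL]
    push_cast
    rw [div_mul_eq_mul_div, div_le_iff₀ hA]
    linarith
  have hρρ2 : ρ ≤ ρ2 := by
    refine le_trans ?_ h4δ
    rw [hρ, div_le_div_iff₀ hLpos hδ, hL]
    push_cast
    nlinarith
  have hP := P Fx t L ρ (m + 1) Fx_diff hLL0 hρ1ρ hρρ2 hκ (hT t hTt)
  have hu : 0 < ρ - y0 - d := by linarith
  have key : ∀ w' : ℂ, w'.im = t → (0 < w'.re → w'.re ≤ 1 / 2 → iteratedDeriv m Fx w' ≠ 0) ∧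
      (w'.re = 0 → iteratedDeriv m Fx w' = 0 → iteratedDeriv (m + 1) Fx w' ≠ 0) := fun w' hw' =>
    dir Fx_diff Fx_even Fx_conj hh hLpos hd hu hP hw'
  -- reduction to positive imaginary part
  have main : ∀ w' : ℂ, w'.im = t → |w'.re| ≤ 1 / 2 → iteratedDeriv m Fx w' = 0 →
      w'.re = 0 ∧ iteratedDeriv (m + 1) Fx w' ≠ 0 := by
    intro w' hw' hre' hz'
    obtain ⟨ha, hb⟩ := abs_le.1 hre'
    rcases lt_trichotomy w'.re 0 with h1 | h1 | h1
    · exfalso
      have h2 : iteratedDeriv m Fx (-(starRingEnd ℂ) w') = 0 := by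
        rw [iter_even, iter_conj, hz']
        simp
      refine (key (-(starRingEnd ℂ) w') (by simp [hw'])).1 ?_ ?_ h2
      · simp only [neg_re, conj_re]; linarith
      · simp only [neg_re, conj_re]; linarith
    · exact ⟨h1, (key w' hw').2 h1 hz'⟩
    · exact absurd hz' ((key w' hw').1 h1 hb)
  rcases le_total 0 w.im with h1 | h1
  · exact main w (by rw [ht, abs_of_nonneg h1]) hre hz
  · have h2 : iteratedDeriv m Fx ((starRingEnd ℂ) w) = 0 := by rw [iter_conj, hz]; simp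
    obtain ⟨h3, h4⟩ := main ((starRingEnd ℂ) w) (by rw [ht, abs_of_nonpos h1]; simp)
      (by simpa using hre) h2
    refine ⟨by simpa using h3, fun h5 => h4 ?_⟩
    rw [iter_conj, h5]
    simp

end Pool.Agent.Helper85.DQ
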