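import Pool.Agent.Helper85.DQ.Cnv
import Pool.Agent.Helper85.DQ.Xst
import Pool.Agent.Helper85.DQ.XiDir

/-!
Zeros of the zeta function close to `Re s = 1` give zeros of `ξ^(m)` close to `Re s = 1 - 2m / log γ`.
-/

set_option autoImplicit false
set_option maxHeartbeats 1000000

open Complex Filter Topology Set

namespace Pool.Agent.Helper85.DQ

open Pool.Agent.Helper85.LG Pool.Agent.H306R2

lemma xi_cnv_pos (SL : SaddleLow) {c ε : ℝ} (hc : 0 < c) (hc4 : c < 1 / 4) (hε : 0 < ε) :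
    ∃ τ > 0, ∃ κ > 0, ∃ T : ℝ, 1 ≤ T ∧ ∀ (β t : ℝ) (m : ℕ), 1 / 2 - τ < β → β ≤ 1 / 2 → T ≤ t →
      |(m : ℝ) - c * Real.log t| ≤ κ * Real.log t → Fx (β + t * I) = 0 →
      ∃ z : ℂ, iteratedDeriv m Fx z = 0 ∧ 1 / 2 - 2 * c - ε < z.re ∧ |z.im - t| < 5 := by
  set ε' : ℝ := min ε (min ((1 / 2 - 2 * c) / 2) c) with hε'
  have hε'p : 0 < ε' := lt_min hε (lt_min (by linarith) hc)
  have hε'1 : ε' ≤ ε := min_le_left _ _
  have hε'2 : ε' ≤ (1 / 2 - 2 * c) / 2 := (min_le_right _ _).trans (min_le_left _ _)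
  have hε'3 : ε' ≤ c := (min_le_right _ _).trans (min_le_right _ _)
  clear_value ε'
  obtain ⟨e0, he0, s1, hs1, H⟩ := cnv SL (ρ1 := 2 * c - ε' / 2) (ρ2 := 2 * c + ε' / 2)
    (δ := 1 / 2 - 2 * c - ε') (by linarith) (by linarith) (by linarith) (by linarith)
  obtain ⟨s0, hs0, Hst⟩ := xi_strip e0 he0
  set s : ℝ := min s1 (s0 / 2) with hs
  have hsp : 0 < s := by positivity
  have hss1 : s ≤ s1 := min_le_left _ _
  have hss0 : s < s0 := lt_of_le_of_lt (min_le_right _ _) (by linarith)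
  clear_value s
  obtain ⟨e1, he1, L0, hL01, HC⟩ := H s hsp hss1
  obtain ⟨T1, hT1, Hs⟩ := Hst s hsp hss0
  obtain ⟨T2, hT2, Hr⟩ := right_size he1 (Y := 8) (H := 3) (by norm_num) (by norm_num)
  obtain ⟨T3, hT3, Hcr⟩ := xi_crude (y0 := 3 / 4) (ρ1 := 1) (by norm_num) (reg_abs (by norm_num)) (by norm_num)
    (Y := 12) (by norm_num) (by norm_num) 6
  obtain ⟨T5, hT5, Hne⟩ := xi_reg (y0 := 3 / 4) (by norm_num) (reg_abs (by norm_num)) (ε := 1) one_pos 1 0
  refine ⟨s / 4, by positivity, ε' / 4, by positivity, max T5 (max (max T1 T2) (max T3 (Real.exp (2 * L0)))),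
    hT5.trans (le_max_left _ _), ?_⟩
  intro β t m hβ1 hβ2 hT' hm h0
  have ht5 : T5 ≤ t := (le_max_left _ _).trans hT'
  have hT := (le_max_right T5 _).trans hT'
  have ht1 : T1 ≤ t := ((le_max_left _ _).trans (le_max_left _ _)).trans hT
  have ht2 : T2 ≤ t := ((le_max_right _ _).trans (le_max_left _ _)).trans hT
  have ht3 : T3 ≤ t := ((le_max_left _ _).trans (le_max_right _ _)).trans hT
  have ht4 : Real.exp (2 * L0) ≤ t := ((le_max_right _ _).trans (le_max_right _ _)).trans hT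
  have hlog : 2 * L0 ≤ Real.log t := by
    rw [← Real.log_exp (2 * L0)]
    exact Real.log_le_log (Real.exp_pos _) ht4
  set L : ℝ := 1 / 2 * Real.log t with hL
  have hLL : L0 ≤ L := by rw [hL]; linarith
  have hLp : 0 < L := by linarith
  have hlogt : Real.log t = 2 * L := by rw [hL]; ring
  rw [hlogt, abs_le] at hm
  have hmpos : 0 < (m : ℝ) := by nlinarith [hm.1]
  obtain ⟨n, rfl⟩ : ∃ n, m = n + 1 := by
    have : m ≠ 0 := by
      rintro rfl
      simp at hmpos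
    exact Nat.exists_eq_succ_of_ne_zero this
  set ρ : ℝ := ((n + 1 : ℕ) : ℝ) / L with hρ
  have hκ : ((n + 1 : ℕ) : ℝ) = ρ * L := by rw [hρ]; field_simp
  have g1 : 2 * c - ε' / 2 ≤ ρ := by
    rw [hρ, le_div_iff₀ hLp]
    nlinarith [hm.1]
  have g2 : ρ ≤ 2 * c + ε' / 2 := by
    rw [hρ, div_le_iff₀ hLp]
    nlinarith [hm.2]
  by_contra hcon
  push Not at hcon
  have hM : 0 < MM t := by
    have h5 := (Hne t ((1 : ℝ) + t * I) ht5 (by simp <;> norm_num) (by simp) (by simp)).2.2.1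
    unfold MM
    have := norm_pos_iff.2 h5
    positivity
  have hfin := HC Fx (MM t) L ρ t n Fx_diff hM hLL g1 g2 hκ
    (fun w a b d => (Hr t w ht2 a b d).1)
    (by
      have := (Hr t ((5 : ℝ) + t * I) ht2 (by simp <;> norm_num) (by simp <;> norm_num) (by simp)).2
      have e : (((5 : ℝ) : ℂ) + t * I).re = 5 := by simp
      rw [e] at this
      exact this)
    (fun w a b => by
      refine (Hcr t w ht3 a b).trans ?_
      rw [MM_mul, mul_comm (Real.exp _) (MM t * _), mul_assoc, ← Real.exp_add]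
      refine mul_le_mul_of_nonneg_left (Real.exp_le_exp.2 ?_) hM.le
      linarith)
    (fun w a b => Hs t w ht1 a b)
    (fun w a b d h => by
      have := hcon w h (by linarith)
      linarith) β hβ1.le hβ2
  rw [h0, norm_zero] at hfin
  have : 0 < MM t * Real.exp (L * (β - s)) := by positivity
  linarith

/-- the converse at heights of both signs -/
theorem xi_cnv (SL : SaddleLow) {c ε : ℝ} (hc : 0 < c) (hc4 : c < 1 / 4) (hε : 0 < ε) :
    ∃ τ > 0, ∃ κ > 0, ∃ T : ℝ, 1 ≤ T ∧ ∀ (w : ℂ) (m : ℕ), 1 / 2 - τ < w.re → w.re ≤ 1 / 2 → T ≤ |w.im| →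
      |(m : ℝ) - c * Real.log (|w.im|)| ≤ κ * Real.log (|w.im|) → Fx w = 0 →
      ∃ z : ℂ, iteratedDeriv m Fx z = 0 ∧ 1 / 2 - 2 * c - ε < z.re ∧ |z.im - w.im| < 5 := by
  obtain ⟨τ, hτ, κ, hκ, T, hT1, H⟩ := xi_cnv_pos SL hc hc4 hε
  refine ⟨τ, hτ, κ, hκ, T, hT1, fun w m h1 h2 h3 h4 h5 => ?_⟩
  rcases le_total 0 w.im with h6 | h6
  · rw [abs_of_nonneg h6] at h3 h4
    obtain ⟨z, hz1, hz2, hz3⟩ := H w.re w.im m h1 h2 h3 h4 (by rw [Complex.re_add_im]; exact h5)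
    exact ⟨z, hz1, hz2, hz3⟩
  · rw [abs_of_nonpos h6] at h3 h4
    obtain ⟨z, hz1, hz2, hz3⟩ := H w.re (-w.im) m h1 h2 h3 h4 (by
      have e : ((w.re : ℂ) + ((-w.im : ℝ) : ℂ) * I) = (starRingEnd ℂ) w := by
        apply Complex.ext <;> simp
      rw [e, Fx_conj, h5, map_zero])
    refine ⟨(starRingEnd ℂ) z, ?_, ?_, ?_⟩
    · rw [iter_conj, hz1, map_zero]
    · rwa [conj_re]
    · rw [conj_im]
      have e : -z.im - w.im = -(z.im - -w.im) := by ring
      rw [e, abs_neg]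
      exact hz3

end Pool.Agent.Helper85.DQ
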