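import Pool.Agent.Helper85.DQ.BrnLoc
import Pool.Agent.Helper85.DQ.XiReg

/-!
Local versions: all hypotheses on the zeros of zeta concern a box around the height `t`.
-/

set_option autoImplicit false
set_option maxHeartbeats 1000000

open Complex Filter Topology Set Metric
open Pool.Agent.H306R2 (Zt)

namespace Pool.Agent.Helper85.DQ

open Pool.Agent.Helper85.LG

/-- the zeros of zeta at the heights between `t - H` and `t + H` have real part at most `θ` -/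
def FreeBox (θ H t : ℝ) : Prop := ∀ s : ℂ, riemannZeta s = 0 → |s.im - t| ≤ H → s.re ≤ θ

lemma FreeBox.mono {θ H H' t : ℝ} (h : FreeBox θ H t) (hH : H' ≤ H) : FreeBox θ H' t :=
  fun s hs him => h s hs (him.trans hH)

lemma FreeBox.mono_left {θ θ' H t : ℝ} (h : FreeBox θ H t) (hθ : θ ≤ θ') : FreeBox θ' H t :=
  fun s hs him => (h s hs him).trans hθ

lemma FreeBox.Zt_ne {θ H t : ℝ} (h : FreeBox θ H t) (hθ : 1 / 2 ≤ θ) {s : ℂ} (hs : θ < s.re)
    (him : |s.im - t| ≤ H) : Zt s ≠ 0 := by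
  rcases eq_or_ne s 1 with rfl | h1
  · rw [Pool.Agent.H306R2.Zt_one]; exact one_ne_zero
  · rw [← Pool.Agent.H306R2.zeta_eq_pos (by linarith) h1]
    exact mul_ne_zero (sub_ne_zero.2 h1) (fun h0 => absurd (h s h0 him) (not_le.2 hs))

/-- regularity to the right -/
lemma xi_reg_loc {θ y0 : ℝ} (hθ : 1 / 2 ≤ θ) (hy : θ - 1 / 2 < y0) {ε : ℝ} (hε : 0 < ε) (Y H : ℝ) :
    ∃ T : ℝ, 1 ≤ T ∧ ∀ (t : ℝ) (w : ℂ), T ≤ t → FreeBox θ (|H| + 2) t → y0 ≤ w.re → w.re ≤ Y → |w.im - t| ≤ H →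
      Zt (1 / 2 + w) ≠ 0 ∧ ‖logDeriv Zt (1 / 2 + w)‖ ≤ ε * (1 / 2 * Real.log t) ∧
      Fx w ≠ 0 ∧ ‖logDeriv Fx w - ((1 / 2 * Real.log t : ℝ) : ℂ)‖ ≤ ε * (1 / 2 * Real.log t) := by
  have hy0 : 0 < y0 := by linarith
  rcases lt_or_ge (1 / 2) y0 with hbig | hsmall
  · obtain ⟨T, hT1, hT⟩ := xi_reg hy0 (Pool.Agent.Helper85.LG.reg_abs hbig) hε Y H
    exact ⟨T, hT1, fun t w h0 _ => hT t w h0⟩
  obtain ⟨T0, hT0, hT0'⟩ := xi_reg (y0 := 1) one_pos (Pool.Agent.Helper85.LG.reg_abs (by norm_num)) hε Y H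
  obtain ⟨C, hC1, hC⟩ := ld_Pg
  obtain ⟨T1, hT1, hPg⟩ := hC (Y + 1) H
  obtain ⟨X, hX2, hX⟩ := bounds_loc (θ := θ) (σ := 1 / 2 + y0) hθ (by linarith) (by linarith) (η := ε / 8)
    (by positivity)
  have hev : ∀ᶠ t : ℝ in atTop, C + 1 ≤ ε / 8 * Real.log t :=
    (Real.tendsto_log_atTop.const_mul_atTop (by positivity : 0 < ε / 8)).eventually_ge_atTop _
  obtain ⟨T2, hT2⟩ := eventually_atTop.1 hev
  refine ⟨max (max T1 T2) (max (max (X + |H|) 3) (max T0 (2 * |H| + 2))), hT1.trans ((le_max_left _ _).trans (le_max_left _ _)),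
    fun t w hT hfree h1 h2 h3 => ?_⟩
  simp only [max_le_iff] at hT
  obtain ⟨⟨ht1, ht2⟩, ⟨ht3, ht4⟩, ht5, ht6⟩ := hT
  rcases lt_or_ge 1 w.re with hw1 | hw1
  · exact hT0' t w ht5 hw1.le h2 h3
  have hHabs := le_abs_self H
  have h3' := abs_le.1 h3
  have hwim : X ≤ w.im := by linarith
  have hwim0 : 0 < w.im := by linarith
  have hlogt : 1 ≤ Real.log t := by
    rw [Real.le_log_iff_exp_le (by linarith)]
    have := Real.exp_one_lt_d9
    linarith
  have hlogw : Real.log |w.im| ≤ 2 * Real.log t := by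
    rw [abs_of_pos hwim0]
    have h4 : w.im ≤ t ^ 2 := by nlinarith [abs_nonneg H]
    have h5 := Real.log_le_log hwim0 h4
    rw [Real.log_pow] at h5
    push_cast at h5
    exact h5
  have hs : (((1 / 2 + w.re : ℝ) : ℂ) + (w.im : ℂ) * I) = 1 / 2 + w := by
    push_cast
    rw [add_assoc, Complex.re_add_im]
  have hball : ∀ z ∈ ball (0 : ℂ) (2 - θ), Zt (2 + (w.im : ℂ) * I + z) ≠ 0 := by
    intro z hz
    rw [mem_ball_zero_iff] at hz
    have g1 := abs_le.1 (Complex.abs_re_le_norm z)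
    have g2 := abs_le.1 (Complex.abs_im_le_norm z)
    refine hfree.Zt_ne hθ (by simp; linarith [g1.1]) ?_
    have e : (2 + (w.im : ℂ) * I + z).im = w.im + z.im := by simp
    rw [e, abs_le]
    constructor <;> linarith [g2.1, g2.2, h3'.1, h3'.2]
  obtain ⟨-, -, hder, -⟩ := hX w.im (by rw [abs_of_pos hwim0]; exact hwim) hball (1 / 2 + w.re) (by linarith)
    (by linarith)
  rw [hs] at hder
  have hsre : (1 / 2 + w : ℂ).re = 1 / 2 + w.re := by simp
  have hZ : Zt (1 / 2 + w) ≠ 0 := by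
    refine hfree.Zt_ne hθ (by rw [hsre]; linarith) ?_
    have e : (1 / 2 + w : ℂ).im = w.im := by simp
    rw [e]
    linarith
  obtain ⟨hP1, hP2, hP3⟩ := hPg t (1 / 2 + w) ht1 (by rw [hsre]; linarith) (by rw [hsre]; linarith)
    (by simpa using h3)
  have hZd : ‖logDeriv Zt (1 / 2 + w)‖ ≤ ε * (1 / 2 * Real.log t) := by
    refine hder.trans ?_
    nlinarith
  have hZd2 : ‖logDeriv Zt (1 / 2 + w)‖ ≤ ε * (3 / 8 * Real.log t) := by
    refine hder.trans ?_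
    nlinarith
  have hne : Fx w ≠ 0 := by
    unfold Fx
    rw [xi_eq (by rw [hsre]; linarith)]
    exact mul_ne_zero hZ (Pg_ne (by rw [hsre]; linarith))
  refine ⟨hZ, hZd, hne, ?_⟩
  have e1 : logDeriv Fx w = logDeriv Zt (1 / 2 + w) + logDeriv Pg (1 / 2 + w) := by
    have e0 : logDeriv Fx w = logDeriv xi (1 / 2 + w) := by
      unfold Fx
      exact ld_shift xi (1 / 2) w
    rw [e0, xi_logDeriv (by rw [hsre]; linarith) hZ, Pg_logDeriv (by rw [hsre]; linarith)]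
    ring
  rw [e1, add_sub_assoc]
  refine (norm_add_le _ _).trans ?_
  have := hT2 t ht2
  linarith

/-- crude bounds -/
lemma xi_crude_loc {θ y0 ρ1 : ℝ} (hθ : 1 / 2 ≤ θ) (hy : θ - 1 / 2 < y0) (h01 : y0 < ρ1) {Y : ℝ} (hY : 0 ≤ Y)
    (hYρ : ρ1 ≤ Y) (H : ℝ) :
    ∃ T : ℝ, 1 ≤ T ∧ ∀ (t : ℝ) (w : ℂ), T ≤ t → FreeBox θ 2 t → |w.re| ≤ Y → |w.im - t| ≤ H →
      ‖Fx w‖ ≤ Real.exp ((Y + 12) * (1 / 2 * Real.log t)) * ‖Fx (ρ1 + t * I)‖ := by
  obtain ⟨C, hC1, hC⟩ := ld_Pg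
  obtain ⟨T1, hT1, hPg⟩ := hC (Y + 1) |H|
  set R1 : ℝ := max ρ1 (3 / 2) with hR1
  have hy0 : 0 < y0 := by linarith
  obtain ⟨T2, hT2, hT2'⟩ := xi_reg_loc hθ hy (ε := 1 / (R1 + 1)) (by positivity) (R1 + 1) 0
  obtain ⟨A, hA1, hA⟩ := zeta_two_sided (σ := 3 / 2) (by norm_num)
  have hev : ∀ᶠ t : ℝ in atTop, C * (2 * Y + |H|) ≤ 1 / 2 * Real.log t :=
    (Real.tendsto_log_atTop.const_mul_atTop (by norm_num : (0 : ℝ) < 1 / 2)).eventually_ge_atTop _
  obtain ⟨T3, hT3⟩ := eventually_atTop.1 hev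
  set T4 : ℝ := A + 2 * (Y + |H|) + 100 with hT4
  refine ⟨max (max T1 T2) (max T3 T4), hT1.trans ((le_max_left _ _).trans (le_max_left _ _)),
    fun t w hT hfree h1 h2 => ?_⟩
  have ht1 : T1 ≤ t := ((le_max_left _ _).trans (le_max_left _ _)).trans hT
  have ht2 : T2 ≤ t := ((le_max_right _ _).trans (le_max_left _ _)).trans hT
  have ht3 : T3 ≤ t := ((le_max_left _ _).trans (le_max_right _ _)).trans hT
  have ht4 : T4 ≤ t := ((le_max_right _ _).trans (le_max_right _ _)).trans hT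
  have hHn := abs_nonneg H
  have hHabs := le_abs_self H
  have htbig : 100 ≤ t := by linarith
  have hlogt : 1 ≤ Real.log t := by
    rw [Real.le_log_iff_exp_le (by linarith)]
    have := Real.exp_one_lt_d9
    linarith
  -- reduction to the right half
  wlog hre : 0 ≤ w.re generalizing w with Hw
  · have := Hw (-(starRingEnd ℂ) w) (by simpa using h1) (by simpa using h2)
      (by simp; linarith)
    rw [Fx_even, Fx_conj, RCLike.norm_conj] at this
    exact this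
  rw [abs_of_nonneg hre] at h1
  set L : ℝ := 1 / 2 * Real.log t with hL
  have hL0 : 0 < L := by linarith
  have hexpL : Real.exp (2 * L) = t := by
    rw [hL, show 2 * (1 / 2 * Real.log t) = Real.log t by ring, Real.exp_log (by linarith)]
  have hsre : (1 / 2 + w : ℂ).re = 1 / 2 + w.re := by simp
  have hsim : (1 / 2 + w : ℂ).im = w.im := by simp
  -- Gamma factor
  have hPgr : ‖Pg (1 / 2 + w)‖ ≤ ‖Pg (1 / 2 + (ρ1 + t * I))‖ * Real.exp ((Y + 1) * L) := by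
    have hconv : Convex ℝ {s : ℂ | 1 / 2 ≤ s.re ∧ s.re ≤ Y + 1 ∧ |s.im - t| ≤ |H|} := by
      intro a ha b hb p q hp hq hpq
      simp only [mem_ofPred_eq] at ha hb ⊢
      obtain ⟨ha1, ha2, ha3⟩ := ha
      obtain ⟨hb1, hb2, hb3⟩ := hb
      have e1 : (p • a + q • b).re = p * a.re + q * b.re := by simp
      have e2 : (p • a + q • b).im = p * a.im + q * b.im := by simp
      rw [e1, e2]
      rw [abs_le] at ha3 hb3 ⊢
      have hq' : q = 1 - p := by linarith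
      subst hq'
      refine ⟨?_, ?_, ?_, ?_⟩ <;> nlinarith
    have hz1 : (1 / 2 + (ρ1 + t * I) : ℂ) ∈ {s : ℂ | 1 / 2 ≤ s.re ∧ s.re ≤ Y + 1 ∧ |s.im - t| ≤ |H|} := by
      refine ⟨?_, ?_, ?_⟩
      · simp; linarith
      · simp; linarith
      · simp
    have hz2 : (1 / 2 + w : ℂ) ∈ {s : ℂ | 1 / 2 ≤ s.re ∧ s.re ≤ Y + 1 ∧ |s.im - t| ≤ |H|} := by
      refine ⟨?_, ?_, ?_⟩
      · rw [hsre]; linarith
      · rw [hsre]; linarith
      · rw [hsim]; linarith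
    have hs := hconv.segment_subset hz1 hz2
    have hg := growth (g := Pg) (z1 := 1 / 2 + (ρ1 + t * I)) (z2 := 1 / 2 + w) (L := L) (M := C)
      (fun z hz => Pg_diffAt (by linarith [(hs hz).1]))
      (fun z hz => Pg_ne (by linarith [(hs hz).1]))
      (fun z hz => (hPg t z ht1 (by linarith [(hs hz).1]) (hs hz).2.1 (hs hz).2.2).1)
    refine hg.trans (mul_le_mul_of_nonneg_left (Real.exp_le_exp.2 ?_) (norm_nonneg _))
    have e1 : (1 / 2 + w - (1 / 2 + (ρ1 + t * I)) : ℂ) = ((w.re - ρ1 : ℝ) : ℂ) + ((w.im - t : ℝ) : ℂ) * I := by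
      apply Complex.ext <;> simp
    have e2 : (1 / 2 + w : ℂ).re - (1 / 2 + (ρ1 + t * I) : ℂ).re = w.re - ρ1 := by simp
    rw [e1, e2]
    have e3 : ‖((w.re - ρ1 : ℝ) : ℂ) + ((w.im - t : ℝ) : ℂ) * I‖ ≤ 2 * Y + |H| := by
      refine (norm_add_le _ _).trans ?_
      rw [norm_mul, norm_I, mul_one, Complex.norm_real, Complex.norm_real, Real.norm_eq_abs, Real.norm_eq_abs]
      have : |w.re - ρ1| ≤ 2 * Y := by rw [abs_le]; constructor <;> linarith
      linarith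
    have e4 : C * ‖((w.re - ρ1 : ℝ) : ℂ) + ((w.im - t : ℝ) : ℂ) * I‖ ≤ C * (2 * Y + |H|) := by gcongr
    have e5 := hT3 t ht3
    have e6 : L * (w.re - ρ1) ≤ L * Y := by gcongr; linarith
    linarith
  -- Zt upper
  have hZup : ‖Zt (1 / 2 + w)‖ ≤ Real.exp (6 * L) := by
    refine (Pool.Agent.H306R2.Zt_norm_le (by rw [hsre]; linarith)).trans ?_
    have e1 : ‖(1 / 2 + w : ℂ)‖ ≤ Y + 1 + t + |H| := by
      refine (Complex.norm_le_abs_re_add_abs_im _).trans ?_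
      rw [hsre, hsim, abs_of_nonneg (by linarith)]
      have : |w.im| ≤ t + |H| := by
        have := abs_le.1 h2
        rw [abs_le]
        constructor <;> linarith [this.1, this.2]
      linarith
    have e2 : ‖(1 / 2 + w : ℂ)‖ + 1 ≤ 2 * t := by linarith
    calc 3 * (‖(1 / 2 + w : ℂ)‖ + 1) ^ 2 ≤ 3 * (2 * t) ^ 2 := by gcongr
      _ ≤ t ^ 3 := by nlinarith [sq_nonneg t, mul_nonneg (sq_nonneg t) (by linarith : 0 ≤ t - 12)]
      _ = Real.exp (6 * L) := by rw [← hexpL, ← Real.exp_nat_mul]; congr 1; push_cast; ring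
  -- Zt lower
  have hR1ρ : ρ1 ≤ R1 := le_max_left _ _
  have hR132 : 3 / 2 ≤ R1 := le_max_right _ _
  have hlow : 1 ≤ ‖Zt (1 / 2 + (ρ1 + t * I))‖ * Real.exp L := by
    have hmem : ∀ z ∈ segment ℝ (1 / 2 + (ρ1 + t * I) : ℂ) (1 / 2 + (R1 + t * I)), ∃ x : ℝ, ρ1 ≤ x ∧ x ≤ R1 ∧
        z = 1 / 2 + ((x : ℂ) + t * I) := by
      intro z hz
      rw [segment_eq_image'] at hz
      obtain ⟨τ, hτ, rfl⟩ := hz
      refine ⟨ρ1 + τ * (R1 - ρ1), by nlinarith [hτ.1], by nlinarith [hτ.2], ?_⟩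
      simp only [Complex.real_smul]
      push_cast
      ring
    have hx : ∀ x : ℝ, ρ1 ≤ x → x ≤ R1 → Zt (1 / 2 + ((x : ℂ) + t * I)) ≠ 0 ∧
        ‖logDeriv Zt (1 / 2 + ((x : ℂ) + t * I))‖ ≤ 1 / (R1 + 1) * L := by
      intro x hx1 hx2
      have := hT2' t ((x : ℂ) + t * I) ht2 (by simpa using hfree) (by simp; linarith) (by simp; linarith) (by simp)
      exact ⟨this.1, this.2.1⟩
    have hg := growth (g := Zt) (z1 := 1 / 2 + (ρ1 + t * I)) (z2 := 1 / 2 + (R1 + t * I)) (L := 0)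
      (M := 1 / (R1 + 1) * L)
      (fun z hz => by
        obtain ⟨x, hx1, hx2, rfl⟩ := hmem z hz
        exact Pool.Agent.H306R2.Zt_differentiableAt (by simp; linarith))
      (fun z hz => by
        obtain ⟨x, hx1, hx2, rfl⟩ := hmem z hz
        exact (hx x hx1 hx2).1)
      (fun z hz => by
        obtain ⟨x, hx1, hx2, rfl⟩ := hmem z hz
        have := (hx x hx1 hx2).2
        simpa using this)
    have e1 : (1 / 2 + (R1 + t * I) - (1 / 2 + (ρ1 + t * I)) : ℂ) = ((R1 - ρ1 : ℝ) : ℂ) := by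
      push_cast; ring
    rw [e1, Complex.norm_real, Real.norm_of_nonneg (by linarith), zero_mul, zero_add] at hg
    have e2 : Real.exp (1 / (R1 + 1) * L * (R1 - ρ1)) ≤ Real.exp L := by
      apply Real.exp_le_exp.2
      have : 1 / (R1 + 1) * (R1 - ρ1) ≤ 1 := by
        rw [one_div, inv_mul_le_iff₀ (by linarith)]
        linarith
      nlinarith
    have e3 : 1 ≤ ‖Zt (1 / 2 + (R1 + t * I))‖ := by
      have hre1 : (1 / 2 + (R1 + t * I) : ℂ).re = 1 / 2 + R1 := by simp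
      have hne1 : (1 / 2 + (R1 + t * I) : ℂ) ≠ 1 := by
        intro h0
        have := congrArg im h0
        simp at this
        linarith
      rw [← Pool.Agent.H306R2.zeta_eq_pos (by rw [hre1]; linarith) hne1, norm_mul]
      have a1 := (hA (1 / 2 + (R1 + t * I)) (by rw [hre1]; linarith)).2
      have a2 : t ≤ ‖(1 / 2 + (R1 + t * I) - 1 : ℂ)‖ := by
        have := Complex.abs_im_le_norm (1 / 2 + (R1 + t * I) - 1 : ℂ)
        simp at this
        rw [abs_of_nonneg (by linarith)] at this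
        simpa using this
      have a3 : A ≤ t := by linarith [abs_nonneg H]
      have hzn := norm_nonneg (riemannZeta (1 / 2 + (R1 + t * I)))
      calc (1 : ℝ) ≤ A * ‖riemannZeta (1 / 2 + (R1 + t * I))‖ := a1
        _ ≤ _ := by gcongr; linarith
    calc (1 : ℝ) ≤ ‖Zt (1 / 2 + (R1 + t * I))‖ := e3
      _ ≤ _ := hg
      _ ≤ _ := by gcongr
  have e1 : ‖Fx (ρ1 + t * I)‖ = ‖Zt (1 / 2 + (ρ1 + t * I))‖ * ‖Pg (1 / 2 + (ρ1 + t * I))‖ := by
    unfold Fx
    rw [xi_eq (by simp; linarith), norm_mul]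
  have e2 : ‖Fx w‖ = ‖Zt (1 / 2 + w)‖ * ‖Pg (1 / 2 + w)‖ := by
    unfold Fx
    rw [xi_eq (by rw [hsre]; linarith), norm_mul]
  rw [e1, e2]
  have hP0 := norm_nonneg (Pg (1 / 2 + (ρ1 + t * I)))
  calc ‖Zt (1 / 2 + w)‖ * ‖Pg (1 / 2 + w)‖ ≤
      Real.exp (6 * L) * (‖Pg (1 / 2 + (ρ1 + t * I))‖ * Real.exp ((Y + 1) * L)) := by gcongr
    _ = Real.exp (6 * L) * Real.exp ((Y + 1) * L) * 1 * ‖Pg (1 / 2 + (ρ1 + t * I))‖ := by ring
    _ ≤ Real.exp (6 * L) * Real.exp ((Y + 1) * L) * (‖Zt (1 / 2 + (ρ1 + t * I))‖ * Real.exp L) *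
        ‖Pg (1 / 2 + (ρ1 + t * I))‖ := by gcongr
    _ = Real.exp ((Y + 8) * L) * (‖Zt (1 / 2 + (ρ1 + t * I))‖ * ‖Pg (1 / 2 + (ρ1 + t * I))‖) := by
        have : Real.exp ((Y + 8) * L) = Real.exp (6 * L) * Real.exp ((Y + 1) * L) * Real.exp L := by
          rw [← Real.exp_add, ← Real.exp_add]; ring_nf
        rw [this]; ring
    _ ≤ _ := by
        refine mul_le_mul_of_nonneg_right (Real.exp_le_exp.2 ?_) (by positivity)
        linarith only [hL0]

/-- all hypotheses for the Riemann xi function -/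
theorem hy_loc {θ y0 ρ1 Y : ℝ} (hθ : 1 / 2 ≤ θ) (hy : θ - 1 / 2 < y0) (h01 : y0 < ρ1) (hYρ : ρ1 ≤ Y) {ε : ℝ}
    (hε : 0 < ε) (h : ℝ) : ∃ T : ℝ, 1 ≤ T ∧ ∀ t : ℝ, T ≤ t → FreeBox θ (|h + 1| + 2) t →
      Hy Fx t (1 / 2 * Real.log t) ε h y0 Y (Y + 13) ρ1 := by
  obtain ⟨T1, hT1, h1⟩ := xi_reg_loc hθ hy hε Y (h + 1)
  have hy0 : 0 < y0 := by linarith
  obtain ⟨T2, hT2, h2⟩ := xi_crude_loc hθ hy h01 (Y := Y + 1) (by linarith) (by linarith) (h + 2)
  refine ⟨max T1 T2, hT1.trans (le_max_left _ _), fun t ht hfree => ?_⟩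
  have ht1 : T1 ≤ t := (le_max_left _ _).trans ht
  have ht2 : T2 ≤ t := (le_max_right _ _).trans ht
  have hfree2 : FreeBox θ 2 t := hfree.mono (by linarith [abs_nonneg (h + 1)])
  have e0 : (Y + 1 + 12 : ℝ) = Y + 13 := by ring
  rw [e0] at h2
  refine ⟨fun w a b c => (h1 t w ht1 hfree a b c).2.2, fun w a b => ⟨?_, ?_⟩⟩
  · exact h2 t w ht2 hfree2 (by linarith) (by linarith)
  · have := Complex.norm_deriv_le_of_forall_mem_sphere_norm_le (f := Fx) (c := w) (R := 1)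
      (C := Real.exp ((Y + 13) * (1 / 2 * Real.log t)) * ‖Fx (ρ1 + t * I)‖) one_pos
      Fx_diff.diffContOnCl (fun z hz => by
        rw [mem_sphere_iff_norm] at hz
        have r1 := Complex.abs_re_le_norm (z - w)
        have r2 := Complex.abs_im_le_norm (z - w)
        rw [hz] at r1 r2
        simp only [sub_re, sub_im] at r1 r2
        rw [abs_le] at a b r1 r2
        refine h2 t z ht2 hfree2 ?_ ?_
        · rw [abs_le]; constructor <;> linarith [a.1, a.2, r1.1, r1.2]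
        · rw [abs_le]; constructor <;> linarith [b.1, b.2, r2.1, r2.2])
    simpa using this

end Pool.Agent.Helper85.DQ
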